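import Pool.Agent.Mac.Card
import Pool.Agent.GapReg.LeftExt

set_option autoImplicit false

/-!
# Module BL: left decay of a block
-/

namespace Pool.Agent.Mac

open Finset Filter Topology
open Pool.Agent.MP_e061a3_an Pool.Agent.GapReg

theorem blP_all : ∀ H : ℕ, 16 ≤ H → ∃ c2 : ℝ, 0 < c2 ∧ BlP H c2 := by
  intro H hH
  have hHR : (16 : ℝ) ≤ H := by exact_mod_cast hH
  refine ⟨1 / (4000 * H), by positivity, ?_⟩
  intro c d K h l z ρ m hρ hd hb w hw hZ
  set T := (suppN c (K (l + 1) + 1)).filter (fun m => K l < m) with hT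
  set Z := z.re - w.re with hZdef
  have hZ0 : 0 < Z := by linarith [div_pos hρ (by norm_num : (0 : ℝ) < 16)]
  set N : ℕ := ⌈8 * Z / ρ⌉₊ + 2 with hN
  have hxr : (0 : ℝ) < Z / ρ := div_pos hZ0 hρ
  have hx16 : 1 / 16 ≤ Z / ρ := by
    rw [le_div_iff₀ hρ]; linarith
  have hceil1 : 8 * Z / ρ ≤ (⌈8 * Z / ρ⌉₊ : ℝ) := Nat.le_ceil _
  have hceil2 : (⌈8 * Z / ρ⌉₊ : ℝ) < 8 * Z / ρ + 1 := Nat.ceil_lt_add_one (by positivity)
  have e8 : 8 * Z / ρ = 8 * (Z / ρ) := by ring
  have hNle : (N : ℝ) ≤ 56 * (Z / ρ) := by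
    rw [hN]
    push_cast
    rw [e8] at hceil2 ⊢
    linarith
  have hN2 : 2 ≤ N := by omega
  have hN0 : (0 : ℝ) < N := by
    have : 0 < N := by omega
    exact_mod_cast this
  have hNr : ‖w - z‖ ≤ N * ρ := by
    refine hw.trans ?_
    have h1 : 8 * Z / ρ ≤ N := by
      rw [hN]
      push_cast
      linarith
    rw [div_le_iff₀ hρ] at h1
    exact h1
  have hleft := expSum_left c T ((H : ℝ) ^ l) (h.Hpow_pos l).le
    (fun k hk => (h.block_mem hk).2.2.1) z w ρ N hN2 hNr (by linarith) (Real.exp m)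
    (Real.exp_pos m).le (fun u hu => by
      have := hb u hu
      rwa [h.BB_eq l u] at this)
  rw [h.BB_eq l w]
  refine hleft.trans ?_
  -- the power
  have hcard := h.card_block l
  have he1 : Real.exp 1 ≤ 3 := by linarith [Real.exp_one_lt_d9]
  have he0 : 0 < Real.exp 1 := Real.exp_pos 1
  have hb0 : 0 < 2 * Real.exp 1 * N := by positivity
  have hlog : Real.log (2 * Real.exp 1 * N) ≤ 400 * (Z / ρ) := by
    have h1 := Real.log_le_sub_one_of_pos hb0
    have h2 : 2 * Real.exp 1 * N ≤ 6 * (56 * (Z / ρ)) := by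
      have : 2 * Real.exp 1 * N ≤ 6 * N := by nlinarith
      linarith
    linarith
  have hpow : (2 * Real.exp 1 * N) ^ T.card ≤ Real.exp ((H : ℝ) ^ l * Z / 4) := by
    have e1 : (2 * Real.exp 1 * N) ^ T.card =
        Real.exp (T.card * Real.log (2 * Real.exp 1 * N)) := by
      rw [Real.exp_nat_mul, Real.exp_log hb0]
    rw [e1]
    apply Real.exp_le_exp.mpr
    have hc0 : (0 : ℝ) ≤ T.card := Nat.cast_nonneg _
    have hHl := h.Hpow_pos l
    calc (T.card : ℝ) * Real.log (2 * Real.exp 1 * N) ≤ T.card * (400 * (Z / ρ)) :=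
          mul_le_mul_of_nonneg_left hlog hc0
      _ ≤ (2 * ((H : ℝ) ^ (l + 1) * d l)) * (400 * (Z / ρ)) :=
          mul_le_mul_of_nonneg_right hcard (by positivity)
      _ ≤ (2 * ((H : ℝ) ^ (l + 1) * (1 / (4000 * H) * ρ))) * (400 * (Z / ρ)) := by
          refine mul_le_mul_of_nonneg_right ?_ (by positivity)
          refine mul_le_mul_of_nonneg_left ?_ (by norm_num)
          exact mul_le_mul_of_nonneg_left hd (h.Hpow_pos _).le
      _ = (H : ℝ) ^ l * Z / 5 := by
          rw [pow_succ]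
          field_simp
          ring
      _ ≤ (H : ℝ) ^ l * Z / 4 := by
          have : 0 < (H : ℝ) ^ l * Z := mul_pos hHl hZ0
          linarith
  calc (2 * Real.exp 1 * N) ^ T.card * Real.exp (-((H : ℝ) ^ l * (z.re - w.re) / 2)) *
        Real.exp m
      ≤ Real.exp ((H : ℝ) ^ l * Z / 4) * Real.exp (-((H : ℝ) ^ l * Z / 2)) * Real.exp m := by
        gcongr
    _ = Real.exp (m - (H : ℝ) ^ l * Z / 4) := by
        rw [← Real.exp_add, ← Real.exp_add]
        congr 1
        ring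

end Pool.Agent.Mac
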