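import Pool.Agent.Mac.Card
import Pool.Agent.GapReg.CutOp
import Pool.Agent.GapReg.ProdBound

set_option autoImplicit false

/-!
# Module CUTLOW: lower parts are bounded by the low part
-/

namespace Pool.Agent.Mac

open Finset Filter Topology
open Pool.Agent.MP_e061a3_an Pool.Agent.GapReg

variable {c : ℕ → ℂ} {H : ℕ} {d : ℕ → ℝ} {K : ℕ → ℕ}

/-
HINT. `GapReg.cut_bound` for S = suppN c (K l + 1), B = 13 * d l * H^l, η = 13 * d l
(`GapReg.prod_one_add_sq_le` with `h.dens l`), P = K i + 1/2 ≤ 2 H^i ≤ 2 H^l,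
E = 61 (H^i d_i) ≤ 61 (H^l d_l) (`h.good i`, `h.hd_mono`), then `h.low_filter hil`.
Exponent 13 + 52 + 61 = 126 times H^l d_l, and 3 ≤ exp 2 ≤ exp (2 H^l d_l) (`h.d_big l`).
-/
theorem Lev.cut_low (h : Lev c H d K) {i l : ℕ} (hil : i ≤ l) (z : ℂ) (ρ M : ℝ)
    (hρ : 104 * d l ≤ ρ) (hM : ∀ u, ‖u - z‖ ≤ ρ → ‖SS c K l u‖ ≤ M) :
    ‖SS c K i z‖ ≤ Real.exp (128 * ((H : ℝ) ^ l * d l)) * M := by
  have hd := h.d_pos l
  have hHl := h.Hpow_pos l
  have hρ0 : 0 < ρ := by linarith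
  have hS : ∀ m ∈ suppN c (K l + 1), m ∈ {m | c m ≠ 0 ∧ m < H ^ (l + 1)} :=
    fun m hm => h.low_lt hm
  have hM0 : 0 ≤ M := (norm_nonneg _).trans (hM z (by simpa using hρ0.le))
  have hK1 : (K i : ℝ) + 1 ≤ 2 * (H : ℝ) ^ i := by
    have h1 : K i + 1 ≤ 2 * H ^ i := h.K_lt i
    exact_mod_cast h1
  have hHi : (H : ℝ) ^ i ≤ (H : ℝ) ^ l := pow_le_pow_right₀ (by linarith [h.H_real]) hil
  have hmain := cut_bound (suppN c (K l + 1)) (fun m hm => h.pos_of_ne (h.low_lt hm).1) c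
    (13 * d l * (H : ℝ) ^ l) (13 * d l) (by positivity)
    (fun x hx => prod_one_add_sq_le _ (d l) ((H : ℝ) ^ l) hd (h.one_le_Hpow l) (h.dens l) _ hS x hx)
    ρ hρ0 (by linarith) ((K i : ℝ) + 1 / 2) (by positivity) (61 * ((H : ℝ) ^ i * d i))
    (h.good i _ (fun m hm => (h.low_lt hm).1)) z M hM
  rw [h.low_filter hil] at hmain
  refine le_trans hmain ?_
  have h3 : (3 : ℝ) ≤ Real.exp (2 * ((H : ℝ) ^ l * d l)) := by
    have h5 : (2 : ℝ) ≤ 2 * ((H : ℝ) ^ l * d l) := by linarith [h.d_big l]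
    have h6 := Real.add_one_le_exp (2 * ((H : ℝ) ^ l * d l))
    linarith
  have h7 := h.hd_mono hil
  have h8 : 13 * d l * (H : ℝ) ^ l + 2 * (13 * d l) * ((K i : ℝ) + 1 / 2)
      + 61 * ((H : ℝ) ^ i * d i) ≤ 126 * ((H : ℝ) ^ l * d l) := by
    have h9 : (13 * d l) * (2 * ((K i : ℝ) + 1 / 2)) ≤ (13 * d l) * (4 * (H : ℝ) ^ l) := by
      apply mul_le_mul_of_nonneg_left _ (by positivity)
      linarith
    linarith
  calc 3 * Real.exp (13 * d l * (H : ℝ) ^ l + 2 * (13 * d l) * ((K i : ℝ) + 1 / 2)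
      + 61 * ((H : ℝ) ^ i * d i)) * M
      ≤ Real.exp (2 * ((H : ℝ) ^ l * d l)) * Real.exp (126 * ((H : ℝ) ^ l * d l)) * M := by
        gcongr
    _ = Real.exp (128 * ((H : ℝ) ^ l * d l)) * M := by
        rw [← Real.exp_add]
        congr 2
        ring

end Pool.Agent.Mac
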