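import Pool.Agent.Mac.Card
import Pool.Agent.GapReg.GoodCut

set_option autoImplicit false

/-!
# Module CUTS: cuts which are good for all finite sets of exponents
-/

namespace Pool.Agent.Mac

open Finset Filter Topology
open Pool.Agent.MP_e061a3_an Pool.Agent.GapReg

/-- sum of the inverse squares of the exponents in `[H^i, H^(i+N))` -/
theorem CUTS_tail (c : ℕ → ℂ) (H : ℕ) (hH : 16 ≤ H) (d : ℕ → ℝ)
    (hd : ∀ j, 0 < d j) (hup : ∀ j, d (j + 1) ≤ 2 * d j)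
    (hcard : ∀ (j : ℕ) (T : Finset ℕ), (∀ m ∈ T, c m ≠ 0 ∧ m < H ^ (j + 1)) →
        (T.card : ℝ) ≤ (H : ℝ) ^ j * d j / 4) (N : ℕ) :
    ∀ (i : ℕ) (T : Finset ℕ), (∀ m ∈ T, c m ≠ 0) → (∀ m ∈ T, H ^ i ≤ m) →
      (∀ m ∈ T, m < H ^ (i + N)) →
      ∑ m ∈ T, 1 / (m : ℝ) ^ 2 ≤ 1 / 2 * (d i / (H : ℝ) ^ i) := by
  have hH' : (16 : ℝ) ≤ H := by exact_mod_cast hH
  have hH0 : (0 : ℝ) < H := by linarith
  induction N with
  | zero =>
    intro i T _ h2 h3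
    have hT : T = ∅ := by
      refine Finset.eq_empty_of_forall_notMem fun m hm => ?_
      have h4 := h2 m hm
      have h5 := h3 m hm
      rw [add_zero] at h5
      omega
    rw [hT, Finset.sum_empty]
    have := hd i
    positivity
  | succ N ih =>
    intro i T h1 h2 h3
    rw [← Finset.sum_filter_add_sum_filter_not T (fun m : ℕ => m < H ^ (i + 1))]
    have hpi : (0 : ℝ) < (H : ℝ) ^ i := pow_pos hH0 i
    have hA : ∑ m ∈ T.filter (fun m : ℕ => m < H ^ (i + 1)), 1 / (m : ℝ) ^ 2 ≤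
        1 / 4 * (d i / (H : ℝ) ^ i) := by
      have h4 : ∑ m ∈ T.filter (fun m : ℕ => m < H ^ (i + 1)), 1 / (m : ℝ) ^ 2 ≤
          ∑ _m ∈ T.filter (fun m : ℕ => m < H ^ (i + 1)), 1 / ((H : ℝ) ^ i) ^ 2 := by
        refine Finset.sum_le_sum fun m hm => ?_
        have h5 : ((H : ℝ) ^ i) ≤ m := by
          exact_mod_cast h2 m (Finset.mem_of_mem_filter m hm)
        exact one_div_le_one_div_of_le (by positivity) (by gcongr)
      refine h4.trans ?_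
      rw [Finset.sum_const, nsmul_eq_mul]
      have h6 := hcard i (T.filter (fun m : ℕ => m < H ^ (i + 1)))
        (fun m hm => ⟨h1 m (Finset.mem_of_mem_filter m hm), (Finset.mem_filter.1 hm).2⟩)
      calc ((T.filter (fun m : ℕ => m < H ^ (i + 1))).card : ℝ) * (1 / ((H : ℝ) ^ i) ^ 2)
          ≤ ((H : ℝ) ^ i * d i / 4) * (1 / ((H : ℝ) ^ i) ^ 2) := by gcongr
        _ = 1 / 4 * (d i / (H : ℝ) ^ i) := by field_simp
    have hB : ∑ m ∈ T.filter (fun m : ℕ => ¬ m < H ^ (i + 1)), 1 / (m : ℝ) ^ 2 ≤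
        1 / 2 * (d (i + 1) / (H : ℝ) ^ (i + 1)) := by
      refine ih (i + 1) _ (fun m hm => h1 m (Finset.mem_of_mem_filter m hm))
        (fun m hm => not_lt.1 (Finset.mem_filter.1 hm).2) (fun m hm => ?_)
      have h5 := h3 m (Finset.mem_of_mem_filter m hm)
      rwa [show i + (N + 1) = i + 1 + N by ring] at h5
    have hC : d (i + 1) / (H : ℝ) ^ (i + 1) ≤ 1 / 8 * (d i / (H : ℝ) ^ i) := by
      have h7 := hup i
      have h8 := hd i
      rw [div_le_iff₀ (by positivity), pow_succ]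
      have h9 : 1 / 8 * (d i / (H : ℝ) ^ i) * ((H : ℝ) ^ i * H) = d i * H / 8 := by
        field_simp
      rw [h9]
      nlinarith
    have h8 : 0 < d i / (H : ℝ) ^ i := div_pos (hd i) hpi
    linarith

/-
HINT. For every j apply `GapReg.good_cut` with A = {m | c m ≠ 0 ∧ m < H^(j+1)}, δ = d j,
ℓ = H^j, x = H^j: a natural k with H^j ≤ k < 2 H^j and product ≥ exp(-60 d_j H^j) for all finite
subsets of A. K := choice. For a general finite S split S into m < H^(j+1) and m ≥ H^(j+1);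
for the second part P = K j + 1/2 ≤ 2 H^j (K j + 1 ≤ 2 H^j), (P/m)^2 ≤ 4 H^(2j)/m^2 ≤ 4/H^2 ≤ 1/64,
1 - x ≥ exp(-2x) for 0 ≤ x ≤ 1/2, so the product is ≥ exp(-2 sum (P/m)^2); group the m by
H^i ≤ m < H^(i+1), i > j: there are at most H^i d_i / 4 of them (hcard), d_i ≤ 2^(i-j) d_j, so
sum (P/m)^2 ≤ sum_{i>j} (H^i d_i/4) 4 H^(2j-2i) ≤ H^j d_j sum_{t≥1} (2/H)^t ≤ H^j d_j / 7 (H ≥ 16).
Total ≥ exp(-(60 + 2/7) H^j d_j) ≥ exp(-61 H^j d_j).
-/
theorem exists_cuts (c : ℕ → ℂ) (h0 : c 0 = 0) (H : ℕ) (hH : 16 ≤ H) (d : ℕ → ℝ)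
    (hd : ∀ j, 0 < d j) (hup : ∀ j, d (j + 1) ≤ 2 * d j)
    (hcard : ∀ (j : ℕ) (T : Finset ℕ), (∀ m ∈ T, c m ≠ 0 ∧ m < H ^ (j + 1)) →
        (T.card : ℝ) ≤ (H : ℝ) ^ j * d j / 4)
    (hdens : ∀ j : ℕ, Dens {m | c m ≠ 0 ∧ m < H ^ (j + 1)} (d j) ((H : ℝ) ^ j)) :
    ∃ K : ℕ → ℕ, (∀ j, H ^ j ≤ K j) ∧ (∀ j, K j < 2 * H ^ j) ∧
      ∀ (j : ℕ) (S : Finset ℕ), (∀ m ∈ S, c m ≠ 0) →
        Real.exp (-(61 * ((H : ℝ) ^ j * d j)))
          ≤ ∏ m ∈ S, |1 - (((K j : ℝ) + 1 / 2) / m) ^ 2| := by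
  have hH' : (16 : ℝ) ≤ H := by exact_mod_cast hH
  have hH0 : (0 : ℝ) < H := by linarith
  have hex : ∀ j : ℕ, ∃ k : ℕ, H ^ j ≤ k ∧ k < 2 * H ^ j ∧ ∀ S : Finset ℕ,
      (∀ m ∈ S, m ∈ {m | c m ≠ 0 ∧ m < H ^ (j + 1)}) →
      Real.exp (-(60 * d j * ((H ^ j : ℕ) : ℝ))) ≤ ∏ m ∈ S, |1 - (((k : ℝ) + 1 / 2) / m) ^ 2| := by
    intro j
    refine good_cut {m | c m ≠ 0 ∧ m < H ^ (j + 1)} (d j) ((H : ℝ) ^ j) (hd j)
      (one_le_pow₀ (by linarith)) (hdens j) (H ^ j) ?_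
    push_cast
    exact le_rfl
  choose K hK1 hK2 hK3 using hex
  refine ⟨K, hK1, hK2, ?_⟩
  intro j S hS
  set x : ℝ := (H : ℝ) ^ j with hx
  have hx0 : 0 < x := pow_pos hH0 j
  set P : ℝ := (K j : ℝ) + 1 / 2 with hP
  have hP0 : 0 < P := by positivity
  have hP2 : P ≤ 2 * x := by
    have h1 : K j + 1 ≤ 2 * H ^ j := hK2 j
    have h2 : ((K j : ℝ) + 1) ≤ 2 * (H : ℝ) ^ j := by exact_mod_cast h1
    rw [hP, hx]
    linarith
  rw [← Finset.prod_filter_mul_prod_filter_not S (fun m : ℕ => m < H ^ (j + 1))]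
  have hpart1 : Real.exp (-(60 * (x * d j))) ≤
      ∏ m ∈ S.filter (fun m : ℕ => m < H ^ (j + 1)), |1 - (P / m) ^ 2| := by
    have h1 := hK3 j (S.filter (fun m : ℕ => m < H ^ (j + 1)))
      (fun m hm => ⟨hS m (Finset.mem_of_mem_filter m hm), (Finset.mem_filter.1 hm).2⟩)
    have h2 : 60 * (x * d j) = 60 * d j * ((H ^ j : ℕ) : ℝ) := by
      rw [hx]
      push_cast
      ring
    rw [h2]
    exact h1
  have hpart2 : Real.exp (-(x * d j)) ≤
      ∏ m ∈ S.filter (fun m : ℕ => ¬ m < H ^ (j + 1)), |1 - (P / m) ^ 2| := by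
    set T := S.filter (fun m : ℕ => ¬ m < H ^ (j + 1)) with hT
    have hTm' : ∀ m ∈ T, H ^ (j + 1) ≤ m := fun m hm => not_lt.1 (Finset.mem_filter.1 hm).2
    have hTm : ∀ m ∈ T, 16 * x ≤ m := by
      intro m hm
      have h1 : ((H : ℝ) ^ (j + 1)) ≤ m := by exact_mod_cast hTm' m hm
      rw [pow_succ] at h1
      rw [hx]
      nlinarith
    have hfac : ∀ m ∈ T, Real.exp (-(4 / 3 * (P ^ 2 * (1 / (m : ℝ) ^ 2)))) ≤ |1 - (P / m) ^ 2| := by
      intro m hm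
      have h1 := hTm m hm
      have hm0 : (0 : ℝ) < m := by linarith
      have e1 : P ^ 2 * (1 / (m : ℝ) ^ 2) = (P / m) ^ 2 := by rw [div_pow]; ring
      rw [e1]
      set t := (P / (m : ℝ)) ^ 2 with ht
      have ht0 : 0 ≤ t := sq_nonneg _
      have ht1 : t ≤ 1 / 4 := by
        have h2 : P / m ≤ 1 / 2 := by
          rw [div_le_iff₀ hm0]; linarith
        have h3 : 0 ≤ P / m := by positivity
        rw [ht]; nlinarith
      refine le_trans ?_ (le_abs_self _)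
      rw [Real.exp_neg, inv_le_comm₀ (Real.exp_pos _) (by linarith)]
      have h4 : (1 - t)⁻¹ ≤ 4 / 3 * t + 1 := by
        rw [inv_le_iff_one_le_mul₀ (by linarith)]
        nlinarith
      exact h4.trans (Real.add_one_le_exp _)
    refine le_trans ?_ (Finset.prod_le_prod (fun m _ => (Real.exp_pos _).le) hfac)
    rw [← Real.exp_sum, Real.exp_le_exp, Finset.sum_neg_distrib, neg_le_neg_iff, ← Finset.mul_sum,
      ← Finset.mul_sum]
    have hsum := CUTS_tail c H hH d hd hup hcard (T.sup id + 1) (j + 1) T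
      (fun m hm => hS m (Finset.mem_of_mem_filter m hm)) hTm' (fun m hm => by
        have h1 : m ≤ T.sup id := Finset.le_sup (f := id) hm
        have h2 : m < H ^ m := Nat.lt_pow_self (by omega)
        have h3 : H ^ m ≤ H ^ (j + 1 + (T.sup id + 1)) :=
          Nat.pow_le_pow_right (by omega) (by omega)
        omega)
    have h7 := hup j
    have h8 := hd j
    have h9 : P ^ 2 ≤ 4 * x ^ 2 := by nlinarith
    have h10 : d (j + 1) / (H : ℝ) ^ (j + 1) ≤ 1 / 8 * (d j / x) := by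
      rw [div_le_iff₀ (by positivity), pow_succ, ← hx]
      have h11 : 1 / 8 * (d j / x) * (x * H) = d j * H / 8 := by
        field_simp
      rw [h11]
      nlinarith
    have h12 : ∑ m ∈ T, 1 / (m : ℝ) ^ 2 ≤ 1 / 16 * (d j / x) := by linarith
    have h13 : 0 ≤ ∑ m ∈ T, 1 / (m : ℝ) ^ 2 := Finset.sum_nonneg fun m _ => by positivity
    calc 4 / 3 * (P ^ 2 * ∑ m ∈ T, 1 / (m : ℝ) ^ 2)
        ≤ 4 / 3 * (4 * x ^ 2 * (1 / 16 * (d j / x))) := by
          gcongr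
      _ ≤ x * d j := by
          have : 4 / 3 * (4 * x ^ 2 * (1 / 16 * (d j / x))) = 1 / 3 * (x * d j) := by
            field_simp; ring
          rw [this]
          nlinarith [mul_pos hx0 h8]
  calc Real.exp (-(61 * (x * d j))) = Real.exp (-(60 * (x * d j))) * Real.exp (-(x * d j)) := by
        rw [← Real.exp_add]; congr 1; ring
    _ ≤ _ := mul_le_mul hpart1 hpart2 (Real.exp_pos _).le
        (Finset.prod_nonneg fun m _ => abs_nonneg _)

end Pool.Agent.Mac
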