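import Pool.Agent.Mac.DecP

set_option autoImplicit false

/-!
# Module DEC: decoupling in cones (from DecA, DecB, DecP)
-/

namespace Pool.Agent.Mac

theorem decP_all : ∃ H1 : ℕ, 16 ≤ H1 ∧ ∀ H : ℕ, H1 ≤ H →
    ∃ c1 : ℝ, 0 < c1 ∧ ∃ c2 : ℝ, 0 < c2 ∧ DecP H c1 c2 := by
  obtain ⟨N, hN⟩ : ∃ N : ℕ, 10000 ≤ N := ⟨10000, le_rfl⟩
  refine ⟨48 * 2 ^ N, ?_, ?_⟩
  · have : 1 ≤ 2 ^ N := Nat.one_le_two_pow
    omega
  · intro H hH
    have hHN : (48:ℝ) * 2 ^ N ≤ H := by exact_mod_cast hH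
    have hH0 : (0:ℝ) < H := by
      have : (0:ℝ) < 48 * 2 ^ N := by positivity
      linarith
    exact ⟨cOne, by unfold cOne; norm_num, cTwo H, by unfold cTwo; positivity, decP hN hHN⟩

end Pool.Agent.Mac
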