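import Pool.Agent.Mac.Card

set_option autoImplicit false

/-!
# Module DENS: the densities of the levels
-/

namespace Pool.Agent.Mac

open Finset Filter Topology
open Pool.Agent.MP_e061a3_an Pool.Agent.GapReg

/-- the weights `2 ^ (-|j - k|)` -/
noncomputable def DENSwt (j k : ℕ) : ℝ := (1 / 2 : ℝ) ^ ((j - k) + (k - j))

theorem DENSwt_pos (j k : ℕ) : 0 < DENSwt j k := by
  unfold DENSwt
  positivity

theorem DENSwt_le_one (j k : ℕ) : DENSwt j k ≤ 1 := by
  unfold DENSwt
  exact pow_le_one₀ (by norm_num) (by norm_num)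

theorem DENSwt_step (a b : ℕ) (h : b ≤ a + 1) : (1 / 2 : ℝ) ^ a ≤ 2 * (1 / 2 : ℝ) ^ b := by
  have := pow_le_pow_of_le_one (by norm_num : (0 : ℝ) ≤ 1 / 2) (by norm_num) h
  rw [pow_succ] at this
  linarith

theorem DENSwt_up (j k : ℕ) : DENSwt (j + 1) k ≤ 2 * DENSwt j k :=
  DENSwt_step _ _ (by omega)

theorem DENSwt_dn (j k : ℕ) : DENSwt j k ≤ 2 * DENSwt (j + 1) k :=
  DENSwt_step _ _ (by omega)

theorem DENSwt_sum (k J : ℕ) : ∑ j ∈ range J, DENSwt j k ≤ 3 := by
  have h : ∑ j ∈ range J, DENSwt j k ≤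
      if J ≤ k then (1 / 2 : ℝ) ^ (k - J) else 3 - (1 / 2 : ℝ) ^ (J - 1 - k) := by
    induction J with
    | zero =>
      simp
    | succ J ih =>
      rw [sum_range_succ]
      rcases lt_trichotomy J k with h1 | h1 | h1
      · rw [if_pos h1.le] at ih
        rw [if_pos (show J + 1 ≤ k from h1)]
        have e3 : DENSwt J k = (1 / 2 : ℝ) ^ (k - J) := by
          unfold DENSwt
          congr 1
          omega
        have e4 : k - J = (k - (J + 1)) + 1 := by omega
        rw [e3]
        rw [e4, pow_succ] at ih ⊢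
        linarith
      · subst h1
        rw [if_pos le_rfl] at ih
        rw [if_neg (by omega)]
        have e3 : DENSwt J J = 1 := by
          unfold DENSwt
          simp
        have e4 : J + 1 - 1 - J = 0 := by omega
        rw [e3, e4, pow_zero]
        rw [Nat.sub_self, pow_zero] at ih
        linarith
      · rw [if_neg (by omega)] at ih
        rw [if_neg (by omega)]
        have e3 : DENSwt J k = (1 / 2 : ℝ) ^ (J - k) := by
          unfold DENSwt
          congr 1
          omega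
        have e4 : J + 1 - 1 - k = J - k := by omega
        have e5 : J - k = (J - 1 - k) + 1 := by omega
        rw [e3, e4]
        rw [e5, pow_succ]
        linarith
  refine h.trans ?_
  split_ifs
  · have : (1 / 2 : ℝ) ^ (k - J) ≤ 1 := pow_le_one₀ (by norm_num) (by norm_num)
    linarith
  · have : (0 : ℝ) ≤ (1 / 2 : ℝ) ^ (J - 1 - k) := by positivity
    linarith

/-
HINT. A = {m : c m ≠ 0}; nu k = number of m in A with H^k ≤ m < H^(k+1);
  e k := nu k / H^k + 1/2^k,   d j := 4 * ∑' k, e k / 2^|j-k|   (|j-k| = (j-k)+(k-j) in ℕ).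
e is summable: nu k / H^k ≤ H * (sum of 1/m over these m), the index blocks are disjoint.
All sums over k converge because 2^(-|j-k|) ≤ 1; d is summable by exchanging the sums
(`Summable.prod`, or: sum over j ≤ J of d j ≤ 12 * sum of e; `summable_of_sum_range_le`).
d j > 0 (term k = 0: e 0 ≥ 1).  2^(-|j+1-k|) ≤ 2 * 2^(-|j-k|) and conversely: the factor 2.
H^j * d j ≥ 4 * H^j * e 0 / 2^j ≥ 4 (H/2)^j ≥ 1 (as e 0 ≥ 1).
COUNT: for k ≤ j: nu k ≤ H^k * 2^(j-k) * (term k of the sum) where d j / 4 = sum of the terms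
  t k = e k / 2^(j-k); so for i ≤ j:  number of m in A below H^(i+1)  ≤ sum_{k ≤ i} nu k
  ≤ sum_{k ≤ i} t k * (2^(j-k) H^k) ≤ (2^(j-i) H^i) * d j / 4, because 2^(j-k) H^k ≤ 2^(j-i) H^i.
  (i = j: the card bound with 1/4.)
DENS: T in A with all m < H^(j+1) and m ≤ x. T empty: clear. Otherwise 1 ≤ x; if x ≥ H^j use i = j:
  card ≤ H^j d j / 4 ≤ d j x. If H^i ≤ x < H^(i+1), i < j: card ≤ 2^(j-i) H^i d j / 4, and
  sqrt(H^j x) ≥ sqrt(H^(j+i)) = H^i * sqrt(H^(j-i)) ≥ H^i * 4^(j-i) ≥ H^i 2^(j-i).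
-/
theorem exists_dens (c : ℕ → ℂ) (h0 : c 0 = 0)
    (hs : Summable (fun m : ℕ => if c m = 0 then (0 : ℝ) else 1 / (m : ℝ))) (H : ℕ)
    (hH : 16 ≤ H) :
    ∃ d : ℕ → ℝ, Summable d ∧ (∀ j, 0 < d j) ∧ (∀ j, d (j + 1) ≤ 2 * d j) ∧
      (∀ j, d j ≤ 2 * d (j + 1)) ∧ (∀ j, 1 ≤ (H : ℝ) ^ j * d j) ∧
      (∀ (j : ℕ) (T : Finset ℕ), (∀ m ∈ T, c m ≠ 0 ∧ m < H ^ (j + 1)) →
        (T.card : ℝ) ≤ (H : ℝ) ^ j * d j / 4) ∧
      ∀ j : ℕ, Dens {m | c m ≠ 0 ∧ m < H ^ (j + 1)} (d j) ((H : ℝ) ^ j) := by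
  classical
  have hHr : (16 : ℝ) ≤ H := by exact_mod_cast hH
  have hH0 : (0 : ℝ) < H := by linarith
  have hHp : ∀ k : ℕ, (0 : ℝ) < (H : ℝ) ^ k := fun k => by positivity
  set f : ℕ → ℝ := fun m => if c m = 0 then (0 : ℝ) else 1 / (m : ℝ) with hf
  have hf0 : ∀ m, 0 ≤ f m := by
    intro m
    simp only [hf]
    split_ifs
    · exact le_rfl
    · positivity
  set B : ℕ → Finset ℕ := fun k => (Finset.Ico (H ^ k) (H ^ (k + 1))).filter (fun m => c m ≠ 0)
    with hB
  set nu : ℕ → ℝ := fun k => ((B k).card : ℝ) with hnu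
  have hnu0 : ∀ k, 0 ≤ nu k := fun k => by positivity
  set e : ℕ → ℝ := fun k => nu k / (H : ℝ) ^ k + (1 / 2 : ℝ) ^ k with he
  have he0 : ∀ k, 0 ≤ e k := fun k => by
    have := hnu0 k
    have := hHp k
    simp only [he]
    positivity
  -- summability of `e`
  have hblock : ∀ k, nu k / (H : ℝ) ^ k ≤ H * ∑ m ∈ Finset.Ico (H ^ k) (H ^ (k + 1)), f m := by
    intro k
    have h1 : nu k * (1 / (H : ℝ) ^ (k + 1)) ≤ ∑ m ∈ B k, f m := by
      rw [hnu, ← nsmul_eq_mul]
      refine Finset.card_nsmul_le_sum _ _ _ fun m hm => ?_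
      rw [hB, Finset.mem_filter, Finset.mem_Ico] at hm
      simp only [hf, if_neg hm.2]
      have h2 : (0 : ℝ) < m := by
        have : 0 < H ^ k := pow_pos (by omega) k
        have : 0 < m := by omega
        exact_mod_cast this
      have h3 : (m : ℝ) ≤ (H : ℝ) ^ (k + 1) := by
        have := hm.1.2.le
        exact_mod_cast this
      exact one_div_le_one_div_of_le h2 h3
    have h2 : ∑ m ∈ B k, f m ≤ ∑ m ∈ Finset.Ico (H ^ k) (H ^ (k + 1)), f m :=
      Finset.sum_le_sum_of_subset_of_nonneg (Finset.filter_subset _ _) (fun m _ _ => hf0 m)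
    have h3 : nu k / (H : ℝ) ^ k = H * (nu k * (1 / (H : ℝ) ^ (k + 1))) := by
      rw [pow_succ]
      have := (hHp k).ne'
      field_simp
    rw [h3]
    exact mul_le_mul_of_nonneg_left (h1.trans h2) hH0.le
  have hpartial : ∀ N : ℕ, ∑ k ∈ range N, nu k / (H : ℝ) ^ k ≤
      H * ∑ m ∈ range (H ^ N), f m := by
    intro N
    induction N with
    | zero =>
      simp only [Finset.range_zero, Finset.sum_empty]
      have : 0 ≤ ∑ m ∈ range (H ^ 0), f m := Finset.sum_nonneg fun m _ => hf0 m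
      positivity
    | succ N ih =>
      rw [Finset.sum_range_succ]
      have h1 : H ^ N ≤ H ^ (N + 1) := Nat.pow_le_pow_right (by omega) (by omega)
      have h2 : ∑ m ∈ range (H ^ (N + 1)), f m = ∑ m ∈ range (H ^ N), f m +
          ∑ m ∈ Finset.Ico (H ^ N) (H ^ (N + 1)), f m := by
        rw [Finset.range_eq_Ico, Finset.range_eq_Ico,
          Finset.sum_Ico_consecutive f (Nat.zero_le _) h1]
      rw [h2, mul_add]
      exact add_le_add ih (hblock N)
  have hsnu : Summable (fun k => nu k / (H : ℝ) ^ k) := by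
    refine summable_of_sum_range_le (c := H * ∑' m, f m) (fun k => ?_) fun N => ?_
    · have := hnu0 k
      have := hHp k
      positivity
    · refine (hpartial N).trans (mul_le_mul_of_nonneg_left ?_ hH0.le)
      exact hs.sum_le_tsum _ (fun m _ => hf0 m)
  have hse : Summable e := by
    refine hsnu.add ?_
    exact summable_geometric_of_lt_one (by norm_num) (by norm_num)
  have hterm0 : ∀ j k, 0 ≤ e k * DENSwt j k := fun j k => mul_nonneg (he0 k) (DENSwt_pos j k).le
  have hterm : ∀ j, Summable (fun k => e k * DENSwt j k) := fun j =>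
    Summable.of_nonneg_of_le (hterm0 j)
      (fun k => mul_le_of_le_one_right (he0 k) (DENSwt_le_one j k)) hse
  set d : ℕ → ℝ := fun j => 4 * ∑' k, e k * DENSwt j k with hd
  have he1 : 1 ≤ e 0 := by
    simp only [he, pow_zero, div_one]
    have := hnu0 0
    linarith
  have hd1 : ∀ j, 4 * (1 / 2 : ℝ) ^ j ≤ d j := by
    intro j
    have h1 : e 0 * DENSwt j 0 ≤ ∑' k, e k * DENSwt j k :=
      (hterm j).le_tsum 0 (fun k _ => hterm0 j k)
    have h2 : DENSwt j 0 = (1 / 2 : ℝ) ^ j := by
      unfold DENSwt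
      congr 1
      omega
    have h3 : (1 / 2 : ℝ) ^ j ≤ e 0 * DENSwt j 0 := by
      rw [h2]
      exact le_mul_of_one_le_left (by positivity) he1
    simp only [hd]
    linarith
  have hdpos : ∀ j, 0 < d j := fun j => lt_of_lt_of_le (by positivity) (hd1 j)
  -- counting
  have hcount : ∀ (i j : ℕ), i ≤ j → ∀ T : Finset ℕ, (∀ m ∈ T, c m ≠ 0 ∧ m < H ^ (i + 1)) →
      (T.card : ℝ) ≤ 2 ^ (j - i) * (H : ℝ) ^ i * d j / 4 := by
    intro i j hij T hT
    have h1 : T ⊆ (range (i + 1)).biUnion B := by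
      intro m hm
      obtain ⟨hm1, hm2⟩ := hT m hm
      have hm0 : m ≠ 0 := by
        rintro rfl
        exact hm1 h0
      rw [Finset.mem_biUnion]
      refine ⟨Nat.log H m, ?_, ?_⟩
      · rw [Finset.mem_range]
        by_contra hcon
        have h2 : H ^ (i + 1) ≤ H ^ (Nat.log H m) := Nat.pow_le_pow_right (by omega) (by omega)
        have h3 := Nat.pow_log_le_self H hm0
        omega
      · rw [hB, Finset.mem_filter, Finset.mem_Ico]
        exact ⟨⟨Nat.pow_log_le_self H hm0, Nat.lt_pow_succ_log_self (by omega) m⟩, hm1⟩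
    have h2 : (T.card : ℝ) ≤ ∑ k ∈ range (i + 1), nu k := by
      have h3 := (Finset.card_le_card h1).trans Finset.card_biUnion_le
      have h4 : ((T.card : ℕ) : ℝ) ≤ ((∑ k ∈ range (i + 1), (B k).card : ℕ) : ℝ) := by
        exact_mod_cast h3
      rw [Nat.cast_sum] at h4
      exact h4
    have h3 : ∀ k ∈ range (i + 1), nu k ≤
        (2 ^ (j - i) * (H : ℝ) ^ i) * (e k * DENSwt j k) := by
      intro k hk
      rw [Finset.mem_range] at hk
      have hw : DENSwt j k = (1 / 2 : ℝ) ^ (j - k) := by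
        unfold DENSwt
        congr 1
        omega
      have h4 : nu k ≤ (H : ℝ) ^ k * e k := by
        have h5 : nu k / (H : ℝ) ^ k ≤ e k := by
          simp only [he]
          have : (0 : ℝ) ≤ (1 / 2 : ℝ) ^ k := by positivity
          linarith
        rw [div_le_iff₀ (hHp k)] at h5
        linarith
      have h5 : (H : ℝ) ^ k ≤ 2 ^ (j - i) * (H : ℝ) ^ i * (1 / 2 : ℝ) ^ (j - k) := by
        have e1 : j - k = (j - i) + (i - k) := by omega
        have e2 : (H : ℝ) ^ i = (H : ℝ) ^ k * (H : ℝ) ^ (i - k) := by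
          rw [← pow_add]
          congr 1
          omega
        have e3 : (2 : ℝ) ^ (j - i) * (1 / 2 : ℝ) ^ (j - i) = 1 := by
          rw [← mul_pow]
          norm_num
        have e4 : (1 : ℝ) ≤ (H : ℝ) ^ (i - k) * (1 / 2 : ℝ) ^ (i - k) := by
          rw [← mul_pow]
          exact one_le_pow₀ (by linarith)
        rw [e1, e2, pow_add]
        calc (H : ℝ) ^ k = (H : ℝ) ^ k * 1 * 1 := by ring
          _ ≤ (H : ℝ) ^ k * ((H : ℝ) ^ (i - k) * (1 / 2 : ℝ) ^ (i - k)) *
              ((2 : ℝ) ^ (j - i) * (1 / 2 : ℝ) ^ (j - i)) := by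
            rw [e3]
            have e5 := le_mul_of_one_le_right (hHp k).le e4
            linarith
          _ = _ := by ring
      calc nu k ≤ (H : ℝ) ^ k * e k := h4
        _ ≤ (2 ^ (j - i) * (H : ℝ) ^ i * (1 / 2 : ℝ) ^ (j - k)) * e k :=
          mul_le_mul_of_nonneg_right h5 (he0 k)
        _ = _ := by rw [hw]; ring
    have h4 : ∑ k ∈ range (i + 1), e k * DENSwt j k ≤ ∑' k, e k * DENSwt j k :=
      (hterm j).sum_le_tsum _ (fun k _ => hterm0 j k)
    calc (T.card : ℝ) ≤ ∑ k ∈ range (i + 1), nu k := h2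
      _ ≤ ∑ k ∈ range (i + 1), (2 ^ (j - i) * (H : ℝ) ^ i) * (e k * DENSwt j k) :=
        Finset.sum_le_sum h3
      _ = (2 ^ (j - i) * (H : ℝ) ^ i) * ∑ k ∈ range (i + 1), e k * DENSwt j k := by
        rw [Finset.mul_sum]
      _ ≤ (2 ^ (j - i) * (H : ℝ) ^ i) * ∑' k, e k * DENSwt j k :=
        mul_le_mul_of_nonneg_left h4 (by positivity)
      _ = _ := by simp only [hd]; ring
  refine ⟨d, ?_, hdpos, ?_, ?_, ?_, ?_, ?_⟩
  · refine summable_of_sum_range_le (c := 12 * ∑' k, e k) (fun j => (hdpos j).le) fun J => ?_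
    have h1 : ∑ j ∈ range J, d j = 4 * ∑' k, ∑ j ∈ range J, e k * DENSwt j k := by
      rw [Summable.tsum_finsetSum (fun j _ => hterm j), Finset.mul_sum]
    have h2 : ∑' k, ∑ j ∈ range J, e k * DENSwt j k ≤ ∑' k, 3 * e k := by
      refine Summable.tsum_le_tsum (fun k => ?_) (summable_sum fun j _ => hterm j)
        (hse.mul_left 3)
      rw [← Finset.mul_sum, mul_comm 3]
      exact mul_le_mul_of_nonneg_left (DENSwt_sum k J) (he0 k)
    rw [tsum_mul_left] at h2
    rw [h1]
    linarith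
  · intro j
    have h1 : ∑' k, e k * DENSwt (j + 1) k ≤ ∑' k, 2 * (e k * DENSwt j k) := by
      refine Summable.tsum_le_tsum (fun k => ?_) (hterm (j + 1)) ((hterm j).mul_left 2)
      have := mul_le_mul_of_nonneg_left (DENSwt_up j k) (he0 k)
      linarith
    rw [tsum_mul_left] at h1
    simp only [hd]
    linarith
  · intro j
    have h1 : ∑' k, e k * DENSwt j k ≤ ∑' k, 2 * (e k * DENSwt (j + 1) k) := by
      refine Summable.tsum_le_tsum (fun k => ?_) (hterm j) ((hterm (j + 1)).mul_left 2)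
      have := mul_le_mul_of_nonneg_left (DENSwt_dn j k) (he0 k)
      linarith
    rw [tsum_mul_left] at h1
    simp only [hd]
    linarith
  · intro j
    have h1 : (1 : ℝ) ≤ (H : ℝ) ^ j * (1 / 2 : ℝ) ^ j := by
      rw [← mul_pow]
      exact one_le_pow₀ (by linarith)
    have h2 := mul_le_mul_of_nonneg_left (hd1 j) (hHp j).le
    linarith
  · intro j T hT
    have h1 := hcount j j le_rfl T hT
    rw [Nat.sub_self, pow_zero, one_mul] at h1
    exact h1
  · intro j
    refine ⟨fun m hm => ?_, fun T hT x hx hTx => ?_⟩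
    · rcases Nat.eq_zero_or_pos m with rfl | h
      · exact absurd h0 hm.1
      · exact h
    · have hdj := hdpos j
      rcases T.eq_empty_or_nonempty with rfl | ⟨m0, hm0⟩
      · simp only [Finset.card_empty, Nat.cast_zero]
        positivity
      · by_cases hxj : (H : ℝ) ^ j ≤ x
        · have h1 := hcount j j le_rfl T (fun m hm => hT m hm)
          rw [Nat.sub_self, pow_zero, one_mul] at h1
          have h2 : 0 ≤ √((H : ℝ) ^ j * x) := Real.sqrt_nonneg _
          have h3 : (H : ℝ) ^ j * d j ≤ x * d j := mul_le_mul_of_nonneg_right hxj hdj.le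
          have h4 : 0 ≤ x * d j := by positivity
          have h5 : 0 ≤ d j * √((H : ℝ) ^ j * x) := by positivity
          nlinarith
        · push Not at hxj
          have hm0' : 0 < m0 := by
            rcases Nat.eq_zero_or_pos m0 with rfl | h
            · exact absurd h0 (hT _ hm0).1
            · exact h
          have hx1 : 1 ≤ x := by
            have h1 : (1 : ℝ) ≤ m0 := by exact_mod_cast hm0'
            exact h1.trans (hTx m0 hm0)
          set n := ⌊x⌋₊ with hn
          have hn0 : n ≠ 0 := by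
            have : 1 ≤ n := Nat.le_floor (by simpa using hx1)
            omega
          set i := Nat.log H n with hi
          have hi1 : H ^ i ≤ n := Nat.pow_log_le_self H hn0
          have hi2 : n < H ^ (i + 1) := Nat.lt_pow_succ_log_self (by omega) n
          have hi3 : (H : ℝ) ^ i ≤ x := by
            have h1 : ((H ^ i : ℕ) : ℝ) ≤ n := by exact_mod_cast hi1
            rw [Nat.cast_pow] at h1
            exact h1.trans (Nat.floor_le hx)
          have hij : i < j := by
            by_contra hcon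
            have h1 : (H : ℝ) ^ j ≤ (H : ℝ) ^ i := pow_le_pow_right₀ (by linarith) (by omega)
            linarith
          have h1 := hcount i j hij.le T (fun m hm => ⟨(hT m hm).1, by
            have h2 : m ≤ n := Nat.le_floor (hTx m hm)
            omega⟩)
          have h2 : 2 ^ (j - i) * (H : ℝ) ^ i ≤ √((H : ℝ) ^ j * x) := by
            apply Real.le_sqrt_of_sq_le
            have e1 : (H : ℝ) ^ j = (H : ℝ) ^ (j - i) * (H : ℝ) ^ i := by
              rw [← pow_add]
              congr 1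
              omega
            have e2 : ((2 : ℝ) ^ (j - i)) ^ 2 ≤ (H : ℝ) ^ (j - i) := by
              rw [← pow_mul, mul_comm, pow_mul]
              exact pow_le_pow_left₀ (by norm_num) (by norm_num; linarith) _
            have e3 := hHp i
            calc (2 ^ (j - i) * (H : ℝ) ^ i) ^ 2
                = ((2 : ℝ) ^ (j - i)) ^ 2 * ((H : ℝ) ^ i * (H : ℝ) ^ i) := by ring
              _ ≤ (H : ℝ) ^ (j - i) * ((H : ℝ) ^ i * x) := by gcongr
              _ = (H : ℝ) ^ j * x := by rw [e1]; ring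
          have h3 : 0 ≤ d j * x := by positivity
          have h4 := mul_le_mul_of_nonneg_right h2 hdj.le
          have h5 : 0 ≤ √((H : ℝ) ^ j * x) * d j := by positivity
          calc (T.card : ℝ) ≤ 2 ^ (j - i) * (H : ℝ) ^ i * d j / 4 := h1
            _ ≤ √((H : ℝ) ^ j * x) * d j := by linarith
            _ ≤ d j * (x + √((H : ℝ) ^ j * x)) := by linarith

end Pool.Agent.Mac
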