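import Pool.Agent.Mac.ADens
import Pool.Agent.Mac.ACuts

set_option autoImplicit false

/-!
# Existence of levels
-/

namespace Pool.Agent.Mac

open Finset Filter Topology
open Pool.Agent.MP_e061a3_an Pool.Agent.GapReg

theorem exists_lev (c : ℕ → ℂ) (hc : Ent c) (h0 : c 0 = 0)
    (hs : Summable (fun m : ℕ => if c m = 0 then (0 : ℝ) else 1 / (m : ℝ))) (H : ℕ)
    (hH : 16 ≤ H) : ∃ (d : ℕ → ℝ) (K : ℕ → ℕ), Lev c H d K ∧ Summable d := by
  obtain ⟨d, h1, h2, h3, h4, h5, h6, h7⟩ := exists_dens c h0 hs H hH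
  obtain ⟨K, k1, k2, k3⟩ := exists_cuts c h0 H hH d h2 h3 h6 h7
  refine ⟨d, K, ⟨hc, h0, hH, h2, h3, h4, h5, ?_, h7, k1, k2, k3⟩, h1⟩
  intro j T hT
  have h8 := h6 j T hT
  have h9 := h5 j
  linarith

end Pool.Agent.Mac
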