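import Pool.Agent.Mac.ACutLow
import Pool.Agent.GapReg.LeftExt

set_option autoImplicit false

/-!
# Module LW: left extension of the low part
-/

namespace Pool.Agent.Mac

open Finset Filter Topology
open Pool.Agent.MP_e061a3_an Pool.Agent.GapReg

theorem LW_geom (n : ℕ) : ∑ k ∈ range n, (4 / (16 : ℝ) ^ k) ≤ 5 := by
  have h1 : ∀ n : ℕ, ∑ k ∈ range n, (4 / (16 : ℝ) ^ k) ≤ 5 - 9 / 2 * (1 / (16 : ℝ) ^ n) := by
    intro n
    induction n with
    | zero => norm_num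
    | succ n ih =>
      rw [sum_range_succ]
      have h2 : 0 < (16 : ℝ) ^ n := by positivity
      have h3 : 1 / (16 : ℝ) ^ (n + 1) = (1 / (16 : ℝ) ^ n) / 16 := by
        rw [pow_succ]; field_simp
      have h3' : 4 / (16 : ℝ) ^ n = 4 * (1 / (16 : ℝ) ^ n) := by ring
      have h4 : 0 < 1 / (16 : ℝ) ^ n := by positivity
      rw [h3, h3']
      linarith
  have h2 := h1 n
  have h3 : 0 < 1 / (16 : ℝ) ^ n := by positivity
  linarith

/-- The key numerical inequality. -/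
theorem LW_star (H t y A : ℝ) (hH : 16 ≤ H) (ht : 0 < t) (ht4 : t ^ 4 ≤ y) (hA1 : 1 ≤ A)
    (hA2 : A ≤ 300 * (1 / (10 ^ 6 * H ^ 2)) * y) (hy : 125000 * H ^ 2 ≤ y) :
    8 * H * t * Real.log A ≤ y := by
  have hH0 : 0 < H := by linarith
  have hy0 : 0 < y := lt_of_lt_of_le (by positivity) hy
  have hA0 : 0 < A := by linarith
  set u := Real.sqrt (Real.sqrt A) with hu
  have hu4 : u ^ 4 = A := by
    have h1 : u ^ 2 = Real.sqrt A := Real.sq_sqrt (Real.sqrt_nonneg _)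
    have h2 : Real.sqrt A ^ 2 = A := Real.sq_sqrt hA0.le
    calc u ^ 4 = (u ^ 2) ^ 2 := by ring
      _ = A := by rw [h1, h2]
  have hu0 : 0 < u := by
    rw [hu]
    exact Real.sqrt_pos.2 (Real.sqrt_pos.2 hA0)
  have hlog : Real.log A ≤ 4 * u := by
    rw [← hu4, Real.log_pow]
    push_cast
    have h1 := Real.log_le_sub_one_of_pos hu0
    linarith
  have h1 : (32 * H * t * u) ^ 4 ≤ y ^ 4 := by
    have h2 : (32 * H * t * u) ^ 4 = (32 * H) ^ 4 * (t ^ 4 * A) := by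
      rw [← hu4]; ring
    have h3 : t ^ 4 * A ≤ y * (300 * (1 / (10 ^ 6 * H ^ 2)) * y) :=
      mul_le_mul ht4 hA2 hA0.le hy0.le
    have h4 : (32 * H) ^ 4 * (y * (300 * (1 / (10 ^ 6 * H ^ 2)) * y)) =
        (1048576 * 300 / 10 ^ 6) * H ^ 2 * y ^ 2 := by
      field_simp
      ring
    have h5 : (32 * H) ^ 4 * (t ^ 4 * A) ≤ (1048576 * 300 / 10 ^ 6) * H ^ 2 * y ^ 2 := by
      rw [← h4]
      exact mul_le_mul_of_nonneg_left h3 (by positivity)
    have hH2 : 0 < H ^ 2 := by positivity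
    have h6 : (1048576 * 300 / 10 ^ 6) * H ^ 2 ≤ y := by nlinarith
    have hy1 : 1 ≤ y := by nlinarith
    have h7 : y ≤ y ^ 2 := by nlinarith
    calc (32 * H * t * u) ^ 4 ≤ (1048576 * 300 / 10 ^ 6) * H ^ 2 * y ^ 2 := by rw [h2]; exact h5
      _ ≤ y ^ 2 * y ^ 2 := mul_le_mul_of_nonneg_right (h6.trans h7) (by positivity)
      _ = y ^ 4 := by ring
  have h2 : 32 * H * t * u ≤ y :=
    (pow_le_pow_iff_left₀ (by positivity) hy0.le (by norm_num : (4 : ℕ) ≠ 0)).1 h1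
  have h3 : 8 * H * t * Real.log A ≤ 8 * H * t * (4 * u) :=
    mul_le_mul_of_nonneg_left hlog (by positivity)
  linarith

/-- Powers of `A` by the logarithm. -/
theorem LW_pow (A N : ℝ) (n : ℕ) (hA : 1 ≤ A) (hn : (n : ℝ) ≤ N) :
    A ^ n ≤ Real.exp (N * Real.log A) := by
  have hA0 : 0 < A := by linarith
  have h1 : A ^ n = Real.exp (n * Real.log A) := by
    rw [mul_comm, Real.exp_mul, Real.exp_log hA0, Real.rpow_natCast]
  rw [h1, Real.exp_le_exp]
  exact mul_le_mul_of_nonneg_right hn (Real.log_nonneg hA)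

/-- The first low part is one exponential. -/
theorem LW_zero {c : ℕ → ℂ} {H : ℕ} {d : ℕ → ℝ} {K : ℕ → ℕ} (h : Lev c H d K) (z w : ℂ)
    (hre : w.re ≤ z.re) : ‖SS c K 0 w‖ ≤ ‖SS c K 0 z‖ := by
  have hK : K 0 ≤ 1 := by
    have := h.K_lt 0
    rw [pow_zero] at this
    omega
  have hsub : suppN c (K 0 + 1) ⊆ {1} := by
    intro m hm
    obtain ⟨h1, h2⟩ := mem_low.1 hm
    have := h.pos_of_ne h2
    rw [Finset.mem_singleton]
    omega
  rcases Finset.subset_singleton_iff.1 hsub with h1 | h1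
  · unfold SS expSum
    rw [h1]
    simp
  · unfold SS expSum
    rw [h1, sum_singleton, sum_singleton, norm_mul, norm_mul, Complex.norm_exp, Complex.norm_exp]
    refine mul_le_mul_of_nonneg_left ?_ (norm_nonneg _)
    rw [Real.exp_le_exp]
    simpa using hre

/-
HINT. CL := 140, c2 := 1/(16 * (1000 H)^2) (any small enough c2(H)).
Let Z := z.re - w.re, ‖w - z‖ ≤ 8 Z. If ‖w - z‖ ≤ ρ: hypothesis. Otherwise Z > ρ/8, and
y := Z / d l ≥ 1/(8 c2). By `Lev.cut_low` (104 d_l ≤ ρ/2): for all i ≤ l: |S_i| ≤ e^{m'} on the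
ball B(z, ρ/2), m' = m + 128 H^l d_l (for u in B(z, ρ/2) the ball B(u, ρ/2) is in B(z, ρ)).
j := least index with H^j Z ≥ H^l d_l (`Nat.find`; l has the property since Z ≥ d_l, so j ≤ l);
H^(l-j) ≤ y, so 2^(l-j) ≤ y^(1/4) (since H ≥ 16: (2^(l-j))^4 = 16^(l-j) ≤ H^(l-j) ≤ y).
κ := ⌈16 Z/ρ⌉₊ + 2 (natural ≥ 2, κ (ρ/2) ≥ 8 Z ≥ ‖w - z‖), 2 e κ ≤ 300 Z/ρ ≤ 300 c2 y.
(*) for t := 2^(l-j) (t^4 ≤ y): 8 H t log(2 e κ) ≤ y. [y ≥ 1/(8 c2); log(300 c2 y) ≤ 4 (300 c2 y)^(1/4)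
    (log x = 4 log x^(1/4) ≤ 4 x^(1/4)), so 8 H t log ≤ 32 H y^(1/4) (300 c2)^(1/4) y^(1/4)
    ≤ 32 H y^(1/2) * (300 c2)^(1/4) and y^(1/2) ≥ (8 c2)^(-1/2): fine for c2 small. Any other proof of
    (*) is fine too.]
BLOCKS j ≤ i < l: B_i = S_(i+1) - S_i is bounded by 2 e^{m'} on B(z, ρ/2), it has at most
    2 H^(i+1) d_i ≤ 2 H H^i t d_l terms with exponents ≥ H^i (`Lev.card_block`, `Lev.d_le_pow`);
    `GapReg.expSum_left` (z₀ = z, r = ρ/2): |B_i(w)| ≤ 2 exp(m' - H^i Z/2 + 2 H H^i t d_l log(2eκ))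
    ≤ 2 exp(m' - H^i Z/4) by (*). The sum over j ≤ i < l is ≤ 8 e^{m'}, because H^j Z ≥ H^l d_l ≥ 1
    and exp(-H^i Z/4) ≤ exp(-16^(i-j)/4) ≤ 4 / 16^(i-j).
S_j: if j = 0: all exponents of S_0 are ≤ K 0 ≤ 1, so S_0(w) = c_1 e^w or 0 and |S_0(w)| ≤ |S_0(z)|
    (w.re ≤ z.re). If j ≥ 1: H^(j-1) Z < H^l d_l, so H^j y < H H^l; card ≤ H^j d_j ≤ H^j t d_l and
    `expSum_left` with q = 0: |S_j(w)| ≤ exp(m' + H^j t d_l log(2eκ)) and
    H^j t d_l log(2eκ) ≤ (H H^l / y) d_l * (y/(8 H)) ≤ H^l d_l by (*).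
Sum: |S_l(w)| ≤ e^{m'} (8 + e^{H^l d_l}) ≤ exp(m + 140 H^l d_l).
-/
theorem lwP_all : ∃ CL : ℝ, 0 < CL ∧ ∀ H : ℕ, 16 ≤ H → ∃ c2 : ℝ, 0 < c2 ∧ LwP H c2 CL := by
  refine ⟨140, by norm_num, fun H hHn => ⟨1 / (10 ^ 6 * (H : ℝ) ^ 2), ?_, ?_⟩⟩
  · have : (0 : ℝ) < H := by
      have : 0 < H := by omega
      exact_mod_cast this
    positivity
  intro c d K h l z ρ m hρ hd hb w hw
  have hH : (16 : ℝ) ≤ H := h.H_real
  have hH0 : (0 : ℝ) < H := by linarith
  have hdl := h.d_pos l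
  have hdl1 := h.d_big l
  have hE := h.hd_pos l
  set Z := z.re - w.re with hZdef
  have hZ0 : 0 ≤ Z := by linarith [norm_nonneg (w - z)]
  by_cases hc : ‖w - z‖ ≤ ρ
  · exact (hb w hc).trans (Real.exp_le_exp.2 (by linarith))
  rw [not_le] at hc
  have hZρ : ρ < 8 * Z := hc.trans_le hw
  have hZpos : 0 < Z := by linarith
  have hH2 : (256 : ℝ) ≤ (H : ℝ) ^ 2 := by nlinarith
  have hc2 : 1 / (10 ^ 6 * (H : ℝ) ^ 2) ≤ 1 / 10 ^ 6 := by
    apply one_div_le_one_div_of_le (by norm_num)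
    nlinarith
  have hdρ : d l ≤ 1 / 10 ^ 6 * ρ := hd.trans (mul_le_mul_of_nonneg_right hc2 hρ.le)
  have hdρ' : 208 * d l ≤ ρ := by linarith
  have hdZ : d l ≤ Z := by linarith
  set m' := m + 128 * ((H : ℝ) ^ l * d l) with hm'
  have hcut : ∀ i ≤ l, ∀ u, ‖u - z‖ ≤ ρ / 2 → ‖SS c K i u‖ ≤ Real.exp m' := by
    intro i hil u hu
    have h1 := h.cut_low hil u (ρ / 2) (Real.exp m) (by linarith) (fun v hv => hb v (by
      have h2 : v - z = (v - u) + (u - z) := by ring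
      rw [h2]
      refine (norm_add_le _ _).trans ?_
      linarith))
    rw [← Real.exp_add] at h1
    rwa [hm', add_comm]
  -- the index
  have hex : ∃ j : ℕ, (H : ℝ) ^ l * d l ≤ (H : ℝ) ^ j * Z :=
    ⟨l, mul_le_mul_of_nonneg_left hdZ (h.Hpow_pos l).le⟩
  classical
  obtain ⟨j, hj, hjl, hjmin⟩ : ∃ j : ℕ, (H : ℝ) ^ l * d l ≤ (H : ℝ) ^ j * Z ∧ j ≤ l ∧
      ∀ i < j, (H : ℝ) ^ i * Z < (H : ℝ) ^ l * d l :=
    ⟨Nat.find hex, Nat.find_spec hex,
      Nat.find_min' hex (mul_le_mul_of_nonneg_left hdZ (h.Hpow_pos l).le),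
      fun i hi => not_le.1 (Nat.find_min hex hi)⟩
  obtain ⟨n, rfl⟩ := Nat.exists_eq_add_of_le hjl
  set t : ℝ := 2 ^ n with ht
  have ht0 : 0 < t := by positivity
  have ht1 : 1 ≤ t := one_le_pow₀ (by norm_num)
  set y := Z / d (j + n) with hy
  have hyd : y * d (j + n) = Z := by
    rw [hy]; field_simp
  have hHn : (H : ℝ) ^ n ≤ y := by
    rw [hy, le_div_iff₀ hdl]
    have h1 := h.Hpow_pos j
    rw [pow_add, mul_assoc] at hj
    exact le_of_mul_le_mul_left hj h1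
  have ht4 : t ^ 4 ≤ y := by
    refine le_trans ?_ hHn
    have h1 : t ^ 4 = 16 ^ n := by
      rw [ht, ← pow_mul, mul_comm, pow_mul]; norm_num
    rw [h1]
    exact pow_le_pow_left₀ (by norm_num) hH n
  have hybig : 125000 * (H : ℝ) ^ 2 ≤ y := by
    rw [hy, le_div_iff₀ hdl]
    have h1 : 10 ^ 6 * (H : ℝ) ^ 2 * d (j + n) ≤ ρ := by
      have h2 : 1 / (10 ^ 6 * (H : ℝ) ^ 2) * ρ = ρ / (10 ^ 6 * (H : ℝ) ^ 2) := by ring
      rw [h2, le_div_iff₀ (by positivity)] at hd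
      linarith
    linarith
  set κ : ℕ := ⌈16 * Z / ρ⌉₊ + 2 with hκ
  have hκ1 : 16 * Z / ρ ≤ κ := by
    rw [hκ]
    push_cast
    linarith [Nat.le_ceil (16 * Z / ρ)]
  have hκ2 : (κ : ℝ) ≤ 16 * Z / ρ + 3 := by
    rw [hκ]
    push_cast
    linarith [Nat.ceil_lt_add_one (show 0 ≤ 16 * Z / ρ by positivity)]
  have hκ3 : (2 : ℝ) ≤ κ := by
    rw [hκ]
    push_cast
    linarith [Nat.cast_nonneg (α := ℝ) ⌈16 * Z / ρ⌉₊]
  have hκ4 : ‖w - z‖ ≤ κ * (ρ / 2) := by
    refine hw.trans ?_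
    have h1 := (div_le_iff₀ hρ).1 hκ1
    linarith
  set A := 2 * Real.exp 1 * κ with hA
  have he1 : 1 ≤ Real.exp 1 := Real.one_le_exp (by norm_num)
  have he2 : Real.exp 1 ≤ 3 := by linarith [Real.exp_one_lt_d9]
  have hA1 : 1 ≤ A := by
    rw [hA]; nlinarith
  have hA2 : A ≤ 300 * (1 / (10 ^ 6 * (H : ℝ) ^ 2)) * y := by
    have h1 : (κ : ℝ) ≤ 40 * (Z / ρ) := by
      have h2 : 1 ≤ 8 * (Z / ρ) := by
        rw [← mul_div_assoc, le_div_iff₀ hρ]; linarith
      have h3 : 16 * Z / ρ = 16 * (Z / ρ) := by ring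
      rw [h3] at hκ2
      linarith
    have h2 : Z / ρ ≤ 1 / (10 ^ 6 * (H : ℝ) ^ 2) * y := by
      rw [div_le_iff₀ hρ]
      calc Z = y * d (j + n) := hyd.symm
        _ ≤ y * (1 / (10 ^ 6 * (H : ℝ) ^ 2) * ρ) :=
          mul_le_mul_of_nonneg_left hd (by positivity)
        _ = 1 / (10 ^ 6 * (H : ℝ) ^ 2) * y * ρ := by ring
    have h3 : A ≤ 5.6 * κ := by
      rw [hA]
      have := Real.exp_one_lt_d9
      nlinarith
    have h4 : 0 ≤ Z / ρ := by positivity
    calc A ≤ 5.6 * κ := h3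
      _ ≤ 300 * (Z / ρ) := by linarith
      _ ≤ 300 * (1 / (10 ^ 6 * (H : ℝ) ^ 2) * y) := by linarith
      _ = 300 * (1 / (10 ^ 6 * (H : ℝ) ^ 2)) * y := by ring
  have hstar := LW_star H t y A hH ht0 ht4 hA1 hA2 hybig
  set L := Real.log A with hL
  have hL0 : 0 ≤ L := Real.log_nonneg hA1
  have hre : w.re ≤ z.re := by linarith
  -- blocks
  have hblock : ∀ i ∈ range n, ‖BB c K (j + i) w‖ ≤ 2 * Real.exp m' * (4 / (16 : ℝ) ^ i) := by
    intro i hi
    rw [mem_range] at hi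
    set S' := (suppN c (K (j + i + 1) + 1)).filter (fun m => K (j + i) < m) with hS'
    have hcard := h.card_block (j + i)
    rw [← hS'] at hcard
    have h1 := expSum_left c S' ((H : ℝ) ^ (j + i)) (by positivity)
      (fun m hm => (h.block_mem hm).2.2.1) z w (ρ / 2) κ (by rw [hκ]; omega) hκ4 hre
      (2 * Real.exp m') (by positivity) (by
        intro u hu
        rw [← h.BB_eq (j + i) u]
        unfold BB
        refine (norm_sub_le _ _).trans ?_
        have h2 := hcut (j + i + 1) (by omega) u hu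
        have h3 := hcut (j + i) (by omega) u hu
        linarith)
    rw [← h.BB_eq (j + i) w, ← hZdef, ← hA] at h1
    have h2 : A ^ S'.card ≤ Real.exp ((H : ℝ) ^ (j + i) * Z / 4) := by
      refine (LW_pow A _ S'.card hA1 hcard).trans ?_
      rw [Real.exp_le_exp, ← hL]
      have h3 : d (j + i) ≤ t * d (j + n) := by
        obtain ⟨r, hr⟩ := Nat.exists_eq_add_of_le hi.le
        have h4 := h.d_le_pow (j + i) r
        have h5 : j + i + r = j + n := by omega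
        rw [h5] at h4
        refine h4.trans (mul_le_mul_of_nonneg_right ?_ hdl.le)
        rw [ht]
        exact pow_le_pow_right₀ (by norm_num) (by omega)
      have h6 : 2 * ((H : ℝ) ^ (j + i + 1) * d (j + i)) * L ≤
          2 * ((H : ℝ) ^ (j + i + 1) * (t * d (j + n))) * L := by
        refine mul_le_mul_of_nonneg_right ?_ hL0
        have := mul_le_mul_of_nonneg_left h3 (h.Hpow_pos (j + i + 1)).le
        linarith
      refine h6.trans ?_
      have h7 : 2 * ((H : ℝ) ^ (j + i + 1) * (t * d (j + n))) * L =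
          (H : ℝ) ^ (j + i) * d (j + n) / 4 * (8 * H * t * L) := by
        rw [pow_succ]; ring
      rw [h7]
      have h8 : (H : ℝ) ^ (j + i) * d (j + n) / 4 * (8 * H * t * L) ≤
          (H : ℝ) ^ (j + i) * d (j + n) / 4 * y :=
        mul_le_mul_of_nonneg_left hstar (by
          have := h.Hpow_pos (j + i)
          positivity)
      refine h8.trans (le_of_eq ?_)
      rw [← hyd]
      ring
    have h3 : Real.exp ((H : ℝ) ^ (j + i) * Z / 4) * Real.exp (-((H : ℝ) ^ (j + i) * Z / 2)) =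
        Real.exp (-((H : ℝ) ^ (j + i) * Z / 4)) := by
      rw [← Real.exp_add]
      congr 1
      ring
    have h4 : Real.exp (-((H : ℝ) ^ (j + i) * Z / 4)) ≤ 4 / (16 : ℝ) ^ i := by
      have h5 : (16 : ℝ) ^ i ≤ (H : ℝ) ^ (j + i) * Z := by
        have h6 : (1 : ℝ) ≤ (H : ℝ) ^ j * Z := hdl1.trans hj
        have h7 : (16 : ℝ) ^ i ≤ (H : ℝ) ^ i := pow_le_pow_left₀ (by norm_num) hH i
        have h8 : (H : ℝ) ^ (j + i) * Z = (H : ℝ) ^ i * ((H : ℝ) ^ j * Z) := by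
          rw [pow_add]; ring
        rw [h8]
        exact h7.trans (le_mul_of_one_le_right (h.Hpow_pos i).le h6)
      have h6 : (0 : ℝ) < 16 ^ i := by positivity
      have h7 : 0 < (H : ℝ) ^ (j + i) * Z := by linarith
      rw [Real.exp_neg, inv_eq_one_div, div_le_div_iff₀ (Real.exp_pos _) h6]
      have h8 := Real.add_one_le_exp ((H : ℝ) ^ (j + i) * Z / 4)
      linarith
    calc ‖BB c K (j + i) w‖ ≤ A ^ S'.card * Real.exp (-((H : ℝ) ^ (j + i) * Z / 2)) *
          (2 * Real.exp m') := h1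
      _ ≤ Real.exp ((H : ℝ) ^ (j + i) * Z / 4) * Real.exp (-((H : ℝ) ^ (j + i) * Z / 2)) *
          (2 * Real.exp m') := by gcongr
      _ = Real.exp (-((H : ℝ) ^ (j + i) * Z / 4)) * (2 * Real.exp m') := by rw [h3]
      _ ≤ 4 / (16 : ℝ) ^ i * (2 * Real.exp m') := by gcongr
      _ = _ := by ring
  -- the lowest part
  have hlow : ‖SS c K j w‖ ≤ Real.exp (m' + (H : ℝ) ^ (j + n) * d (j + n)) := by
    rcases Nat.eq_zero_or_pos j with hj0 | hj0
    · subst hj0
      refine (LW_zero h z w hre).trans ?_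
      refine (hcut 0 (by omega) z (by simp; linarith)).trans ?_
      rw [Real.exp_le_exp]
      linarith
    · obtain ⟨i, rfl⟩ : ∃ i, j = i + 1 := ⟨j - 1, by omega⟩
      have h1 := expSum_left c (suppN c (K (i + 1) + 1)) 0 le_rfl
        (fun m _ => Nat.cast_nonneg m) z w (ρ / 2) κ (by rw [hκ]; omega) hκ4 hre
        (Real.exp m') (Real.exp_pos _).le (hcut (i + 1) (by omega))
      rw [zero_mul, zero_div, neg_zero, Real.exp_zero, mul_one, ← hA] at h1
      have hcard := h.card_low (i + 1)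
      have h2 : A ^ (suppN c (K (i + 1) + 1)).card ≤
          Real.exp ((H : ℝ) ^ (i + 1 + n) * d (i + 1 + n)) := by
        refine (LW_pow A _ _ hA1 hcard).trans ?_
        rw [Real.exp_le_exp, ← hL]
        have h3 : d (i + 1) ≤ t * d (i + 1 + n) := h.d_le_pow (i + 1) n
        have h4 : (H : ℝ) ^ (i + 1) * d (i + 1) * L ≤
            (H : ℝ) ^ (i + 1) * (t * d (i + 1 + n)) * L :=
          mul_le_mul_of_nonneg_right (mul_le_mul_of_nonneg_left h3 (h.Hpow_pos (i + 1)).le) hL0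
        refine h4.trans ?_
        have h5 : (H : ℝ) ^ (i + 1) * (t * d (i + 1 + n)) * L =
            (H : ℝ) ^ i * d (i + 1 + n) / 8 * (8 * H * t * L) := by
          rw [pow_succ]; ring
        rw [h5]
        have h6 : (H : ℝ) ^ i * d (i + 1 + n) / 8 * (8 * H * t * L) ≤
            (H : ℝ) ^ i * d (i + 1 + n) / 8 * y :=
          mul_le_mul_of_nonneg_left hstar (by
            have := h.Hpow_pos i
            positivity)
        refine h6.trans ?_
        have h7 : (H : ℝ) ^ i * d (i + 1 + n) / 8 * y = (H : ℝ) ^ i * Z / 8 := by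
          rw [← hyd]; ring
        rw [h7]
        have h8 := hjmin i (Nat.lt_succ_self i)
        linarith
      have h3 : ‖SS c K (i + 1) w‖ ≤ A ^ (suppN c (K (i + 1) + 1)).card * Real.exp m' := h1
      refine h3.trans ?_
      have h4 : Real.exp (m' + (H : ℝ) ^ (i + 1 + n) * d (i + 1 + n)) =
          Real.exp ((H : ℝ) ^ (i + 1 + n) * d (i + 1 + n)) * Real.exp m' := by
        rw [← Real.exp_add, add_comm]
      rw [h4]
      exact mul_le_mul_of_nonneg_right h2 (Real.exp_pos _).le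
  -- the sum
  have hsum : SS c K (j + n) w = SS c K j w + ∑ i ∈ range n, BB c K (j + i) w := by
    have h1 := Finset.sum_range_sub (fun i => SS c K (j + i) w) n
    simp only [add_zero] at h1
    have h2 : ∀ i, BB c K (j + i) w = SS c K (j + (i + 1)) w - SS c K (j + i) w := fun i => rfl
    simp only [h2]
    rw [h1]
    ring
  have htot : ‖SS c K (j + n) w‖ ≤ Real.exp (m' + (H : ℝ) ^ (j + n) * d (j + n)) +
      2 * Real.exp m' * 5 := by
    rw [hsum]
    refine (norm_add_le _ _).trans (add_le_add hlow ?_)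
    refine (norm_sum_le _ _).trans ?_
    refine (Finset.sum_le_sum hblock).trans ?_
    rw [← Finset.mul_sum]
    exact mul_le_mul_of_nonneg_left (LW_geom n) (by positivity)
  refine htot.trans ?_
  set x := (H : ℝ) ^ (j + n) * d (j + n) with hx
  have h1 : Real.exp (m' + x) + 2 * Real.exp m' * 5 ≤ Real.exp m' * (11 * Real.exp x) := by
    rw [Real.exp_add]
    have h2 : 1 ≤ Real.exp x := Real.one_le_exp (by linarith)
    nlinarith [Real.exp_pos m']
  refine h1.trans ?_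
  have h3 : 11 ≤ Real.exp (3 * x) := by
    have h4 : Real.exp 3 ≤ Real.exp (3 * x) := Real.exp_le_exp.2 (by linarith)
    have h5 : (11 : ℝ) ≤ Real.exp 3 := by
      have h6 : Real.exp 3 = Real.exp 1 ^ 3 := by
        rw [← Real.exp_nat_mul]; norm_num
      rw [h6]
      have h7 := Real.exp_one_gt_d9
      have h8 : (2.7 : ℝ) ≤ Real.exp 1 := by linarith
      calc (11 : ℝ) ≤ 2.7 ^ 3 := by norm_num
        _ ≤ Real.exp 1 ^ 3 := pow_le_pow_left₀ (by norm_num) h8 3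
    linarith
  calc Real.exp m' * (11 * Real.exp x) ≤ Real.exp m' * (Real.exp (3 * x) * Real.exp x) := by
        gcongr
    _ = Real.exp (m' + 4 * x) := by
        rw [← Real.exp_add, ← Real.exp_add]
        congr 1
        ring
    _ ≤ Real.exp (m + 140 * x) := by
        rw [Real.exp_le_exp, hm']
        linarith

end Pool.Agent.Mac
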