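import Pool.Agent.Mac.RemP

set_option autoImplicit false

/-!
# Remez inequality on an annulus
-/

namespace Pool.Agent.Mac

theorem remP_all : ∃ CR : ℝ, 0 < CR ∧ RemP CR := ⟨500, by norm_num, remP⟩

end Pool.Agent.Mac
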