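import Pool.Agent.Mac.Poly

set_option autoImplicit false

/-!
# The arc, free points, touch points, regions, states
-/

namespace Pool.Agent.Mac

open Finset Filter Topology
open Pool.Agent.MP_e061a3_an Pool.Agent.GapReg

/-- The data of the walk. -/
structure Arc (y : Sys) where
  a : ℕ
  m : ℕ
  e : ℂ
  k : ℂ
  G : Set ℂ
  XL : ℝ
  ha : y.a0 ≤ a
  ham : a < m
  cpt : IsCompact G
  e_mem : e ∈ G
  k_mem : k ∈ G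
  join : ∀ z ∈ G, ∀ w ∈ G, PJ G z w
  one : ∀ z ∈ G, ‖y.F z‖ ≤ 1
  reach : ∀ z ∈ G, Reach y.F z
  lt : e.im < k.im
  wide : y.k.C30 * y.r m ≤ k.im - e.im
  w1 : Bd y.F (y.s m) (Cn 1 1 k)
  w2 : ∀ z ∈ G, z ∈ Cn 2 2 (sh k (y.k.C2 * y.r m)) → z = e
  w3 : e.re = k.re - y.k.C2 * y.r m - 2 * (k.im - e.im) ∨
    (Bd y.F (y.s a) (Cn 1 1 e) ∧ e ∉ Cn 2 2 (sh k (y.k.C2 * y.r m)))
  left : ∀ w : ℂ, w.re ≤ XL → ‖y.F w‖ ≤ 1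
  far : ∀ z ∈ G, XL + 10 + 10 * (k.im - e.im) < z.re

namespace Arc

variable {y : Sys} (A : Arc y)

/-- The vertical size. -/
noncomputable def Lam : ℝ := A.k.im - A.e.im

/-- No point of the arc (below the top) in the touch cone. -/
def Free (z : ℂ) : Prop := ∀ w ∈ A.G, w.im ≤ A.k.im → w ∉ Cn (1 / 2) 50 z

/-- Touch points. -/
def Touch (q : ℂ) : Prop :=
  q ∈ A.G ∧ q.im ≤ A.k.im ∧ ∀ w ∈ A.G, w.im ≤ A.k.im → w ∉ Co (1 / 2) 50 q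

/-- A barrier for `(q, ρ, M)`. -/
def Barr (q : ℂ) (ρ M : ℝ) : Prop :=
  PJ (A.G ∪ {z | ‖z - q‖ ≤ ρ ∧ ‖y.F z‖ ≤ Real.exp M}) A.e (sh q ρ)

/-- A region attached to a barrier. -/
structure Reg (q : ℂ) (ρ M : ℝ) (W : Set ℂ) : Prop where
  isOpen : IsOpen W
  bound : Bd y.F M W
  front : ∀ z ∈ frontier W, z ∈ A.G ∨ ‖z - q‖ ≤ ρ ∨ z.im = A.e.im ∨
    (z.im = q.im ∧ z.re ≤ q.re - ρ) ∨ z.re = A.XL
  inn : ∀ w : ℂ, A.XL < w.re → A.e.im < w.im → w.im < q.im →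
    (∀ z ∈ A.G, z.im = w.im → w.re < z.re) →
    (∀ z : ℂ, ‖z - q‖ ≤ ρ → z.im = w.im → w.re < z.re) → w ∈ W
  out : ∀ w : ℂ, A.XL < w.re → q.im < w.im →
    (∀ z ∈ A.G, z.im = w.im → w.re < z.re) →
    (∀ z : ℂ, ‖z - q‖ ≤ ρ → z.im = w.im → w.re < z.re) → w ∉ W

/-- `η(q)`. -/
noncomputable def eta (q : ℂ) : ℝ := A.k.im - q.im

/-- The depth which has been lost at the top end `k`. -/
noncomputable def lam (q : ℂ) (l : ℕ) : ℝ :=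
  y.k.C31 * (A.eta q + y.r A.m) + y.k.C37 * y.r l

/-- A state of the walk. -/
structure State (q : ℂ) (l : ℕ) : Prop where
  touch : A.Touch q
  la : A.a ≤ l
  lm : l ≤ A.m
  eta_le : A.eta q ≤ A.Lam / 8
  lam_le : A.lam q l ≤ A.Lam / 2
  s1 : Bd y.F (2 * y.s l) (Cn 1 100 (sh q (y.k.C1 * y.r l)))
  s2 : A.Barr q (y.k.C1 * y.r l) (2 * y.s l)
  s3 : Bd y.F (2 * y.s l) (Cn 1 1 (sh A.k (A.lam q l)))
  s4 : y.k.X * y.r A.m ≤ A.eta q ∨ y.r A.m ≤ y.r l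

/-- Hypotheses of the drop lemma. -/
structure DH (q : ℂ) (l : ℕ) (h1 : ℝ) (jst : ℕ) : Prop where
  st : A.State q l
  lt : jst < l
  a_le : A.a ≤ jst
  lo : y.k.C33 * y.r l ≤ h1
  hi : h1 ≤ A.Lam / 10
  one : h1 ≤ 1
  free : A.Free ⟨q.re + h1 / 50, q.im - h1 / 20⟩
  thin : ∀ j, jst < j → j < l → y.r j ≤ y.k.c13 * h1

/-- Invariants of the drop lemma at the level `j`. -/
structure Inv (q : ℂ) (l : ℕ) (j : ℕ) : Prop where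
  a : A.Barr q (2 * (y.k.C3 * y.r l)) (2 * y.s j)
  b : Bd y.F (2 * y.s j) (Cn 1 100 (sh q (y.k.C3 * y.r l)))
  c : Bd y.F (2 * y.s j) (Cn 1 1 (sh A.k (A.lam q l + y.k.C4 * y.r l)))

end Arc

/-- The centre of the tent ball. -/
noncomputable def zT (q : ℂ) (h1 : ℝ) : ℂ := ⟨q.re + 3 * h1 / 200, q.im - h1 / 20⟩

/-- Result of 10.1 (`M = 2 s_j`). -/
structure Tent (y : Sys) (q : ℂ) (l : ℕ) (h1 M : ℝ) (i : ℕ) : Prop where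
  il : i ≤ l
  hi : (y.k.H : ℝ) ^ i * h1 ≤ y.k.H * y.k.C4 * M
  di : y.d i ≤ y.k.sig * h1
  low : ∀ z : ℂ, ‖z - zT q h1‖ ≤ 8 * ((zT q h1).re - z.re) → ‖y.S i z‖ ≤ Real.exp (11 / 10 * M)
  blk : ∀ z : ℂ, ‖z - zT q h1‖ ≤ 8 * ((zT q h1).re - z.re) → h1 / 1000 ≤ (zT q h1).re - z.re →
    ‖y.S l z - y.S i z‖ ≤ Real.exp (-(y.k.C4 * M / 8000))

/-- Result of 10.2. -/
structure Near (y : Sys) (q : ℂ) (l : ℕ) (h1 M : ℝ) (i : ℕ) : Prop where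
  tent : Tent y q l h1 M i
  si : ∀ u : ℂ, ‖u - q‖ ≤ 2 * (y.k.eps1 * h1) → ‖y.S i u‖ ≤ Real.exp (3 * (y.k.del * M) / 4)
  sl : ∀ u : ℂ, ‖u - q‖ ≤ 2 * (y.k.eps1 * h1) → ‖y.S l u‖ ≤ Real.exp (y.k.del * M)

end Pool.Agent.Mac
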