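import Pool.Agent.Mac.WalkDef
import Pool.Agent.GapReg.Index

set_option autoImplicit false

/-!
# Module ARC: arcs of a polygonal curve; last visit
-/

namespace Pool.Agent.Mac

open Finset Filter Topology
open Pool.Agent.MP_e061a3_an Pool.Agent.GapReg

/-- The curve is affine between consecutive integers. -/
def Polyg (Γ : ℝ → ℂ) : Prop :=
  ∀ (n : ℕ) (s : ℝ), 0 ≤ s → s ≤ 1 →
    Γ ((n : ℝ) + s) = (1 - (s : ℂ)) * Γ n + (s : ℂ) * Γ ((n : ℝ) + 1)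

/-- a segment as a polygon -/
lemma Arc_of_segment {U : Set ℂ} {a b : ℂ} (h : segment ℝ a b ⊆ U) :
    ∃ (v : ℕ → ℂ) (n : ℕ), 0 < n ∧ v 0 = a ∧ v n = b ∧ Poly v n ⊆ U := by
  refine ⟨fun k => if k = 0 then a else b, 1, one_pos, by simp, by simp, ?_⟩
  rintro z ⟨k, hk, hz⟩
  have : k = 0 := by omega
  subst this
  exact h (by simpa using hz)

/-- concatenation of polygons -/
lemma Arc_trans {U : Set ℂ} {a b c : ℂ}
    (h : ∃ (v : ℕ → ℂ) (n : ℕ), 0 < n ∧ v 0 = a ∧ v n = b ∧ Poly v n ⊆ U)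
    (h' : ∃ (v : ℕ → ℂ) (n : ℕ), 0 < n ∧ v 0 = b ∧ v n = c ∧ Poly v n ⊆ U) :
    ∃ (v : ℕ → ℂ) (n : ℕ), 0 < n ∧ v 0 = a ∧ v n = c ∧ Poly v n ⊆ U := by
  obtain ⟨v, n, h0, h1, h2, h3⟩ := h
  obtain ⟨v', n', h0', h1', h2', h3'⟩ := h'
  refine ⟨fun k => if k ≤ n then v k else v' (k - n), n + n', by omega, by simp [h1], ?_, ?_⟩
  · have : ¬ (n + n' ≤ n) := by omega
    simp only [this, if_false, Nat.add_sub_cancel_left]
    exact h2'
  · rintro z ⟨k, hk, hz⟩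
    by_cases hkn : k < n
    · apply h3
      refine ⟨k, hkn, ?_⟩
      have e1 : k ≤ n := by omega
      have e2 : k + 1 ≤ n := by omega
      simpa [e1, e2] using hz
    · apply h3'
      refine ⟨k - n, by omega, ?_⟩
      have e2 : ¬ (k + 1 ≤ n) := by omega
      have e3 : k + 1 - n = k - n + 1 := by omega
      by_cases hk2 : k ≤ n
      · have e4 : k = n := by omega
        subst e4
        simp only [le_refl, if_true, e2, if_false, Nat.sub_self, zero_add] at hz ⊢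
        rw [h1', ← h2]
        have e5 : k + 1 - k = 1 := by omega
        rw [e5] at hz
        exact hz
      · simp only [hk2, if_false, e2, e3] at hz
        exact hz

/-- a piece of a side -/
lemma Arc_side (Γ : ℝ → ℂ) (hΓ : Polyg Γ) (i : ℕ) (a b : ℝ) (ha : (i : ℝ) ≤ a) (hab : a ≤ b)
    (hb : b ≤ (i : ℝ) + 1) : segment ℝ (Γ a) (Γ b) ⊆ Γ '' Set.Icc a b := by
  rintro z ⟨x, y, hx, hy, hxy, rfl⟩
  refine ⟨x * a + y * b, ⟨?_, ?_⟩, ?_⟩
  · have h1 : y * a ≤ y * b := mul_le_mul_of_nonneg_left hab hy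
    have h2 : x * a + y * a = a := by rw [← add_mul, hxy, one_mul]
    linarith
  · have h1 : x * a ≤ x * b := mul_le_mul_of_nonneg_left hab hx
    have h2 : x * b + y * b = b := by rw [← add_mul, hxy, one_mul]
    linarith
  · have e1 := hΓ i (a - i) (by linarith) (by linarith)
    have e2 := hΓ i (b - i) (by linarith) (by linarith)
    have hx' : x = 1 - y := by linarith
    have h3 : (i : ℝ) ≤ x * a + y * b := by
      have h1 : y * a ≤ y * b := mul_le_mul_of_nonneg_left hab hy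
      have h2 : x * a + y * a = a := by rw [← add_mul, hxy, one_mul]
      linarith
    have h4 : x * a + y * b ≤ (i : ℝ) + 1 := by
      have h1 : x * a ≤ x * b := mul_le_mul_of_nonneg_left hab hx
      have h2 : x * b + y * b = b := by rw [← add_mul, hxy, one_mul]
      linarith
    have e3 := hΓ i (x * a + y * b - i) (by linarith) (by linarith)
    rw [add_sub_cancel] at e1 e2 e3
    rw [e1, e2, e3, Complex.real_smul, Complex.real_smul]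
    subst hx'
    push_cast
    ring

/-
HINT. Let i := ⌊t₁⌋₊, j := ⌈t₂⌉₊ (i < j), n := j - i, v 0 := Γ t₁, v n := Γ t₂, v k := Γ (i + k) for
0 < k < n. Every side is a piece of a segment on which Γ is affine (parameters in [t₁, t₂]).
-/
theorem exists_arc (Γ : ℝ → ℂ) (hΓ : Polyg Γ) (t₁ t₂ : ℝ) (h1 : 0 ≤ t₁) (h12 : t₁ < t₂) :
    ∃ (v : ℕ → ℂ) (n : ℕ), 0 < n ∧ v 0 = Γ t₁ ∧ v n = Γ t₂ ∧
      ∀ z ∈ Poly v n, ∃ t ∈ Set.Icc t₁ t₂, Γ t = z := by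
  have key : ∀ (N : ℕ) (t : ℝ), 0 ≤ t → t < t₂ → t₂ ≤ (⌊t⌋₊ : ℝ) + N + 1 →
      ∃ (v : ℕ → ℂ) (n : ℕ), 0 < n ∧ v 0 = Γ t ∧ v n = Γ t₂ ∧
        Poly v n ⊆ Γ '' Set.Icc t t₂ := by
    intro N
    induction N with
    | zero =>
      intro t ht0 htt ht2
      apply Arc_of_segment
      exact Arc_side Γ hΓ ⌊t⌋₊ t t₂ (Nat.floor_le ht0) htt.le (by simpa using ht2)
    | succ N ih =>
      intro t ht0 htt ht2
      by_cases hc : t₂ ≤ (⌊t⌋₊ : ℝ) + 1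
      · apply Arc_of_segment
        exact Arc_side Γ hΓ ⌊t⌋₊ t t₂ (Nat.floor_le ht0) htt.le hc
      · push Not at hc
        have hfl : ⌊(⌊t⌋₊ : ℝ) + 1⌋₊ = ⌊t⌋₊ + 1 := by
          have : ((⌊t⌋₊ : ℝ) + 1) = ((⌊t⌋₊ + 1 : ℕ) : ℝ) := by push_cast; ring
          rw [this, Nat.floor_natCast]
        have hlt : t < (⌊t⌋₊ : ℝ) + 1 := Nat.lt_floor_add_one t
        have h3 := ih ((⌊t⌋₊ : ℝ) + 1) (by positivity) hc (by
          rw [hfl]
          push_cast at ht2 ⊢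
          linarith)
        have h4 : segment ℝ (Γ t) (Γ ((⌊t⌋₊ : ℝ) + 1)) ⊆ Γ '' Set.Icc t t₂ :=
          (Arc_side Γ hΓ ⌊t⌋₊ t _ (Nat.floor_le ht0) hlt.le le_rfl).trans
            (Set.image_mono (Set.Icc_subset_Icc_right hc.le))
        refine Arc_trans (Arc_of_segment h4) ?_
        obtain ⟨v, n, h5, h6, h7, h8⟩ := h3
        exact ⟨v, n, h5, h6, h7, h8.trans (Set.image_mono (Set.Icc_subset_Icc_left hlt.le))⟩
  obtain ⟨v, n, h5, h6, h7, h8⟩ := key ⌈t₂⌉₊ t₁ h1 h12 (by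
    have h9 : t₂ ≤ (⌈t₂⌉₊ : ℝ) := Nat.le_ceil t₂
    have h10 : (0 : ℝ) ≤ (⌊t₁⌋₊ : ℝ) := Nat.cast_nonneg _
    linarith)
  exact ⟨v, n, h5, h6, h7, fun z hz => h8 hz⟩

/-- The last visit of a closed set before the time `t`. -/
theorem last_visit (Γ : ℝ → ℂ) (hΓ : ContinuousOn Γ (Set.Ici 0)) (Z : Set ℂ) (hZ : IsClosed Z)
    (t : ℝ) (ht : 0 ≤ t) (h0 : Γ 0 ∈ Z) (h1 : Γ t ∉ Z) :
    ∃ t₁ : ℝ, 0 ≤ t₁ ∧ t₁ < t ∧ Γ t₁ ∈ Z ∧ ∀ s, t₁ < s → s ≤ t → Γ s ∉ Z := by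
  have hc : ContinuousOn Γ (Set.Icc 0 t) := hΓ.mono fun x hx => hx.1
  have hcl : IsClosed (Set.Icc 0 t ∩ Γ ⁻¹' Z) := hc.preimage_isClosed_of_isClosed isClosed_Icc hZ
  have hcpt : IsCompact (Set.Icc 0 t ∩ Γ ⁻¹' Z) :=
    isCompact_Icc.of_isClosed_subset hcl Set.inter_subset_left
  obtain ⟨x, hx, hxg⟩ := hcpt.exists_isGreatest ⟨0, ⟨le_rfl, ht⟩, h0⟩
  refine ⟨x, hx.1.1, lt_of_le_of_ne hx.1.2 ?_, hx.2, fun s hs hst hsZ => ?_⟩
  · rintro rfl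
    exact h1 hx.2
  · have : s ≤ x := hxg ⟨⟨hx.1.1.trans hs.le, hst⟩, hsZ⟩
    linarith

end Pool.Agent.Mac
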