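import Pool.Agent.Mac.CLeft

set_option autoImplicit false

/-!
# Module END: the end of the proof (periodicity)
-/

namespace Pool.Agent.Mac

open Finset Filter Topology
open Pool.Agent.MP_e061a3_an Pool.Agent.GapReg

/-- periodicity of the lifted function -/
theorem CEnd_periodic (c : ℕ → ℂ) (w : ℂ) (n : ℤ) :
    Fs c (w + n * (2 * Real.pi * Complex.I)) = Fs c w := by
  unfold Fs
  have h : Complex.exp (w + n * (2 * Real.pi * Complex.I)) = Complex.exp w := by
    rw [Complex.exp_add, Complex.exp_int_mul_two_pi_mul_I, mul_one]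
  rw [h]

/-
HINT. Rs d sig a m ≤ ∑' j, d j/sig =: T for all m. For t with (Γ t).re > X0 + C T: `exists_level` (x = (Γ t).re) gives
m ≥ a with ‖F‖ ≤ e^{sz m} on the half plane, which contains Cn 1 1 (Γ t) (`cn_re_le`). So hmc gives
‖F‖ ≤ e^{2 sz a} on Cn 1 1 (Γ t - C R(a,m)) ⊇ Cn 1 1 (Γ t - C T). These cones contain full periods: for every w with
w.re ≤ (Γ t).re - C T - 4 there is n ∈ ℤ with w + 2πi n ∈ Cn 1 1 (Γ t - C T) (|Im| ≤ π ≤ 4), and F is
2πi-periodic. (Γ t).re → ∞, so ‖F w‖ ≤ e^{2 sz a} =: B for all w. `cauchy_bound`: ‖c q‖ e^{q x} ≤ B for all x, so c q = 0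
for q ≥ 1; c 0 = 0 (h.zero). Contradiction to hne.
-/
theorem end_contra (c : ℕ → ℂ) (H : ℕ) (d : ℕ → ℝ) (K : ℕ → ℕ) (h : Lev c H d K)
    (hne : ∃ m, c m ≠ 0) (sig : ℝ) (hsig : 0 < sig) (hd : Summable d) (Γ : ℝ → ℂ)
    (hinf : Tendsto (fun t => (Γ t).re) atTop atTop) (a : ℕ) (C X0 : ℝ) (hC : 0 ≤ C)
    (hmc : ∀ m : ℕ, a ≤ m → ∀ t : ℝ, 0 ≤ t → Bd (Fs c) (sz H d sig m) (Cn 1 1 (Γ t)) →
      Bd (Fs c) (2 * sz H d sig a) (Cn 1 1 (Γ t - ((C * Rs d sig a m : ℝ) : ℂ))) ∨
        (Γ t).re ≤ X0 + C * Rs d sig a m) : False := by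
  have hpos : ∀ j, 0 ≤ d j / sig := fun j => (div_pos (h.d_pos j) hsig).le
  have hsum : Summable (fun j => d j / sig) := hd.div_const sig
  set T : ℝ := ∑' j, d j / sig with hT
  have hRs : ∀ m, Rs d sig a m ≤ T := by
    intro m
    unfold Rs rr
    exact hsum.sum_le_tsum _ (fun j _ => hpos j)
  have hCRs : ∀ m, C * Rs d sig a m ≤ C * T := fun m => mul_le_mul_of_nonneg_left (hRs m) hC
  -- the global bound
  have hglob : ∀ w : ℂ, ‖Fs c w‖ ≤ Real.exp (2 * sz H d sig a) := by
    intro w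
    obtain ⟨t, ht0, ht1⟩ := ((eventually_ge_atTop (0 : ℝ)).and
      (hinf.eventually_ge_atTop (max (X0 + C * T + 1) (w.re + C * T + 4)))).exists
    have ht2 : X0 + C * T + 1 ≤ (Γ t).re := (le_max_left _ _).trans ht1
    have ht3 : w.re + C * T + 4 ≤ (Γ t).re := (le_max_right _ _).trans ht1
    obtain ⟨m, ham, hm⟩ := exists_level h sig hsig (Γ t).re a
    have hB1 : Bd (Fs c) (sz H d sig m) (Cn 1 1 (Γ t)) := by
      intro z hz
      exact hm z (cn_re_le zero_le_one zero_le_one hz)
    rcases hmc m ham t ht0 hB1 with h1 | h1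
    · -- the period
      set n : ℤ := round (((Γ t).im - w.im) / (2 * Real.pi)) with hn
      have hpi := Real.pi_pos
      have hpi4 := Real.pi_le_four
      have hround := abs_sub_round (((Γ t).im - w.im) / (2 * Real.pi))
      rw [← hn] at hround
      have him : |(Γ t).im - w.im - n * (2 * Real.pi)| ≤ Real.pi := by
        have e : (Γ t).im - w.im - n * (2 * Real.pi) =
            (((Γ t).im - w.im) / (2 * Real.pi) - n) * (2 * Real.pi) := by
          field_simp
        rw [e, abs_mul, abs_of_pos (by linarith : (0 : ℝ) < 2 * Real.pi)]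
        calc |((Γ t).im - w.im) / (2 * Real.pi) - n| * (2 * Real.pi)
            ≤ 1 / 2 * (2 * Real.pi) := mul_le_mul_of_nonneg_right hround (by linarith)
          _ = Real.pi := by ring
      rw [abs_le] at him
      have hz : w + n * (2 * Real.pi * Complex.I) ∈
          Cn 1 1 (Γ t - ((C * Rs d sig a m : ℝ) : ℂ)) := by
        have hr : (w + n * (2 * Real.pi * Complex.I)).re = w.re := by simp
        have hi : (w + n * (2 * Real.pi * Complex.I)).im = w.im + n * (2 * Real.pi) := by simp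
        have hr2 : (Γ t - ((C * Rs d sig a m : ℝ) : ℂ)).re = (Γ t).re - C * Rs d sig a m := by
          rw [Complex.sub_re, Complex.ofReal_re]
        have hi2 : (Γ t - ((C * Rs d sig a m : ℝ) : ℂ)).im = (Γ t).im := by
          rw [Complex.sub_im, Complex.ofReal_im, sub_zero]
        have h2 := hCRs m
        constructor
        · rw [hr, hi, hr2, hi2]
          linarith
        · rw [hr, hi, hr2, hi2]
          linarith
      have h3 := h1 _ hz
      rw [CEnd_periodic] at h3
      exact h3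
    · exfalso
      have h2 := hCRs m
      linarith
  -- all coefficients vanish
  obtain ⟨q, hq⟩ := hne
  have hq0 : 0 < q := h.pos_of_ne hq
  have hqr : (0 : ℝ) < q := by exact_mod_cast hq0
  set B := Real.exp (2 * sz H d sig a) with hB
  have hBpos : 0 < B := Real.exp_pos _
  have hcq : 0 < ‖c q‖ := norm_pos_iff.mpr hq
  have h4 := cauchy_bound c h.ent (Real.log ((B + 1) / ‖c q‖) / q) B (fun w _ => hglob w) q hBpos.le
  have h5 : (q : ℝ) * (Real.log ((B + 1) / ‖c q‖) / q) = Real.log ((B + 1) / ‖c q‖) := by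
    field_simp
  rw [h5, Real.exp_log (div_pos (by linarith) hcq)] at h4
  have h6 : ‖c q‖ * ((B + 1) / ‖c q‖) = B + 1 := by
    field_simp
  rw [h6] at h4
  linarith

end Pool.Agent.Mac
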