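import Pool.Agent.Mac.Defs
import Pool.Agent.GapReg.FsBasic

set_option autoImplicit false

/-!
# Cones and levels: elementary facts
-/

namespace Pool.Agent.Mac

open Finset Filter Topology
open Pool.Agent.MP_e061a3_an Pool.Agent.GapReg

/-! ## Cones -/

theorem mem_cn {al be : ℝ} {p w : ℂ} :
    w ∈ Cn al be p ↔ al * (w.im - p.im) ≤ p.re - w.re ∧ be * (p.im - w.im) ≤ p.re - w.re :=
  Iff.rfl

theorem cn_self (al be : ℝ) (p : ℂ) : p ∈ Cn al be p := by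
  simp [mem_cn]

theorem cn_re_le {al be : ℝ} (hal : 0 ≤ al) (hbe : 0 ≤ be) {p w : ℂ} (h : w ∈ Cn al be p) :
    w.re ≤ p.re := by
  obtain ⟨h1, h2⟩ := h
  rcases le_total w.im p.im with h3 | h3
  · nlinarith
  · nlinarith

/-- (C1) -/
theorem cn_trans {al be : ℝ} {p w : ℂ} (h : w ∈ Cn al be p) : Cn al be w ⊆ Cn al be p := by
  intro u hu
  obtain ⟨h1, h2⟩ := h
  obtain ⟨h3, h4⟩ := hu
  constructor <;> linarith

theorem cn_sub {al be : ℝ} (p : ℂ) {s t : ℝ} (h : t ≤ s) :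
    Cn al be (p - (s : ℂ)) ⊆ Cn al be (p - (t : ℂ)) := by
  intro u hu
  obtain ⟨h3, h4⟩ := hu
  simp only [Complex.sub_re, Complex.sub_im, Complex.ofReal_re, Complex.ofReal_im] at h3 h4
  constructor <;>
  · simp only [Complex.sub_re, Complex.sub_im, Complex.ofReal_re, Complex.ofReal_im]
    linarith

theorem cn_sub_zero {al be : ℝ} (p : ℂ) {s : ℝ} (h : 0 ≤ s) :
    Cn al be (p - (s : ℂ)) ⊆ Cn al be p := by
  have := cn_sub (al := al) (be := be) p h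
  simpa using this

theorem cn_shift {al be : ℝ} {p w : ℂ} {s t : ℝ} (h : w ∈ Cn al be (p - (s : ℂ))) :
    w - (t : ℂ) ∈ Cn al be (p - ((s + t : ℝ) : ℂ)) := by
  obtain ⟨h3, h4⟩ := h
  simp only [Complex.sub_re, Complex.sub_im, Complex.ofReal_re, Complex.ofReal_im] at h3 h4
  constructor <;>
  · simp only [Complex.sub_re, Complex.sub_im, Complex.ofReal_re, Complex.ofReal_im]
    linarith

/-- (C2) -/
theorem cn_thick {al be : ℝ} (hal : 0 ≤ al) (hal' : al ≤ 100) (hbe : 0 ≤ be) (hbe' : be ≤ 100)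
    {p w u : ℂ} {t : ℝ} (h : w ∈ Cn al be (p - (t : ℂ))) (hu : ‖u - w‖ ≤ t / 102) :
    u ∈ Cn al be p := by
  obtain ⟨h3, h4⟩ := h
  simp only [Complex.sub_re, Complex.sub_im, Complex.ofReal_re, Complex.ofReal_im] at h3 h4
  have h0 : 0 ≤ t / 102 := (norm_nonneg _).trans hu
  have h1 := abs_le.mp ((Complex.abs_re_le_norm (u - w)).trans hu)
  have h2 := abs_le.mp ((Complex.abs_im_le_norm (u - w)).trans hu)
  simp only [Complex.sub_re, Complex.sub_im] at h1 h2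
  constructor
  · nlinarith
  · nlinarith

/-- The same with two depths. -/
theorem cn_thick' {al be : ℝ} (hal : 0 ≤ al) (hal' : al ≤ 100) (hbe : 0 ≤ be) (hbe' : be ≤ 100)
    {p w u : ℂ} {s t : ℝ} (h : w ∈ Cn al be (p - (s : ℂ))) (hu : ‖u - w‖ ≤ (s - t) / 102) :
    u ∈ Cn al be (p - (t : ℂ)) := by
  refine cn_thick hal hal' hbe hbe' (w := w) (t := s - t) ?_ hu
  obtain ⟨h3, h4⟩ := h
  simp only [Complex.sub_re, Complex.sub_im, Complex.ofReal_re, Complex.ofReal_im] at h3 h4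
  constructor <;>
  · simp only [Complex.sub_re, Complex.sub_im, Complex.ofReal_re, Complex.ofReal_im]
    linarith

/-! ## Bounds -/

theorem Bd.mono {F : ℂ → ℂ} {M M' : ℝ} {U V : Set ℂ} (h : Bd F M U) (hM : M ≤ M') (hV : V ⊆ U) :
    Bd F M' V := fun w hw => (h w (hV hw)).trans (Real.exp_le_exp.mpr hM)

/-! ## Levels -/

section Levels

variable {c : ℕ → ℂ} {H : ℕ} {d : ℕ → ℝ} {K : ℕ → ℕ}

theorem Lev.H_real (h : Lev c H d K) : (16 : ℝ) ≤ H := by exact_mod_cast h.H_ge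

theorem Lev.Hpow_pos (h : Lev c H d K) (l : ℕ) : (0 : ℝ) < (H : ℝ) ^ l := by
  have := h.H_real
  positivity

theorem Lev.one_le_Hpow (h : Lev c H d K) (l : ℕ) : (1 : ℝ) ≤ (H : ℝ) ^ l :=
  one_le_pow₀ (by linarith [h.H_real])

theorem Lev.diff_Fs (h : Lev c H d K) : Differentiable ℂ (Fs c) := differentiable_Fs c h.ent

theorem Lev.diff_SS (_h : Lev c H d K) (l : ℕ) : Differentiable ℂ (SS c K l) :=
  differentiable_expSum c _

theorem Lev.diff_RR (h : Lev c H d K) (l : ℕ) : Differentiable ℂ (RR c K l) :=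
  h.diff_Fs.sub (h.diff_SS l)

theorem Lev.diff_BB (h : Lev c H d K) (l : ℕ) : Differentiable ℂ (BB c K l) :=
  (h.diff_SS (l + 1)).sub (h.diff_SS l)

theorem Fs_eq (c : ℕ → ℂ) (K : ℕ → ℕ) (l : ℕ) (w : ℂ) : Fs c w = SS c K l w + RR c K l w := by
  unfold RR; ring

theorem RR_eq (c : ℕ → ℂ) (K : ℕ → ℕ) (l : ℕ) (w : ℂ) :
    RR c K l w = BB c K l w + RR c K (l + 1) w := by
  unfold RR BB; ring

theorem Lev.K_lt_succ (h : Lev c H d K) (l : ℕ) : 2 * H ^ l < K (l + 1) := by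
  have h1 := h.K_ge (l + 1)
  have h2 : 16 * H ^ l ≤ H ^ (l + 1) := by
    rw [pow_succ, mul_comm]
    exact Nat.mul_le_mul_left _ h.H_ge
  have h3 : 0 < H ^ l := pow_pos (by have := h.H_ge; omega) l
  omega

theorem Lev.K_mono (h : Lev c H d K) : StrictMono K := by
  refine strictMono_nat_of_lt_succ (fun l => ?_)
  have := h.K_lt_succ l
  have := h.K_lt l
  omega

/-- The exponents of `SS l`. -/
theorem mem_low {c : ℕ → ℂ} {K : ℕ → ℕ} {l m : ℕ} :
    m ∈ suppN c (K l + 1) ↔ m ≤ K l ∧ c m ≠ 0 := by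
  rw [mem_suppN]
  constructor
  · rintro ⟨h1, h2⟩; exact ⟨by omega, h2⟩
  · rintro ⟨h1, h2⟩; exact ⟨by omega, h2⟩

theorem Lev.low_lt (h : Lev c H d K) {l m : ℕ} (hm : m ∈ suppN c (K l + 1)) :
    c m ≠ 0 ∧ m < H ^ (l + 1) := by
  obtain ⟨h1, h2⟩ := mem_low.mp hm
  refine ⟨h2, ?_⟩
  have h3 := h.K_lt l
  have h4 : 16 * H ^ l ≤ H ^ (l + 1) := by
    rw [pow_succ, mul_comm]
    exact Nat.mul_le_mul_left _ h.H_ge
  omega

theorem Lev.low_le (h : Lev c H d K) {l m : ℕ} (hm : m ∈ suppN c (K l + 1)) :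
    (m : ℝ) ≤ 2 * (H : ℝ) ^ l := by
  obtain ⟨h1, h2⟩ := mem_low.mp hm
  have h3 := h.K_lt l
  have h4 : m ≤ 2 * H ^ l := by omega
  exact_mod_cast h4

theorem Lev.pos_of_ne (h : Lev c H d K) {m : ℕ} (hm : c m ≠ 0) : 0 < m := by
  rcases Nat.eq_zero_or_pos m with h0 | h0
  · subst h0; exact absurd h.zero hm
  · exact h0

theorem Lev.card_low (h : Lev c H d K) (l : ℕ) :
    ((suppN c (K l + 1)).card : ℝ) ≤ (H : ℝ) ^ l * d l :=
  h.card_le l _ (fun _ hm => h.low_lt hm)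

/-- Cutting the set of `SS l` at a lower level. -/
theorem Lev.low_filter (h : Lev c H d K) {i l : ℕ} (hil : i ≤ l) :
    (suppN c (K l + 1)).filter (fun m : ℕ => (m : ℝ) < (K i : ℝ) + 1 / 2)
      = suppN c (K i + 1) := by
  have hK : K i ≤ K l := h.K_mono.monotone hil
  ext m
  rw [Finset.mem_filter, mem_low, mem_low]
  constructor
  · rintro ⟨⟨_, h2⟩, h3⟩
    refine ⟨?_, h2⟩
    by_contra h4
    have h5 : K i + 1 ≤ m := by omega
    have h6 : ((K i : ℝ)) + 1 ≤ m := by exact_mod_cast h5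
    linarith
  · rintro ⟨h1, h2⟩
    refine ⟨⟨h1.trans hK, h2⟩, ?_⟩
    have h6 : (m : ℝ) ≤ K i := by exact_mod_cast h1
    linarith

/-- The exponents of the block `BB l`. -/
theorem Lev.BB_eq (h : Lev c H d K) (l : ℕ) (w : ℂ) :
    BB c K l w = expSum c ((suppN c (K (l + 1) + 1)).filter (fun m => K l < m)) w := by
  have hsplit := Finset.sum_filter_add_sum_filter_not (suppN c (K (l + 1) + 1))
    (fun m => K l < m) (fun m => c m * Complex.exp (m * w))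
  have e2 : (suppN c (K (l + 1) + 1)).filter (fun m => ¬ K l < m) = suppN c (K l + 1) := by
    ext m
    rw [Finset.mem_filter, mem_low, mem_low]
    have hK : K l < K (l + 1) := h.K_mono (Nat.lt_succ_self l)
    constructor
    · rintro ⟨⟨_, h2⟩, h3⟩; exact ⟨by omega, h2⟩
    · rintro ⟨h1, h2⟩; exact ⟨⟨by omega, h2⟩, by omega⟩
  rw [e2] at hsplit
  unfold BB SS expSum
  rw [← hsplit]
  ring

theorem Lev.block_mem (h : Lev c H d K) {l m : ℕ}
    (hm : m ∈ (suppN c (K (l + 1) + 1)).filter (fun m => K l < m)) :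
    c m ≠ 0 ∧ m < H ^ (l + 2) ∧ (H : ℝ) ^ l ≤ m ∧ (m : ℝ) ≤ 2 * (H : ℝ) ^ (l + 1) := by
  obtain ⟨h1, h2⟩ := Finset.mem_filter.mp hm
  refine ⟨(h.low_lt h1).1, (h.low_lt h1).2, ?_, h.low_le h1⟩
  have h3 : H ^ l ≤ m := (h.K_ge l).trans h2.le
  exact_mod_cast h3

theorem Lev.card_block (h : Lev c H d K) (l : ℕ) :
    ((((suppN c (K (l + 1) + 1)).filter (fun m => K l < m)).card : ℕ) : ℝ)
      ≤ 2 * ((H : ℝ) ^ (l + 1) * d l) := by
  have h1 := h.card_le (l + 1) ((suppN c (K (l + 1) + 1)).filter (fun m => K l < m))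
    (fun m hm => h.low_lt (Finset.mem_filter.mp hm).1)
  have h2 := h.d_up l
  have h3 := h.Hpow_pos (l + 1)
  nlinarith

theorem Lev.d_le_pow (h : Lev c H d K) (i k : ℕ) : d i ≤ 2 ^ k * d (i + k) := by
  induction k with
  | zero => simp
  | succ k ih =>
    have h1 := h.d_dn (i + k)
    have h2 : (0 : ℝ) < 2 ^ k := by positivity
    calc d i ≤ 2 ^ k * d (i + k) := ih
      _ ≤ 2 ^ k * (2 * d (i + k + 1)) := by nlinarith
      _ = 2 ^ (k + 1) * d (i + (k + 1)) := by rw [← add_assoc, pow_succ]; ring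

theorem Lev.d_add_le (h : Lev c H d K) (i k : ℕ) : d (i + k) ≤ 2 ^ k * d i := by
  induction k with
  | zero => simp
  | succ k ih =>
    have h1 := h.d_up (i + k)
    calc d (i + (k + 1)) ≤ 2 * d (i + k) := h1
      _ ≤ 2 * (2 ^ k * d i) := by nlinarith
      _ = 2 ^ (k + 1) * d i := by rw [pow_succ]; ring

/-- `8 ^ k * (H ^ i * d i) ≤ H ^ (i + k) * d (i + k)`. -/
theorem Lev.hd_pow (h : Lev c H d K) (i k : ℕ) :
    8 ^ k * ((H : ℝ) ^ i * d i) ≤ (H : ℝ) ^ (i + k) * d (i + k) := by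
  have h1 := h.d_le_pow i k
  have h2 : (16 : ℝ) ^ k ≤ (H : ℝ) ^ k := pow_le_pow_left₀ (by norm_num) h.H_real k
  have h3 := h.Hpow_pos i
  have h4 := h.d_pos (i + k)
  have e16 : (16 : ℝ) ^ k = 8 ^ k * 2 ^ k := by rw [← mul_pow]; norm_num
  have h8 : (0 : ℝ) < 8 ^ k := by positivity
  calc 8 ^ k * ((H : ℝ) ^ i * d i) ≤ 8 ^ k * ((H : ℝ) ^ i * (2 ^ k * d (i + k))) := by gcongr
    _ = (H : ℝ) ^ i * (16 ^ k * d (i + k)) := by rw [e16]; ring
    _ ≤ (H : ℝ) ^ i * ((H : ℝ) ^ k * d (i + k)) := by gcongr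
    _ = (H : ℝ) ^ (i + k) * d (i + k) := by rw [pow_add]; ring

theorem Lev.hd_mono (h : Lev c H d K) {i l : ℕ} (hil : i ≤ l) :
    (H : ℝ) ^ i * d i ≤ (H : ℝ) ^ l * d l := by
  obtain ⟨k, rfl⟩ := Nat.exists_eq_add_of_le hil
  have h1 := h.hd_pow i k
  have h2 : (1 : ℝ) ≤ 8 ^ k := one_le_pow₀ (by norm_num)
  have h3 := mul_pos (h.Hpow_pos i) (h.d_pos i)
  nlinarith

theorem Lev.hd_pos (h : Lev c H d K) (l : ℕ) : 0 < (H : ℝ) ^ l * d l :=
  mul_pos (h.Hpow_pos l) (h.d_pos l)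

end Levels

end Pool.Agent.Mac
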