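import Pool.Agent.Mac.WalkDef
import Pool.Agent.Mac.Card

set_option autoImplicit false

/-!
# Module F1
-/

namespace Pool.Agent.Mac

open Finset Filter Topology
open Pool.Agent.MP_e061a3_an Pool.Agent.GapReg

theorem F1_small (A B C D : ℝ) :
    ∃ ε : ℝ, 0 < ε ∧ A * ε ≤ 1 ∧ B * ε ≤ 1 ∧ C * ε ≤ 1 ∧ D * ε ≤ 1 := by
  have h0 : 0 < 1 + |A| + |B| + |C| + |D| := by positivity
  have key : ∀ E : ℝ, E ≤ 1 + |A| + |B| + |C| + |D| → E * (1 / (1 + |A| + |B| + |C| + |D|)) ≤ 1 := by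
    intro E hE
    rw [mul_one_div, div_le_one h0]
    exact hE
  have hA := abs_nonneg A
  have hB := abs_nonneg B
  have hC := abs_nonneg C
  have hD := abs_nonneg D
  refine ⟨1 / (1 + |A| + |B| + |C| + |D|), by positivity, key _ ?_, key _ ?_, key _ ?_, key _ ?_⟩
  · have := le_abs_self A
    linarith
  · have := le_abs_self B
    linarith
  · have := le_abs_self C
    linarith
  · have := le_abs_self D
    linarith

/-- `f1_exists` with the additional information `1 ≤ C2`. -/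
theorem f1_exists_ge (H : ℕ) (hH : 16 ≤ H) (c1 c2 CL CR : ℝ) (hc1 : 0 < c1) (hc2 : 0 < c2)
    (hCL : 0 < CL) (hCR : 0 < CR) (hD : DecP H c1 c2) (hL : LwP H c2 CL) (hR : RemP CR) :
    ∃ C2 : ℝ, 1 ≤ C2 ∧ ∃ sig0 : ℝ, 0 < sig0 ∧ ∃ S0 : ℝ, 0 < S0 ∧
      ∀ sig : ℝ, 0 < sig → sig ≤ sig0 → F1P H sig C2 S0 := by
  have hH' : (16 : ℝ) ≤ H := by exact_mod_cast hH
  -- constants
  obtain ⟨C2, hC2a, hC2b⟩ : ∃ C2 : ℝ, 16 ≤ c1 * C2 ∧ 1 ≤ C2 := by
    refine ⟨16 / c1 + 1, ?_, ?_⟩
    · rw [mul_add, mul_div_cancel₀ _ hc1.ne']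
      linarith
    · have : 0 < 16 / c1 := by positivity
      linarith
  obtain ⟨δ, hδ, hδ1⟩ : ∃ δ : ℝ, 0 < δ ∧ 100 * H * δ = 1 := by
    refine ⟨1 / (100 * H), by positivity, ?_⟩
    have : (100 * (H : ℝ)) ≠ 0 := by positivity
    field_simp
  obtain ⟨c8, hc8, hc8a, hc8b, -, -⟩ := F1_small 8 (32 * CR / δ) 0 0
  have hc8b' : 32 * CR * c8 ≤ δ := by
    have : 32 * CR / δ * c8 = 32 * CR * c8 / δ := by ring
    rwa [this, div_le_one hδ] at hc8b
  obtain ⟨s0, hs0, hs0a, hs0b, hs0c, hs0d⟩ :=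
    F1_small (4 / c2) (16 * CR / δ) (1 / (2 * c2 * c8)) (2 * CL / δ)
  have hs0a' : 4 * s0 ≤ c2 := by
    have : 4 / c2 * s0 = 4 * s0 / c2 := by ring
    rwa [this, div_le_one hc2] at hs0a
  have hs0b' : 16 * CR * s0 ≤ δ := by
    have : 16 * CR / δ * s0 = 16 * CR * s0 / δ := by ring
    rwa [this, div_le_one hδ] at hs0b
  have hs0c' : s0 ≤ 2 * c2 * c8 := by
    have h : 0 < 2 * c2 * c8 := by positivity
    have : 1 / (2 * c2 * c8) * s0 = s0 / (2 * c2 * c8) := by ring
    rwa [this, div_le_one h] at hs0c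
  have hs0d' : 2 * CL * s0 ≤ δ := by
    have : 2 * CL / δ * s0 = 2 * CL * s0 / δ := by ring
    rwa [this, div_le_one hδ] at hs0d
  refine ⟨C2, hC2b, s0, hs0, 400 * H * (CR + 1), by positivity, ?_⟩
  intro sig hsig hsig0 c d K hlev l q hreach hS0 hbd
  set k := l + 1 with hk
  set r : ℝ := rr d sig k with hr
  set s : ℝ := sz H d sig k with hs
  have hdk : d k = sig * r := by
    rw [hr]
    unfold rr
    field_simp
  have hrpos : 0 < r := div_pos (hlev.d_pos k) hsig
  have hHk : (0 : ℝ) < (H : ℝ) ^ k := hlev.Hpow_pos k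
  have hsr : s = (H : ℝ) ^ k * r := rfl
  have hspos : 0 < s := by rw [hsr]; positivity
  have hHd : (H : ℝ) ^ k * d k = sig * s := by rw [hdk, hsr]; ring
  -- s is large
  have hδs : 4 * (CR + 1) ≤ δ * s := by
    have h1 : δ * (400 * H * (CR + 1)) ≤ δ * s := mul_le_mul_of_nonneg_left hS0 hδ.le
    have h2 : δ * (400 * H * (CR + 1)) = 4 * (CR + 1) * (100 * H * δ) := by ring
    rw [h2, hδ1, mul_one] at h1
    exact h1
  -- (1) decoupling
  have hRR : Bd (RR c K k) 0 (Cn 1 1 (q + ((3 / 4 * C2 * r : ℝ) : ℂ))) := by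
    have h1 := hD c d K hlev 1 1 le_rfl (by norm_num) le_rfl (by norm_num) k
      (q + ((C2 * r : ℝ) : ℂ)) (2 * s) (C2 * r / 4) (by positivity) hbd ?_ ?_
    · refine Bd.mono h1 ?_ ?_
      · have : 0 ≤ (H : ℝ) ^ k * (C2 * r / 4) / 8 := by positivity
        linarith
      · have e : q + ((C2 * r : ℝ) : ℂ) - ((C2 * r / 4 : ℝ) : ℂ) =
            q + ((3 / 4 * C2 * r : ℝ) : ℂ) := by
          push_cast
          ring
        rw [e]
    · have e : c1 * ((H : ℝ) ^ k * (C2 * r / 4)) = (c1 * C2) * s / 4 := by rw [hsr]; ring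
      rw [e]
      nlinarith
    · rw [hdk]
      have h2 : sig ≤ c2 * C2 / 4 := by nlinarith
      calc sig * r ≤ (c2 * C2 / 4) * r := mul_le_mul_of_nonneg_right h2 hrpos.le
        _ = c2 * (C2 * r / 4) := by ring
  have hRR1 : ∀ w ∈ Cn 1 1 (q + ((3 / 4 * C2 * r : ℝ) : ℂ)), ‖RR c K k w‖ ≤ 1 := by
    intro w hw
    have := hRR w hw
    rwa [Real.exp_zero] at this
  -- (2) the low part near q
  have hSS : ∀ w, ‖w - q‖ ≤ 2 * (c8 * r) → ‖SS c K k w‖ ≤ Real.exp (δ * s / 2) := by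
    intro w hw
    have h1 := hR c (suppN c (K k + 1)) (2 * (H : ℝ) ^ k) (fun m hm => hlev.low_le hm)
      (by positivity) q (c8 * r) (by positivity) 2 (by norm_num) ?_ w hw
    · have h2 := hlev.card_low k
      rw [hHd] at h2
      refine h1.trans ?_
      have h3 : CR * (((suppN c (K k + 1)).card : ℝ) + 2 * (H : ℝ) ^ k * (c8 * r) + 1) ≤
          CR * (sig * s + 2 * c8 * s + 1) := by
        refine mul_le_mul_of_nonneg_left ?_ hCR.le
        have e : 2 * (H : ℝ) ^ k * (c8 * r) = 2 * c8 * s := by rw [hsr]; ring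
        rw [e]
        linarith
      have h4 : CR * (sig * s + 2 * c8 * s + 1) + 1 ≤ δ * s / 2 := by
        have h5 : 16 * CR * sig * s ≤ δ * s := by
          refine mul_le_mul_of_nonneg_right ?_ hspos.le
          nlinarith
        have h6 : 32 * CR * c8 * s ≤ δ * s := mul_le_mul_of_nonneg_right hc8b' hspos.le
        nlinarith
      calc Real.exp (CR * (((suppN c (K k + 1)).card : ℝ) + 2 * (H : ℝ) ^ k * (c8 * r) + 1)) * 2
          ≤ Real.exp (CR * (sig * s + 2 * c8 * s + 1)) * Real.exp 1 := by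
            refine mul_le_mul (Real.exp_le_exp.mpr h3) ?_ (by norm_num) (Real.exp_pos _).le
            have := Real.add_one_le_exp 1
            linarith
        _ = Real.exp (CR * (sig * s + 2 * c8 * s + 1) + 1) := by rw [← Real.exp_add]
        _ ≤ Real.exp (δ * s / 2) := Real.exp_le_exp.mpr h4
    · intro ρ hρ1 hρ2
      have hρ0 : 0 ≤ ρ := by
        have : 0 < c8 * r := by positivity
        linarith
      obtain ⟨u, hu1, hu2⟩ := hreach ρ hρ0
      refine ⟨u, hu1, ?_⟩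
      have hu3 : u ∈ Cn 1 1 (q + ((3 / 4 * C2 * r : ℝ) : ℂ)) := by
        have h3 := abs_le.mp (Complex.abs_re_le_norm (u - q))
        have h4 := abs_le.mp (Complex.abs_im_le_norm (u - q))
        rw [hu1] at h3 h4
        simp only [Complex.sub_re, Complex.sub_im] at h3 h4
        have h5 : 4 * c8 * r ≤ 3 / 4 * C2 * r := by
          refine mul_le_mul_of_nonneg_right ?_ hrpos.le
          nlinarith
        rw [mem_cn]
        simp only [Complex.add_re, Complex.add_im, Complex.ofReal_re, Complex.ofReal_im]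
        constructor <;> linarith
      have h3 := hRR1 u hu3
      have h4 := Fs_eq c K k u
      have h5 : expSum c (suppN c (K k + 1)) u = Fs c u - RR c K k u := by
        rw [h4]
        unfold SS
        ring
      rw [h5]
      exact (norm_sub_le _ _).trans (by linarith)
  -- (3) left extension
  have hSS2 : ∀ w ∈ Cn 1 1 q, ‖SS c K k w‖ ≤ Real.exp (δ * s) := by
    intro w hw
    have h1 := hL c d K hlev k q (2 * (c8 * r)) (δ * s / 2) (by positivity) ?_ hSS w ?_
    · refine h1.trans (Real.exp_le_exp.mpr ?_)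
      rw [hHd]
      have h2 : 2 * CL * sig * s ≤ δ * s := by
        refine mul_le_mul_of_nonneg_right ?_ hspos.le
        nlinarith
      nlinarith
    · rw [hdk]
      calc sig * r ≤ (2 * c2 * c8) * r :=
            mul_le_mul_of_nonneg_right (hsig0.trans hs0c') hrpos.le
        _ = c2 * (2 * (c8 * r)) := by ring
    · obtain ⟨h2, h3⟩ := hw
      rw [one_mul] at h2 h3
      have h4 := Complex.norm_le_abs_re_add_abs_im (w - q)
      simp only [Complex.sub_re, Complex.sub_im] at h4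
      have h5 : 0 ≤ q.re - w.re := by
        rcases le_total q.im w.im with h6 | h6 <;> linarith
      have h6 : |w.re - q.re| = q.re - w.re := by
        rw [abs_sub_comm]
        exact abs_of_nonneg h5
      have h7 : |w.im - q.im| ≤ q.re - w.re := abs_le.mpr ⟨by linarith, by linarith⟩
      linarith
  -- (4) conclusion
  intro w hw
  have hw2 : w ∈ Cn 1 1 (q + ((3 / 4 * C2 * r : ℝ) : ℂ)) := by
    obtain ⟨h2, h3⟩ := hw
    have : 0 ≤ 3 / 4 * C2 * r := by positivity
    rw [mem_cn]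
    simp only [Complex.add_re, Complex.add_im, Complex.ofReal_re, Complex.ofReal_im]
    constructor <;> linarith
  have h1 := hSS2 w hw
  have h2 := hRR1 w hw2
  rw [Fs_eq c K k w]
  refine (norm_add_le _ _).trans ?_
  have h3 : δ * s + 1 ≤ sz H d sig l := by
    -- sz l ≥ s / (2 H)
    have h4 : s ≤ 2 * H * sz H d sig l := by
      rw [hsr, hr, hk]
      unfold sz rr
      rw [pow_succ]
      have h5 := hlev.d_up l
      have h6 : d (l + 1) / sig ≤ 2 * (d l / sig) := by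
        rw [← mul_div_assoc]
        exact div_le_div_of_nonneg_right h5 hsig.le
      have h7 : (0 : ℝ) < (H : ℝ) ^ l * H := by positivity
      calc (H : ℝ) ^ l * H * (d (l + 1) / sig) ≤ (H : ℝ) ^ l * H * (2 * (d l / sig)) :=
            mul_le_mul_of_nonneg_left h6 h7.le
        _ = 2 * H * ((H : ℝ) ^ l * (d l / sig)) := by ring
    have h5 : δ * s ≤ δ * (2 * H * sz H d sig l) := mul_le_mul_of_nonneg_left h4 hδ.le
    have h6 : δ * (2 * H * sz H d sig l) = sz H d sig l / 50 * (100 * H * δ) := by ring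
    rw [h6, hδ1, mul_one] at h5
    linarith
  calc ‖SS c K k w‖ + ‖RR c K k w‖ ≤ Real.exp (δ * s) + 1 := by linarith
    _ ≤ Real.exp (δ * s) * Real.exp 1 := by
      have h4 : 1 ≤ Real.exp (δ * s) := Real.one_le_exp (by positivity)
      have h5 := Real.add_one_le_exp 1
      nlinarith
    _ = Real.exp (δ * s + 1) := by rw [← Real.exp_add]
    _ ≤ Real.exp (sz H d sig l) := Real.exp_le_exp.mpr h3

/-
HINT. Levels: l + 1 =: k. r := rr d sig k, s := sz H d sig k = H^k r, d k = sig r, H^k d_k = sig s.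
-/
theorem f1_exists (H : ℕ) (hH : 16 ≤ H) (c1 c2 CL CR : ℝ) (hc1 : 0 < c1) (hc2 : 0 < c2)
    (hCL : 0 < CL) (hCR : 0 < CR) (hD : DecP H c1 c2) (hL : LwP H c2 CL) (hR : RemP CR) :
    ∃ C2 : ℝ, 0 < C2 ∧ ∃ sig0 : ℝ, 0 < sig0 ∧ ∃ S0 : ℝ, 0 < S0 ∧
      ∀ sig : ℝ, 0 < sig → sig ≤ sig0 → F1P H sig C2 S0 := by
  obtain ⟨C2, h1, h2⟩ := f1_exists_ge H hH c1 c2 CL CR hc1 hc2 hCL hCR hD hL hR
  exact ⟨C2, lt_of_lt_of_le one_pos h1, h2⟩

end Pool.Agent.Mac
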