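import Pool.Agent.Mac.WalkDef
import Pool.Agent.Mac.Card

set_option autoImplicit false

/-!
# Module LEFT: sizes tend to infinity, the first level
-/

namespace Pool.Agent.Mac

open Finset Filter Topology
open Pool.Agent.MP_e061a3_an Pool.Agent.GapReg

variable {c : ℕ → ℂ} {H : ℕ} {d : ℕ → ℝ} {K : ℕ → ℕ}

/-- HINT. sz j = H^j d_j/sig ≥ 8^j d_0/sig (`Lev.hd_pow 0 j`). -/
theorem tendsto_sz (h : Lev c H d K) (sig : ℝ) (hsig : 0 < sig) :
    Tendsto (fun j => sz H d sig j) atTop atTop := by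
  have h1 : Tendsto (fun j : ℕ => (8 : ℝ) ^ j * (d 0 / sig)) atTop atTop :=
    (tendsto_pow_atTop_atTop_of_one_lt (by norm_num)).atTop_mul_const
      (div_pos (h.d_pos 0) hsig)
  refine tendsto_atTop_mono (fun j => ?_) h1
  have h2 := h.hd_pow 0 j
  rw [pow_zero, one_mul, zero_add] at h2
  unfold sz rr
  rw [← mul_div_assoc, ← mul_div_assoc]
  exact div_le_div_of_nonneg_right h2 hsig.le

/-- a bound on a half plane -/
theorem LEFT_bound (h : Lev c H d K) (x : ℝ) : ∃ B : ℝ, ∀ w : ℂ, w.re ≤ x → ‖Fs c w‖ ≤ B := by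
  refine ⟨∑' m : ℕ, ‖c m‖ * Real.exp ((m : ℝ) * x), ?_⟩
  intro w hw
  refine tsum_of_norm_bounded (summable_majorant c h.ent x).hasSum ?_
  intro m
  rw [norm_mul, ← Complex.exp_nat_mul, Complex.norm_exp]
  apply mul_le_mul_of_nonneg_left _ (norm_nonneg _)
  apply Real.exp_le_exp.mpr
  have : ((m : ℂ) * w).re = (m : ℝ) * w.re := by simp
  rw [this]
  exact mul_le_mul_of_nonneg_left hw (Nat.cast_nonneg _)

theorem LEFT_eventually (h : Lev c H d K) (sig : ℝ) (hsig : 0 < sig) (x : ℝ) :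
    ∀ᶠ m in atTop, Bd (Fs c) (sz H d sig m) {w | w.re ≤ x} := by
  obtain ⟨B, hB⟩ := LEFT_bound h x
  filter_upwards [(tendsto_sz h sig hsig).eventually_ge_atTop (Real.log (max B 1))] with m hm
  intro w hw
  have h1 : (0 : ℝ) < max B 1 := lt_of_lt_of_le one_pos (le_max_right _ _)
  calc ‖Fs c w‖ ≤ B := hB w hw
    _ ≤ max B 1 := le_max_left _ _
    _ = Real.exp (Real.log (max B 1)) := (Real.exp_log h1).symm
    _ ≤ Real.exp (sz H d sig m) := Real.exp_le_exp.mpr hm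

/-- HINT. ‖F w‖ ≤ ∑ ‖c m‖ e^{m x} for w.re ≤ x (`summable_majorant`), then `tendsto_sz`. -/
theorem exists_level (h : Lev c H d K) (sig : ℝ) (hsig : 0 < sig) (x : ℝ) (a : ℕ) :
    ∃ m : ℕ, a ≤ m ∧ Bd (Fs c) (sz H d sig m) {w | w.re ≤ x} := by
  obtain ⟨m, hm⟩ := ((LEFT_eventually h sig hsig x).and (eventually_ge_atTop a)).exists
  exact ⟨m, hm.2, hm.1⟩

/-- HINT. combine `tendsto_sz`, Summable d (so d j / sig → 0) and `exists_level`. -/
theorem exists_start (h : Lev c H d K) (hd : Summable d) (sig S0 S1 eps x : ℝ) (hsig : 0 < sig)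
    (heps : 0 < eps) : ∃ a : ℕ, (∀ j, a ≤ j → S0 ≤ sz H d sig j) ∧
      (∀ j, a ≤ j → S1 ≤ sz H d sig j) ∧ (∀ j, a ≤ j → rr d sig j ≤ eps) ∧
      Bd (Fs c) (sz H d sig a) {w | w.re ≤ x} := by
  obtain ⟨a0, h0⟩ := eventually_atTop.mp ((tendsto_sz h sig hsig).eventually_ge_atTop S0)
  obtain ⟨a1, h1⟩ := eventually_atTop.mp ((tendsto_sz h sig hsig).eventually_ge_atTop S1)
  have h3 : Tendsto (fun j => rr d sig j) atTop (𝓝 0) := by
    have := hd.tendsto_atTop_zero.div_const sig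
    rwa [zero_div] at this
  obtain ⟨a2, h2⟩ := eventually_atTop.mp (h3.eventually (gt_mem_nhds heps))
  obtain ⟨m, hm, hm'⟩ := exists_level h sig hsig x (max a0 (max a1 a2))
  have e0 := le_max_left a0 (max a1 a2)
  have e1 := le_max_left a1 a2
  have e2 := le_max_right a1 a2
  have e3 := le_max_right a0 (max a1 a2)
  exact ⟨m, fun j hj => h0 j (by omega), fun j hj => h1 j (by omega),
    fun j hj => (h2 j (by omega)).le, hm'⟩

end Pool.Agent.Mac
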