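import Pool.Agent.Mac.CArc
import Pool.Agent.Mac.Card

set_option autoImplicit false

/-!
# Module MC: the global induction
-/

namespace Pool.Agent.Mac

open Finset Filter Topology
open Pool.Agent.MP_e061a3_an Pool.Agent.GapReg

/-- The constant of the global induction. -/
noncomputable def CMs (C2 C30 CW : ℝ) : ℝ := 40 * C2 + 3 * C30 + 6 * CW

section MCAux

variable {c : ℕ → ℂ} {H : ℕ} {d : ℕ → ℝ} {K : ℕ → ℕ} {sig : ℝ}

theorem MC_rr_pos (h : Lev c H d K) (hsig : 0 < sig) (j : ℕ) : 0 < rr d sig j :=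
  div_pos (h.d_pos j) hsig

theorem MC_rr_dn (h : Lev c H d K) (hsig : 0 < sig) (j : ℕ) :
    rr d sig j ≤ 2 * rr d sig (j + 1) := by
  unfold rr
  rw [← mul_div_assoc]
  exact div_le_div_of_nonneg_right (h.d_dn j) hsig.le

theorem MC_sz_mono (h : Lev c H d K) (hsig : 0 < sig) {i l : ℕ} (hil : i ≤ l) :
    sz H d sig i ≤ sz H d sig l := by
  unfold sz rr
  rw [← mul_div_assoc, ← mul_div_assoc]
  exact div_le_div_of_nonneg_right (h.hd_mono hil) hsig.le

theorem MC_sz_pos (h : Lev c H d K) (hsig : 0 < sig) (j : ℕ) : 0 < sz H d sig j :=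
  mul_pos (h.Hpow_pos j) (MC_rr_pos h hsig j)

theorem MC_Rs_nonneg (h : Lev c H d K) (hsig : 0 < sig) (a b : ℕ) : 0 ≤ Rs d sig a b :=
  Finset.sum_nonneg fun j _ => (MC_rr_pos h hsig j).le

theorem MC_Rs_add (d : ℕ → ℝ) (sig : ℝ) {a l m : ℕ} (hal : a ≤ l) (hlm : l ≤ m) :
    Rs d sig a m = Rs d sig a l + Rs d sig l m := by
  unfold Rs
  rw [← Finset.sum_union]
  · congr 1
    ext x
    simp only [Finset.mem_union, Finset.mem_Ioc]
    omega
  · rw [Finset.disjoint_left]
    intro x hx hx'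
    simp only [Finset.mem_Ioc] at hx hx'
    omega

theorem MC_Rs_ge (h : Lev c H d K) (hsig : 0 < sig) {a j m : ℕ} (haj : a < j) (hjm : j ≤ m) :
    rr d sig j ≤ Rs d sig a m :=
  Finset.single_le_sum (f := fun j => rr d sig j) (fun j _ => (MC_rr_pos h hsig j).le)
    (Finset.mem_Ioc.2 ⟨haj, hjm⟩)

theorem MC_mem_Q {p q : ℂ} (h : |q.im - p.im| ≤ q.re - p.re) : p ∈ Cn 1 1 q := by
  have h1 := abs_le.1 h
  refine ⟨?_, ?_⟩ <;> linarith [h1.1, h1.2]

theorem MC_closed (p : ℂ) : IsClosed (Cn 2 2 p) := by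
  have hre := Complex.continuous_re
  have him := Complex.continuous_im
  have h1 : IsClosed {w : ℂ | 2 * (w.im - p.im) ≤ p.re - w.re} :=
    isClosed_le (continuous_const.mul (him.sub continuous_const)) (continuous_const.sub hre)
  have h2 : IsClosed {w : ℂ | 2 * (p.im - w.im) ≤ p.re - w.re} :=
    isClosed_le (continuous_const.mul (continuous_const.sub him)) (continuous_const.sub hre)
  exact h1.inter h2

end MCAux

/-
HINT. Strong induction on m (for all t). Write r j = rr d sig j > 0 (d_j > 0), r (j+1) ≤ 2 r j, r j ≤ 2 r (j+1),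
s j = sz H d sig j increasing (`Lev.hd_mono`), Q = Cn 1 1, k = Γ t, X0 = (Γ 0).re, C = CMs C2 C30 CW,
R = Rs d sig, R(a,m) = R(a,l) + R(l,m) for a ≤ l ≤ m, R(l',m) ≥ r m for l' < m.
* m = a: R(a,a) = 0, first alternative (s a ≤ 2 s a).
* m > a. If k.re ≤ X0: second alternative. Otherwise let X = C2 r m,
  Z = Cn 2 2 (k - X) ∪ {w | w.re ≤ X0} (closed), Γ 0 ∈ Z, k ∉ Z. `last_visit`: t₁ < t, e := Γ t₁ ∈ Z, Γ s ∉ Z for t₁ < s ≤ t.
  Λ := |k.im - e.im|. By continuity (points Γ s, s ↓ t₁, are not in Z):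
  (a) if e ∈ Cn 2 2 (k - X): k.re - X - e.re = 2 Λ (≥ from membership, ≤ from the limit);
  (b) if e ∉ Cn 2 2 (k - X): e.re = X0 (≤ from membership, ≥ from the limit) and X0 > k.re - X - 2 Λ.
  C30' := max C30 (4 C2).
  (i) Λ ≤ C30' r m. (a): Q(e + X) ⊆ Q(k) [k.re - (e.re + X) = 2 Λ ≥ Λ], s m ≤ 2 s m, F1P (l + 1 = m): ‖F‖ ≤ e^{s (m-1)}
      on Q(e); induction for (m-1, t₁): first alternative: Q(k - C R(a,m)) ⊆ Q(e - C R(a,m-1)) since
      (k.re - C R(a,m)) + Λ ≤ e.re - C R(a,m-1), i.e. X + 3Λ ≤ C r m; second: k.re = e.re + X + 2Λ ≤ X0 + C R(a,m).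
      (b): k.re < X0 + X + 2Λ ≤ X0 + C R(a,m).
  (ii) Λ > C30' r m. `exists_arc` for [t₁, t]; WalkP with m > a: hypotheses: z in Poly is Γ s, s ∈ [t₁,t]; if it is in
      Cn 2 2 (k - X) ⊆ Z then s = t₁ (z = v 0). Case 1 is (a), case 2 is (b) with ‖F‖ ≤ e^{s a} on Q(e) (hleft, e.re ≤ X0).
      Output l, λ. If l = a: λ ≤ CW (R(a,m) + r m) ≤ 2 CW R(a,m) ≤ C R(a,m): first alternative.
      If l > a (so l < m, Λ ≤ CW R(l,m)):
      (b): k.re < X0 + X + 2Λ ≤ X0 + C R(a,m).
      (a): l'' := least index ≥ l with C2 r l'' ≤ Λ/4 (m has the property). Q(e + C2 r l'') ⊆ Q(k - λ), because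
         (k.re - λ) - (e.re + C2 r l'') ≥ X + 2Λ - Λ/2 - Λ/4 ≥ Λ; ‖F‖ ≤ e^{2 s l} ≤ e^{2 s l''} there; F1P (l'' ≥ l > a ≥ 0 so
         l'' = l' + 1, l' ≥ a): ‖F‖ ≤ e^{s l'} on Q(e). Λ ≤ max CW (8 C2) * R(l',m): if l'' = l then R(l,m) ≤ R(l',m);
         if l'' > l then C2 r (l''-1) > Λ/4, Λ < 4 C2 r(l''-1) ≤ 8 C2 r l'' ≤ 8 C2 R(l',m). l' < m. Induction for (l', t₁):
         first alternative: (k.re - C R(a,m)) + Λ ≤ e.re - C R(a,l'), i.e. X + 3Λ ≤ C R(l',m); second:
         k.re = e.re + X + 2Λ ≤ X0 + C R(a,l') + C R(l',m).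
-/
theorem mc (H : ℕ) (sig C2 C30 CW S0 S1 eps : ℝ) (hsig : 0 < sig) (hC2 : 0 < C2) (hC30 : 0 < C30)
    (hCW : 0 < CW) (hF1 : F1P H sig C2 S0) (hW : WalkP H sig C2 C30 CW S1 eps)
    (c : ℕ → ℂ) (d : ℕ → ℝ) (K : ℕ → ℕ) (h : Lev c H d K) (Γ : ℝ → ℂ)
    (hΓ : ContinuousOn Γ (Set.Ici 0)) (hpoly : Polyg Γ)
    (hone : ∀ t : ℝ, 0 ≤ t → ‖Fs c (Γ t)‖ ≤ 1) (hreach : ∀ t : ℝ, 0 ≤ t → Reach (Fs c) (Γ t))
    (a : ℕ) (ha0 : ∀ j, a ≤ j → S0 ≤ sz H d sig j) (ha1 : ∀ j, a ≤ j → S1 ≤ sz H d sig j)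
    (ha2 : ∀ j, a ≤ j → rr d sig j ≤ eps)
    (hleft : Bd (Fs c) (sz H d sig a) {w | w.re ≤ (Γ 0).re}) :
    ∀ m : ℕ, a ≤ m → ∀ t : ℝ, 0 ≤ t → Bd (Fs c) (sz H d sig m) (Cn 1 1 (Γ t)) →
      Bd (Fs c) (2 * sz H d sig a)
          (Cn 1 1 (Γ t - ((CMs C2 C30 CW * Rs d sig a m : ℝ) : ℂ))) ∨
        (Γ t).re ≤ (Γ 0).re + CMs C2 C30 CW * Rs d sig a m := by
  have hCst : 0 < CMs C2 C30 CW := by unfold CMs; positivity
  set X0 := (Γ 0).re with hX0
  intro m
  induction m using Nat.strong_induction_on with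
  | _ m ih =>
  intro ham t ht hB
  rcases ham.eq_or_lt with ham | ham
  · subst ham
    left
    have h0 : Rs d sig a a = 0 := by simp [Rs]
    rw [h0, mul_zero, Complex.ofReal_zero, sub_zero]
    exact hB.mono (by linarith [MC_sz_pos h hsig a]) (fun _ hx => hx)
  have hrm := MC_rr_pos h hsig m
  have hRam : rr d sig m ≤ Rs d sig a m := MC_Rs_ge h hsig ham le_rfl
  have hRam0 := MC_Rs_nonneg h hsig a m
  by_cases hk : (Γ t).re ≤ X0
  · right
    have : 0 ≤ CMs C2 C30 CW * Rs d sig a m := by positivity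
    linarith
  rw [not_le] at hk
  set X := C2 * rr d sig m with hX
  have hXpos : 0 < X := mul_pos hC2 hrm
  obtain ⟨t₁, ht₁, ht₁t, he, hlast⟩ := last_visit Γ hΓ
    (Cn 2 2 (Γ t - (X : ℂ)) ∪ {w | w.re ≤ X0})
    ((MC_closed _).union (isClosed_le Complex.continuous_re continuous_const)) t ht
    (Or.inr (le_refl (Γ 0).re))
    (by
      rintro (h1 | h1)
      · have h2 := h1.1
        simp only [Complex.sub_re, Complex.sub_im, Complex.ofReal_re, Complex.ofReal_im] at h2
        linarith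
      · exact absurd h1 (not_le.2 hk))
  set e := Γ t₁ with hedef
  set k := Γ t with hkdef
  set Λ := |k.im - e.im| with hΛ
  have hΛ0 : 0 ≤ Λ := abs_nonneg _
  have hΛ1 : k.im - e.im ≤ Λ := le_abs_self _
  have hΛ2 : e.im - k.im ≤ Λ := by
    rw [hΛ, abs_sub_comm]
    exact le_abs_self _
  have hRe : Reach (Fs c) e := hreach t₁ ht₁
  -- the two cases
  have hAB : (e ∈ Cn 2 2 (k - (X : ℂ)) ∧ k.re - X - e.re = 2 * Λ) ∨
      (e ∉ Cn 2 2 (k - (X : ℂ)) ∧ e.re ≤ X0 ∧ k.re - X - X0 ≤ 2 * Λ) := by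
    by_cases heC : e ∈ Cn 2 2 (k - (X : ℂ))
    · left
      refine ⟨heC, ?_⟩
      obtain ⟨h1, h2⟩ := heC
      simp only [Complex.sub_re, Complex.sub_im, Complex.ofReal_re, Complex.ofReal_im,
        sub_zero] at h1 h2
      have h3 : 2 * Λ ≤ k.re - X - e.re := by
        rcases abs_cases (k.im - e.im) with ⟨h4, _⟩ | ⟨h4, _⟩ <;> rw [hΛ, h4] <;> linarith
      have h4 : 0 ≤ 2 * |k.im - (Γ t₁).im| - (k.re - X - (Γ t₁).re) := by
        have hcont : ContinuousWithinAt Γ (Set.Ioi t₁) t₁ :=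
          (hΓ t₁ ht₁).mono (fun x (hx : t₁ < x) => Set.mem_Ici.2 (ht₁.trans hx.le))
        have hre : Tendsto (fun s => (Γ s).re) (𝓝[>] t₁) (𝓝 (Γ t₁).re) :=
          (Complex.continuous_re.tendsto _).comp hcont
        have him : Tendsto (fun s => (Γ s).im) (𝓝[>] t₁) (𝓝 (Γ t₁).im) :=
          (Complex.continuous_im.tendsto _).comp hcont
        have hlim : Tendsto (fun s => 2 * |k.im - (Γ s).im| - (k.re - X - (Γ s).re)) (𝓝[>] t₁)
            (𝓝 (2 * |k.im - (Γ t₁).im| - (k.re - X - (Γ t₁).re))) :=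
          (((tendsto_const_nhds.sub him).abs).const_mul 2).sub (tendsto_const_nhds.sub hre)
        refine ge_of_tendsto hlim ?_
        filter_upwards [Ioc_mem_nhdsGT ht₁t] with s hs
        have h5 := hlast s hs.1 hs.2
        have h6 : Γ s ∉ Cn 2 2 (k - (X : ℂ)) := fun h7 => h5 (Or.inl h7)
        by_contra h7
        rw [not_le] at h7
        apply h6
        have h8 := le_abs_self (k.im - (Γ s).im)
        have h9 := neg_abs_le (k.im - (Γ s).im)
        refine ⟨?_, ?_⟩ <;>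
          simp only [Complex.sub_re, Complex.sub_im, Complex.ofReal_re, Complex.ofReal_im,
            sub_zero] <;> linarith
      rw [← hedef] at h4
      linarith
    · right
      have he0 : e.re ≤ X0 := by
        rcases he with h1 | h1
        · exact absurd h1 heC
        · exact h1
      refine ⟨heC, he0, ?_⟩
      by_contra h1
      rw [not_le] at h1
      apply heC
      refine ⟨?_, ?_⟩ <;>
        simp only [Complex.sub_re, Complex.sub_im, Complex.ofReal_re, Complex.ofReal_im,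
          sub_zero] <;> linarith
  -- transport of the first alternative
  have htrans : ∀ l' : ℕ, a ≤ l' → l' < m → k.re - X - e.re = 2 * Λ →
      X + 3 * Λ ≤ CMs C2 C30 CW * Rs d sig l' m → Bd (Fs c) (sz H d sig l') (Cn 1 1 e) →
      Bd (Fs c) (2 * sz H d sig a)
          (Cn 1 1 (k - ((CMs C2 C30 CW * Rs d sig a m : ℝ) : ℂ))) ∨
        k.re ≤ X0 + CMs C2 C30 CW * Rs d sig a m := by
    intro l' hal hlm hkX hbig hBe
    have hsplit : CMs C2 C30 CW * Rs d sig a m = CMs C2 C30 CW * Rs d sig a l' +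
        CMs C2 C30 CW * Rs d sig l' m := by
      rw [MC_Rs_add d sig hal hlm.le, mul_add]
    rcases ih l' hlm hal t₁ ht₁ hBe with h1 | h1
    · left
      refine h1.mono le_rfl (cn_trans (MC_mem_Q ?_))
      simp only [Complex.sub_re, Complex.sub_im, Complex.ofReal_re, Complex.ofReal_im, sub_zero]
      rw [abs_sub_comm]
      rw [hsplit]
      linarith
    · right
      rw [hsplit]
      linarith
  have hmpos : 0 < m := by omega
  by_cases hsmall : Λ ≤ (C30 + 4 * C2) * rr d sig m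
  · -- small step
    have h3 : X + 3 * Λ ≤ CMs C2 C30 CW * rr d sig m := by
      unfold CMs
      nlinarith [mul_pos hC2 hrm, mul_pos hC30 hrm, mul_pos hCW hrm]
    have h4 : CMs C2 C30 CW * rr d sig m ≤ CMs C2 C30 CW * Rs d sig a m :=
      mul_le_mul_of_nonneg_left hRam hCst.le
    rcases hAB with ⟨-, hA⟩ | ⟨-, -, hB'⟩
    · obtain ⟨l, rfl⟩ : ∃ l, m = l + 1 := ⟨m - 1, by omega⟩
      have h1 : Bd (Fs c) (2 * sz H d sig (l + 1))
          (Cn 1 1 (e + ((C2 * rr d sig (l + 1) : ℝ) : ℂ))) := by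
        refine hB.mono (by linarith [MC_sz_pos h hsig (l + 1)]) (cn_trans (MC_mem_Q ?_))
        simp only [Complex.add_re, Complex.add_im, Complex.ofReal_re, Complex.ofReal_im, add_zero]
        rw [← hΛ, ← hX]
        linarith
      have h2 := hF1 c d K h l e hRe (ha0 _ (by omega)) h1
      refine htrans l (by omega) (Nat.lt_succ_self l) hA ?_ h2
      refine h3.trans (mul_le_mul_of_nonneg_left ?_ hCst.le)
      exact MC_Rs_ge h hsig (Nat.lt_succ_self l) le_rfl
    · right
      linarith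
  · -- large step
    rw [not_le] at hsmall
    obtain ⟨v, n, hn, hv0, hvn, hvP⟩ := exists_arc Γ hpoly t₁ t ht₁ ht₁t
    have hpt : ∀ z ∈ Poly v n, ∃ s, 0 ≤ s ∧ t₁ ≤ s ∧ s ≤ t ∧ Γ s = z := by
      intro z hz
      obtain ⟨s, hs, hsz⟩ := hvP z hz
      exact ⟨s, ht₁.trans hs.1, hs.1, hs.2, hsz⟩
    have hC30r : 0 < C30 * rr d sig m := mul_pos hC30 hrm
    have hC2r : 0 < C2 * rr d sig m := mul_pos hC2 hrm
    have hwalk := hW c d K h a m ham ha1 ha2 v n hn
      (by
        intro z hz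
        obtain ⟨s, hs0, -, -, rfl⟩ := hpt z hz
        exact hone s hs0)
      (by
        intro z hz
        obtain ⟨s, hs0, -, -, rfl⟩ := hpt z hz
        exact hreach s hs0)
      (by
        rw [hvn, hv0]
        change _ ≤ Λ
        nlinarith)
      (by rw [hvn]; exact hB)
      (by
        intro z hz hzC
        obtain ⟨s, hs0, hs1, hs2, rfl⟩ := hpt z hz
        rw [hv0]
        rcases hs1.eq_or_lt with hs1 | hs1
        · rw [← hs1]
        · exfalso
          rw [hvn] at hzC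
          exact hlast s hs1 hs2 (Or.inl hzC))
      (by
        rw [hvn, hv0]
        rcases hAB with ⟨-, hA⟩ | ⟨hB1, hB2, -⟩
        · left
          exact hA
        · right
          refine ⟨?_, hB1⟩
          refine hleft.mono le_rfl ?_
          intro w hw
          exact (cn_re_le (by norm_num) (by norm_num) hw).trans hB2)
    obtain ⟨l, lam, hal, hlm, hlam0, hlam1, hlam2, hlB, hlor⟩ := hwalk
    rw [hvn] at hlB
    rw [hvn, hv0] at hlam1 hlor
    have hlam1' : lam ≤ Λ / 2 := hlam1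
    by_cases hla : l = a
    · subst hla
      left
      refine hlB.mono le_rfl (cn_sub _ ?_)
      refine hlam2.trans ?_
      have h5 : CW * (Rs d sig l m + rr d sig m) ≤ CW * (2 * Rs d sig l m) :=
        mul_le_mul_of_nonneg_left (by linarith) hCW.le
      refine h5.trans ?_
      have h6 : 0 ≤ C2 * Rs d sig l m := by positivity
      have h7 : 0 ≤ C30 * Rs d sig l m := by positivity
      have h8 : 0 ≤ CW * Rs d sig l m := by positivity
      unfold CMs
      linarith
    · rcases hlor with hlor | ⟨hlm', hlΛ⟩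
      · exact absurd hlor hla
      have hlΛ' : Λ ≤ CW * Rs d sig l m := hlΛ
      have hal' : a < l := lt_of_le_of_ne hal (Ne.symm hla)
      have hRlm : Rs d sig l m ≤ Rs d sig a m := by
        rw [MC_Rs_add d sig hal hlm]
        linarith [MC_Rs_nonneg h hsig a l]
      rcases hAB with ⟨-, hA⟩ | ⟨-, -, hB'⟩
      · -- case (a)
        have hex : ∃ j, l ≤ j ∧ C2 * rr d sig j ≤ Λ / 4 := by
          refine ⟨m, hlm, ?_⟩
          nlinarith
        classical
        obtain ⟨hj1, hj2⟩ := Nat.find_spec hex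
        have hjmin := fun j hj => Nat.find_min (H := hex) (m := j) hj
        have hjm : Nat.find hex ≤ m := Nat.find_min' hex ⟨hlm, by nlinarith⟩
        obtain ⟨l', hl'⟩ : ∃ l', Nat.find hex = l' + 1 := ⟨Nat.find hex - 1, by omega⟩
        rw [hl'] at hj1 hj2 hjm hjmin
        have hal'' : a ≤ l' := by omega
        have h1 : Bd (Fs c) (2 * sz H d sig (l' + 1))
            (Cn 1 1 (e + ((C2 * rr d sig (l' + 1) : ℝ) : ℂ))) := by
          refine hlB.mono ?_ (cn_trans (MC_mem_Q ?_))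
          · linarith [MC_sz_mono h hsig hj1]
          · simp only [Complex.add_re, Complex.add_im, Complex.sub_re, Complex.sub_im,
              Complex.ofReal_re, Complex.ofReal_im, add_zero, sub_zero]
            rw [← hΛ]
            linarith
        have h2 := hF1 c d K h l' e hRe (ha0 _ (by omega)) h1
        refine htrans l' hal'' (by omega) hA ?_ h2
        have hRl'm := MC_Rs_nonneg h hsig l' m
        have hrmR : rr d sig m ≤ Rs d sig l' m := MC_Rs_ge h hsig (by omega) le_rfl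
        have hΛb : Λ ≤ (CW + 8 * C2) * Rs d sig l' m := by
          rcases hj1.eq_or_lt with hj1 | hj1
          · have h5 : Rs d sig l m ≤ Rs d sig l' m := by
              rw [hj1, MC_Rs_add d sig (Nat.le_succ l') hjm]
              linarith [MC_Rs_nonneg h hsig l' (l' + 1)]
            have h6 := mul_le_mul_of_nonneg_left h5 hCW.le
            have h7 : 0 ≤ 8 * C2 * Rs d sig l' m := by positivity
            linarith
          · have h5 := hjmin l' (Nat.lt_succ_self l')
            have h6 : Λ / 4 < C2 * rr d sig l' := by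
              by_contra h7
              exact h5 ⟨by omega, not_lt.1 h7⟩
            have h7 := MC_rr_dn h hsig l'
            have h8 : rr d sig (l' + 1) ≤ Rs d sig l' m :=
              MC_Rs_ge h hsig (Nat.lt_succ_self l') hjm
            have h9 : C2 * rr d sig l' ≤ C2 * (2 * Rs d sig l' m) :=
              mul_le_mul_of_nonneg_left (by linarith) hC2.le
            have h10 : 0 ≤ CW * Rs d sig l' m := by positivity
            linarith
        have h5 : X ≤ C2 * Rs d sig l' m := mul_le_mul_of_nonneg_left hrmR hC2.le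
        have h6 : 0 ≤ C2 * Rs d sig l' m := by positivity
        have h7 : 0 ≤ C30 * Rs d sig l' m := by positivity
        have h8 : 0 ≤ CW * Rs d sig l' m := by positivity
        unfold CMs
        linarith
      · -- case (b)
        right
        have h5 : X ≤ C2 * Rs d sig a m := mul_le_mul_of_nonneg_left hRam hC2.le
        have h6 : 0 ≤ C2 * Rs d sig a m := by positivity
        have h7 : 0 ≤ C30 * Rs d sig a m := by positivity
        have h8 : 0 ≤ CW * Rs d sig a m := by positivity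
        have h9 : CW * Rs d sig l m ≤ CW * Rs d sig a m :=
          mul_le_mul_of_nonneg_left hRlm hCW.le
        unfold CMs
        linarith

end Pool.Agent.Mac
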