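import Pool.Agent.Mac.CArc

set_option autoImplicit false

/-!
# Module POLY: polygonal approximation of the curve
-/

namespace Pool.Agent.Mac

open Finset Filter Topology
open Pool.Agent.MP_e061a3_an Pool.Agent.GapReg

/-- the clamp to `[0, 1]` -/
noncomputable def Poly_cl (x : ℝ) : ℝ := max 0 (min 1 x)

lemma Poly_cl_cont : Continuous Poly_cl := by
  unfold Poly_cl
  fun_prop

lemma Poly_cl_zero {x : ℝ} (h : x ≤ 0) : Poly_cl x = 0 := by
  unfold Poly_cl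
  rw [max_eq_left]
  exact (min_le_right _ _).trans h

lemma Poly_cl_one {x : ℝ} (h : 1 ≤ x) : Poly_cl x = 1 := by
  unfold Poly_cl
  rw [min_eq_left h, max_eq_right zero_le_one]

lemma Poly_cl_id {x : ℝ} (h : 0 ≤ x) (h' : x ≤ 1) : Poly_cl x = x := by
  unfold Poly_cl
  rw [min_eq_right h', max_eq_right h]

/-- the polygon through the points `P 0, P 1, ...` -/
noncomputable def Poly_G (P : ℕ → ℂ) (t : ℝ) : ℂ :=
  P 0 + ∑ m ∈ range ⌈t⌉₊, (Poly_cl (t - m) : ℂ) * (P (m + 1) - P m)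

lemma Poly_G_eq (P : ℕ → ℂ) (N : ℕ) (t : ℝ) (ht : t ≤ N) :
    Poly_G P t = P 0 + ∑ m ∈ range N, (Poly_cl (t - m) : ℂ) * (P (m + 1) - P m) := by
  unfold Poly_G
  congr 1
  refine Finset.sum_subset ?_ ?_
  · intro m hm
    rw [Finset.mem_range] at hm ⊢
    exact lt_of_lt_of_le hm (Nat.ceil_le.2 ht)
  · intro m _ hm
    rw [Finset.mem_range, not_lt] at hm
    have h1 : t ≤ m := (Nat.le_ceil t).trans (by exact_mod_cast hm)
    rw [Poly_cl_zero (by linarith)]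
    simp

lemma Poly_G_piece (P : ℕ → ℂ) (n : ℕ) (s : ℝ) (h0 : 0 ≤ s) (h1 : s ≤ 1) :
    Poly_G P ((n : ℝ) + s) = (1 - (s : ℂ)) * P n + (s : ℂ) * P (n + 1) := by
  rw [Poly_G_eq P (n + 1) _ (by push_cast; linarith), Finset.sum_range_succ]
  have h2 : ∑ m ∈ range n, (Poly_cl ((n : ℝ) + s - m) : ℂ) * (P (m + 1) - P m) =
      ∑ m ∈ range n, (P (m + 1) - P m) := by
    refine Finset.sum_congr rfl fun m hm => ?_
    rw [Finset.mem_range] at hm
    have h3 : (m : ℝ) + 1 ≤ n := by exact_mod_cast hm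
    rw [Poly_cl_one (by linarith)]
    simp
  rw [h2, Finset.sum_range_sub, add_sub_cancel_left, Poly_cl_id h0 h1]
  ring

lemma Poly_G_nat (P : ℕ → ℂ) (n : ℕ) : Poly_G P (n : ℝ) = P n := by
  have h := Poly_G_piece P n 0 le_rfl zero_le_one
  rw [add_zero] at h
  rw [h]
  push_cast
  ring

lemma Poly_G_cont (P : ℕ → ℂ) : Continuous (Poly_G P) := by
  rw [continuous_iff_continuousAt]
  intro t
  obtain ⟨N, hN⟩ := exists_nat_gt t
  have h1 : (fun t : ℝ => P 0 + ∑ m ∈ range N, (Poly_cl (t - m) : ℂ) * (P (m + 1) - P m)) =ᶠ[𝓝 t]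
      Poly_G P := by
    filter_upwards [Iio_mem_nhds hN] with x hx
    exact (Poly_G_eq P N x (le_of_lt hx)).symm
  refine ContinuousAt.congr ?_ h1
  refine Continuous.continuousAt ?_
  refine continuous_const.add (continuous_finset_sum _ fun m _ => ?_)
  exact (Complex.continuous_ofReal.comp (Poly_cl_cont.comp (continuous_id.sub continuous_const))).mul
    continuous_const

/-- the step of the subdivision -/
lemma Poly_delta (F : ℂ → ℂ) (hF : Continuous F) (Γ : ℝ → ℂ)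
    (hΓ : ContinuousOn Γ (Set.Ici 0)) (M : ℝ) (hM : ∀ t : ℝ, 0 ≤ t → ‖F (Γ t)‖ ≤ M) (N : ℕ) :
    ∃ δ : ℝ, 0 < δ ∧ δ ≤ 1 ∧ ∀ t : ℝ, 0 ≤ t → t ≤ N → ∀ z ∈ segment ℝ (Γ t) (Γ (t + δ)),
      ‖F z‖ ≤ M + 1 ∧ (Γ t).re - 1 ≤ z.re := by
  have hK : IsCompact (Set.Icc (0 : ℝ) ((N : ℝ) + 1)) := isCompact_Icc
  have hΓK : ContinuousOn Γ (Set.Icc (0 : ℝ) ((N : ℝ) + 1)) := hΓ.mono fun x hx => hx.1
  have hb := (hK.image_of_continuousOn hΓK).isBounded
  obtain ⟨R, hR⟩ := hb.subset_closedBall 0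
  have hFu := (isCompact_closedBall (0 : ℂ) (R + 1)).uniformContinuousOn_of_continuous
    hF.continuousOn
  rw [Metric.uniformContinuousOn_iff] at hFu
  obtain ⟨η, hη, hη'⟩ := hFu 1 one_pos
  have hΓu := hK.uniformContinuousOn_of_continuous hΓK
  rw [Metric.uniformContinuousOn_iff] at hΓu
  obtain ⟨δ, hδ, hδ'⟩ := hΓu (min η 1) (lt_min hη one_pos)
  refine ⟨min (δ / 2) 1, lt_min (by linarith) one_pos, min_le_right _ _, ?_⟩
  intro t ht htN z hz
  have hd0 : 0 < min (δ / 2) 1 := lt_min (by linarith) one_pos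
  have hd1 : min (δ / 2) 1 ≤ 1 := min_le_right _ _
  have hd2 : min (δ / 2) 1 ≤ δ / 2 := min_le_left _ _
  have htK : t ∈ Set.Icc (0 : ℝ) ((N : ℝ) + 1) := ⟨ht, by linarith⟩
  have htK' : t + min (δ / 2) 1 ∈ Set.Icc (0 : ℝ) ((N : ℝ) + 1) := ⟨by linarith, by linarith⟩
  have h1 : dist (Γ (t + min (δ / 2) 1)) (Γ t) < min η 1 := by
    refine hδ' _ htK' _ htK ?_
    rw [Real.dist_eq, add_sub_cancel_left, abs_of_pos hd0]
    linarith
  have h2 : ‖z - Γ t‖ ≤ ‖Γ (t + min (δ / 2) 1) - Γ t‖ := by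
    obtain ⟨x, y, hx, hy, hxy, rfl⟩ := hz
    have e : x • Γ t + y • Γ (t + min (δ / 2) 1) - Γ t =
        y • (Γ (t + min (δ / 2) 1) - Γ t) := by
      have : x = 1 - y := by linarith
      subst this
      rw [sub_smul, one_smul, smul_sub]
      ring
    rw [e, norm_smul, Real.norm_eq_abs, abs_of_nonneg hy]
    have hy1 : y ≤ 1 := by linarith
    calc y * ‖Γ (t + min (δ / 2) 1) - Γ t‖ ≤ 1 * ‖Γ (t + min (δ / 2) 1) - Γ t‖ :=
          mul_le_mul_of_nonneg_right hy1 (norm_nonneg _)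
      _ = _ := one_mul _
  rw [dist_eq_norm] at h1
  have h3 : ‖z - Γ t‖ < η := lt_of_le_of_lt h2 (lt_of_lt_of_le h1 (min_le_left _ _))
  have h4 : ‖z - Γ t‖ < 1 := lt_of_le_of_lt h2 (lt_of_lt_of_le h1 (min_le_right _ _))
  have h5 : ‖Γ t‖ ≤ R := by
    have := hR ⟨t, htK, rfl⟩
    simpa using this
  constructor
  · have h6 : dist (F z) (F (Γ t)) < 1 := by
      refine hη' z ?_ (Γ t) ?_ ?_
      · rw [mem_closedBall_zero_iff]
        calc ‖z‖ = ‖(z - Γ t) + Γ t‖ := by rw [sub_add_cancel]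
          _ ≤ ‖z - Γ t‖ + ‖Γ t‖ := norm_add_le _ _
          _ ≤ R + 1 := by linarith
      · rw [mem_closedBall_zero_iff]
        linarith
      · rw [dist_eq_norm]
        exact h3
    rw [dist_eq_norm] at h6
    calc ‖F z‖ = ‖(F z - F (Γ t)) + F (Γ t)‖ := by rw [sub_add_cancel]
      _ ≤ ‖F z - F (Γ t)‖ + ‖F (Γ t)‖ := norm_add_le _ _
      _ ≤ M + 1 := by linarith [hM t ht]
  · have h7 : |(z - Γ t).re| ≤ ‖z - Γ t‖ := Complex.abs_re_le_norm _
    rw [Complex.sub_re, abs_le] at h7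
    linarith

/-
HINT. For every N : ℕ, Γ is uniformly continuous on [N, N+1] and F is uniformly continuous on the closed
1-neighbourhood (compact) of Γ([N, N+1]); so there is k_N ≥ 1 such that for the subdivision of [N, N+1] into k_N equal
pieces all points z of a segment between the values at consecutive division points satisfy ‖z - Γ t‖ ≤ 1 and
‖F z - F (Γ t)‖ ≤ 1 for some t in the piece (in [N, N+1]). Enumerate all division points of [0, ∞) as τ 0 = 0 < τ 1 < ...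
(τ m → ∞; e.g. τ defined by recursion: τ (m+1) = τ m + 1/k_{⌊τ m⌋}; or: prove by `exists strictly increasing sequence`
for a sequence of blocks, or choose the k_N all powers of 2 ...). G (m + s) := (1-s) Γ(τ m) + s Γ(τ (m+1)), i.e.
G t := (1 - fract t) Γ(τ ⌊t⌋₊) + fract t Γ(τ (⌊t⌋₊ + 1)).
An easier way to get τ: let ω : ℝ → ℝ be a positive continuous (or piecewise constant, antitone) function with the property
`t, t' ∈ [0, x+1], |t - t'| ≤ ω x ⇒ good`; τ (m+1) := τ m + min 1 (ω (τ m)) with ω antitone in x and bounded below on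
compact sets: then τ m → ∞.
-/
theorem exists_poly (F : ℂ → ℂ) (hF : Continuous F) (Γ : ℝ → ℂ)
    (hΓ : ContinuousOn Γ (Set.Ici 0)) (hinf : Tendsto (fun t => (Γ t).re) atTop atTop) (M : ℝ)
    (hM : ∀ t : ℝ, 0 ≤ t → ‖F (Γ t)‖ ≤ M) :
    ∃ G : ℝ → ℂ, ContinuousOn G (Set.Ici 0) ∧ Polyg G ∧
      Tendsto (fun t => (G t).re) atTop atTop ∧ ∀ t : ℝ, 0 ≤ t → ‖F (G t)‖ ≤ M + 1 := by
  choose δ hδ0 hδ1 hδ using Poly_delta F hF Γ hΓ M hM
  -- the division points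
  let τ : ℕ → ℝ := fun m => Nat.rec 0 (fun _ x => x + δ ⌈x⌉₊) m
  have hτ0 : τ 0 = 0 := rfl
  have hτs : ∀ m, τ (m + 1) = τ m + δ ⌈τ m⌉₊ := fun m => rfl
  have hτmono : Monotone τ := monotone_nat_of_le_succ fun m => by
    rw [hτs]
    linarith [hδ0 ⌈τ m⌉₊]
  have hτnn : ∀ m, 0 ≤ τ m := fun m => by
    rw [← hτ0]
    exact hτmono (Nat.zero_le m)
  have hτinf : Tendsto τ atTop atTop := by
    refine tendsto_atTop_atTop_of_monotone hτmono fun b => ?_
    by_contra hcon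
    push Not at hcon
    obtain ⟨j₀, -, hj₀⟩ := Finset.exists_min_image (range (⌈b⌉₊ + 1)) δ ⟨0, by simp⟩
    have hstep : ∀ m : ℕ, (m : ℝ) * δ j₀ ≤ τ m := by
      intro m
      induction m with
      | zero => simp [hτ0]
      | succ m ih =>
        have h1 : ⌈τ m⌉₊ ∈ range (⌈b⌉₊ + 1) := by
          rw [Finset.mem_range]
          have := Nat.ceil_le_ceil (hcon m).le
          omega
        have h2 := hj₀ _ h1
        rw [hτs]
        push_cast
        linarith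
    obtain ⟨m, hm⟩ := exists_nat_gt (b / δ j₀)
    have h3 := hstep m
    rw [div_lt_iff₀ (hδ0 j₀)] at hm
    linarith [hcon m]
  let P : ℕ → ℂ := fun m => Γ (τ m)
  have hseg : ∀ m : ℕ, ∀ z ∈ segment ℝ (P m) (P (m + 1)),
      ‖F z‖ ≤ M + 1 ∧ (P m).re - 1 ≤ z.re := by
    intro m z hz
    exact hδ ⌈τ m⌉₊ (τ m) (hτnn m) (Nat.le_ceil _) z hz
  have hG : ∀ t : ℝ, 0 ≤ t → Poly_G P t ∈ segment ℝ (P ⌊t⌋₊) (P (⌊t⌋₊ + 1)) := by
    intro t ht
    have h1 : 0 ≤ t - ⌊t⌋₊ := by linarith [Nat.floor_le ht]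
    have h2 : t - ⌊t⌋₊ ≤ 1 := by linarith [Nat.lt_floor_add_one t]
    have h3 := Poly_G_piece P ⌊t⌋₊ (t - ⌊t⌋₊) h1 h2
    rw [add_sub_cancel] at h3
    refine ⟨1 - (t - ⌊t⌋₊), t - ⌊t⌋₊, by linarith, h1, by ring, ?_⟩
    rw [h3, Complex.real_smul, Complex.real_smul]
    push_cast
    ring
  refine ⟨Poly_G P, (Poly_G_cont P).continuousOn, ?_, ?_, ?_⟩
  · intro n s h0 h1
    rw [Poly_G_piece P n s h0 h1, Poly_G_nat]
    have : ((n : ℝ) + 1) = ((n + 1 : ℕ) : ℝ) := by push_cast; ring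
    rw [this, Poly_G_nat]
  · have h1 : Tendsto (fun t : ℝ => (P ⌊t⌋₊).re - 1) atTop atTop := by
      have h2 : Tendsto (fun t : ℝ => (Γ (τ ⌊t⌋₊)).re) atTop atTop :=
        hinf.comp (hτinf.comp tendsto_nat_floor_atTop)
      exact tendsto_atTop_add_const_right _ (-1) h2
    refine tendsto_atTop_mono' _ ?_ h1
    filter_upwards [eventually_ge_atTop (0 : ℝ)] with t ht
    exact (hseg ⌊t⌋₊ _ (hG t ht)).2
  · intro t ht
    exact (hseg ⌊t⌋₊ _ (hG t ht)).1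

end Pool.Agent.Mac
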