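import Pool.Agent.Mac.CPoly
import Pool.Agent.GapReg.Lift
import Pool.Agent.GapReg.FsBasic

set_option autoImplicit false

/-!
# Module RED: reduction of the problem to a statement on the lifted curve
-/

namespace Pool.Agent.Mac

open Finset Filter Topology
open Pool.Agent.MP_e061a3_an Pool.Agent.GapReg

/-- The statement on the lifted curve. -/
def Core : Prop :=
  ∀ c : ℕ → ℂ, Ent c → c 0 = 0 → (∃ m, c m ≠ 0) →
    Summable (fun m : ℕ => if c m = 0 then (0 : ℝ) else 1 / (m : ℝ)) →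
    ∀ Γ : ℝ → ℂ, ContinuousOn Γ (Set.Ici 0) → Polyg Γ →
      Tendsto (fun t => (Γ t).re) atTop atTop →
      (∀ t : ℝ, 0 ≤ t → ‖Fs c (Γ t)‖ ≤ 1) → False

/-
HINT. Suppose |f(γ t)| ≤ M for t ≥ 0 (M ≥ 0). c' := `MP_e061a3_an.coef p a` : summable for all z (`summable_coef`), same sum
(`tsum_coef`), c' 0 = 0 (p n > 0, `coef_ne_zero`), some c' m ≠ 0 (`coef_apply`), summability of 1/m over the support: the
support is in the range of p, compare with `hs` through the injection p. Shift: choose T ≥ 0 with ‖γ t‖ ≥ 1 for t ≥ T,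
γ₁ t := γ (t + T); `exists_lift` : Γ₁ with exp (Γ₁ t) = γ₁ t, (Γ₁ t).re = log ‖γ₁ t‖ → ∞; Fs c' (Γ₁ t) = f(γ₁ t). `exists_poly`
with F = Fs c' (continuous: `differentiable_Fs`): G with ‖Fs c' (G t)‖ ≤ M + 1. Apply Core to c := c' / (M+1)
(Fs is linear; M + 1 > 0).
-/
theorem of_core (hcore : Core) (p : ℕ → ℕ) (hp : StrictMono p) (hpos : ∀ n, 0 < p n)
    (hs : Summable (fun n => 1 / (p n : ℝ))) (a : ℕ → ℂ)
    (ha : ∀ z : ℂ, Summable (fun n => a n * z ^ (p n))) (hne : ∃ n, a n ≠ 0) (γ : ℝ → ℂ)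
    (hγ : ContinuousOn γ (Set.Ici 0)) (hinf : Tendsto (fun t => ‖γ t‖) atTop atTop) :
    ¬ ∃ M : ℝ, ∀ t : ℝ, 0 ≤ t → ‖∑' n, a n * (γ t) ^ (p n)‖ ≤ M := by
  rintro ⟨M, hM⟩
  have hM0 : 0 ≤ M := (norm_nonneg _).trans (hM 0 le_rfl)
  have hEnt : Ent (coef p a) := fun z => summable_coef p hp a ha z
  have hc0 : coef p a 0 = 0 := by
    by_contra h
    obtain ⟨n, hn⟩ := coef_ne_zero p a 0 h
    have := hpos n
    omega
  -- the shift
  obtain ⟨T, hT0, hT⟩ : ∃ T : ℝ, 0 ≤ T ∧ ∀ t : ℝ, T ≤ t → 1 ≤ ‖γ t‖ := by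
    obtain ⟨T, hT⟩ := eventually_atTop.mp (hinf.eventually_ge_atTop 1)
    exact ⟨max T 0, le_max_right _ _, fun t ht => hT t ((le_max_left _ _).trans ht)⟩
  have hshift : ContinuousOn (fun t : ℝ => γ (t + T)) (Set.Ici 0) := by
    refine hγ.comp (by fun_prop) ?_
    intro t ht
    rw [Set.mem_Ici] at ht ⊢
    linarith
  have hne0 : ∀ t : ℝ, 0 ≤ t → (fun t : ℝ => γ (t + T)) t ≠ 0 := by
    intro t ht h0
    have h1 := hT (t + T) (by linarith)
    have h2 : γ (t + T) = 0 := h0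
    rw [h2, norm_zero] at h1
    linarith
  obtain ⟨Γ, hΓc, hΓ⟩ := exists_lift (fun t : ℝ => γ (t + T)) hshift hne0
  have hre : ∀ t : ℝ, 0 ≤ t → (Γ t).re = Real.log ‖γ (t + T)‖ := by
    intro t ht
    have h1 := hΓ t ht
    have h2 : ‖Complex.exp (Γ t)‖ = Real.exp (Γ t).re := Complex.norm_exp _
    rw [h1] at h2
    change ‖γ (t + T)‖ = _ at h2
    rw [h2, Real.log_exp]
  have hinf1 : Tendsto (fun t => (Γ t).re) atTop atTop := by
    have h1 : Tendsto (fun t : ℝ => Real.log ‖γ (t + T)‖) atTop atTop :=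
      Real.tendsto_log_atTop.comp (hinf.comp (tendsto_atTop_add_const_right _ T tendsto_id))
    refine h1.congr' ?_
    filter_upwards [eventually_ge_atTop (0 : ℝ)] with t ht
    exact (hre t ht).symm
  have hFs : ∀ t : ℝ, 0 ≤ t → Fs (coef p a) (Γ t) = ∑' n, a n * (γ (t + T)) ^ (p n) := by
    intro t ht
    unfold Fs
    rw [hΓ t ht]
    exact tsum_coef p hp a (γ (t + T))
  obtain ⟨G, hGc, hGp, hGinf, hGM⟩ := exists_poly (Fs (coef p a))
    (differentiable_Fs (coef p a) hEnt).continuous Γ hΓc hinf1 M (by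
      intro t ht
      rw [hFs t ht]
      exact hM (t + T) (by linarith))
  have hM1 : (0 : ℝ) < M + 1 := by linarith
  have hM1c : ((M + 1 : ℝ) : ℂ) ≠ 0 := by
    exact_mod_cast hM1.ne'
  have hlin : ∀ w, Fs (fun m => coef p a m / ((M + 1 : ℝ) : ℂ)) w =
      Fs (coef p a) w / ((M + 1 : ℝ) : ℂ) := by
    intro w
    unfold Fs
    rw [← tsum_div_const]
    refine tsum_congr ?_
    intro m
    ring
  refine hcore (fun m => coef p a m / ((M + 1 : ℝ) : ℂ)) ?_ ?_ ?_ ?_ G hGc hGp hGinf ?_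
  · intro z
    have h1 := (hEnt z).div_const ((M + 1 : ℝ) : ℂ)
    refine h1.congr ?_
    intro m
    ring
  · change coef p a 0 / ((M + 1 : ℝ) : ℂ) = 0
    rw [hc0, zero_div]
  · obtain ⟨n, hn⟩ := hne
    refine ⟨p n, ?_⟩
    change coef p a (p n) / ((M + 1 : ℝ) : ℂ) ≠ 0
    rw [coef_apply p hp]
    exact div_ne_zero hn hM1c
  · have h1 : Summable (Function.extend p (fun n => 1 / (p n : ℝ)) 0) :=
      (summable_extend_zero hp.injective).mpr hs
    refine Summable.of_nonneg_of_le ?_ ?_ h1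
    · intro m
      split_ifs
      · exact le_rfl
      · positivity
    · intro m
      by_cases hm : ∃ n, p n = m
      · obtain ⟨n, rfl⟩ := hm
        rw [hp.injective.extend_apply]
        split_ifs
        · positivity
        · exact le_rfl
      · have h2 : coef p a m = 0 := by
          by_contra h3
          exact hm (coef_ne_zero p a m h3)
        rw [Function.extend_apply' _ _ _ hm]
        simp [h2]
  · intro t ht
    rw [hlin, norm_div]
    have h1 := hGM t ht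
    have h2 : ‖((M + 1 : ℝ) : ℂ)‖ = M + 1 := by
      rw [Complex.norm_real, Real.norm_eq_abs, abs_of_pos hM1]
    rw [h2, div_le_one hM1]
    exact h1

end Pool.Agent.Mac
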