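import Pool.Agent.Mac.Arc
import Pool.Agent.GapReg.Decay
import Pool.Agent.GapReg.FsBasic

set_option autoImplicit false

/-!
# Decay at a point of the arc (section 8, O5)
-/

namespace Pool.Agent.Mac

open Finset Filter Topology
open Pool.Agent.MP_e061a3_an Pool.Agent.GapReg

namespace Arc

variable {y : Sys} (A : Arc y)

variable {A}

/-- MODULE Regd.
HINT. `decay_iter` with `p = κ`, `m = M`; frontier points of `W` in the open ball are in `G`. -/
theorem Reg.decay {q : ℂ} {ρ M : ℝ} {W : Set ℂ} (hW : A.Reg q ρ M W) (hM : 0 < M) (κ : ℂ)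
    (hκ : κ ∈ A.G) (R : ℝ) (hR : 0 < R) (h1 : ∀ z : ℂ, ‖z - κ‖ < R → ρ < ‖z - q‖)
    (h2 : ∀ z : ℂ, ‖z - κ‖ < R → ¬ (z.im = q.im ∧ z.re ≤ q.re - ρ))
    (h3 : R ≤ |κ.im - A.e.im|) (h4 : R ≤ 10 * A.Lam + 10) (J : ℕ) :
    ∀ w ∈ W, ‖w - κ‖ ≤ R / 1000 ^ J → ‖y.F w‖ ≤ 2 * Real.exp (M / 2 ^ J) := by
  have hFd : Differentiable ℂ y.F := differentiable_Fs y.c y.lev.ent
  refine decay_iter y.F hFd W hW.isOpen κ R M hR hM ?_ ?_ (A.reach κ hκ) J
  · intro w hw hwR
    rcases hW.front w hw with h | h | h | h | h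
    · have := A.one w h
      linarith
    · exact absurd h (not_le.mpr (h1 w hwR))
    · exfalso
      have e1 : |(w - κ).im| ≤ ‖w - κ‖ := Complex.abs_im_le_norm _
      rw [Complex.sub_im, h, abs_sub_comm] at e1
      linarith
    · exact absurd h (h2 w hwR)
    · exfalso
      have e1 : |(w - κ).re| ≤ ‖w - κ‖ := Complex.abs_re_le_norm _
      rw [Complex.sub_re, h, abs_le] at e1
      have e2 := A.far κ hκ
      unfold Lam at h4
      linarith [e1.1]
  · intro w hw _
    have e1 := hW.bound w hw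
    have e2 := Real.exp_pos M
    linarith

end Arc

end Pool.Agent.Mac
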