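import Pool.Agent.Mac.Cst

set_option autoImplicit false

/-!
# DEC and LW for the bundled function
-/

namespace Pool.Agent.Mac

open Finset Filter Topology
open Pool.Agent.MP_e061a3_an Pool.Agent.GapReg

variable (y : Sys)

/-- MODULE Decc (five easy consequences of `DecP`, `LwP`).
DEC in the units of a level. HINT. `y.k.dec`, `D = t`, `M = 2 s_j` or general; `d_eq`, `sig_a`,
`c2_pos`: `d l = sig * r l ≤ c2 * t` as soon as `r l ≤ 100000 * t`. -/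
theorem Sys.dec {al be : ℝ} (ha : 1 ≤ al) (ha' : al ≤ 100) (hb : 1 ≤ be) (hb' : be ≤ 100) (l : ℕ)
    (p : ℂ) (M D : ℝ) (hM : 0 ≤ M) (hB : Bd y.F M (Cn al be p))
    (h1 : M ≤ y.k.c1 * ((y.k.H : ℝ) ^ l * D)) (h2 : y.r l ≤ 100000 * D) :
    Bd (y.R l) (-((y.k.H : ℝ) ^ l * D / 8)) (Cn al be (sh p D)) := by
  have hr := y.r_pos l
  have hD : 0 < D := by linarith
  refine y.k.dec y.c y.d y.K y.lev al be ha ha' hb hb' l p M D hM hB h1 ?_
  rw [y.d_eq]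
  calc y.k.sig * y.r l ≤ y.k.sig * (100000 * D) := mul_le_mul_of_nonneg_left h2 y.sig_pos.le
    _ = 100000 * y.k.sig * D := by ring
    _ ≤ y.k.c2 * D := mul_le_mul_of_nonneg_right y.k.sig_a hD.le

/-- `M = 2 s_l`, `D ≥ C4 r_l`. HINT. `C4_a`, `C4_c`. -/
theorem Sys.dec4 {al be : ℝ} (ha : 1 ≤ al) (ha' : al ≤ 100) (hb : 1 ≤ be) (hb' : be ≤ 100) (l : ℕ)
    (p : ℂ) (D : ℝ) (hB : Bd y.F (2 * y.s l) (Cn al be p)) (hD : y.k.C4 * y.r l ≤ D) :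
    Bd (y.R l) (-((y.k.H : ℝ) ^ l * D / 8)) (Cn al be (sh p D)) := by
  have hr := y.r_pos l
  have hs := y.s_pos l
  have hC : 100000 * y.r l ≤ D := le_trans (mul_le_mul_of_nonneg_right y.k.C4_c hr.le) hD
  refine y.dec ha ha' hb hb' l p (2 * y.s l) D (by linarith) hB ?_ (by linarith)
  have hH : (0 : ℝ) < (y.k.H : ℝ) ^ l := pow_pos y.H_pos l
  have h3 : y.k.c1 * y.k.C4 * y.s l ≤ y.k.c1 * ((y.k.H : ℝ) ^ l * D) := by
    have e : y.k.c1 * y.k.C4 * y.s l = y.k.c1 * ((y.k.H : ℝ) ^ l * (y.k.C4 * y.r l)) := by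
      unfold Sys.s; ring
    rw [e]
    exact mul_le_mul_of_nonneg_left (mul_le_mul_of_nonneg_left hD hH.le) y.k.c1_pos.le
  have h4 : 2 * y.s l ≤ y.k.c1 * y.k.C4 * y.s l := mul_le_mul_of_nonneg_right y.k.C4_a hs.le
  exact h4.trans h3

/-- `|R_l| ≤ 1` at depth `C4 r_l`. -/
theorem Sys.dec1 {al be : ℝ} (ha : 1 ≤ al) (ha' : al ≤ 100) (hb : 1 ≤ be) (hb' : be ≤ 100) (l : ℕ)
    (p : ℂ) (hB : Bd y.F (2 * y.s l) (Cn al be p)) :
    ∀ w ∈ Cn al be (sh p (y.k.C4 * y.r l)), ‖y.R l w‖ ≤ 1 := by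
  intro w hw
  have h := y.dec4 ha ha' hb hb' l p (y.k.C4 * y.r l) hB le_rfl w hw
  refine h.trans ?_
  rw [Real.exp_le_one_iff]
  have hH : (0 : ℝ) < (y.k.H : ℝ) ^ l := pow_pos y.H_pos l
  have hr := y.r_pos l
  have hC : 0 < y.k.C4 := by linarith [y.k.C4_c]
  have : 0 < (y.k.H : ℝ) ^ l * (y.k.C4 * y.r l) := mul_pos hH (mul_pos hC hr)
  linarith

/-- LW at one level from a ball of radius `≥ r_l`. HINT. `y.k.lw`, `Hd_eq`; `CL * sig ≤ del / 16`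
follows from `sig_d` (`C4 ≥ 1`, `H ≥ 1`). -/
theorem Sys.lw1 (l : ℕ) (z : ℂ) (ρ m : ℝ) (hρ : y.r l ≤ ρ)
    (h : ∀ u, ‖u - z‖ ≤ ρ → ‖y.S l u‖ ≤ Real.exp m) :
    ∀ w, ‖w - z‖ ≤ 8 * (z.re - w.re) → ‖y.S l w‖ ≤ Real.exp (m + y.k.del * y.s l / 16) := by
  intro w hw
  have hr := y.r_pos l
  have hs := y.s_pos l
  have hd : y.d l ≤ y.k.c2 * ρ := by
    rw [y.d_eq]
    have h1 : y.k.sig ≤ y.k.c2 := by linarith [y.k.sig_a, y.sig_pos]
    exact mul_le_mul h1 hρ hr.le y.k.c2_pos.le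
  have h2 := y.k.lw y.c y.d y.K y.lev l z ρ m (by linarith) hd h w hw
  refine h2.trans (Real.exp_le_exp.2 ?_)
  rw [y.Hd_eq]
  have hH := y.H_ge
  have hHp := y.H_pos
  have hC4 : (1 : ℝ) ≤ y.k.C4 := by linarith [y.k.C4_c]
  have hCL : (0 : ℝ) < y.k.CL := by linarith [y.k.CL_ge]
  have hsig := y.sig_pos
  have h3 : y.k.CL * y.k.sig * (1600 * y.k.H) ≤ 1 := by
    refine le_trans ?_ y.k.sig_d
    have h4 : (1 : ℝ) ≤ y.k.H * y.k.C4 := by nlinarith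
    have h5 : y.k.CL * y.k.sig ≤ y.k.CL * (y.k.sig * y.k.H * y.k.C4) := by
      have h6 : y.k.sig ≤ y.k.sig * y.k.H * y.k.C4 := by
        rw [mul_assoc]
        exact le_mul_of_one_le_right hsig.le h4
      exact mul_le_mul_of_nonneg_left h6 hCL.le
    exact mul_le_mul_of_nonneg_right h5 (by positivity)
  have h4 : y.k.CL * y.k.sig ≤ y.k.del / 16 := by
    unfold Cst.del
    rw [div_div, le_div_iff₀ (by positivity)]
    calc y.k.CL * y.k.sig * (100 * (y.k.H : ℝ) * 16) = y.k.CL * y.k.sig * (1600 * y.k.H) := by ring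
      _ ≤ 1 := h3
  have h5 : y.k.CL * (y.k.sig * y.s l) ≤ y.k.del * y.s l / 16 := by
    calc y.k.CL * (y.k.sig * y.s l) = y.k.CL * y.k.sig * y.s l := by ring
      _ ≤ y.k.del / 16 * y.s l := mul_le_mul_of_nonneg_right h4 hs.le
      _ = y.k.del * y.s l / 16 := by ring
  linarith

/-- From `|S_l| ≤ e^(del s_l)` and `|R_l| ≤ 1` to the next level.
HINT. `e^(del s) + 1 ≤ e^(del s + 1)`, `s (l+1) ≤ 2 H s l`, `del = 1/(100 H)`, `S0_a`. -/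
theorem Sys.next (l : ℕ) (hl : y.a0 ≤ l) (w : ℂ) (hS : ‖y.S (l + 1) w‖ ≤ Real.exp (y.k.del * y.s (l + 1)))
    (hR : ‖y.R (l + 1) w‖ ≤ 1) : ‖y.F w‖ ≤ Real.exp (y.s l) := by
  have hHp := y.H_pos
  have hH := y.H_ge
  have hs := y.s_pos l
  have hs1 := y.s_pos (l + 1)
  have hS0 : (1000 : ℝ) ≤ y.s l := by
    have h1 := y.s_ge l hl
    have h2 := y.k.S0_a
    nlinarith
  have hdel : y.k.del * y.s (l + 1) ≤ y.s l / 50 := by
    unfold Cst.del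
    rw [one_div, inv_mul_eq_div, div_le_iff₀ (by positivity)]
    calc y.s (l + 1) ≤ 2 * y.k.H * y.s l := y.s_up l
      _ = y.s l / 50 * (100 * y.k.H) := by ring
  rw [y.F_eq (l + 1)]
  refine (norm_add_le _ _).trans ?_
  have h1 : Real.exp (y.k.del * y.s (l + 1)) ≤ Real.exp (y.s l / 50) := Real.exp_le_exp.2 hdel
  have h2 : (1 : ℝ) ≤ Real.exp (y.s l / 50) := Real.one_le_exp (by positivity)
  have h3 : (2 : ℝ) ≤ Real.exp 1 := by
    have := Real.add_one_le_exp (1 : ℝ)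
    linarith
  have h4 : Real.exp 1 * Real.exp (y.s l / 50) ≤ Real.exp (y.s l) := by
    rw [← Real.exp_add]
    exact Real.exp_le_exp.2 (by linarith)
  have h5 : 2 * Real.exp (y.s l / 50) ≤ Real.exp 1 * Real.exp (y.s l / 50) :=
    mul_le_mul_of_nonneg_right h3 (Real.exp_pos _).le
  linarith

end Pool.Agent.Mac
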