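import Pool.Agent.Mac.Geo2

set_option autoImplicit false

/-!
# Lemma 7.0
-/

namespace Pool.Agent.Mac

open Finset Filter Topology
open Pool.Agent.MP_e061a3_an Pool.Agent.GapReg

namespace Arc

variable {y : Sys} (A : Arc y)

/-- MODULE Lem70. Lemma 7.0 (i).
HINT. case 1 of `w3`: the ray is in `Cn 1 1 (sh k lam)`; case 2: it is in `Cn 1 1 e`, and
`s a ≤ s l` (`s_mono`), `s ≥ 0`. -/
theorem ray_e (l : ℕ) (hl : A.a ≤ l) (lam : ℝ) (h1 : lam ≤ A.Lam)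
    (hB : Bd y.F (2 * y.s l) (Cn 1 1 (sh A.k lam))) :
    Bd y.F (2 * y.s l) {w | w.im = A.e.im ∧ w.re ≤ A.e.re} := by
  rintro w ⟨hw1, hw2⟩
  unfold Lam at h1
  have hlt := A.lt
  have hC : 0 ≤ y.k.C2 * y.r A.m :=
    mul_nonneg (by linarith [y.k.C2_b]) (y.r_pos A.m).le
  rcases A.w3 with h3 | ⟨h3, -⟩
  · refine hB w ⟨?_, ?_⟩
    · rw [sh_re, sh_im, hw1]
      linarith
    · rw [sh_re, sh_im, hw1]
      linarith
  · refine (h3 w ⟨?_, ?_⟩).trans (Real.exp_le_exp.2 ?_)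
    · rw [hw1]
      linarith
    · rw [hw1]
      linarith
    · have := y.s_mono hl
      have := y.s_pos l
      linarith

/-- Lemma 7.0 (ii). -/
theorem below_e (l : ℕ) (hl : A.a ≤ l) (lam : ℝ) (h1 : lam ≤ A.Lam)
    (hB : Bd y.F (2 * y.s l) (Cn 1 1 (sh A.k lam))) (z : ℂ) (h2 : A.Lam / 2 ≤ z.im - A.e.im)
    (h3 : z.im ≤ A.k.im) (h4 : z.re ≤ A.k.re + A.Lam) (h5 : A.Free z) :
    ∀ w ∈ Cn 1 100 z, w.im ≤ A.e.im → ‖y.F w‖ ≤ Real.exp (2 * y.s l) := by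
  rintro w ⟨hw1, hw2⟩ hwe
  unfold Lam at h1 h2 h4
  have hlt := A.lt
  refine hB w ⟨?_, ?_⟩
  · rw [sh_re, sh_im]
    linarith
  · rw [sh_re, sh_im]
    linarith

end Arc

end Pool.Agent.Mac
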