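import Pool.Agent.Mac.Poly

set_option autoImplicit false

/-!
# The region enclosed by a polygon and two rays
-/

namespace Pool.Agent.Mac

open Finset Filter Topology
open Pool.Agent.MP_e061a3_an Pool.Agent.GapReg

/-- If the half line to the left of `w` does not meet the closed polygon, then `w` is outside. -/
theorem Region_out (v : ℕ → ℂ) (n : ℕ) (hv : v n = v 0) (w : ℂ)
    (h : ∀ k < n, ∀ z ∈ segment ℝ (v k) (v (k + 1)), z.im = w.im → w.re < z.re) :
    w ∉ Encl v n := by
  rintro ⟨-, hw⟩
  apply hw
  have hlog : ∀ k ∈ range n, Complex.log ((v (k + 1) - w) / (v k - w)) =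
      Complex.log (v (k + 1) - w) - Complex.log (v k - w) := by
    intro k hk
    rw [Finset.mem_range] at hk
    apply IXAux.log_div_of_segment
    rintro z ⟨s, t, hs, ht, hst, he⟩
    have hm : z + w ∈ segment ℝ (v k) (v (k + 1)) := by
      refine ⟨s, t, hs, ht, hst, ?_⟩
      rw [← he]
      simp only [Complex.real_smul]
      have : (s : ℂ) + t = 1 := by exact_mod_cast hst
      linear_combination w * this
    rw [Complex.mem_slitPlane_iff]
    by_cases hi : z.im = 0
    · left
      have := h k hk (z + w) hm (by simp [hi])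
      simpa using this
    · right; exact hi
  unfold wind
  rw [Finset.sum_congr rfl hlog, Finset.sum_range_sub (fun k => Complex.log (v k - w)), hv,
    sub_self]

/-- The closed polygon. -/
noncomputable def Region_v (v : ℕ → ℂ) (n : ℕ) (e b : ℂ) (XL : ℝ) (k : ℕ) : ℂ :=
  if k = 0 then ⟨XL, b.im⟩
  else if k = 1 then ⟨XL, e.im⟩
  else if k ≤ n + 2 then v (k - 2)
  else ⟨XL, b.im⟩

theorem Region_horiz {x₀ x₁ h : ℝ} {z : ℂ} (hx : x₀ ≤ x₁)
    (hz : z ∈ segment ℝ (⟨x₀, h⟩ : ℂ) ⟨x₁, h⟩) : z.im = h ∧ z.re ≤ x₁ := by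
  obtain ⟨s, t, hs, ht, hst, rfl⟩ := hz
  have hs' : s = 1 - t := by linarith
  subst hs'
  constructor
  · simp only [Complex.add_im, Complex.real_smul, Complex.mul_im, Complex.ofReal_re,
      Complex.ofReal_im]
    ring
  · simp only [Complex.add_re, Complex.real_smul, Complex.mul_re, Complex.ofReal_re,
      Complex.ofReal_im]
    nlinarith

theorem Region_vert {x y₀ y₁ : ℝ} {z : ℂ} (h : y₀ ≤ y₁)
    (hz : z ∈ segment ℝ (⟨x, y₁⟩ : ℂ) ⟨x, y₀⟩) : z.re = x ∧ z.im ≤ y₁ := by
  obtain ⟨s, t, hs, ht, hst, rfl⟩ := hz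
  have hs' : s = 1 - t := by linarith
  subst hs'
  constructor
  · simp only [Complex.add_re, Complex.real_smul, Complex.mul_re, Complex.ofReal_re,
      Complex.ofReal_im]
    ring
  · simp only [Complex.add_im, Complex.real_smul, Complex.mul_im, Complex.ofReal_re,
      Complex.ofReal_im]
    nlinarith

/-- MODULE Region. The region to the left of a polygon from `e` to `b` inside `S`, closed up by
two horizontal segments and the vertical line `re = XL`. -/
theorem region (S : Set ℂ) (e b : ℂ) (XL : ℝ) (hS : PJ S e b) (hXe : XL < e.re) (hXb : XL < b.re)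
    (him : e.im < b.im) :
    ∃ W : Set ℂ, IsOpen W ∧ Bornology.IsBounded W ∧
      (∀ z ∈ frontier W, z ∈ S ∨ (z.im = e.im ∧ z.re ≤ e.re) ∨ (z.im = b.im ∧ z.re ≤ b.re) ∨
        z.re = XL) ∧
      (∀ w : ℂ, XL < w.re → e.im < w.im → w.im < b.im →
        (∀ z ∈ S, z.im = w.im → w.re < z.re) → w ∈ W) ∧
      (∀ w : ℂ, XL < w.re → b.im < w.im → (∀ z ∈ S, z.im = w.im → w.re < z.re) → w ∉ W) := by
  obtain ⟨v, n, hn, hv0, hvn, hvS⟩ := hS
  set u := Region_v v n e b XL with hu
  have u0 : u 0 = ⟨XL, b.im⟩ := by simp [hu, Region_v]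
  have u1 : u 1 = ⟨XL, e.im⟩ := by simp [hu, Region_v]
  have uk : ∀ k ≤ n, u (k + 2) = v k := by
    intro k hk
    simp only [hu, Region_v]
    rw [if_neg (by omega), if_neg (by omega), if_pos (by omega)]
    rfl
  have u2 : u 2 = e := by
    have := uk 0 (by omega)
    rw [hv0] at this
    simpa using this
  have un2 : u (n + 2) = b := by rw [uk n le_rfl, hvn]
  have un3 : u (n + 3) = ⟨XL, b.im⟩ := by
    simp only [hu, Region_v]
    rw [if_neg (by omega), if_neg (by omega), if_neg (by omega)]
  have hclosed : u (n + 3) = u 0 := by rw [un3, u0]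
  -- classification of the sides
  have hclass : ∀ k < n + 3, ∀ z ∈ segment ℝ (u k) (u (k + 1)),
      (k = 0 ∧ z.re = XL ∧ z.im ≤ b.im) ∨ (z.im = e.im ∧ z.re ≤ e.re) ∨ z ∈ S ∨
      (z.im = b.im ∧ z.re ≤ b.re) := by
    intro k hk z hz
    rcases Nat.eq_zero_or_pos k with rfl | hk0
    · left
      rw [zero_add, u0, u1] at hz
      exact ⟨rfl, Region_vert him.le hz⟩
    · rcases Nat.eq_or_lt_of_le (Nat.succ_le_of_lt hk0) with hk1 | hk1
      · right; left
        have hk1' : k = 1 := by omega
        subst hk1'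
        rw [u1, show 1 + 1 = 2 from rfl, u2] at hz
        have he : e = ⟨e.re, e.im⟩ := rfl
        rw [he] at hz
        exact Region_horiz hXe.le hz
      · rcases lt_or_ge k (n + 2) with hk2 | hk2
        · right; right; left
          apply hvS
          refine ⟨k - 2, by omega, ?_⟩
          have e1 : u k = v (k - 2) := by
            have := uk (k - 2) (by omega)
            rwa [show k - 2 + 2 = k by omega] at this
          have e2 : u (k + 1) = v (k - 2 + 1) := by
            have := uk (k - 2 + 1) (by omega)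
            rwa [show k - 2 + 1 + 2 = k + 1 by omega] at this
          rw [e1, e2] at hz
          exact hz
        · right; right; right
          have hk3 : k = n + 2 := by omega
          subst hk3
          rw [un2, show n + 2 + 1 = n + 3 from rfl, un3, segment_symm] at hz
          have hb : b = ⟨b.re, b.im⟩ := rfl
          rw [hb] at hz
          exact Region_horiz hXb.le hz
  refine ⟨Encl u (n + 3), isOpen_Encl _ _ hclosed, isBounded_Encl _ _ hclosed, ?_, ?_, ?_⟩
  · intro z hz
    obtain ⟨k, hk, hz'⟩ := frontier_Encl_subset u (n + 3) hclosed hz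
    rcases hclass k hk z hz' with ⟨_, h, _⟩ | h | h | h
    · right; right; right; exact h
    · right; left; exact h
    · left; exact h
    · right; right; left; exact h
  · intro w hw1 hw2 hw3 hw4
    apply mem_Encl_of_left u (n + 3) hclosed w 0 (by omega)
    · intro k hk hk0 z hz hzw
      rcases hclass k hk z hz with ⟨h, _⟩ | ⟨h, _⟩ | h | ⟨h, _⟩
      · exact absurd h hk0
      · exfalso; rw [h] at hzw; linarith
      · exact hw4 z h hzw
      · exfalso; rw [h] at hzw; linarith
    · rw [u0, zero_add, u1]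
    · rw [u0]; exact hw1
    · rw [u0]; exact hw3
    · rw [zero_add, u1]; exact hw2
  · intro w hw1 hw2 hw3
    apply Region_out u (n + 3) hclosed w
    intro k hk z hz hzw
    rcases hclass k hk z hz with ⟨_, _, h⟩ | ⟨h, _⟩ | h | ⟨h, _⟩
    · exfalso; rw [hzw] at h; linarith
    · exfalso; rw [h] at hzw; linarith
    · exact hw3 z h hzw
    · exfalso; rw [h] at hzw; linarith

end Pool.Agent.Mac
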