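import Pool.Agent.Mac.Arc
import Pool.Agent.Mac.Region
import Pool.Agent.GapReg.FsBasic

set_option autoImplicit false

/-!
# The region attached to a barrier (section 8)
-/

namespace Pool.Agent.Mac

open Finset Filter Topology
open Pool.Agent.MP_e061a3_an Pool.Agent.GapReg

namespace Arc

variable {y : Sys} (A : Arc y)

/-- MODULE Rega. `region` with `S = G ∪ {z | ‖z - q‖ ≤ ρ ∧ ‖F z‖ ≤ e^M}`, `b = sh q ρ`, `XL`; then
the maximum principle. -/
theorem exists_reg (q : ℂ) (ρ M : ℝ) (hq : q ∈ A.G) (hlow : A.e.im < q.im) (hρ : 0 ≤ ρ)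
    (hρ1 : ρ ≤ 10) (hM : 0 ≤ M) (hβ : A.Barr q ρ M)
    (he : Bd y.F M {w | w.im = A.e.im ∧ w.re ≤ A.e.re})
    (hr : Bd y.F M {w | w.im = q.im ∧ w.re ≤ q.re - ρ}) : ∃ W : Set ℂ, A.Reg q ρ M W := by
  have _ := hρ
  have hlt := A.lt
  have hfe := A.far A.e A.e_mem
  have hfq := A.far q hq
  have hexp : (1:ℝ) ≤ Real.exp M := Real.one_le_exp hM
  obtain ⟨W, hopen, hbdd, hfront, hin, hout⟩ := region _ A.e (sh q ρ) A.XL hβ (by linarith)
    (by rw [sh_re]; linarith) (by rw [sh_im]; exact hlow)
  simp only [sh_re, sh_im] at hfront hin hout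
  refine ⟨W, hopen, ?_, ?_, ?_, ?_⟩
  · intro w hw
    apply Complex.norm_le_of_forall_mem_frontier_norm_le hbdd
      (differentiable_Fs y.c y.lev.ent).diffContOnCl _ (subset_closure hw)
    intro z hz
    rcases hfront z hz with (h | h) | h | h | h
    · exact (A.one z h).trans hexp
    · exact h.2
    · exact he z h
    · exact hr z h
    · exact (A.left z h.le).trans hexp
  · intro z hz
    rcases hfront z hz with (h | h) | h | h | h
    · left; exact h
    · right; left; exact h.1
    · right; right; left; exact h.1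
    · right; right; right; left; exact h
    · right; right; right; right; exact h
  · intro w h1 h2 h3 h4 h5
    apply hin w h1 h2 h3
    rintro z (h | h) hz
    · exact h4 z h hz
    · exact h5 z h.1 hz
  · intro w h1 h2 h4 h5
    apply hout w h1 h2
    rintro z (h | h) hz
    · exact h4 z h hz
    · exact h5 z h.1 hz

end Arc

end Pool.Agent.Mac
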