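import Pool.Agent.Mac.Geo2
import Pool.Agent.Mac.Rega
import Pool.Agent.Mac.Lem70
import Pool.Agent.Mac.Decc

set_option autoImplicit false

/-!
# The tent: regions and bound
-/

namespace Pool.Agent.Mac

open Finset Filter Topology
open Pool.Agent.MP_e061a3_an Pool.Agent.GapReg

namespace Arc

variable {y : Sys} {A : Arc y}

lemma Tent1_lam {q : ℂ} {l : ℕ} (h : A.State q l) :
    A.lam q l + y.k.C4 * y.r l ≤ A.Lam := by
  obtain ⟨-, -, h0⟩ := h.touch.T2
  have h1 := h.lam_le
  have h2 := y.r_pos l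
  have h3 := y.r_pos A.m
  have h4 := y.k.C37_c
  have h5 := y.k.C31_a
  have h6 := y.k.C2_b
  have h7 : y.k.C4 * y.r l ≤ y.k.C37 * y.r l := mul_le_mul_of_nonneg_right h4 h2.le
  have h8 : 0 ≤ y.k.C31 * (A.eta q + y.r A.m) := mul_nonneg (by linarith) (by linarith)
  have h9 : y.k.C37 * y.r l ≤ A.lam q l := by
    unfold lam
    linarith
  linarith

/-- MODULE Tent1. The region at the level `j` of the drop lemma.
HINT. `exists_reg` with `ρ = 2 C3 r_l ≤ 10` (`C33_c`, `r_small`), `ray_e` with `c` (the depth is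
`≤ Lam` because `lam ≤ Lam / 2` and `C4 r_l ≤ Lam / 4`: `C37_c`), `b` for the ray of `q`. -/
theorem Inv.reg {q : ℂ} {l j : ℕ} (h : A.State q l) (hj : A.a ≤ j) (hI : A.Inv q l j) :
    ∃ W : Set ℂ, A.Reg q (2 * (y.k.C3 * y.r l)) (2 * y.s j) W := by
  have hrl := y.r_pos l
  have hC1 := y.k.C3_b
  have hC4 := y.k.C4_c
  have hC3 : 0 < y.k.C3 := by linarith
  have ha0 : y.a0 ≤ l := by
    have := A.ha
    have := h.la
    omega
  have hsm := y.r_small l ha0
  have hC33 := mul_le_mul_of_nonneg_right y.k.C33_c hrl.le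
  have hpos : 0 < y.k.C3 * y.r l := mul_pos hC3 hrl
  have hlt := A.lt
  have heta := h.eta_le
  refine A.exists_reg q (2 * (y.k.C3 * y.r l)) (2 * y.s j) h.touch.1 ?_ ?_ ?_ ?_ hI.a ?_ ?_
  · unfold eta Lam at heta
    linarith
  · linarith
  · linarith
  · have := y.s_pos j
    linarith
  · exact A.ray_e j hj (A.lam q l + y.k.C4 * y.r l) (Tent1_lam h) hI.c
  · rintro w ⟨hw1, hw2⟩
    apply hI.b
    constructor
    · rw [sh_re, sh_im, hw1]
      linarith
    · rw [sh_re, sh_im, hw1]
      linarith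

/-- (10.1), first part: `|F| ≤ e^M` on the narrow cone of the point `z_T'`.
HINT. As `StepA`: heights `≥ q.im`: `b`; between: free (`Free.mono`), the left ray avoids the ball
of radius `2 C3 r_l` (`C33_c`), so in `W`; `≤ e.im`: `below_e` with `c`. -/
theorem DH.tent1 {q : ℂ} {l jst j : ℕ} {h1 : ℝ} (h : A.DH q l h1 jst) (hj : A.a ≤ j)
    (hI : A.Inv q l j) :
    Bd y.F (2 * y.s j) (Cn 1 100 ⟨q.re + h1 / 50, q.im - h1 / 20⟩) := by
  obtain ⟨W, hW⟩ := Inv.reg h.st hj hI
  have hrl := y.r_pos l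
  have hC1 := y.k.C3_b
  have hC4 := y.k.C4_c
  have hC3 : 0 < y.k.C3 := by linarith
  have hC33 := mul_le_mul_of_nonneg_right y.k.C33_c hrl.le
  have hlo := h.lo
  have hpos : 0 < y.k.C3 * y.r l := mul_pos hC3 hrl
  obtain ⟨c, hc⟩ : ∃ c, c = y.k.C3 * y.r l := ⟨_, rfl⟩
  have hc0 : 0 < c := by rw [hc]; exact hpos
  have hc1 : 140 * c ≤ h1 := by
    rw [hc]
    linarith
  have hlt := A.lt
  have heta := h.st.eta_le
  have hhi := h.hi
  obtain ⟨hT1, hT2, hT3⟩ := h.st.touch.T2
  intro w hw
  obtain ⟨hw1, hw2⟩ := hw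
  simp only at hw1 hw2
  rcases le_or_gt w.re A.XL with hX | hX
  · refine (A.left w hX).trans ?_
    apply Real.one_le_exp
    have := y.s_pos j
    linarith
  rcases le_or_gt q.im w.im with hq | hq
  · apply hI.b
    rw [← hc]
    constructor
    · rw [sh_re, sh_im]
      linarith
    · rw [sh_re, sh_im]
      linarith
  rcases le_or_gt w.im A.e.im with he | he
  · refine A.below_e j hj (A.lam q l + y.k.C4 * y.r l) (Tent1_lam h.st) hI.c
      ⟨q.re + h1 / 50, q.im - h1 / 20⟩ ?_ ?_ ?_ h.free w ⟨hw1, hw2⟩ he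
    · simp only
      unfold eta Lam at *
      linarith
    · simp only
      unfold eta at hT3
      linarith
    · simp only
      linarith
  · apply hW.bound
    apply hW.inn w hX he hq
    · refine (Free.mono h.free (w := w) ?_).ray ?_
      · constructor
        · simp only
          rcases le_or_gt (w.im) (q.im - h1 / 20) with h3 | h3
          · linarith
          · linarith
        · simp only
          rcases le_or_gt (w.im) (q.im - h1 / 20) with h3 | h3
          · linarith
          · linarith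
      · unfold eta at hT3
        linarith
    · intro z hz hzw
      rw [← hc] at hz
      have e1 : |z.re - q.re| ≤ ‖z - q‖ := by simpa using Complex.abs_re_le_norm (z - q)
      have e2 : |z.im - q.im| ≤ ‖z - q‖ := by simpa using Complex.abs_im_le_norm (z - q)
      have e3 := (abs_le.1 e1).1
      have e4 := (abs_le.1 e2).1
      rw [hzw] at e4
      linarith

end Arc

end Pool.Agent.Mac
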