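import Pool.Agent.Mac.Geo2
import Pool.Agent.Mac.Regd
import Pool.Agent.Mac.Tent1

set_option autoImplicit false

/-!
# Near the circle (10.2): distances to the arc
-/

namespace Pool.Agent.Mac

open Finset Filter Topology
open Pool.Agent.MP_e061a3_an Pool.Agent.GapReg

namespace Arc

variable {y : Sys} {A : Arc y}

/-- the basic inequalities between `ρ`, `r_l`, `r_m`, `eta` -/
lemma Knear_basic {q : ℂ} {l jst : ℕ} {h1 : ℝ} (h : A.DH q l h1 jst) (ρ : ℝ)
    (hρ : y.k.eps1 * h1 ≤ ρ) :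
    0 < ρ ∧ 0 < h1 ∧ 8 * (y.k.C3 * y.r l) ≤ ρ ∧ 0 ≤ y.k.C3 * y.r l ∧
      (y.k.C2 * y.r A.m ≤ A.eta q ∨ 10 * (y.k.C2 * y.r A.m) ≤ ρ) := by
  have hr := y.r_pos l
  have hrm := y.r_pos A.m
  have e1 := y.k.eps1_pos
  have hC33 : 0 < y.k.C33 := by
    have h1 := y.k.C33_b
    have h2 := y.k.c13_pos
    by_contra hc
    push Not at hc
    have := mul_nonpos_of_nonneg_of_nonpos h2.le hc
    linarith
  have hh1 : 0 < h1 := lt_of_lt_of_le (mul_pos hC33 hr) h.lo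
  have hρ0 : 0 < ρ := lt_of_lt_of_le (mul_pos e1 hh1) hρ
  have hlo : y.k.eps1 * (y.k.C33 * y.r l) ≤ ρ :=
    (mul_le_mul_of_nonneg_left h.lo e1.le).trans hρ
  have hd := mul_le_mul_of_nonneg_right y.k.C33_d hr.le
  have he := mul_le_mul_of_nonneg_right y.k.C33_e hr.le
  have hC3 : 0 ≤ y.k.C3 := by
    have a1 := y.k.C3_b
    have a2 := y.k.C4_c
    linarith
  have hC2 : 0 ≤ y.k.C2 := by
    have := y.k.C2_b
    linarith
  refine ⟨hρ0, hh1, by nlinarith, mul_nonneg hC3 hr.le, ?_⟩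
  rcases h.st.s4 with h4 | h4
  · left
    exact (mul_le_mul_of_nonneg_right y.k.X_c hrm.le).trans h4
  · right
    have := mul_le_mul_of_nonneg_left h4 hC2
    nlinarith

/-- MODULE Knear. (K1). HINT. three cases for `κ`; for `κ.im > k.im` use `avoid` and `s4`:
`C2 r_m ≤ ρ / 8` or (if `X r_m ≤ eta`) `C2 r_m ≤ eta`; `C33_e`, `X_c`. -/
theorem DH.K1 {q : ℂ} {l jst : ℕ} {h1 : ℝ} (h : A.DH q l h1 jst) (ρ : ℝ)
    (hρ : y.k.eps1 * h1 ≤ ρ) (κ : ℂ) (hκ : κ ∈ A.G) (h2 : ρ / 2 ≤ ‖κ - q‖) :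
    ∀ z : ℂ, z.im = q.im → z.re ≤ q.re → ρ / 200 ≤ ‖z - κ‖ := by
  obtain ⟨hρ0, -, -, -, hrm⟩ := Knear_basic h ρ hρ
  intro z hz1 hz2
  by_contra hc
  push Not at hc
  have n1 : |z.re - κ.re| ≤ ‖z - κ‖ := by simpa using Complex.abs_re_le_norm (z - κ)
  have n2 : |z.im - κ.im| ≤ ‖z - κ‖ := by simpa using Complex.abs_im_le_norm (z - κ)
  have n3 : ‖κ - q‖ ≤ |κ.re - q.re| + |κ.im - q.im| := by
    simpa using Complex.norm_le_abs_re_add_abs_im (κ - q)
  rw [hz1] at n2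
  have m1 := abs_le.1 (n1.trans hc.le)
  have m2 := abs_le.1 (n2.trans hc.le)
  have m3 : |κ.im - q.im| ≤ ρ / 200 := by
    rw [abs_sub_comm]
    exact n2.trans hc.le
  have touch := h.st.touch
  have key : q.re - κ.re ≤ ρ / 4 := by
    rcases le_or_gt κ.im A.k.im with hk | hk
    · rcases le_total κ.im q.im with hq | hq
      · have := touch.below hκ hk hq
        linarith
      · have := touch.above hκ hk hq
        linarith
    · have h5 := avoid (A := A) hκ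
      rw [abs_of_neg (by linarith)] at h5
      obtain ⟨-, h6, h7⟩ := touch.T2
      have h8 : A.eta q ≤ ρ / 200 := by
        unfold eta
        linarith
      have h9 : y.k.C2 * y.r A.m ≤ ρ / 10 := by
        rcases hrm with h | h <;> linarith
      have h10 : 0 ≤ A.k.im - q.im := by
        have := touch.2.1
        linarith
      linarith
  have m4 : |κ.re - q.re| ≤ ρ / 4 := by
    rw [abs_le]
    constructor <;> linarith
  linarith

/-- (K2). HINT. `Reg.decay` with `R = ρ / 400`, `c0 ρ = R / 1000^J`. -/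
theorem DH.K2 {q : ℂ} {l jst j : ℕ} {h1 : ℝ} (h : A.DH q l h1 jst) {W : Set ℂ}
    (hW : A.Reg q (2 * (y.k.C3 * y.r l)) (2 * y.s j) W) (ρ : ℝ) (hρ : y.k.eps1 * h1 ≤ ρ)
    (hρ' : ρ ≤ 2 * (y.k.eps1 * h1)) (z : ℂ) (hz : z ∈ W) (hzq : ‖z - q‖ = ρ)
    (hF : 2 * Real.exp (2 * y.s j / 2 ^ y.k.J) < ‖y.F z‖) :
    ∀ κ ∈ A.G, y.k.c0 * ρ ≤ ‖z - κ‖ := by
  obtain ⟨hρ0, hh1, hC3, hC3', -⟩ := Knear_basic h ρ hρ
  intro κ hκ
  by_contra hc
  push Not at hc
  have hJ : (1 : ℝ) ≤ 1000 ^ y.k.J := one_le_pow₀ (by norm_num)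
  have hc0 : y.k.c0 * ρ = ρ / 400 / 1000 ^ y.k.J := by
    unfold Cst.c0
    field_simp
  have hle : ρ / 400 / 1000 ^ y.k.J ≤ ρ / 400 :=
    div_le_self (by positivity) hJ
  have hzk : ‖z - κ‖ < ρ / 400 := by
    rw [hc0] at hc
    exact lt_of_lt_of_le hc hle
  have t1 : ‖z - q‖ ≤ ‖z - κ‖ + ‖κ - q‖ := norm_sub_le_norm_sub_add_norm_sub z κ q
  have t2 : ‖κ - q‖ ≤ ‖κ - z‖ + ‖z - q‖ := norm_sub_le_norm_sub_add_norm_sub κ z q
  rw [norm_sub_rev κ z] at t2
  have hk1 : ρ / 2 ≤ ‖κ - q‖ := by linarith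
  have hK1 := h.K1 ρ hρ κ hκ hk1
  have heps := y.k.eps1_le
  have hepos := y.k.eps1_pos
  have hhi := h.hi
  have hone := h.one
  have hρs : ρ ≤ h1 / 2000 := by
    have : 4000 * (y.k.eps1 * h1) ≤ h1 := by
      have := mul_le_mul_of_nonneg_right heps hh1.le
      linarith
    linarith
  have hLam : 0 < A.Lam := by
    unfold Lam
    linarith [A.lt]
  have him : |κ.im - q.im| ≤ ‖κ - q‖ := by simpa using Complex.abs_im_le_norm (κ - q)
  have him' := (abs_le.1 him).1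
  have heta := h.st.eta_le
  unfold eta at heta
  have hdec := hW.decay (by have := y.s_pos j; positivity) κ hκ (ρ / 400) (by positivity)
    (fun z' hz' => by
      have t3 : ‖κ - q‖ ≤ ‖κ - z'‖ + ‖z' - q‖ := norm_sub_le_norm_sub_add_norm_sub κ z' q
      rw [norm_sub_rev κ z'] at t3
      linarith)
    (fun z' hz' hcc => by
      have := hK1 z' hcc.1 (by linarith [hcc.2])
      linarith)
    (by
      have e1 : ρ / 400 ≤ κ.im - A.e.im := by
        have : A.Lam = A.k.im - A.e.im := rfl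
        linarith
      exact e1.trans (le_abs_self _))
    (by linarith) y.k.J z hz (by rw [← hc0]; exact hc.le)
  linarith

lemma Knear_xl {q : ℂ} {l jst : ℕ} {h1 : ℝ} (h : A.DH q l h1 jst) (ρ : ℝ)
    (hρ : y.k.eps1 * h1 ≤ ρ) (hρ' : ρ ≤ 2 * (y.k.eps1 * h1)) (z : ℂ)
    (h5 : q.re - 2 * ρ ≤ z.re) : A.XL < z.re ∧ 1000 * ρ ≤ A.Lam := by
  obtain ⟨hρ0, hh1, -, -, -⟩ := Knear_basic h ρ hρ
  have hρs : ρ ≤ h1 / 2000 := by
    have : 4000 * (y.k.eps1 * h1) ≤ h1 := by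
      have := mul_le_mul_of_nonneg_right y.k.eps1_le hh1.le
      linarith
    linarith
  have hhi := h.hi
  have hone := h.one
  have hfar := A.far q h.st.touch.1
  have hlt := A.lt
  exact ⟨by linarith, by linarith⟩

/-- Points just above the ray of `q` are not in `W` (end of 10.2).
HINT. `out`; the left ray misses `G`: for height `≤ k.im` the point is free; above `k.im` use
`avoid` and `s4` as in (K1). -/
theorem DH.above {q : ℂ} {l jst j : ℕ} {h1 : ℝ} (h : A.DH q l h1 jst) {W : Set ℂ}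
    (hW : A.Reg q (2 * (y.k.C3 * y.r l)) (2 * y.s j) W) (ρ : ℝ) (hρ : y.k.eps1 * h1 ≤ ρ)
    (hρ' : ρ ≤ 2 * (y.k.eps1 * h1)) (z : ℂ) (h2 : q.im < z.im) (h3 : z.im ≤ q.im + ρ / 100)
    (h4 : z.re ≤ q.re - 99 / 100 * ρ) (h5 : q.re - 2 * ρ ≤ z.re) : z ∉ W := by
  obtain ⟨hρ0, hh1, hC3, hC3', hrm⟩ := Knear_basic h ρ hρ
  have touch := h.st.touch
  refine hW.out z (Knear_xl h ρ hρ hρ' z h5).1 h2 ?_ ?_
  · rcases le_or_gt z.im A.k.im with hk | hk
    · refine (free_of_mem_Co touch ⟨?_, ?_⟩).ray hk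
      · linarith
      · linarith
    · intro z' hz' him
      by_contra hc
      push Not at hc
      have h6 := avoid (A := A) hz'
      rw [him, abs_of_neg (by linarith)] at h6
      obtain ⟨-, h7, h8⟩ := touch.T2
      have h9 : A.eta q ≤ ρ / 100 := by
        unfold eta
        linarith
      have h10 : y.k.C2 * y.r A.m ≤ ρ / 10 := by
        rcases hrm with h | h <;> linarith
      have h11 : 0 ≤ A.k.im - q.im := by
        have := touch.2.1
        linarith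
      linarith
  · intro z' hz' _
    have n1 : |z'.re - q.re| ≤ ‖z' - q‖ := by simpa using Complex.abs_re_le_norm (z' - q)
    have n2 := (abs_le.1 (n1.trans hz')).1
    linarith

/-- Points just below the ray of `q` are in `W`. HINT. `Free.ray`, `inn`. -/
theorem DH.below {q : ℂ} {l jst j : ℕ} {h1 : ℝ} (h : A.DH q l h1 jst) {W : Set ℂ}
    (hW : A.Reg q (2 * (y.k.C3 * y.r l)) (2 * y.s j) W) (ρ : ℝ) (hρ : y.k.eps1 * h1 ≤ ρ)
    (hρ' : ρ ≤ 2 * (y.k.eps1 * h1)) (z : ℂ) (h2 : z.im < q.im) (h3 : q.im - ρ / 150 ≤ z.im)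
    (h4 : z.re ≤ q.re - 99 / 100 * ρ) (h5 : q.re - 2 * ρ ≤ z.re) : z ∈ W := by
  obtain ⟨hρ0, hh1, hC3, hC3', hrm⟩ := Knear_basic h ρ hρ
  have touch := h.st.touch
  obtain ⟨hx, hL⟩ := Knear_xl h ρ hρ hρ' z h5
  have heta := h.st.eta_le
  unfold eta at heta
  refine hW.inn z hx ?_ h2 ?_ ?_
  · have : A.Lam = A.k.im - A.e.im := rfl
    linarith
  · refine (free_of_mem_Co touch ⟨?_, ?_⟩).ray (by have := touch.2.1; linarith)
    · linarith
    · linarith
  · intro z' hz' _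
    have n1 : |z'.re - q.re| ≤ ‖z' - q‖ := by simpa using Complex.abs_re_le_norm (z' - q)
    have n2 := (abs_le.1 (n1.trans hz')).1
    linarith

end Arc

end Pool.Agent.Mac
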