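import Pool.Agent.Mac.Three
import Pool.Agent.Mac.Knear
import Pool.Agent.GapReg.FsBasic
import Pool.Agent.MP_e061a3_an.Turan

set_option autoImplicit false

/-!
# Following the circle (10.2)
-/

namespace Pool.Agent.Mac

open Finset Filter Topology
open Pool.Agent.MP_e061a3_an Pool.Agent.GapReg

/-- a closed ball which does not meet the frontier -/
private theorem circ_ball {W : Set ℂ} (hW : IsOpen W) {z : ℂ} {R : ℝ} (hR : 0 ≤ R) (hz : z ∈ W)
    (h : ∀ w, ‖w - z‖ ≤ R → w ∉ frontier W) : ∀ w, ‖w - z‖ ≤ R → w ∈ W := by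
  have hconn : IsPreconnected (Metric.closedBall z R) := (convex_closedBall z R).isPreconnected
  have hsub : Metric.closedBall z R ⊆ W := by
    refine hconn.subset_of_closure_inter_subset hW ⟨z, Metric.mem_closedBall_self hR, hz⟩ ?_
    rintro w ⟨hw1, hw2⟩
    by_contra hwW
    apply h w
    · rw [← dist_eq_norm]
      exact Metric.mem_closedBall.1 hw2
    · rw [frontier, Set.mem_diff, hW.interior_eq]
      exact ⟨hw1, hwW⟩
  intro w hw
  apply hsub
  rw [Metric.mem_closedBall, dist_eq_norm]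
  exact hw

/-- the points of the circle -/
private noncomputable def czp (q : ℂ) (ρ θ : ℝ) : ℂ :=
  ⟨q.re - ρ * Real.cos θ, q.im - ρ * Real.sin θ⟩

private theorem czp_norm (q : ℂ) {ρ : ℝ} (hρ : 0 ≤ ρ) (θ : ℝ) : ‖czp q ρ θ - q‖ = ρ := by
  have h1 : Complex.normSq (czp q ρ θ - q) = ρ ^ 2 := by
    rw [Complex.normSq_apply]
    simp only [czp, Complex.sub_re, Complex.sub_im]
    have := Real.sin_sq_add_cos_sq θ
    nlinarith [this]
  have h2 : ‖czp q ρ θ - q‖ ^ 2 = ρ ^ 2 := by rw [← Complex.normSq_eq_norm_sq, h1]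
  exact (pow_left_inj₀ (norm_nonneg _) hρ two_ne_zero).1 h2

private theorem czp_dist (q : ℂ) {ρ : ℝ} (hρ : 0 ≤ ρ) (a b : ℝ) :
    ‖czp q ρ a - czp q ρ b‖ ≤ ρ * |a - b| := by
  have h1 : Complex.normSq (czp q ρ a - czp q ρ b) = ρ ^ 2 * (2 - 2 * Real.cos (a - b)) := by
    rw [Complex.normSq_apply]
    simp only [czp, Complex.sub_re, Complex.sub_im]
    rw [Real.cos_sub]
    have h1 := Real.sin_sq_add_cos_sq a
    have h2 := Real.sin_sq_add_cos_sq b
    have e : (q.re - ρ * Real.cos a - (q.re - ρ * Real.cos b)) *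
        (q.re - ρ * Real.cos a - (q.re - ρ * Real.cos b)) +
        (q.im - ρ * Real.sin a - (q.im - ρ * Real.sin b)) *
        (q.im - ρ * Real.sin a - (q.im - ρ * Real.sin b)) =
        ρ ^ 2 * ((Real.sin a ^ 2 + Real.cos a ^ 2) + (Real.sin b ^ 2 + Real.cos b ^ 2) -
          2 * (Real.cos a * Real.cos b + Real.sin a * Real.sin b)) := by ring
    rw [e, h1, h2]
    ring
  have h2 : 2 - 2 * Real.cos (a - b) ≤ |a - b| ^ 2 := by
    have := Real.one_sub_sq_div_two_le_cos (x := a - b)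
    rw [sq_abs]
    linarith
  have h3 : ‖czp q ρ a - czp q ρ b‖ ^ 2 ≤ (ρ * |a - b|) ^ 2 := by
    rw [← Complex.normSq_eq_norm_sq, h1, mul_pow]
    exact mul_le_mul_of_nonneg_left h2 (by positivity)
  exact (pow_le_pow_iff_left₀ (norm_nonneg _) (by positivity) two_ne_zero).1 h3

/-- the cosine away from the multiples of `2 π` -/
private theorem cos_le_of {θ : ℝ} (h1 : 1 / 400 ≤ θ) (h2 : θ ≤ 2 * Real.pi - 1 / 200) :
    Real.cos θ ≤ Real.cos (1 / 400) := by
  by_cases h : θ ≤ Real.pi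
  · exact Real.cos_le_cos_of_nonneg_of_le_pi (by norm_num) h h1
  · push Not at h
    have e : Real.cos θ = Real.cos (2 * Real.pi - θ) := by rw [Real.cos_two_pi_sub]
    rw [e]
    exact Real.cos_le_cos_of_nonneg_of_le_pi (by norm_num) (by linarith) (by linarith)

private theorem sin_or_cos {θ : ℝ} (h1 : 1 / 400 ≤ θ) (h2 : θ ≤ 2 * Real.pi - 1 / 200) :
    1 / 800 < |Real.sin θ| ∨ Real.cos θ < -(1 / 800) := by
  by_contra hcon
  push Not at hcon
  obtain ⟨h3, h4⟩ := hcon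
  have h5 := cos_le_of h1 h2
  have h6 : Real.sin (1 / 400) ≤ 1 / 400 := Real.sin_le (by norm_num)
  have h7 : (1 / 400 : ℝ) - (1 / 400) ^ 3 / 6 < Real.sin (1 / 400) :=
    Real.sin_gt_sub_cube (by norm_num)
  have h8 := Real.sin_sq_add_cos_sq (1 / 400)
  have h9 := Real.sin_sq_add_cos_sq θ
  have h10 : Real.sin θ ^ 2 ≤ (1 / 800) ^ 2 := by
    rw [← sq_abs (Real.sin θ)]
    exact pow_le_pow_left₀ (abs_nonneg _) h3 2
  have h11 : 0 < Real.cos θ := by
    by_contra hneg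
    push Not at hneg
    have : Real.cos θ ^ 2 ≤ (1 / 800) ^ 2 := by nlinarith
    nlinarith
  have h12 : Real.cos θ ^ 2 ≤ Real.cos (1 / 400) ^ 2 := pow_le_pow_left₀ h11.le h5 2
  have h13 : (1 / 500 : ℝ) ^ 2 ≤ Real.sin (1 / 400) ^ 2 :=
    pow_le_pow_left₀ (by norm_num) (by
      have : (1 / 500 : ℝ) ≤ (1 / 400 : ℝ) - (1 / 400) ^ 3 / 6 := by norm_num
      linarith) 2
  nlinarith

namespace Arc

variable {y : Sys} {A : Arc y}

/-- MODULE Circ. The claim of 10.2: on every circle there is a point where `|S_i|` is small.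
`M = 2 s_j`. HINT. Suppose not. `z(θ) = q - ρ e^(iθ)`, `θ_n = 1/400 + n Δ`, `Δ = c0 / 8`,
`X_R = 11/10 M + 1`, `Y' = 2^(n2+2) M`. Induction on `n`: if `θ_n ≤ 2π - 1/200` then (i) `z(θ_n) ∈ W`;
(ii) `|F - S_i| ≤ e^(X_R - Y'/2^n)` on the ball of radius `c0 ρ / 8` about it; (iii) distance to `G`
at least `c0 ρ`. Start: `DH.below`; `|R_l| ≤ e^(-H^l ρ/32)` near `z(θ)` (`Sys.dec4` from `s1` with
`D = ρ / 4`, `Cn_ball`), `H^l ρ ≥ eps1 M / (2 c13)`, `c13_b`, `Tent.blk`, `C4_d`. Step: the ball of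
radius `c0 ρ / 2` about `z(θ_n)` misses `frontier W` (`front`; distance to the ray
`≥ ρ sin(1/400)`), so it is in `W`; `|F - S_i| ≤ e^M + e^(11 M/10)` there (`Tent.low`),
`three_circles`; `DH.K2`. End: `DH.above` for some `n` with `2π - 1/100 ≤ θ_n ≤ 2π - 1/200`. -/
theorem DH.circ {q : ℂ} {l jst j : ℕ} {h1 : ℝ} (h : A.DH q l h1 jst) (hj : jst < j) (hjl : j ≤ l)
    {W : Set ℂ} (hW : A.Reg q (2 * (y.k.C3 * y.r l)) (2 * y.s j) W) {i : ℕ} (hij : i ≤ j)
    (hT : Tent y q l h1 (2 * y.s j) i) (ρ : ℝ) (hρ : y.k.eps1 * h1 ≤ ρ)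
    (hρ' : ρ ≤ 2 * (y.k.eps1 * h1)) :
    ∃ z, ‖z - q‖ = ρ ∧ ‖y.S i z‖ ≤ Real.exp (y.k.del * (2 * y.s j) / 2) := by
  by_contra hcon
  push Not at hcon
  set M : ℝ := 2 * y.s j with hM
  -- basic quantities
  have hHpos : (0 : ℝ) < y.k.H := y.H_pos
  have hH16 : (16 : ℝ) ≤ y.k.H := y.H_ge
  have hrl : 0 < y.r l := y.r_pos l
  have heps : 0 < y.k.eps1 := y.k.eps1_pos
  have hC4 : 100000 ≤ y.k.C4 := y.k.C4_c
  have hC0 : 200000 ≤ y.k.C0 := by have := y.k.C0_a; linarith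
  have hC1 : 800000 ≤ y.k.C1 := by have := y.k.C1_a; linarith
  have hC3 : 3200000 ≤ y.k.C3 := by have := y.k.C3_a; linarith
  have hC33 : 0 < y.k.C33 := by have := y.k.C33_c; linarith
  have hh1 : 0 < h1 := lt_of_lt_of_le (mul_pos hC33 hrl) h.lo
  have hρ0 : 0 < ρ := lt_of_lt_of_le (mul_pos heps hh1) hρ
  have hρh : ρ ≤ h1 / 2000 := by
    have h2 : 4000 * y.k.eps1 * h1 ≤ 1 * h1 := mul_le_mul_of_nonneg_right y.k.eps1_le hh1.le
    nlinarith
  have hC3r : y.k.C3 * y.r l ≤ ρ / 8 := by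
    have h2 : 8 * y.k.C3 * y.r l ≤ y.k.eps1 * y.k.C33 * y.r l :=
      mul_le_mul_of_nonneg_right y.k.C33_d hrl.le
    have h3 : y.k.eps1 * (y.k.C33 * y.r l) ≤ y.k.eps1 * h1 :=
      mul_le_mul_of_nonneg_left h.lo heps.le
    nlinarith
  have hC1r : y.k.C1 * y.r l ≤ ρ / 32 := by
    have h2 : 4 * y.k.C1 * y.r l ≤ y.k.C3 * y.r l := mul_le_mul_of_nonneg_right y.k.C3_a hrl.le
    nlinarith
  have hC4r : y.k.C4 * y.r l ≤ ρ / 32 := by
    have h2 : 4 * y.k.C4 * y.r l ≤ y.k.C3 * y.r l := mul_le_mul_of_nonneg_right y.k.C3_b hrl.le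
    nlinarith
  have hC3r0 : 0 < y.k.C3 * y.r l := mul_pos (by linarith) hrl
  have hC1r0 : 0 < y.k.C1 * y.r l := mul_pos (by linarith) hrl
  have hp1 : (1 : ℝ) ≤ 1000 ^ y.k.J := one_le_pow₀ (by norm_num)
  have hc0 : y.k.c0 = 1 / (400 * 1000 ^ y.k.J) := rfl
  have hc0pos : 0 < y.k.c0 := by rw [hc0]; positivity
  have hc0le : y.k.c0 ≤ 1 / 400 := by
    rw [hc0]
    apply one_div_le_one_div_of_le (by norm_num)
    nlinarith
  have hLam : 10 * h1 ≤ A.Lam := by have := h.hi; linarith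
  -- the size of M
  have haj : y.a0 ≤ j := A.ha.trans (h.a_le.trans hj.le)
  have hs : 1000 * (100 * (y.k.H : ℝ)) ≤ y.s j := y.k.S0_a.trans (y.s_ge j haj)
  have hMpos : 0 < M := by rw [hM]; nlinarith
  have hdel : y.k.del = 1 / (100 * y.k.H) := rfl
  have hdM : 2000 ≤ y.k.del * M := by
    rw [hdel, hM]
    rw [div_mul_eq_mul_div, le_div_iff₀ (by positivity)]
    linarith
  have hMJ : M / 2 ^ y.k.J ≤ y.k.del * M / 16 := by
    rw [hdel]
    have h2 := y.k.hJ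
    have h3 : (0 : ℝ) < 2 ^ y.k.J := by positivity
    rw [div_le_iff₀ h3]
    have h4 : 1 / (100 * (y.k.H : ℝ)) * M / 16 * 2 ^ y.k.J =
        M * (2 ^ y.k.J / (16 * (100 * (y.k.H : ℝ)))) := by
      field_simp
    rw [h4]
    have h5 : 1 ≤ 2 ^ y.k.J / (16 * (100 * (y.k.H : ℝ))) := by
      rw [one_le_div (by positivity)]
      exact h2
    nlinarith
  have hbig : 2 * Real.exp (M / 2 ^ y.k.J) < Real.exp (y.k.del * M / 2) - 1 := by
    have h2 : Real.exp (M / 2 ^ y.k.J) ≤ Real.exp (y.k.del * M / 16) := Real.exp_le_exp.2 hMJ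
    have h3 : Real.exp (y.k.del * M / 2) = Real.exp (y.k.del * M / 16) *
        Real.exp (7 * (y.k.del * M) / 16) := by
      rw [← Real.exp_add]
      congr 1
      ring
    have h4 : 10 ≤ Real.exp (7 * (y.k.del * M) / 16) := by
      have := Real.add_one_le_exp (7 * (y.k.del * M) / 16)
      linarith
    have h5 : 1 ≤ Real.exp (y.k.del * M / 16) := Real.one_le_exp (by linarith)
    rw [h3]
    nlinarith
  -- the tent cone contains the disc of radius 2 ρ
  have hzone : ∀ u : ℂ, ‖u - q‖ ≤ 2 * ρ → ‖u - zT q h1‖ ≤ 8 * ((zT q h1).re - u.re) ∧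
      h1 / 1000 ≤ (zT q h1).re - u.re := by
    intro u hu
    have h2 : |u.re - q.re| ≤ ‖u - q‖ := by simpa using Complex.abs_re_le_norm (u - q)
    have h3 := abs_le.1 (h2.trans hu)
    have h4 : (zT q h1).re = q.re + 3 * h1 / 200 := rfl
    have h5 : ‖u - zT q h1‖ ≤ ‖u - q‖ + ‖q - zT q h1‖ := norm_sub_le_norm_sub_add_norm_sub _ _ _
    have h6 : ‖q - zT q h1‖ ≤ |(q - zT q h1).re| + |(q - zT q h1).im| :=
      Complex.norm_le_abs_re_add_abs_im _
    have h7 : (q - zT q h1).re = -(3 * h1 / 200) := by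
      simp only [zT, Complex.sub_re]; ring
    have h8 : (q - zT q h1).im = h1 / 20 := by
      simp only [zT, Complex.sub_im]; ring
    rw [h7, h8, abs_neg, abs_of_pos (by positivity), abs_of_pos (by positivity)] at h6
    constructor
    · rw [h4]; linarith
    · rw [h4]; linarith
  -- the exponents
  have hHh : M / (2 * y.k.c13) ≤ (y.k.H : ℝ) ^ l * h1 := by
    have hc13 := y.k.c13_pos
    have h2 : y.r j ≤ y.k.c13 * h1 := by
      rcases lt_or_eq_of_le hjl with h3 | h3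
      · exact h.thin j hj h3
      · rw [h3]
        have h4 : y.k.c13 * (y.k.C33 * y.r l) ≤ y.k.c13 * h1 :=
          mul_le_mul_of_nonneg_left h.lo hc13.le
        have h5 : 2 * y.r l ≤ y.k.c13 * y.k.C33 * y.r l :=
          mul_le_mul_of_nonneg_right y.k.C33_b hrl.le
        nlinarith
    have h3 : y.s j ≤ (y.k.H : ℝ) ^ j * (y.k.c13 * h1) :=
      mul_le_mul_of_nonneg_left h2 (by positivity)
    have h4 : (y.k.H : ℝ) ^ j ≤ (y.k.H : ℝ) ^ l := pow_le_pow_right₀ (by linarith) hjl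
    have h5 : y.s j ≤ (y.k.H : ℝ) ^ l * (y.k.c13 * h1) :=
      h3.trans (mul_le_mul_of_nonneg_right h4 (by positivity))
    rw [div_le_iff₀ (by positivity), hM]
    nlinarith
  have hHρ : 32 * ((2 : ℝ) ^ (y.k.n2 + 2) + 1) * M ≤ (y.k.H : ℝ) ^ l * ρ := by
    have hc13 := y.k.c13_pos
    have h2 : y.k.eps1 * (M / (2 * y.k.c13)) ≤ (y.k.H : ℝ) ^ l * ρ := by
      calc y.k.eps1 * (M / (2 * y.k.c13)) ≤ y.k.eps1 * ((y.k.H : ℝ) ^ l * h1) :=
            mul_le_mul_of_nonneg_left hHh heps.le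
        _ = (y.k.H : ℝ) ^ l * (y.k.eps1 * h1) := by ring
        _ ≤ (y.k.H : ℝ) ^ l * ρ := mul_le_mul_of_nonneg_left hρ (by positivity)
    refine le_trans ?_ h2
    have h3 := y.k.c13_b
    rw [mul_div_assoc', le_div_iff₀ (by positivity)]
    nlinarith
  have hCM : ((2 : ℝ) ^ (y.k.n2 + 2) + 1) * M ≤ y.k.C4 * M / 8000 := by
    have h2 := mul_le_mul_of_nonneg_right y.k.C4_d hMpos.le
    linarith
  set Y : ℝ := 2 ^ (y.k.n2 + 2) * M with hY
  have hY0 : 0 < Y := by positivity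
  -- the bound of F - S_i near the starting point
  set f : ℂ → ℂ := fun w => y.F w - y.S i w with hf
  have hfd : Differentiable ℂ f :=
    (differentiable_Fs y.c y.lev.ent).sub
      (differentiable_expSum y.c (suppN y.c (y.K i + 1)))
  have hfS : ∀ w, f w = y.R l w + (y.S l w - y.S i w) := by
    intro w
    simp only [hf]
    rw [y.F_eq l w]
    ring
  set zp : ℕ → ℂ := fun n => czp q ρ (1 / 400 + n * (y.k.c0 / 8)) with hzp
  have hzq : ∀ n, ‖zp n - q‖ = ρ := fun n => czp_norm q hρ0.le _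
  have hzz : ∀ n, ‖zp (n + 1) - zp n‖ ≤ y.k.c0 * ρ / 8 := by
    intro n
    have h2 := czp_dist q hρ0.le (1 / 400 + ((n + 1 : ℕ) : ℝ) * (y.k.c0 / 8))
      (1 / 400 + (n : ℝ) * (y.k.c0 / 8))
    have h3 : (1 / 400 + ((n + 1 : ℕ) : ℝ) * (y.k.c0 / 8)) - (1 / 400 + (n : ℝ) * (y.k.c0 / 8)) =
        y.k.c0 / 8 := by push_cast; ring
    rw [h3, abs_of_pos (by positivity)] at h2
    refine h2.trans (le_of_eq ?_)
    ring
  have hc0ρ : y.k.c0 * ρ ≤ ρ / 400 := by nlinarith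
  have hc0ρ0 : 0 < y.k.c0 * ρ := mul_pos hc0pos hρ0
  have hsin : Real.sin (1 / 400) ≤ 1 / 400 := Real.sin_le (by norm_num)
  have hsin0 : 0 < Real.sin (1 / 400) :=
    Real.sin_pos_of_pos_of_lt_pi (by norm_num) (by linarith [Real.pi_gt_three])
  have hcos : (1 : ℝ) - (1 / 400) ^ 2 / 2 ≤ Real.cos (1 / 400) :=
    Real.one_sub_sq_div_two_le_cos
  have hz0 : zp 0 = czp q ρ (1 / 400) := by
    simp only [hzp]
    norm_num
  have hz0re : (zp 0).re = q.re - ρ * Real.cos (1 / 400) := by rw [hz0]; rfl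
  have hz0im : (zp 0).im = q.im - ρ * Real.sin (1 / 400) := by rw [hz0]; rfl
  have hstart : ∀ u : ℂ, ‖u - zp 0‖ ≤ y.k.c0 * ρ / 8 →
      ‖f u‖ ≤ Real.exp (11 / 10 * M + 1 - Y) := by
    intro u hu
    have hu1 : |u.re - (zp 0).re| ≤ ‖u - zp 0‖ := by
      simpa using Complex.abs_re_le_norm (u - zp 0)
    have hu2 : |u.im - (zp 0).im| ≤ ‖u - zp 0‖ := by
      simpa using Complex.abs_im_le_norm (u - zp 0)
    have hu3 : ‖u - zp 0‖ ≤ ρ / 3200 := by linarith
    have h2 := abs_le.1 (hu1.trans hu3)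
    have h3 := abs_le.1 (hu2.trans hu3)
    rw [hz0re] at h2
    rw [hz0im] at h3
    have hcc : ρ * (1 - (1 / 400) ^ 2 / 2) ≤ ρ * Real.cos (1 / 400) :=
      mul_le_mul_of_nonneg_left hcos hρ0.le
    have hss : ρ * Real.sin (1 / 400) ≤ ρ * (1 / 400) :=
      mul_le_mul_of_nonneg_left hsin hρ0.le
    have hss0 : 0 < ρ * Real.sin (1 / 400) := mul_pos hρ0 hsin0
    have hmem : u ∈ Cn 1 100 (sh (sh q (y.k.C1 * y.r l)) (ρ / 4)) := by
      constructor
      · simp only [sh_im, sh_re]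
        linarith
      · simp only [sh_im, sh_re]
        linarith
    have hR := Sys.dec4 y (le_refl 1) (by norm_num) (by norm_num) (le_refl 100) l
      (sh q (y.k.C1 * y.r l)) (ρ / 4) h.st.s1 (by linarith) u hmem
    have hzu : ‖u - q‖ ≤ 2 * ρ := by
      have h4 : ‖u - q‖ ≤ ‖u - zp 0‖ + ‖zp 0 - q‖ := norm_sub_le_norm_sub_add_norm_sub _ _ _
      rw [hzq 0] at h4
      linarith
    have hB := hT.blk u (hzone u hzu).1 (hzone u hzu).2
    rw [hfS u]
    have h5 : ‖y.R l u‖ ≤ Real.exp (-((2 ^ (y.k.n2 + 2) + 1) * M)) := by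
      refine hR.trans (Real.exp_le_exp.2 ?_)
      linarith
    have h6 : ‖y.S l u - y.S i u‖ ≤ Real.exp (-((2 ^ (y.k.n2 + 2) + 1) * M)) := by
      refine hB.trans (Real.exp_le_exp.2 ?_)
      linarith
    have h7 : 2 * Real.exp (-((2 ^ (y.k.n2 + 2) + 1) * M)) ≤
        Real.exp (1 + -((2 ^ (y.k.n2 + 2) + 1) * M)) := by
      rw [Real.exp_add]
      have := Real.add_one_le_exp (1 : ℝ)
      exact mul_le_mul_of_nonneg_right (by linarith) (Real.exp_pos _).le
    calc ‖y.R l u + (y.S l u - y.S i u)‖ ≤ ‖y.R l u‖ + ‖y.S l u - y.S i u‖ := norm_add_le _ _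
      _ ≤ 2 * Real.exp (-((2 ^ (y.k.n2 + 2) + 1) * M)) := by linarith
      _ ≤ Real.exp (1 + -((2 ^ (y.k.n2 + 2) + 1) * M)) := h7
      _ ≤ Real.exp (11 / 10 * M + 1 - Y) := by
          apply Real.exp_le_exp.2
          rw [hY]
          nlinarith
  -- distance to the arc
  have hdist : ∀ n, zp n ∈ W → ‖f (zp n)‖ ≤ 1 → ∀ κ ∈ A.G, y.k.c0 * ρ ≤ ‖zp n - κ‖ := by
    intro n hn hfn
    apply h.K2 hW ρ hρ hρ' (zp n) hn (hzq n)
    have h2 := hcon (zp n) (hzq n)
    have h3 : ‖y.S i (zp n)‖ ≤ ‖y.F (zp n)‖ + ‖f (zp n)‖ := by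
      have e : y.S i (zp n) = y.F (zp n) - f (zp n) := by simp [hf]
      rw [e]
      exact norm_sub_le _ _
    linarith
  -- the ball is in W
  have hball : ∀ n : ℕ, 1 / 400 + (n : ℝ) * (y.k.c0 / 8) ≤ 2 * Real.pi - 1 / 200 → zp n ∈ W →
      (∀ κ ∈ A.G, y.k.c0 * ρ ≤ ‖zp n - κ‖) → ∀ w, ‖w - zp n‖ ≤ y.k.c0 * ρ / 2 → w ∈ W := by
    intro n hn hnW hnd
    refine circ_ball hW.isOpen (by positivity) hnW ?_
    intro w hw hwF
    have hw1 : |w.re - (zp n).re| ≤ ‖w - zp n‖ := by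
      simpa using Complex.abs_re_le_norm (w - zp n)
    have hw2 : |w.im - (zp n).im| ≤ ‖w - zp n‖ := by
      simpa using Complex.abs_im_le_norm (w - zp n)
    have hq1 : |(zp n).re - q.re| ≤ ρ := by
      have := Complex.abs_re_le_norm (zp n - q)
      rw [hzq n] at this
      simpa using this
    have hq2 : |(zp n).im - q.im| ≤ ρ := by
      have := Complex.abs_im_le_norm (zp n - q)
      rw [hzq n] at this
      simpa using this
    have h2 := abs_le.1 (hw1.trans hw)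
    have h3 := abs_le.1 (hw2.trans hw)
    have h4 := abs_le.1 hq1
    have h5 := abs_le.1 hq2
    rcases hW.front w hwF with h6 | h6 | h6 | h6 | h6
    · have h7 := hnd w h6
      rw [norm_sub_rev] at h7
      linarith
    · have h7 : ‖zp n - q‖ ≤ ‖zp n - w‖ + ‖w - q‖ := norm_sub_le_norm_sub_add_norm_sub _ _ _
      rw [hzq n, norm_sub_rev (zp n)] at h7
      linarith
    · have h7 := h.st.eta_le
      have h8 : A.eta q = A.k.im - q.im := rfl
      have h9 : A.Lam = A.k.im - A.e.im := rfl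
      linarith
    · obtain ⟨h7, h8⟩ := h6
      have e1 : (zp n).re = q.re - ρ * Real.cos (1 / 400 + (n : ℝ) * (y.k.c0 / 8)) := rfl
      have e2 : (zp n).im = q.im - ρ * Real.sin (1 / 400 + (n : ℝ) * (y.k.c0 / 8)) := rfl
      have hn0 : (1 / 400 : ℝ) ≤ 1 / 400 + (n : ℝ) * (y.k.c0 / 8) := by
        have : 0 ≤ (n : ℝ) * (y.k.c0 / 8) := by positivity
        linarith
      rcases sin_or_cos hn0 hn with h9 | h9
      · have h10 : ρ * |Real.sin (1 / 400 + (n : ℝ) * (y.k.c0 / 8))| ≤ ρ / 800 := by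
          have e3 : |w.im - (zp n).im| = ρ * |Real.sin (1 / 400 + (n : ℝ) * (y.k.c0 / 8))| := by
            rw [h7, e2, sub_sub_cancel, abs_mul, abs_of_pos hρ0]
          rw [← e3]
          linarith
        have h11 : ρ * (1 / 800) < ρ * |Real.sin (1 / 400 + (n : ℝ) * (y.k.c0 / 8))| :=
          mul_lt_mul_of_pos_left h9 hρ0
        linarith
      · have h11 : ρ * Real.cos (1 / 400 + (n : ℝ) * (y.k.c0 / 8)) < ρ * (-(1 / 800)) :=
          mul_lt_mul_of_pos_left h9 hρ0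
        rw [e1] at h2
        linarith
    · have h7 := A.far q h.st.touch.1
      have h9 : A.Lam = A.k.im - A.e.im := rfl
      linarith
  -- the bound on the ball
  have hfbd : ∀ n, (∀ w, ‖w - zp n‖ ≤ y.k.c0 * ρ / 2 → w ∈ W) →
      ∀ w, ‖w - zp n‖ ≤ y.k.c0 * ρ / 2 → ‖f w‖ ≤ Real.exp (11 / 10 * M + 1) := by
    intro n hn w hw
    have hwq : ‖w - q‖ ≤ 2 * ρ := by
      have h4 : ‖w - q‖ ≤ ‖w - zp n‖ + ‖zp n - q‖ := norm_sub_le_norm_sub_add_norm_sub _ _ _
      rw [hzq n] at h4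
      linarith
    have h2 : ‖y.F w‖ ≤ Real.exp M := hW.bound w (hn w hw)
    have h3 := hT.low w (hzone w hwq).1
    have h4 : Real.exp M ≤ Real.exp (11 / 10 * M) := Real.exp_le_exp.2 (by linarith)
    have h5 : 2 * Real.exp (11 / 10 * M) ≤ Real.exp (11 / 10 * M + 1) := by
      rw [Real.exp_add, mul_comm]
      have := Real.add_one_le_exp (1 : ℝ)
      exact mul_le_mul_of_nonneg_left (by linarith) (Real.exp_pos _).le
    calc ‖f w‖ ≤ ‖y.F w‖ + ‖y.S i w‖ := norm_sub_le _ _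
      _ ≤ 2 * Real.exp (11 / 10 * M) := by linarith
      _ ≤ _ := h5
  -- the number of steps
  have hpi : Real.pi < 3.15 := Real.pi_lt_d2
  have hnn : ∀ n : ℕ, 1 / 400 + (n : ℝ) * (y.k.c0 / 8) ≤ 2 * Real.pi - 1 / 200 →
      n + 1 ≤ y.k.n2 := by
    intro n hn
    have h2 := y.k.hn2
    have h3 : (n : ℝ) * (y.k.c0 / 8) ≤ 6.3 := by linarith
    have h4 : (n : ℝ) ≤ 6.3 * (8 * (400 * (1000 : ℝ) ^ y.k.J)) := by
      rw [hc0] at h3
      have h5 : (n : ℝ) * (1 / (400 * (1000 : ℝ) ^ y.k.J) / 8) =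
          n / (8 * (400 * (1000 : ℝ) ^ y.k.J)) := by field_simp
      rw [h5, div_le_iff₀ (by positivity)] at h3
      exact h3
    have h5 : (n : ℝ) + 1 ≤ y.k.n2 := by nlinarith
    exact_mod_cast h5
  -- the induction
  have hind : ∀ n : ℕ, 1 / 400 + (n : ℝ) * (y.k.c0 / 8) ≤ 2 * Real.pi - 1 / 200 →
      zp n ∈ W ∧ (∀ w, ‖w - zp n‖ ≤ y.k.c0 * ρ / 8 →
        ‖f w‖ ≤ Real.exp (11 / 10 * M + 1 - Y / 2 ^ n)) := by
    intro n
    induction n with
    | zero =>
      intro _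
      constructor
      · have hcc : ρ * (1 - (1 / 400) ^ 2 / 2) ≤ ρ * Real.cos (1 / 400) :=
          mul_le_mul_of_nonneg_left hcos hρ0.le
        have hcc2 : ρ * Real.cos (1 / 400) ≤ ρ * 1 :=
          mul_le_mul_of_nonneg_left (Real.cos_le_one _) hρ0.le
        have hss : ρ * Real.sin (1 / 400) ≤ ρ * (1 / 400) :=
          mul_le_mul_of_nonneg_left hsin hρ0.le
        have hss0 : 0 < ρ * Real.sin (1 / 400) := mul_pos hρ0 hsin0
        apply h.below hW ρ hρ hρ' (zp 0)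
        · rw [hz0im]; linarith
        · rw [hz0im]; linarith
        · rw [hz0re]; linarith
        · rw [hz0re]; linarith
      · intro w hw
        rw [pow_zero, div_one]
        exact hstart w hw
    | succ n ih =>
      intro hn
      have hn' : 1 / 400 + (n : ℝ) * (y.k.c0 / 8) ≤ 2 * Real.pi - 1 / 200 := by
        push_cast at hn
        have : 0 < y.k.c0 / 8 := by positivity
        linarith
      obtain ⟨h2, h3⟩ := ih hn'
      have hfn : ‖f (zp n)‖ ≤ 1 := by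
        have h4 := h3 (zp n) (by rw [sub_self, norm_zero]; positivity)
        refine h4.trans ?_
        rw [Real.exp_le_one_iff]
        have h5 : n + 1 ≤ y.k.n2 := hnn n hn'
        have h6 : (4 : ℝ) * M ≤ Y / 2 ^ n := by
          rw [le_div_iff₀ (by positivity), hY]
          have h7 : (2 : ℝ) ^ n ≤ 2 ^ y.k.n2 := pow_le_pow_right₀ (by norm_num) (by omega)
          rw [pow_add]
          nlinarith
        have h8 : (1 : ℝ) ≤ M := by
          rw [hM]; nlinarith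
        linarith
      have h4 := hball n hn' h2 (hdist n h2 hfn)
      have h5 := three_circles f hfd (zp n) (y.k.c0 * ρ / 8) (11 / 10 * M + 1 - Y / 2 ^ n)
        (11 / 10 * M + 1) (by positivity) h3 (by
          intro w hw
          exact hfbd n h4 w (by linarith))
      constructor
      · apply h4
        have := hzz n
        linarith
      · intro w hw
        have h6 : ‖w - zp n‖ ≤ 2 * (y.k.c0 * ρ / 8) := by
          have h7 : ‖w - zp n‖ ≤ ‖w - zp (n + 1)‖ + ‖zp (n + 1) - zp n‖ :=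
            norm_sub_le_norm_sub_add_norm_sub _ _ _
          have := hzz n
          linarith
        refine (h5 w h6).trans (le_of_eq ?_)
        congr 1
        rw [pow_succ]
        field_simp
        ring
  -- the end of the circle
  set N : ℕ := ⌊(2 * Real.pi - 1 / 200 - 1 / 400) / (y.k.c0 / 8)⌋₊ with hN
  have hΔ : 0 < y.k.c0 / 8 := by positivity
  have hpos : 0 ≤ (2 * Real.pi - 1 / 200 - 1 / 400) / (y.k.c0 / 8) := by
    apply div_nonneg _ hΔ.le
    linarith [Real.pi_gt_three]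
  have hN1 : (N : ℝ) * (y.k.c0 / 8) ≤ 2 * Real.pi - 1 / 200 - 1 / 400 := by
    rw [← le_div_iff₀ hΔ]
    exact Nat.floor_le hpos
  have hN2 : 2 * Real.pi - 1 / 200 - 1 / 400 < ((N : ℝ) + 1) * (y.k.c0 / 8) := by
    rw [← div_lt_iff₀ hΔ]
    exact Nat.lt_floor_add_one _
  obtain ⟨h2, -⟩ := hind N (by linarith)
  set θ : ℝ := 1 / 400 + (N : ℝ) * (y.k.c0 / 8) with hθ
  have hθ1 : 1 / 200 ≤ 2 * Real.pi - θ := by linarith
  have hθ2 : 2 * Real.pi - θ ≤ 1 / 100 := by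
    have : y.k.c0 / 8 ≤ 1 / 3200 := by linarith
    linarith
  have e1 : (zp N).re = q.re - ρ * Real.cos θ := rfl
  have e2 : (zp N).im = q.im - ρ * Real.sin θ := rfl
  have e3 : Real.cos θ = Real.cos (2 * Real.pi - θ) := by rw [Real.cos_two_pi_sub]
  have e4 : Real.sin θ = -Real.sin (2 * Real.pi - θ) := by rw [Real.sin_two_pi_sub, neg_neg]
  have h3 : 0 < Real.sin (2 * Real.pi - θ) :=
    Real.sin_pos_of_pos_of_lt_pi (by linarith) (by linarith [Real.pi_gt_three])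
  have h4 : Real.sin (2 * Real.pi - θ) ≤ 1 / 100 :=
    (Real.sin_le (by linarith)).trans hθ2
  have h5 : 99 / 100 ≤ Real.cos (2 * Real.pi - θ) := by
    have h6 := Real.one_sub_sq_div_two_le_cos (x := 2 * Real.pi - θ)
    nlinarith
  have hss : ρ * Real.sin (2 * Real.pi - θ) ≤ ρ * (1 / 100) :=
    mul_le_mul_of_nonneg_left h4 hρ0.le
  have hss0 : 0 < ρ * Real.sin (2 * Real.pi - θ) := mul_pos hρ0 h3
  have hcc : ρ * (99 / 100) ≤ ρ * Real.cos (2 * Real.pi - θ) :=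
    mul_le_mul_of_nonneg_left h5 hρ0.le
  have hcc2 : ρ * Real.cos (2 * Real.pi - θ) ≤ ρ * 1 :=
    mul_le_mul_of_nonneg_left (Real.cos_le_one _) hρ0.le
  refine h.above hW ρ hρ hρ' (zp N) ?_ ?_ ?_ ?_ h2
  · rw [e2, e4]; linarith
  · rw [e2, e4]; linarith
  · rw [e1, e3]; linarith
  · rw [e1, e3]; linarith

end Arc

end Pool.Agent.Mac
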