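import Pool.Agent.Mac.Defs

set_option autoImplicit false

/-!
# The constants of the walk, and the bundled function
-/

namespace Pool.Agent.Mac

open Finset Filter Topology
open Pool.Agent.MP_e061a3_an Pool.Agent.GapReg

/-- The constants, with all the inequalities between them which are used. -/
structure Cst where
  H : ℕ
  J : ℕ
  n2 : ℕ
  c1 : ℝ
  c2 : ℝ
  CL : ℝ
  CR : ℝ
  C4 : ℝ
  eps1 : ℝ
  c13 : ℝ
  C0 : ℝ
  C2 : ℝ
  C1 : ℝ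
  C3 : ℝ
  X : ℝ
  C33 : ℝ
  C37 : ℝ
  C31 : ℝ
  CT : ℝ
  CV : ℝ
  c23 : ℝ
  CW : ℝ
  C30 : ℝ
  sig : ℝ
  S0 : ℝ
  H_ge : 16 ≤ H
  c1_pos : 0 < c1
  c1_le : c1 ≤ 1
  c2_pos : 0 < c2
  c2_le : c2 ≤ 1
  CL_ge : 1 ≤ CL
  CR_ge : 1 ≤ CR
  dec : DecP H c1 c2
  lw : LwP H c2 CL
  bl : BlP H c2
  rem : RemP CR
  hJ : 16 * (100 * (H : ℝ)) ≤ 2 ^ J
  hn2 : 7 * (8 * (400 * (1000 : ℝ) ^ J)) ≤ n2
  C4_a : 2 ≤ c1 * C4
  C4_b : 1000 ≤ 3 * (c1 * C4)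
  C4_c : 100000 ≤ C4
  C4_d : 8000 * (2 ^ (n2 + 2) + 1) ≤ C4
  eps1_pos : 0 < eps1
  eps1_le : 4000 * eps1 ≤ 1
  eps1_a : CR * (2 * eps1 * H * C4) * (1600 * H) ≤ 1
  c13_pos : 0 < c13
  c13_a : 2 * c13 * C4 ≤ 1
  c13_b : 64 * (2 ^ (n2 + 2) + 1) * c13 ≤ eps1
  C0_a : 2 * C4 ≤ C0
  C2_b : 1 ≤ C2
  C1_a : 4 * C0 ≤ C1
  C3_a : 4 * C1 ≤ C3
  C3_b : 4 * C4 ≤ C3
  C3_c : 224 * Real.sinh (6 * Real.pi ^ 2) ≤ C3 * Real.sinh (2 * Real.pi ^ 2)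
  X_a : 4 * C1 + 1 ≤ X
  X_b : 3 * C0 * 1000 ^ J + C1 + 1 ≤ X
  X_c : C2 ≤ X
  C33_a : 50500 * X ≤ C33
  C33_b : 2 ≤ c13 * C33
  C33_c : 140 * C3 ≤ C33
  C33_d : 8 * C3 ≤ eps1 * C33
  C33_e : 10 * C2 ≤ eps1 * C33
  C33_f : 2 * C3 ≤ C1 * (c13 * C33)
  C37_a : 5 * C33 ≤ C37
  C37_b : 8 * C0 ≤ C37
  C37_c : C4 ≤ C37
  C37_d : 12 * C0 * 1000 ^ J ≤ C37
  C31_a : 4 + 2 * C2 ≤ C31
  C31_b : C37 + C4 ≤ C31 * X
  CT_a : 2 * (X + C33 + C2) ≤ CT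
  CV_a : C31 * (CT + 1) + 2 * C37 + 2 * C4 ≤ CV
  c23_pos : 0 < c23
  c23_a : CV * (3 * c23) ≤ 1 / 16
  c23_b : CT * (3 * c23) ≤ 1 / 64
  CW_a : CV ≤ CW
  CW_b : 1 ≤ c23 * CW
  C30_a : 32 * CV ≤ C30
  C30_b : 128 * CT ≤ C30
  C30_c : 4 * C2 ≤ C30
  sig_pos : 0 < sig
  sig_a : 100000 * sig ≤ c2
  sig_b : sig ≤ c2 * eps1
  sig_d : CL * (sig * H * C4) * (1600 * H) ≤ 1
  sig_e : CR * (sig * H * C4) * (1600 * H) ≤ 1
  S0_a : 1000 * (100 * (H : ℝ)) ≤ S0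
  S0_b : 100 * CR * (100 * H) ≤ S0

/-- `1 / (100 H)`. -/
noncomputable def Cst.del (k : Cst) : ℝ := 1 / (100 * k.H)

/-- `1 / (400 * 1000 ^ J)`. -/
noncomputable def Cst.c0 (k : Cst) : ℝ := 1 / (400 * 1000 ^ k.J)

/-- The series, its levels and the constants. -/
structure Sys where
  k : Cst
  c : ℕ → ℂ
  d : ℕ → ℝ
  K : ℕ → ℕ
  a0 : ℕ
  lev : Lev c k.H d K
  big : ∀ j, a0 ≤ j → k.S0 ≤ (k.H : ℝ) ^ j * (d j / k.sig)
  small : ∀ j, a0 ≤ j → k.C33 * (d j / k.sig) ≤ 1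

namespace Sys

variable (y : Sys)

/-- The function. -/
noncomputable def F : ℂ → ℂ := Fs y.c

/-- The low part. -/
noncomputable def S (l : ℕ) : ℂ → ℂ := SS y.c y.K l

/-- The high part. -/
noncomputable def R (l : ℕ) : ℂ → ℂ := RR y.c y.K l

/-- The length unit of a level. -/
noncomputable def r (j : ℕ) : ℝ := y.d j / y.k.sig

/-- The size unit of a level. -/
noncomputable def s (j : ℕ) : ℝ := (y.k.H : ℝ) ^ j * y.r j

/-- `r_(a+1) + ... + r_b`. -/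
noncomputable def Rs (a b : ℕ) : ℝ := ∑ j ∈ Ioc a b, y.r j

lemma sig_pos : 0 < y.k.sig := y.k.sig_pos

lemma H_ge : (16 : ℝ) ≤ y.k.H := by exact_mod_cast y.k.H_ge

lemma H_pos : (0 : ℝ) < y.k.H := lt_of_lt_of_le (by norm_num) y.H_ge

lemma r_pos (j : ℕ) : 0 < y.r j := div_pos (y.lev.d_pos j) y.sig_pos

lemma d_eq (j : ℕ) : y.d j = y.k.sig * y.r j := by
  unfold r; have := y.sig_pos; field_simp

lemma r_up (j : ℕ) : y.r (j + 1) ≤ 2 * y.r j := by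
  unfold r
  rw [← mul_div_assoc]
  exact div_le_div_of_nonneg_right (y.lev.d_up j) y.sig_pos.le

lemma r_dn (j : ℕ) : y.r j ≤ 2 * y.r (j + 1) := by
  unfold r
  rw [← mul_div_assoc]
  exact div_le_div_of_nonneg_right (y.lev.d_dn j) y.sig_pos.le

lemma s_pos (j : ℕ) : 0 < y.s j := mul_pos (pow_pos y.H_pos j) (y.r_pos j)

lemma s_up (j : ℕ) : y.s (j + 1) ≤ 2 * y.k.H * y.s j := by
  unfold s
  rw [pow_succ]
  have h1 := y.r_up j
  have h2 : (0:ℝ) < (y.k.H : ℝ) ^ j * y.k.H := mul_pos (pow_pos y.H_pos j) y.H_pos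
  nlinarith [mul_le_mul_of_nonneg_left h1 h2.le]

lemma s_dn (j : ℕ) : 8 * y.s j ≤ y.s (j + 1) := by
  unfold s
  rw [pow_succ]
  have h1 := y.r_dn j
  have h2 : (0:ℝ) < (y.k.H : ℝ) ^ j := pow_pos y.H_pos j
  have h3 := y.H_ge
  have h4 := y.r_pos (j + 1)
  have h5 := mul_le_mul_of_nonneg_left h1 h2.le
  have h6 : 16 * ((y.k.H : ℝ) ^ j * y.r (j + 1)) ≤ y.k.H * ((y.k.H : ℝ) ^ j * y.r (j + 1)) :=
    mul_le_mul_of_nonneg_right h3 (mul_pos h2 h4).le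
  nlinarith

lemma s_mono : Monotone y.s :=
  monotone_nat_of_le_succ fun j => by have := y.s_dn j; have := y.s_pos j; linarith

lemma Hd_eq (j : ℕ) : (y.k.H : ℝ) ^ j * y.d j = y.k.sig * y.s j := by
  rw [y.d_eq]; unfold s; ring

lemma s_ge (j : ℕ) (hj : y.a0 ≤ j) : y.k.S0 ≤ y.s j := y.big j hj

lemma r_small (j : ℕ) (hj : y.a0 ≤ j) : y.k.C33 * y.r j ≤ 1 := y.small j hj

lemma F_eq (l : ℕ) (w : ℂ) : y.F w = y.S l w + y.R l w := by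
  simp [F, S, R, RR]

lemma Rs_self (a : ℕ) : y.Rs a a = 0 := by simp [Rs]

lemma Rs_nonneg (a b : ℕ) : 0 ≤ y.Rs a b := sum_nonneg fun j _ => (y.r_pos j).le

lemma Rs_split (a b c : ℕ) (h1 : a ≤ b) (h2 : b ≤ c) : y.Rs a c = y.Rs a b + y.Rs b c := by
  unfold Rs
  rw [← Finset.sum_union]
  · rw [Finset.Ioc_union_Ioc_eq_Ioc h1 h2]
  · rw [Finset.disjoint_left]
    intro x hx hx'
    rw [Finset.mem_Ioc] at hx hx'
    omega

lemma Rs_one (a : ℕ) : y.Rs a (a + 1) = y.r (a + 1) := by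
  unfold Rs
  have : Ioc a (a + 1) = {a + 1} := by ext x; rw [Finset.mem_Ioc, Finset.mem_singleton]; omega
  rw [this, sum_singleton]

lemma r_le_Rs (a b : ℕ) (h : a < b) : y.r a ≤ 2 * y.Rs a b := by
  have h1 := y.Rs_split a (a + 1) b (by omega) (by omega)
  rw [y.Rs_one] at h1
  have h2 := y.r_dn a
  have h3 := y.Rs_nonneg (a + 1) b
  linarith

lemma r_mem_Rs (a j b : ℕ) (h : a < j) (h' : j ≤ b) : y.r j ≤ y.Rs a b := by
  unfold Rs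
  exact single_le_sum (f := y.r) (fun i _ => (y.r_pos i).le) (by rw [Finset.mem_Ioc]; omega)

end Sys

/-- `q - t` for real `t`. -/
noncomputable def sh (q : ℂ) (t : ℝ) : ℂ := q - (t : ℂ)

@[simp] lemma sh_re (q : ℂ) (t : ℝ) : (sh q t).re = q.re - t := by simp [sh]

@[simp] lemma sh_im (q : ℂ) (t : ℝ) : (sh q t).im = q.im := by simp [sh]

/-- Elementary facts on cones. -/
lemma Cn_trans {al be : ℝ} {p w : ℂ} (h : w ∈ Cn al be p) : Cn al be w ⊆ Cn al be p := by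
  rintro z ⟨h1, h2⟩
  obtain ⟨h3, h4⟩ := h
  constructor
  · have e : al * (z.im - p.im) = al * (z.im - w.im) + al * (w.im - p.im) := by ring
    linarith
  · have e : be * (p.im - z.im) = be * (w.im - z.im) + be * (p.im - w.im) := by ring
    linarith

lemma Cn_sub_Co {al be : ℝ} {p w : ℂ} (h : w ∈ Co al be p) : Cn al be w ⊆ Co al be p := by
  rintro z ⟨h1, h2⟩
  obtain ⟨h3, h4⟩ := h
  constructor
  · have e : al * (z.im - p.im) = al * (z.im - w.im) + al * (w.im - p.im) := by ring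
    linarith
  · have e : be * (p.im - z.im) = be * (w.im - z.im) + be * (p.im - w.im) := by ring
    linarith

lemma Cn_ball {al be t : ℝ} {p w u : ℂ} (ha0 : 0 ≤ al) (ha : al ≤ 100) (hb0 : 0 ≤ be)
    (hb : be ≤ 100) (h : w ∈ Cn al be (p - (t : ℂ))) (hu : ‖u - w‖ ≤ t / 102) : u ∈ Cn al be p := by
  have h1 : |u.re - w.re| ≤ ‖u - w‖ := by simpa using Complex.abs_re_le_norm (u - w)
  have h2 : |u.im - w.im| ≤ ‖u - w‖ := by simpa using Complex.abs_im_le_norm (u - w)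
  obtain ⟨h3, h4⟩ := h
  simp only [Complex.sub_re, Complex.ofReal_re, Complex.sub_im, Complex.ofReal_im, sub_zero] at h3 h4
  have h0 : 0 ≤ ‖u - w‖ := norm_nonneg _
  rw [abs_le] at h1 h2
  constructor
  · have e : al * (u.im - p.im) = al * (w.im - p.im) + al * (u.im - w.im) := by ring
    have e2 : al * (u.im - w.im) ≤ 100 * ‖u - w‖ := by
      calc al * (u.im - w.im) ≤ al * ‖u - w‖ := mul_le_mul_of_nonneg_left h2.2 ha0
        _ ≤ 100 * ‖u - w‖ := mul_le_mul_of_nonneg_right ha h0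
    linarith
  · have e : be * (p.im - u.im) = be * (p.im - w.im) + be * (w.im - u.im) := by ring
    have e2 : be * (w.im - u.im) ≤ 100 * ‖u - w‖ := by
      calc be * (w.im - u.im) ≤ be * ‖u - w‖ := mul_le_mul_of_nonneg_left (by linarith) hb0
        _ ≤ 100 * ‖u - w‖ := mul_le_mul_of_nonneg_right hb h0
    linarith

end Pool.Agent.Mac
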