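import Pool.Agent.Mac.Cst

set_option autoImplicit false

/-!
# Existence of the constants
-/

namespace Pool.Agent.Mac

open Finset Filter Topology
open Pool.Agent.MP_e061a3_an Pool.Agent.GapReg

theorem CstEx_small (A B C D : ℝ) :
    ∃ ε : ℝ, 0 < ε ∧ A * ε ≤ 1 ∧ B * ε ≤ 1 ∧ C * ε ≤ 1 ∧ D * ε ≤ 1 := by
  have h0 : 0 < 1 + |A| + |B| + |C| + |D| := by positivity
  have key : ∀ E : ℝ, E ≤ 1 + |A| + |B| + |C| + |D| → E * (1 / (1 + |A| + |B| + |C| + |D|)) ≤ 1 := by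
    intro E hE
    rw [mul_one_div, div_le_one h0]
    exact hE
  have hA := abs_nonneg A
  have hB := abs_nonneg B
  have hC := abs_nonneg C
  have hD := abs_nonneg D
  refine ⟨1 / (1 + |A| + |B| + |C| + |D|), by positivity, key _ ?_, key _ ?_, key _ ?_, key _ ?_⟩
  · have := le_abs_self A
    linarith
  · have := le_abs_self B
    linarith
  · have := le_abs_self C
    linarith
  · have := le_abs_self D
    linarith

theorem CstEx_dec {H : ℕ} {c1 c2 c1' c2' : ℝ} (h : DecP H c1 c2) (h1 : c1' ≤ c1)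
    (h2 : c2' ≤ c2) (h2' : 0 < c2') : DecP H c1' c2' := by
  intro c d K hlev al be h3 h4 h5 h6 l p M D hM hF h7 h8
  have hd := hlev.d_pos l
  have hD : 0 < D := by
    by_contra hcon
    push Not at hcon
    nlinarith
  refine h c d K hlev al be h3 h4 h5 h6 l p M D hM hF ?_ ?_
  · refine h7.trans (mul_le_mul_of_nonneg_right h1 ?_)
    positivity
  · exact h8.trans (mul_le_mul_of_nonneg_right h2 hD.le)

theorem CstEx_lw {H : ℕ} {c2 c2' CL CL' : ℝ} (h : LwP H c2 CL) (h1 : CL ≤ CL')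
    (h2 : c2' ≤ c2) : LwP H c2' CL' := by
  intro c d K hlev l z ρ m hρ h3 h4 w hw
  have hd := hlev.d_pos l
  refine (h c d K hlev l z ρ m hρ (h3.trans (mul_le_mul_of_nonneg_right h2 hρ.le)) h4 w hw).trans ?_
  refine Real.exp_le_exp.mpr ?_
  have h5 : 0 ≤ (H : ℝ) ^ l * d l := by positivity
  have := mul_le_mul_of_nonneg_right h1 h5
  linarith

theorem CstEx_bl {H : ℕ} {c2 c2' : ℝ} (h : BlP H c2) (h2 : c2' ≤ c2) : BlP H c2' := by
  intro c d K hlev l z ρ m hρ h3 h4 w hw h5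
  exact h c d K hlev l z ρ m hρ (h3.trans (mul_le_mul_of_nonneg_right h2 hρ.le)) h4 w hw h5

theorem CstEx_rem {CR CR' : ℝ} (h : RemP CR) (h1 : CR ≤ CR') : RemP CR' := by
  intro c S P hS hP z r hr M hM h3 w hw
  refine (h c S P hS hP z r hr M hM h3 w hw).trans ?_
  refine mul_le_mul_of_nonneg_right (Real.exp_le_exp.mpr ?_) hM
  exact mul_le_mul_of_nonneg_right h1 (by positivity)

/-- MODULE CstEx. HINT. choose the constants one after the other in the order of the fields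
(everything up to `C30` and `S0` does not depend on `sig`); `DecP`, `LwP`, `BlP` are monotone in
`c1`, `c2` (replace them by smaller ones `≤ 1`), `LwP` in `CL`, `RemP` in `CR`. -/
theorem exists_cst (H : ℕ) (hH : 16 ≤ H) (c1 c2 CL CR C2 : ℝ) (h1 : 0 < c1) (h2 : 0 < c2)
    (hC2 : 1 ≤ C2) (hD : DecP H c1 c2) (hL : LwP H c2 CL) (hB : BlP H c2) (hR : RemP CR) :
    ∃ C30 CW sig1 S1 eps : ℝ, 0 < C30 ∧ 0 < CW ∧ 0 < sig1 ∧ 0 < S1 ∧ 0 < eps ∧
      ∀ sig : ℝ, 0 < sig → sig ≤ sig1 → ∃ k : Cst, k.H = H ∧ k.C2 = C2 ∧ k.sig = sig ∧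
        k.C30 = C30 ∧ k.CW = CW ∧ k.S0 = S1 ∧ k.C33 = 1 / eps := by
  have hH' : (16 : ℝ) ≤ H := by exact_mod_cast hH
  -- normalisation
  obtain ⟨a, ha, ha1, haD⟩ : ∃ a : ℝ, 0 < a ∧ a ≤ 1 ∧ a ≤ c1 :=
    ⟨min c1 1, lt_min h1 one_pos, min_le_right _ _, min_le_left _ _⟩
  obtain ⟨b, hb, hb1, hbD⟩ : ∃ b : ℝ, 0 < b ∧ b ≤ 1 ∧ b ≤ c2 :=
    ⟨min c2 1, lt_min h2 one_pos, min_le_right _ _, min_le_left _ _⟩
  obtain ⟨L, hL1, hLD⟩ : ∃ L : ℝ, 1 ≤ L ∧ CL ≤ L := ⟨max CL 1, le_max_right _ _, le_max_left _ _⟩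
  obtain ⟨Q, hQ1, hQD⟩ : ∃ Q : ℝ, 1 ≤ Q ∧ CR ≤ Q := ⟨max CR 1, le_max_right _ _, le_max_left _ _⟩
  have hD' := CstEx_dec hD haD hbD hb
  have hL' := CstEx_lw hL hLD hbD
  have hB' := CstEx_bl hB hbD
  have hR' := CstEx_rem hR hQD
  clear hD hL hB hR haD hbD hLD hQD h1 h2
  obtain ⟨J, hJ⟩ := pow_unbounded_of_one_lt (16 * (100 * (H : ℝ))) (one_lt_two (α := ℝ))
  obtain ⟨n2, hn2⟩ := exists_nat_ge (7 * (8 * (400 * (1000 : ℝ) ^ J)))
  have hT : (0 : ℝ) < 2 ^ (n2 + 2) + 1 := by positivity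
  set T : ℝ := 2 ^ (n2 + 2) + 1 with hTdef
  have hE : (0 : ℝ) < 1000 ^ J := by positivity
  -- C4
  obtain ⟨C4, h4a, h4c, h4d⟩ : ∃ C4 : ℝ, 1000 ≤ a * C4 ∧ 100000 ≤ C4 ∧ 8000 * T ≤ C4 := by
    refine ⟨1000 / a + (100000 + 8000 * T), ?_, ?_, ?_⟩
    · rw [mul_add, mul_div_cancel₀ _ ha.ne']
      have : 0 < a * (100000 + 8000 * T) := by positivity
      linarith
    · have : 0 < 1000 / a := by positivity
      linarith
    · have : 0 < 1000 / a := by positivity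
      linarith
  have h4 : 0 < C4 := by linarith
  -- eps1
  obtain ⟨e, he, hea, heb, -, -⟩ := CstEx_small 4000 (Q * (2 * H * C4) * (1600 * H)) 0 0
  -- c13
  obtain ⟨c13, h13, h13a, h13b, -, -⟩ := CstEx_small (2 * C4) (64 * T / e) 0 0
  have h13b' : 64 * T * c13 ≤ e := by
    have : 64 * T / e * c13 = 64 * T * c13 / e := by ring
    rw [this, div_le_one he] at h13b
    exact h13b
  have hC2b : 1 ≤ C2 := hC2
  have hC2p : 0 < C2 := by linarith
  -- C0, C1, C3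
  set C0 : ℝ := 2 * C4 with hC0
  set C1 : ℝ := 4 * C0 with hC1
  have hC0p : 0 < C0 := by positivity
  have hC1p : 0 < C1 := by positivity
  have hs2 : 0 < Real.sinh (2 * Real.pi ^ 2) := by
    rw [Real.sinh_pos_iff]
    positivity
  have hs6 : 0 < Real.sinh (6 * Real.pi ^ 2) := by
    rw [Real.sinh_pos_iff]
    positivity
  obtain ⟨C3, hC3a, hC3b, hC3c⟩ : ∃ C3 : ℝ, 4 * C1 ≤ C3 ∧ 4 * C4 ≤ C3 ∧
      224 * Real.sinh (6 * Real.pi ^ 2) ≤ C3 * Real.sinh (2 * Real.pi ^ 2) := by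
    refine ⟨4 * C1 + 4 * C4 + 224 * Real.sinh (6 * Real.pi ^ 2) / Real.sinh (2 * Real.pi ^ 2),
      ?_, ?_, ?_⟩
    · have : 0 < 224 * Real.sinh (6 * Real.pi ^ 2) / Real.sinh (2 * Real.pi ^ 2) := by positivity
      linarith
    · have : 0 < 224 * Real.sinh (6 * Real.pi ^ 2) / Real.sinh (2 * Real.pi ^ 2) := by positivity
      linarith
    · rw [add_mul, div_mul_cancel₀ _ hs2.ne']
      have : 0 < (4 * C1 + 4 * C4) * Real.sinh (2 * Real.pi ^ 2) := by positivity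
      linarith
  have hC3 : 0 < C3 := by linarith
  -- X
  obtain ⟨X, hXa, hXb, hXc⟩ : ∃ X : ℝ, 4 * C1 + 1 ≤ X ∧ 3 * C0 * 1000 ^ J + C1 + 1 ≤ X ∧
      C2 ≤ X := by
    refine ⟨(4 * C1 + 1) + (3 * C0 * 1000 ^ J + C1 + 1) + C2, ?_, ?_, ?_⟩
    · have : 0 < 3 * C0 * 1000 ^ J := by positivity
      linarith
    · linarith
    · have : 0 < 3 * C0 * 1000 ^ J := by positivity
      linarith
  have hX : 1 ≤ X := by linarith
  -- C33
  obtain ⟨C33, h33a, h33b, h33c, h33d, h33e, h33f⟩ : ∃ C33 : ℝ, 50500 * X ≤ C33 ∧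
      2 ≤ c13 * C33 ∧ 140 * C3 ≤ C33 ∧ 8 * C3 ≤ e * C33 ∧ 10 * C2 ≤ e * C33 ∧
      2 * C3 ≤ C1 * (c13 * C33) := by
    have q1 : 0 < 50500 * X := by positivity
    have q2 : 0 < 2 / c13 := by positivity
    have q3 : 0 < 140 * C3 := by positivity
    have q4 : 0 < 8 * C3 / e := by positivity
    have q5 : 0 < 10 * C2 / e := by positivity
    have q6 : 0 < 2 * C3 / (C1 * c13) := by positivity
    refine ⟨50500 * X + 2 / c13 + 140 * C3 + 8 * C3 / e + 10 * C2 / e + 2 * C3 / (C1 * c13),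
      by linarith, ?_, by linarith, ?_, ?_, ?_⟩
    · have := mul_le_mul_of_nonneg_left (show 2 / c13 ≤ 50500 * X + 2 / c13 + 140 * C3 +
        8 * C3 / e + 10 * C2 / e + 2 * C3 / (C1 * c13) by linarith) h13.le
      rwa [mul_div_cancel₀ _ h13.ne'] at this
    · have := mul_le_mul_of_nonneg_left (show 8 * C3 / e ≤ 50500 * X + 2 / c13 + 140 * C3 +
        8 * C3 / e + 10 * C2 / e + 2 * C3 / (C1 * c13) by linarith) he.le
      rwa [mul_div_cancel₀ _ he.ne'] at this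
    · have := mul_le_mul_of_nonneg_left (show 10 * C2 / e ≤ 50500 * X + 2 / c13 + 140 * C3 +
        8 * C3 / e + 10 * C2 / e + 2 * C3 / (C1 * c13) by linarith) he.le
      rwa [mul_div_cancel₀ _ he.ne'] at this
    · have q7 : 0 < C1 * c13 := by positivity
      have := mul_le_mul_of_nonneg_left (show 2 * C3 / (C1 * c13) ≤ 50500 * X + 2 / c13 +
        140 * C3 + 8 * C3 / e + 10 * C2 / e + 2 * C3 / (C1 * c13) by linarith) q7.le
      rw [mul_div_cancel₀ _ q7.ne'] at this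
      rwa [← mul_assoc]
  have h33 : 0 < C33 := by linarith
  -- C37, C31, CT, CV
  obtain ⟨C37, h37a, h37b, h37c, h37d⟩ : ∃ C37 : ℝ, 5 * C33 ≤ C37 ∧ 8 * C0 ≤ C37 ∧ C4 ≤ C37 ∧
      12 * C0 * 1000 ^ J ≤ C37 := by
    have q : 0 < 12 * C0 * 1000 ^ J := by positivity
    exact ⟨5 * C33 + 8 * C0 + C4 + 12 * C0 * 1000 ^ J, by linarith, by linarith, by linarith,
      by linarith⟩
  have h37 : 0 < C37 := by linarith
  obtain ⟨C31, h31a, h31b⟩ : ∃ C31 : ℝ, 4 + 2 * C2 ≤ C31 ∧ C37 + C4 ≤ C31 * X := by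
    refine ⟨4 + 2 * C2 + (C37 + C4), by linarith, ?_⟩
    nlinarith
  have h31 : 0 < C31 := by linarith
  set CT : ℝ := 2 * (X + C33 + C2) with hCT
  have hCTp : 0 < CT := by positivity
  set CV : ℝ := C31 * (CT + 1) + 2 * C37 + 2 * C4 with hCV
  have hCVp : 0 < CV := by positivity
  obtain ⟨c23, h23, h23a, h23b, -, -⟩ := CstEx_small (48 * CV) (192 * CT) 0 0
  obtain ⟨CW, hWa, hWb⟩ : ∃ CW : ℝ, CV ≤ CW ∧ 1 ≤ c23 * CW := by
    have q : 0 < 1 / c23 := by positivity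
    refine ⟨CV + 1 / c23, by linarith, ?_⟩
    rw [mul_add, mul_one_div_cancel h23.ne']
    have : 0 < c23 * CV := by positivity
    linarith
  -- sig
  obtain ⟨s, hs, hsa, hsb, -, -⟩ := CstEx_small (100000 / b) (1 / (b * e)) 0 0
  obtain ⟨s', hs', hsd, hse, -, -⟩ := CstEx_small (L * (H * C4) * (1600 * H))
    (Q * (H * C4) * (1600 * H)) 0 0
  refine ⟨32 * CV + 128 * CT + 4 * C2, CW, min s s',
    1000 * (100 * (H : ℝ)) + 100 * Q * (100 * H), 1 / C33, by positivity, by linarith,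
    lt_min hs hs', by positivity, by positivity, ?_⟩
  intro sig hsig hsig0
  have hsig1 : sig ≤ s := hsig0.trans (min_le_left _ _)
  have hsig2 : sig ≤ s' := hsig0.trans (min_le_right _ _)
  have hsa' : 100000 * sig ≤ b := by
    have : 100000 / b * s = 100000 * s / b := by ring
    rw [this, div_le_one hb] at hsa
    linarith
  have hsb' : sig ≤ b * e := by
    have q : 0 < b * e := by positivity
    have : 1 / (b * e) * s = s / (b * e) := by ring
    rw [this, div_le_one q] at hsb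
    linarith
  have hsd' : L * (sig * H * C4) * (1600 * H) ≤ 1 := by
    have q : 0 ≤ L * (H * C4) * (1600 * H) := by positivity
    have := mul_le_mul_of_nonneg_left hsig2 q
    nlinarith
  have hse' : Q * (sig * H * C4) * (1600 * H) ≤ 1 := by
    have q : 0 ≤ Q * (H * C4) * (1600 * H) := by positivity
    have := mul_le_mul_of_nonneg_left hsig2 q
    nlinarith
  have heb' : Q * (2 * e * H * C4) * (1600 * H) ≤ 1 := by
    have : Q * (2 * e * H * C4) * (1600 * H) = Q * (2 * H * C4) * (1600 * H) * e := by ring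
    rw [this]
    exact heb
  have h13a' : 2 * c13 * C4 ≤ 1 := by
    have : 2 * c13 * C4 = 2 * C4 * c13 := by ring
    rw [this]
    exact h13a
  exact ⟨{
    H := H, J := J, n2 := n2, c1 := a, c2 := b, CL := L, CR := Q, C4 := C4, eps1 := e,
    c13 := c13, C0 := C0, C2 := C2, C1 := C1, C3 := C3, X := X, C33 := C33,
    C37 := C37, C31 := C31, CT := CT, CV := CV, c23 := c23, CW := CW,
    C30 := 32 * CV + 128 * CT + 4 * C2, sig := sig,
    S0 := 1000 * (100 * (H : ℝ)) + 100 * Q * (100 * H),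
    H_ge := hH, c1_pos := ha, c1_le := ha1, c2_pos := hb, c2_le := hb1, CL_ge := hL1,
    CR_ge := hQ1, dec := hD', lw := hL', bl := hB', rem := hR', hJ := hJ.le, hn2 := hn2,
    C4_a := by linarith, C4_b := by linarith, C4_c := h4c, C4_d := h4d, eps1_pos := he,
    eps1_le := hea, eps1_a := heb', c13_pos := h13, c13_a := h13a', c13_b := h13b',
    C0_a := le_rfl, C2_b := hC2b,
    C1_a := le_rfl, C3_a := hC3a, C3_b := hC3b, C3_c := hC3c, X_a := hXa, X_b := hXb,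
    X_c := hXc, C33_a := h33a, C33_b := h33b, C33_c := h33c, C33_d := h33d, C33_e := h33e,
    C33_f := h33f, C37_a := h37a, C37_b := h37b, C37_c := h37c, C37_d := h37d, C31_a := h31a,
    C31_b := h31b, CT_a := le_rfl, CV_a := le_rfl, c23_pos := h23,
    c23_a := by linarith, c23_b := by linarith, CW_a := hWa, CW_b := hWb,
    C30_a := by linarith, C30_b := by linarith, C30_c := by linarith, sig_pos := hsig,
    sig_a := hsa', sig_b := hsb', sig_d := hsd', sig_e := hse',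
    S0_a := by
      have : 0 ≤ 100 * Q * (100 * (H : ℝ)) := by positivity
      linarith,
    S0_b := by
      have : 0 ≤ 1000 * (100 * (H : ℝ)) := by positivity
      linarith }, rfl, rfl, rfl, rfl, rfl, rfl, (one_div_one_div C33).symm⟩

end Pool.Agent.Mac
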