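import Pool.Agent.Mac.Defs
import Pool.Agent.GapReg.CutOp
import Pool.Agent.GapReg.FsBasic
import Pool.Agent.MP_e061a3_an.ExpSum
import Pool.Agent.H76Brennan.Square

set_option autoImplicit false

/-!
# Decoupling in a cone, tools: cones, chains of discs, the cut operator for all exponential sums
-/

namespace Pool.Agent.Mac

open Finset Filter Topology
open Pool.Agent.MP_e061a3_an Pool.Agent.GapReg

/-- A point near a deep point is still deep. -/
theorem cn_ball {al be : ℝ} (ha1 : 0 ≤ al) (ha : al ≤ 100) (hb1 : 0 ≤ be) (hb : be ≤ 100)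
    {p w u : ℂ} {s t t' : ℝ} (hw : w ∈ Cn al be (p - (t : ℂ))) (hu : ‖u - w‖ ≤ s)
    (ht : t' ≤ t - 101 * s) : u ∈ Cn al be (p - (t' : ℂ)) := by
  have h1 : |u.re - w.re| ≤ s := by
    have := Complex.abs_re_le_norm (u - w)
    rw [Complex.sub_re] at this
    exact this.trans hu
  have h2 : |u.im - w.im| ≤ s := by
    have := Complex.abs_im_le_norm (u - w)
    rw [Complex.sub_im] at this
    exact this.trans hu
  obtain ⟨h3, h4⟩ := hw
  simp only [Complex.sub_re, Complex.sub_im, Complex.ofReal_re, Complex.ofReal_im, sub_zero]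
    at h3 h4
  rw [abs_le] at h1 h2
  have hs : 0 ≤ s := (norm_nonneg _).trans hu
  have h5 : al * (u.im - w.im) ≤ 100 * s := by
    calc al * (u.im - w.im) ≤ al * s := mul_le_mul_of_nonneg_left h2.2 ha1
      _ ≤ 100 * s := mul_le_mul_of_nonneg_right ha hs
  have h6 : be * (w.im - u.im) ≤ 100 * s := by
    calc be * (w.im - u.im) ≤ be * s := mul_le_mul_of_nonneg_left (by linarith) hb1
      _ ≤ 100 * s := mul_le_mul_of_nonneg_right hb hs
  constructor
  · simp only [Complex.sub_re, Complex.sub_im, Complex.ofReal_re, Complex.ofReal_im, sub_zero]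
    have : al * (u.im - p.im) = al * (w.im - p.im) + al * (u.im - w.im) := by ring
    linarith
  · simp only [Complex.sub_re, Complex.sub_im, Complex.ofReal_re, Complex.ofReal_im, sub_zero]
    have : be * (p.im - u.im) = be * (p.im - w.im) + be * (w.im - u.im) := by ring
    linarith

/-- Moving to the left. -/
theorem cn_left {al be : ℝ} {p w : ℂ} {s t t' : ℝ} (hw : w ∈ Cn al be (p - (t : ℂ)))
    (ht : t' ≤ t + s) : w - (s : ℂ) ∈ Cn al be (p - (t' : ℂ)) := by
  obtain ⟨h3, h4⟩ := hw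
  constructor
  · simp only [Complex.sub_re, Complex.sub_im, Complex.ofReal_re, Complex.ofReal_im, sub_zero]
      at h3 h4 ⊢
    linarith
  · simp only [Complex.sub_re, Complex.sub_im, Complex.ofReal_re, Complex.ofReal_im, sub_zero]
      at h3 h4 ⊢
    linarith

theorem cn_mono {al be : ℝ} {p w : ℂ} {t t' : ℝ} (hw : w ∈ Cn al be (p - (t : ℂ)))
    (ht : t' ≤ t) : w ∈ Cn al be (p - (t' : ℂ)) := by
  have := cn_left (s := 0) hw (by linarith : t' ≤ t + 0)
  simpa using this

/-- Three circles with radii `r, 2 r, 4 r`. -/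
theorem three_half {f : ℂ → ℂ} (hf : Differentiable ℂ f) {c : ℂ} {r X Y : ℝ} (hr : 0 < r)
    (hXY : 0 ≤ X + Y) (h1 : ∀ z, ‖z - c‖ ≤ r → ‖f z‖ ≤ Real.exp (-Y))
    (h2 : ∀ z, ‖z - c‖ ≤ 4 * r → ‖f z‖ ≤ Real.exp X) :
    ∀ z, ‖z - c‖ ≤ 2 * r → ‖f z‖ ≤ Real.exp ((X - Y) / 2) := by
  intro z hz
  rcases le_or_gt ‖z - c‖ r with h | h
  · exact (h1 z h).trans (Real.exp_le_exp.mpr (by linarith))
  · have key := Pool.Agent.H76Brennan.three_circles (f := f) (c := c) (r₁ := r) (r₂ := 4 * r)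
      (ε := Real.exp (-Y)) (M := Real.exp X) hr (by linarith) (fun z _ _ => hf z)
      (fun z hz => h1 z hz.le) (fun z hz => h2 z hz.le) h.le (by linarith)
    refine key.trans ?_
    set τ := (Real.log ‖z - c‖ - Real.log r) / (Real.log (4 * r) - Real.log r) with hτ
    have hden : Real.log (4 * r) - Real.log r = 2 * Real.log 2 := by
      rw [Real.log_mul (by norm_num) hr.ne', show (4:ℝ) = 2 ^ 2 by norm_num, Real.log_pow]
      push_cast; ring
    have hl2 : 0 < Real.log 2 := Real.log_pos (by norm_num)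
    have hnum : Real.log ‖z - c‖ - Real.log r ≤ Real.log 2 := by
      have hpos : 0 < ‖z - c‖ := hr.trans h
      have := Real.log_le_log hpos hz
      rw [Real.log_mul (by norm_num) hr.ne'] at this
      linarith
    have hτ2 : τ ≤ 1 / 2 := by
      rw [hτ, hden, div_le_iff₀ (by positivity)]
      linarith
    rw [← Real.exp_mul, ← Real.exp_mul, ← Real.exp_add]
    apply Real.exp_le_exp.mpr
    nlinarith

/-- A chain of discs. -/
theorem chain_discs {f : ℂ → ℂ} (hf : Differentiable ℂ f) {r X Y : ℝ} (hr : 0 < r)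
    (hXY : 0 ≤ X + Y) (w : ℕ → ℂ) (N : ℕ) (hstep : ∀ n < N, ‖w (n + 1) - w n‖ ≤ r)
    (h0 : ∀ u, ‖u - w 0‖ ≤ r → ‖f u‖ ≤ Real.exp (-Y))
    (hX : ∀ n < N, ∀ u, ‖u - w n‖ ≤ 4 * r → ‖f u‖ ≤ Real.exp X) :
    ∀ u, ‖u - w N‖ ≤ r → ‖f u‖ ≤ Real.exp (X - (X + Y) / 2 ^ N) := by
  suffices H : ∀ n ≤ N, ∀ u, ‖u - w n‖ ≤ r → ‖f u‖ ≤ Real.exp (X - (X + Y) / 2 ^ n) from
    H N le_rfl
  intro n
  induction n with
  | zero =>
    intro _ u hu
    have := h0 u hu
    rw [pow_zero, div_one]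
    rwa [show X - (X + Y) = -Y by ring]
  | succ n ih =>
    intro hn u hu
    have hn' : n < N := by omega
    have h2n : (0:ℝ) < 2 ^ n := by positivity
    have h1 := three_half hf (c := w n) (r := r) (X := X) (Y := -(X - (X + Y) / 2 ^ n)) hr
      (by
        have : 0 ≤ (X + Y) / 2 ^ n := by positivity
        linarith)
      (by
        intro z hz
        rw [neg_neg]
        exact ih hn'.le z hz) (hX n hn') u (by
        have h3 : u - w n = (u - w (n + 1)) + (w (n + 1) - w n) := by ring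
        rw [h3]
        refine (norm_add_le _ _).trans ?_
        linarith [hstep n hn'])
    refine h1.trans (Real.exp_le_exp.mpr (le_of_eq ?_))
    rw [pow_succ]
    field_simp
    ring

/-- Horizontal chain from `w - N r` to `w`. -/
theorem chain_horiz {f : ℂ → ℂ} (hf : Differentiable ℂ f) {r X Y : ℝ} (hr : 0 < r)
    (hXY : 0 ≤ X + Y) (w : ℂ) (N : ℕ)
    (h0 : ∀ u, ‖u - (w - ((N * r : ℝ) : ℂ))‖ ≤ r → ‖f u‖ ≤ Real.exp (-Y))
    (hX : ∀ t : ℝ, 0 ≤ t → t ≤ N * r → ∀ u, ‖u - (w - (t : ℂ))‖ ≤ 4 * r →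
      ‖f u‖ ≤ Real.exp X) :
    ‖f w‖ ≤ Real.exp (X - (X + Y) / 2 ^ N) := by
  have h := chain_discs hf hr hXY (fun n => w - (((N - n : ℝ) * r : ℝ) : ℂ)) N
    (by
      intro n _
      have : (w - ((((N:ℝ) - ((n + 1 : ℕ) : ℝ)) * r : ℝ) : ℂ)) - (w - ((((N:ℝ) - n) * r : ℝ) : ℂ))
          = ((r : ℝ) : ℂ) := by
        push_cast; ring
      rw [this, Complex.norm_real, Real.norm_eq_abs, abs_of_pos hr])
    (by
      intro u hu
      apply h0 u
      simpa using hu)
    (by
      intro n hn u hu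
      have hnR : (n:ℝ) ≤ N := by exact_mod_cast hn.le
      refine hX (((N:ℝ) - n) * r) (mul_nonneg (by linarith) hr.le) ?_ u hu
      apply mul_le_mul_of_nonneg_right _ hr.le
      have : (0:ℝ) ≤ n := Nat.cast_nonneg n
      linarith) w (by simp [hr.le])
  exact h

open Polynomial in
/-- The multiplier of the cut operator, before integration. -/
private noncomputable def chA (S : Finset ℕ) (m : ℕ) (ζ : ℂ) : ℂ :=
  ∑ n ∈ range ((CUAux.Ph S).natDegree + 1), (CUAux.Ph S).coeff n *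
    ∑ j ∈ range n, ζ ^ (n - 1 - j) * (m:ℂ) ^ j

open Polynomial in
private theorem chA_identity (S : Finset ℕ) (m : ℕ) (ζ : ℂ) :
    (CUAux.Ph S).eval ζ - (CUAux.Ph S).eval (m:ℂ) = chA S m ζ * (ζ - m) := by
  unfold chA
  rw [eval_eq_sum_range, eval_eq_sum_range, ← sum_sub_distrib, sum_mul]
  refine sum_congr rfl fun n _ => ?_
  have h := geom_sum₂_mul (m:ℂ) ζ n
  have h' : (∑ j ∈ range n, ζ ^ (n - 1 - j) * (m:ℂ) ^ j) * (ζ - m) = ζ ^ n - (m:ℂ) ^ n := by
    have h2 : ∑ j ∈ range n, ζ ^ (n - 1 - j) * (m:ℂ) ^ j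
        = ∑ i ∈ range n, (m:ℂ) ^ i * ζ ^ (n - 1 - i) :=
      sum_congr rfl fun j _ => mul_comm _ _
    rw [h2]
    linear_combination (-1 : ℂ) * h
  rw [mul_assoc, h']
  ring

open Polynomial in
private theorem chA_cont (S : Finset ℕ) (m : ℕ) : Continuous (chA S m) := by
  unfold chA
  fun_prop

open Polynomial in
private theorem chA_sum (c : ℕ → ℂ) (S T : Finset ℕ) (w ζ : ℂ) :
    ∑ m ∈ T, chA S m ζ * (c m * Complex.exp (m * w))
      = ∑ n ∈ range ((CUAux.Ph S).natDegree + 1), (CUAux.Ph S).coeff n *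
      ∑ j ∈ range n, ζ ^ (n - 1 - j) * expSum (fun m => c m * (m:ℂ) ^ j) T w := by
  unfold chA expSum
  have key : ∀ m ∈ T, (∑ n ∈ range ((CUAux.Ph S).natDegree + 1), (CUAux.Ph S).coeff n *
      ∑ j ∈ range n, ζ ^ (n - 1 - j) * (m:ℂ) ^ j) * (c m * Complex.exp (m * w))
      = ∑ n ∈ range ((CUAux.Ph S).natDegree + 1), (CUAux.Ph S).coeff n *
        ∑ j ∈ range n, ζ ^ (n - 1 - j) * (c m * (m:ℂ) ^ j * Complex.exp (m * w)) := by
    intro m _
    rw [sum_mul]
    refine sum_congr rfl fun n _ => ?_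
    rw [mul_assoc, sum_mul]
    congr 1
    refine sum_congr rfl fun j _ => ?_
    ring
  rw [sum_congr rfl key, sum_comm]
  refine sum_congr rfl fun n _ => ?_
  rw [← mul_sum, sum_comm]
  congr 1
  refine sum_congr rfl fun j _ => ?_
  rw [mul_sum]

open Polynomial in
/-- The cut operator acts on all exponential sums: multiplier `1` on the exponents of `S` below
`P`, `0` on the exponents of `S` above `P`. -/
theorem chi_exists (S : Finset ℕ) (h0 : ∀ m ∈ S, 0 < m) (B η : ℝ) (hη : 0 ≤ η)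
    (hprod : ∀ x : ℝ, 0 ≤ x → ∏ m ∈ S, (1 + (x / m) ^ 2) ≤ Real.exp (B + η * x))
    (ρ : ℝ) (hρ0 : 0 < ρ) (hρ : 8 * η ≤ ρ) (P : ℝ) (hP : 0 < P) (E : ℝ)
    (hE : Real.exp (-E) ≤ ∏ m ∈ S, |1 - (P / m) ^ 2|) (hne : ∀ m ∈ S, (m:ℝ) ≠ P) :
    ∃ χ : ℕ → ℂ, (∀ m ∈ S, (m:ℝ) < P → χ m = 1) ∧ (∀ m ∈ S, P < m → χ m = 0) ∧
      ∀ (c : ℕ → ℂ) (T : Finset ℕ) (w : ℂ) (M : ℝ),
        (∀ u : ℂ, ‖u - w‖ ≤ ρ → ‖expSum c T u‖ ≤ M) →
        ‖expSum (fun m => χ m * c m) T w‖ ≤ 3 * Real.exp (B + 2 * η * P + E) * M := by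
  have hlow : ∀ ζ : ℂ, ‖ζ‖ = P → Real.exp (-E) ≤ ‖(CUAux.Ph S).eval ζ‖ := fun ζ hζ =>
    hE.trans (CUAux.eval_Ph_lower S P hP ζ hζ)
  have hnz : ∀ ζ : ℂ, ‖ζ‖ = P → (CUAux.Ph S).eval ζ ≠ 0 := by
    intro ζ hζ h
    have := hlow ζ hζ
    rw [h, norm_zero] at this
    linarith [Real.exp_pos (-E)]
  set χ : ℕ → ℂ := fun m => (2 * Real.pi * Complex.I)⁻¹ *
    ∮ ζ in C(0, P), chA S m ζ * ((CUAux.Ph S).eval ζ)⁻¹ with hχ
  have hpi : (2 * Real.pi * Complex.I : ℂ) ≠ 0 := by
    simp [Real.pi_ne_zero]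
  have hint : ∀ m, CircleIntegrable (fun ζ : ℂ => chA S m ζ * ((CUAux.Ph S).eval ζ)⁻¹) 0 P := by
    intro m
    apply ContinuousOn.circleIntegrable hP.le
    apply (chA_cont S m).continuousOn.mul
    apply ContinuousOn.inv₀ (CUAux.Ph S).continuous.continuousOn
    intro z hz
    apply hnz
    rwa [mem_sphere_zero_iff_norm] at hz
  have hval : ∀ m ∈ S, χ m = (2 * Real.pi * Complex.I)⁻¹ *
      (if (m:ℝ) < P then 2 * Real.pi * Complex.I else 0) := by
    intro m hm
    rw [← CUAux.circle_inv P hP m (hne m hm)]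
    simp only [hχ]
    congr 1
    apply circleIntegral.integral_congr hP.le
    intro ζ hζ
    rw [mem_sphere_zero_iff_norm] at hζ
    have h1 := chA_identity S m ζ
    rw [CUAux.eval_Ph_zero S h0 m hm, sub_zero] at h1
    have h2 := hnz ζ hζ
    have h3 : ζ - m ≠ 0 := by
      intro h
      rw [h, mul_zero] at h1
      exact h2 h1
    show chA S m ζ * ((CUAux.Ph S).eval ζ)⁻¹ = (ζ - m)⁻¹
    rw [h1]
    have h4 : chA S m ζ ≠ 0 := by
      intro h
      rw [h, zero_mul] at h1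
      exact h2 h1
    field_simp
  refine ⟨χ, ?_, ?_, ?_⟩
  · intro m hm hmP
    rw [hval m hm, if_pos hmP, inv_mul_cancel₀ hpi]
  · intro m hm hmP
    rw [hval m hm, if_neg (by linarith), mul_zero]
  · intro c T w M hM
    have hM0 : 0 ≤ M := (norm_nonneg _).trans (hM w (by simpa using hρ0.le))
    have hrep : expSum (fun m => χ m * c m) T w = (2 * Real.pi * Complex.I)⁻¹ *
        ∮ ζ in C(0, P), (∑ m ∈ T, chA S m ζ * (c m * Complex.exp (m * w))) *
          ((CUAux.Ph S).eval ζ)⁻¹ := by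
      have h1 : ∀ ζ : ℂ, (∑ m ∈ T, chA S m ζ * (c m * Complex.exp (m * w))) *
          ((CUAux.Ph S).eval ζ)⁻¹ = ∑ m ∈ T, (c m * Complex.exp (m * w)) *
          (chA S m ζ * ((CUAux.Ph S).eval ζ)⁻¹) := by
        intro ζ
        rw [sum_mul]
        refine sum_congr rfl fun m _ => ?_
        ring
      simp_rw [h1]
      rw [circleIntegral.integral_fun_sum]
      · unfold expSum
        rw [mul_sum]
        refine sum_congr rfl fun m _ => ?_
        rw [circleIntegral.integral_const_mul]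
        simp only [hχ]
        ring
      · intro m _
        exact (hint m).const_mul _
    rw [hrep, norm_mul]
    have hb : ∀ ζ ∈ Metric.sphere (0:ℂ) P,
        ‖(∑ m ∈ T, chA S m ζ * (c m * Complex.exp (m * w))) * ((CUAux.Ph S).eval ζ)⁻¹‖
          ≤ 3 * Real.exp (B + 2 * η * P + E) * M / P := by
      intro ζ hζ
      rw [mem_sphere_zero_iff_norm] at hζ
      rw [chA_sum]
      have h1 : P * ‖∑ n ∈ range ((CUAux.Ph S).natDegree + 1), (CUAux.Ph S).coeff n *
          ∑ j ∈ range n, ζ ^ (n - 1 - j) * expSum (fun m => c m * (m:ℂ) ^ j) T w‖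
          ≤ M * (3 * Real.exp (B + 2 * η * P)) := by
        calc P * ‖∑ n ∈ range ((CUAux.Ph S).natDegree + 1), (CUAux.Ph S).coeff n *
              ∑ j ∈ range n, ζ ^ (n - 1 - j) * expSum (fun m => c m * (m:ℂ) ^ j) T w‖
            ≤ P * ∑ n ∈ range ((CUAux.Ph S).natDegree + 1), ‖(CUAux.Ph S).coeff n *
              ∑ j ∈ range n, ζ ^ (n - 1 - j) * expSum (fun m => c m * (m:ℂ) ^ j) T w‖ :=
              mul_le_mul_of_nonneg_left (norm_sum_le _ _) hP.le
          _ = ∑ n ∈ range ((CUAux.Ph S).natDegree + 1), ‖(CUAux.Ph S).coeff n‖ *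
              (P * ‖∑ j ∈ range n, ζ ^ (n - 1 - j) *
                expSum (fun m => c m * (m:ℂ) ^ j) T w‖) := by
              rw [mul_sum]
              refine sum_congr rfl fun n _ => ?_
              rw [norm_mul]; ring
          _ ≤ ∑ n ∈ range ((CUAux.Ph S).natDegree + 1), ‖(CUAux.Ph S).coeff n‖ *
              (M * ((2 * P) ^ n + n * (n / ρ) ^ n)) := by
              refine sum_le_sum fun n _ => mul_le_mul_of_nonneg_left ?_ (norm_nonneg _)
              exact CUAux.inner_bound P ρ hP hρ0 M hM0 n ζ hζ _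
                (fun j => CUAux.norm_moment_le c T w ρ hρ0 M hM j)
          _ = M * (∑ n ∈ range ((CUAux.Ph S).natDegree + 1),
                ‖(CUAux.Ph S).coeff n‖ * (2 * P) ^ n
              + ∑ n ∈ range ((CUAux.Ph S).natDegree + 1),
                ‖(CUAux.Ph S).coeff n‖ * (n * (n / ρ) ^ n)) := by
              rw [← sum_add_distrib, mul_sum]
              refine sum_congr rfl fun n _ => ?_
              ring
          _ ≤ M * (Real.exp (B + 2 * η * P) + 2 * Real.exp B) := by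
              apply mul_le_mul_of_nonneg_left _ hM0
              have ha := CUAux.sum_norm_le S B η hprod ((CUAux.Ph S).natDegree + 1) (2 * P)
                (by positivity)
              have hb := CUAux.second_sum S B η hη hprod ρ hρ0 hρ
                ((CUAux.Ph S).natDegree + 1)
              have hc : B + η * (2 * P) = B + 2 * η * P := by ring
              rw [hc] at ha
              linarith
          _ ≤ M * (3 * Real.exp (B + 2 * η * P)) := by
              apply mul_le_mul_of_nonneg_left _ hM0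
              have : Real.exp B ≤ Real.exp (B + 2 * η * P) := Real.exp_le_exp.mpr (by
                have : 0 ≤ 2 * η * P := by positivity
                linarith)
              linarith
      rw [norm_mul, norm_inv, le_div_iff₀ hP]
      have h2 : (‖(CUAux.Ph S).eval ζ‖)⁻¹ ≤ Real.exp E := by
        rw [← neg_neg E, Real.exp_neg (-E)]
        exact inv_anti₀ (Real.exp_pos _) (hlow ζ hζ)
      calc ‖∑ n ∈ range ((CUAux.Ph S).natDegree + 1), (CUAux.Ph S).coeff n *
            ∑ j ∈ range n, ζ ^ (n - 1 - j) * expSum (fun m => c m * (m:ℂ) ^ j) T w‖ *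
            (‖(CUAux.Ph S).eval ζ‖)⁻¹ * P
          = (P * ‖∑ n ∈ range ((CUAux.Ph S).natDegree + 1), (CUAux.Ph S).coeff n *
            ∑ j ∈ range n, ζ ^ (n - 1 - j) * expSum (fun m => c m * (m:ℂ) ^ j) T w‖) *
            (‖(CUAux.Ph S).eval ζ‖)⁻¹ := by ring
        _ ≤ (M * (3 * Real.exp (B + 2 * η * P))) * Real.exp E :=
            mul_le_mul h1 h2 (by positivity) (by positivity)
        _ = 3 * Real.exp (B + 2 * η * P + E) * M := by
            rw [Real.exp_add (B + 2 * η * P) E]; ring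
    have h2 := circleIntegral.norm_integral_le_of_norm_le_const hP.le hb
    have h3 : ‖(2 * Real.pi * Complex.I : ℂ)⁻¹‖ = (2 * Real.pi)⁻¹ := by
      rw [norm_inv]
      congr 1
      simp [abs_of_pos Real.pi_pos]
    rw [h3]
    calc (2 * Real.pi)⁻¹ * ‖∮ ζ in C(0, P), (∑ m ∈ T, chA S m ζ * (c m * Complex.exp (m * w))) *
          ((CUAux.Ph S).eval ζ)⁻¹‖
        ≤ (2 * Real.pi)⁻¹ * (2 * Real.pi * P * (3 * Real.exp (B + 2 * η * P + E) * M / P)) :=
          mul_le_mul_of_nonneg_left h2 (by positivity)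
      _ = 3 * Real.exp (B + 2 * η * P + E) * M := by
          have := Real.pi_pos
          field_simp

end Pool.Agent.Mac
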