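import Pool.Agent.Mac.DecA
import Pool.Agent.GapReg.ProdBound
import Pool.Agent.GapReg.LeftExt

set_option autoImplicit false

/-!
# Decoupling in a cone, finite sums: the low part at depth `D / 2`
-/

namespace Pool.Agent.Mac

open Finset Filter Topology
open Pool.Agent.MP_e061a3_an Pool.Agent.GapReg

/-- Subfamilies of a system of levels. -/
theorem lev_mono {c c' : ℕ → ℂ} {H : ℕ} {d : ℕ → ℝ} {K : ℕ → ℕ} (h : Lev c H d K)
    (hc : ∀ m, c' m ≠ 0 → c m ≠ 0) (he : Ent c') : Lev c' H d K where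
  ent := he
  zero := by
    by_contra h0
    exact hc 0 h0 h.zero
  H_ge := h.H_ge
  d_pos := h.d_pos
  d_up := h.d_up
  d_dn := h.d_dn
  d_big := h.d_big
  card_le := fun j T hT => h.card_le j T fun m hm => ⟨hc m (hT m hm).1, (hT m hm).2⟩
  dens := fun j => ⟨fun m hm => (h.dens j).1 m ⟨hc m hm.1, hm.2⟩, fun T hT x hx hx' =>
    (h.dens j).2 T (fun m hm => ⟨hc m (hT m hm).1, (hT m hm).2⟩) x hx hx'⟩
  K_ge := h.K_ge
  K_lt := h.K_lt
  good := fun j S hS => h.good j S fun m hm => hc m (hS m hm)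

/-- A finite series. -/
theorem fs_fin (c : ℕ → ℂ) (N : ℕ) (hfin : ∀ m, N ≤ m → c m = 0) (w : ℂ) :
    Fs c w = expSum c (suppN c N) w := by
  unfold Fs expSum
  rw [tsum_eq_sum (s := suppN c N)]
  · apply sum_congr rfl
    intro m _
    rw [← Complex.exp_nat_mul]
  · intro m hm
    rw [mem_suppN] at hm
    have : c m = 0 := by
      by_contra h
      apply hm
      refine ⟨?_, h⟩
      by_contra h2
      exact h (hfin m (not_lt.mp h2))
    rw [this, zero_mul]

theorem suppN_le {c : ℕ → ℂ} {N k : ℕ} (hfin : ∀ m, N ≤ m → c m = 0) :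
    suppN c (k + 1) = (suppN c N).filter (fun m => m ≤ k) := by
  ext m
  rw [mem_filter, mem_suppN, mem_suppN]
  constructor
  · rintro ⟨h1, h2⟩
    refine ⟨⟨?_, h2⟩, by omega⟩
    by_contra h3
    exact h2 (hfin m (not_lt.mp h3))
  · rintro ⟨⟨_, h2⟩, h3⟩
    exact ⟨by omega, h2⟩

/-- The remainder of a finite series. -/
theorem rr_fin {c : ℕ → ℂ} {N : ℕ} (hfin : ∀ m, N ≤ m → c m = 0) (K : ℕ → ℕ) (l : ℕ) (w : ℂ) :
    RR c K l w = expSum c ((suppN c N).filter (fun m => ¬ m ≤ K l)) w := by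
  unfold RR SS
  rw [fs_fin c N hfin, suppN_le hfin]
  unfold expSum
  rw [← sum_filter_add_sum_filter_not (suppN c N) (fun m => m ≤ K l)]
  ring

theorem powH_pos {H : ℕ} (hH : 16 ≤ H) (l : ℕ) : (0:ℝ) < (H:ℝ) ^ l := by
  have : (0:ℝ) < (H:ℝ) := by exact_mod_cast (by omega : 0 < H)
  positivity

theorem K_lt_pow {c : ℕ → ℂ} {H : ℕ} {d : ℕ → ℝ} {K : ℕ → ℕ} (h : Lev c H d K) (j : ℕ) :
    K j < H ^ (j + 1) := by
  have h1 := h.K_lt j
  have h2 := h.H_ge
  calc K j < 2 * H ^ j := h1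
    _ ≤ H * H ^ j := Nat.mul_le_mul_right _ (by omega)
    _ = H ^ (j + 1) := by rw [pow_succ]; ring

theorem K_half_le {c : ℕ → ℂ} {H : ℕ} {d : ℕ → ℝ} {K : ℕ → ℕ} (h : Lev c H d K) (j : ℕ) :
    ((K j : ℕ) : ℝ) + 1 / 2 ≤ 2 * (H:ℝ) ^ j := by
  have h1 := h.K_lt j
  have h2 : K j + 1 ≤ 2 * H ^ j := h1
  have h3 : ((K j + 1 : ℕ) : ℝ) ≤ ((2 * H ^ j : ℕ) : ℝ) := by exact_mod_cast h2
  push_cast at h3
  linarith

theorem card_SS {c : ℕ → ℂ} {H : ℕ} {d : ℕ → ℝ} {K : ℕ → ℕ} (h : Lev c H d K) (j : ℕ) :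
    ((suppN c (K j + 1)).card : ℝ) ≤ (H:ℝ) ^ j * d j := by
  apply h.card_le j
  intro m hm
  rw [mem_suppN] at hm
  exact ⟨hm.2, by have := K_lt_pow h j; omega⟩

/-- Constants: `c₁ = 10⁻⁴`, `c₂ = 10⁻⁷ H⁻²`. -/
noncomputable def cOne : ℝ := 1 / 10 ^ 4
noncomputable def cTwo (H : ℕ) : ℝ := 1 / (10 ^ 7 * (H:ℝ) ^ 2)

/-- Numerical consequences of `d l ≤ c₂ D`. -/
theorem dec_num {c : ℕ → ℂ} {H : ℕ} {d : ℕ → ℝ} {K : ℕ → ℕ} (h : Lev c H d K) {l : ℕ} {D : ℝ}
    (hd : d l ≤ cTwo H * D) :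
    0 < D ∧ (10:ℝ) ^ 7 ≤ (H:ℝ) ^ l * D ∧ (H:ℝ) ^ 2 * d l ≤ D / 10 ^ 7 ∧
      (H:ℝ) ^ l * ((H:ℝ) ^ 2 * d l) ≤ (H:ℝ) ^ l * D / 10 ^ 7 := by
  have hH : (16:ℝ) ≤ H := by exact_mod_cast h.H_ge
  have hH2 : (1:ℝ) ≤ (H:ℝ) ^ 2 := by nlinarith
  have h1 : (H:ℝ) ^ 2 * d l ≤ D / 10 ^ 7 := by
    unfold cTwo at hd
    calc (H:ℝ) ^ 2 * d l ≤ (H:ℝ) ^ 2 * (1 / (10 ^ 7 * (H:ℝ) ^ 2) * D) :=
          mul_le_mul_of_nonneg_left hd (by positivity)
      _ = D / 10 ^ 7 := by
          have : (H:ℝ) ^ 2 ≠ 0 := by positivity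
          field_simp
  have hdpos := h.d_pos l
  have h2 : 0 < D := by
    have : 0 < (H:ℝ) ^ 2 * d l := by positivity
    linarith [show 0 < D / 10 ^ 7 by linarith, show D = D / 10 ^ 7 * 10 ^ 7 by ring]
  have hp := powH_pos h.H_ge l
  have h3 : (H:ℝ) ^ l * ((H:ℝ) ^ 2 * d l) ≤ (H:ℝ) ^ l * D / 10 ^ 7 := by
    calc (H:ℝ) ^ l * ((H:ℝ) ^ 2 * d l) ≤ (H:ℝ) ^ l * (D / 10 ^ 7) :=
          mul_le_mul_of_nonneg_left h1 hp.le
      _ = _ := by ring
  refine ⟨h2, ?_, h1, h3⟩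
  have h4 := h.d_big l
  have h5 : (1:ℝ) ≤ (H:ℝ) ^ l * ((H:ℝ) ^ 2 * d l) := by
    calc (1:ℝ) ≤ 1 * ((H:ℝ) ^ l * d l) := by linarith
      _ ≤ (H:ℝ) ^ 2 * ((H:ℝ) ^ l * d l) := by
          apply mul_le_mul_of_nonneg_right hH2
          positivity
      _ = _ := by ring
  have h6 : (1:ℝ) ≤ (H:ℝ) ^ l * D / 10 ^ 7 := h5.trans h3
  rw [le_div_iff₀ (by norm_num)] at h6
  linarith

/-- The low part at depth `D / 2`. -/
theorem dec_low {c : ℕ → ℂ} {H : ℕ} {d : ℕ → ℝ} {K : ℕ → ℕ} (h : Lev c H d K) {N₁ : ℕ}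
    (hfin : ∀ m, N₁ ≤ m → c m = 0) {al be : ℝ} (ha1 : 1 ≤ al) (ha : al ≤ 100) (hb1 : 1 ≤ be)
    (hb : be ≤ 100) {p : ℂ} {M : ℝ} (hF : Bd (Fs c) M (Cn al be p)) {N : ℕ}
    (hN : 10000 ≤ N) (hHN : (48:ℝ) * 2 ^ N ≤ H) {D : ℝ} {l : ℕ}
    (ih : Bd (RR c K (l + 2)) (-((H:ℝ) ^ (l + 2) * (4 * D) / 8))
      (Cn al be (p - ((4 * D : ℝ) : ℂ))))
    (hM : M ≤ cOne * ((H:ℝ) ^ l * D)) (hd : d l ≤ cTwo H * D) {i : ℕ} (hi1 : l ≤ i)
    (hi2 : i ≤ l + 1) :
    Bd (SS c K i) ((H:ℝ) ^ l * D / 1000) (Cn al be (p - ((D / 2 : ℝ) : ℂ))) := by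
  obtain ⟨hD, hZ, hdD, hdZ⟩ := dec_num h hd
  have hH : (16:ℝ) ≤ H := by exact_mod_cast h.H_ge
  have hp := powH_pos h.H_ge l
  set Z := (H:ℝ) ^ l * D with hZdef
  have hd0 := h.d_pos l
  -- sizes of the densities
  have hd1 : d (l + 1) ≤ 2 * d l := h.d_up l
  have hd2 : d (l + 2) ≤ 4 * d l := by linarith [h.d_up (l + 1), h.d_up l]
  have hdi : d i ≤ 2 * d l := by
    rcases Nat.lt_or_ge l i with h1 | h1
    · have : i = l + 1 := by omega
      rw [this]; exact hd1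
    · have : i = l := by omega
      rw [this]; linarith
  have hHi : (H:ℝ) ^ i ≤ (H:ℝ) ^ (l + 1) := pow_le_pow_right₀ (by linarith) hi2
  have hHi' : (H:ℝ) ^ l ≤ (H:ℝ) ^ i := pow_le_pow_right₀ (by linarith) hi1
  have hZi : Z ≤ (H:ℝ) ^ i * D := mul_le_mul_of_nonneg_right hHi' hD.le
  have hpi := powH_pos h.H_ge i
  have hHd : (H:ℝ) * d l ≤ D / 10 ^ 7 := by
    refine le_trans ?_ hdD
    apply mul_le_mul_of_nonneg_right _ hd0.le
    nlinarith
  have hdD' : d l ≤ D / 10 ^ 7 := by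
    refine le_trans ?_ hHd
    nlinarith
  have hHldl : (H:ℝ) ^ l * (H * d l) ≤ Z / 10 ^ 7 := by
    calc (H:ℝ) ^ l * (H * d l) ≤ (H:ℝ) ^ l * (D / 10 ^ 7) :=
          mul_le_mul_of_nonneg_left hHd hp.le
      _ = Z / 10 ^ 7 := by rw [hZdef]; ring
  have hHidi : (H:ℝ) ^ i * d i ≤ 2 * Z / 10 ^ 7 := by
    calc (H:ℝ) ^ i * d i ≤ (H:ℝ) ^ (l + 1) * (2 * d l) :=
          mul_le_mul hHi hdi (h.d_pos i).le (by positivity)
      _ = 2 * ((H:ℝ) ^ l * (H * d l)) := by rw [pow_succ]; ring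
      _ ≤ 2 * (Z / 10 ^ 7) := by linarith
      _ = _ := by ring
  -- the cut operator
  set S := suppN c (K (l + 2) + 1) with hSdef
  have hSmem : ∀ m ∈ S, c m ≠ 0 ∧ m < H ^ (l + 2 + 1) := by
    intro m hm
    rw [hSdef, mem_suppN] at hm
    exact ⟨hm.2, by have := K_lt_pow h (l + 2); omega⟩
  have hSpos : ∀ m ∈ S, 0 < m := fun m hm => (h.dens (l + 2)).1 m (hSmem m hm)
  have hdl2 := h.d_pos (l + 2)
  have hprod : ∀ x : ℝ, 0 ≤ x → ∏ m ∈ S, (1 + (x / m) ^ 2)
      ≤ Real.exp (13 * d (l + 2) * (H:ℝ) ^ (l + 2) + 13 * d (l + 2) * x) := by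
    intro x hx
    apply prod_one_add_sq_le _ (d (l + 2)) ((H:ℝ) ^ (l + 2)) hdl2 _ (h.dens (l + 2)) S hSmem x hx
    exact one_le_pow₀ (by linarith)
  set P : ℝ := (K i : ℝ) + 1 / 2 with hPdef
  have hP0 : 0 < P := by positivity
  have hP2 : P ≤ 2 * (H:ℝ) ^ i := K_half_le h i
  have hgood := h.good i S (fun m hm => (hSmem m hm).1)
  have hne : ∀ m ∈ S, (m:ℝ) ≠ P := by
    intro m _ hm
    rw [hPdef] at hm
    have h1 : (2:ℝ) * m = 2 * K i + 1 := by linarith
    have h2 : 2 * m = 2 * K i + 1 := by exact_mod_cast h1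
    omega
  obtain ⟨χ, hχ1, hχ0, hχ⟩ := chi_exists S hSpos (13 * d (l + 2) * (H:ℝ) ^ (l + 2))
    (13 * d (l + 2)) (by positivity) hprod (D / 1000) (by positivity)
    (by linarith) P hP0 (61 * ((H:ℝ) ^ i * d i)) hgood hne
  set E' := 13 * d (l + 2) * (H:ℝ) ^ (l + 2) + 2 * (13 * d (l + 2)) * P
    + 61 * ((H:ℝ) ^ i * d i) with hE'def
  have hE' : E' ≤ Z / 10 ^ 4 := by
    have h1 : d (l + 2) * (H:ℝ) ^ (l + 2) ≤ 4 * Z / 10 ^ 7 := by
      calc d (l + 2) * (H:ℝ) ^ (l + 2) ≤ (4 * d l) * (H:ℝ) ^ (l + 2) :=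
            mul_le_mul_of_nonneg_right hd2 (by positivity)
        _ = 4 * ((H:ℝ) ^ l * ((H:ℝ) ^ 2 * d l)) := by rw [pow_add]; ring
        _ ≤ 4 * (Z / 10 ^ 7) := by linarith
        _ = _ := by ring
    have h2 : d (l + 2) * P ≤ 8 * Z / 10 ^ 7 := by
      calc d (l + 2) * P ≤ (4 * d l) * (2 * (H:ℝ) ^ (l + 1)) :=
            mul_le_mul hd2 (hP2.trans (by linarith)) hP0.le (by positivity)
        _ = 8 * ((H:ℝ) ^ l * (H * d l)) := by rw [pow_succ]; ring
        _ ≤ 8 * (Z / 10 ^ 7) := by linarith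
        _ = _ := by ring
    rw [hE'def]
    linarith
  have hE'0 : 0 ≤ E' := by
    rw [hE'def]
    have := (h.d_pos i).le
    positivity
  clear_value E'
  have hMZ : M ≤ Z / 10 ^ 4 := by
    unfold cOne at hM
    linarith
  -- abbreviations
  set T := suppN c N₁ with hTdef
  set T' := T.filter (fun m => ¬ m ≤ K (l + 2)) with hT'def
  set G : ℂ → ℂ := expSum (fun m => χ m * c m) T' with hGdef
  have hGd : Differentiable ℂ G := differentiable_expSum _ _
  -- the identity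
  have hid : ∀ w, expSum (fun m => χ m * c m) T w = SS c K i w + G w := by
    intro w
    have hK : K i ≤ K (l + 2) := by
      have h1 := K_lt_pow h i
      have h2 := h.K_ge (l + 2)
      have h3 : H ^ (i + 1) ≤ H ^ (l + 2) :=
        Nat.pow_le_pow_right (by have := h.H_ge; omega) (by omega)
      omega
    have h1 : expSum (fun m => χ m * c m) T w
        = expSum (fun m => χ m * c m) (T.filter (fun m => m ≤ K (l + 2))) w + G w := by
      rw [hGdef, hT'def]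
      unfold expSum
      rw [← sum_filter_add_sum_filter_not T (fun m => m ≤ K (l + 2))]
    have h2 : T.filter (fun m => m ≤ K (l + 2)) = S := by
      rw [hTdef, hSdef, suppN_le hfin]
    have h3 : expSum (fun m => χ m * c m) S w = SS c K i w := by
      unfold SS expSum
      have h4 : suppN c (K i + 1) = S.filter (fun m => m ≤ K i) := by
        ext m
        rw [mem_filter, mem_suppN, hSdef, mem_suppN]
        constructor
        · rintro ⟨a, b⟩; exact ⟨⟨by omega, b⟩, by omega⟩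
        · rintro ⟨⟨_, b⟩, a⟩; exact ⟨by omega, b⟩
      rw [h4, ← sum_filter_add_sum_filter_not S (fun m => m ≤ K i)]
      have h5 : ∑ m ∈ S.filter (fun m => ¬ m ≤ K i), χ m * c m * Complex.exp (m * w) = 0 := by
        apply sum_eq_zero
        intro m hm
        rw [mem_filter] at hm
        have : P < m := by
          have h6 : K i + 1 ≤ m := by omega
          have h7 : ((K i + 1 : ℕ) : ℝ) ≤ m := by exact_mod_cast h6
          push_cast at h7
          rw [hPdef]; linarith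
        rw [hχ0 m hm.1 this, zero_mul, zero_mul]
      rw [h5, add_zero]
      apply sum_congr rfl
      intro m hm
      rw [mem_filter] at hm
      have : (m:ℝ) < P := by
        have h7 : ((m : ℕ) : ℝ) ≤ K i := by exact_mod_cast hm.2
        rw [hPdef]; linarith
      beta_reduce
      rw [hχ1 m hm.1 this, one_mul]
    rw [h1, h2, h3]
  have hFT : ∀ w, Fs c w = expSum c T w := fs_fin c N₁ hfin
  have hR : ∀ w, RR c K (l + 2) w = expSum c T' w := rr_fin hfin K (l + 2)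
  -- the cut operator on F at depth 0.11 D
  have hcF : ∀ t : ℝ, D * (11 / 100) ≤ t → ∀ w ∈ Cn al be (p - (t : ℂ)),
      ‖expSum (fun m => χ m * c m) T w‖ ≤ Real.exp (Z / 4000) := by
    intro t ht w hw
    have h1 := hχ c T w (Real.exp M) (by
      intro u hu
      rw [← hFT]
      apply hF
      have := cn_ball (by linarith) ha (by linarith) hb hw hu (t' := 0) (by linarith)
      simpa using this)
    refine h1.trans ?_
    have h3 : (3:ℝ) ≤ Real.exp 2 := by
      have := Real.add_one_le_exp (2:ℝ)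
      linarith
    calc 3 * Real.exp E' * Real.exp M ≤ Real.exp 2 * Real.exp E' * Real.exp M := by
          gcongr
      _ = Real.exp (2 + E' + M) := by rw [Real.exp_add, Real.exp_add]
      _ ≤ Real.exp (Z / 4000) := by
          apply Real.exp_le_exp.mpr
          linarith
  -- G at depth 5 D
  have hGdeep : ∀ w ∈ Cn al be (p - ((5 * D : ℝ) : ℂ)),
      ‖G w‖ ≤ Real.exp (-((H:ℝ) ^ (l + 2) * D / 4)) := by
    intro w hw
    have h1 := hχ c T' w (Real.exp (-((H:ℝ) ^ (l + 2) * (4 * D) / 8))) (by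
      intro u hu
      rw [← hR]
      apply ih
      exact cn_ball (by linarith) ha (by linarith) hb hw hu (by linarith))
    refine h1.trans ?_
    have h3 : (3:ℝ) ≤ Real.exp 2 := by
      have := Real.add_one_le_exp (2:ℝ)
      linarith
    have h4 : Z ≤ (H:ℝ) ^ (l + 2) * D := by
      rw [hZdef]
      apply mul_le_mul_of_nonneg_right _ hD.le
      exact pow_le_pow_right₀ (by linarith) (by omega)
    calc 3 * Real.exp E' * Real.exp (-((H:ℝ) ^ (l + 2) * (4 * D) / 8))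
        ≤ Real.exp 2 * Real.exp E' * Real.exp (-((H:ℝ) ^ (l + 2) * (4 * D) / 8)) := by
          gcongr
      _ = Real.exp (2 + E' + -((H:ℝ) ^ (l + 2) * (4 * D) / 8)) := by
          rw [Real.exp_add, Real.exp_add]
      _ ≤ Real.exp (-((H:ℝ) ^ (l + 2) * D / 4)) := by
          apply Real.exp_le_exp.mpr
          linarith
  -- the low part at depth 5 D
  have hSdeep : ∀ w ∈ Cn al be (p - ((5 * D : ℝ) : ℂ)), ‖SS c K i w‖ ≤ Real.exp (Z / 2000) := by
    intro w hw
    have h1 := hcF (5 * D) (by linarith) w hw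
    have h2 := hGdeep w hw
    have h3 : SS c K i w = expSum (fun m => χ m * c m) T w - G w := by rw [hid]; ring
    rw [h3]
    refine (norm_sub_le _ _).trans ?_
    have h4 : Real.exp (-((H:ℝ) ^ (l + 2) * D / 4)) ≤ Real.exp (Z / 4000) := by
      apply Real.exp_le_exp.mpr
      have : 0 ≤ (H:ℝ) ^ (l + 2) * D / 4 := by positivity
      linarith
    have h5 : (2:ℝ) ≤ Real.exp 1 := by
      have := Real.add_one_le_exp (1:ℝ)
      linarith
    calc ‖expSum (fun m => χ m * c m) T w‖ + ‖G w‖ ≤ 2 * Real.exp (Z / 4000) := by linarith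
      _ ≤ Real.exp 1 * Real.exp (Z / 4000) := by gcongr
      _ = Real.exp (1 + Z / 4000) := by rw [Real.exp_add]
      _ ≤ Real.exp (Z / 2000) := by
          apply Real.exp_le_exp.mpr
          linarith
  -- crude bound at depth D / 4
  have hScrude : ∀ w ∈ Cn al be (p - ((D / 4 : ℝ) : ℂ)),
      ‖SS c K i w‖ ≤ Real.exp (11 * ((H:ℝ) ^ i * D)) := by
    intro w hw
    have h1 := expSum_from_disc c (suppN c (K i + 1)) P (by
      intro m hm
      rw [mem_suppN] at hm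
      have h7 : m ≤ K i := by omega
      have h8 : ((m : ℕ) : ℝ) ≤ K i := by exact_mod_cast h7
      rw [hPdef]; linarith) hP0.le (w - ((5 * D : ℝ) : ℂ)) w (5 * D) (D / 1000) 5000 (by norm_num)
      (by
        have : w - (w - ((5 * D : ℝ) : ℂ)) = ((5 * D : ℝ) : ℂ) := by ring
        rw [this, Complex.norm_real, Real.norm_eq_abs, abs_of_pos (by positivity)])
      (by push_cast; linarith) (Real.exp (Z / 2000)) (Real.exp_pos _).le (by
        intro u hu
        apply hSdeep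
        have h2 := cn_left (s := 5 * D) (t' := D / 4 + 5 * D) hw le_rfl
        exact cn_ball (by linarith) ha (by linarith) hb h2 hu (by linarith))
    refine h1.trans ?_
    have h2 : max 0 (w.re - (w - ((5 * D : ℝ) : ℂ)).re) = 5 * D := by
      simp only [Complex.sub_re, Complex.ofReal_re]
      rw [sub_sub_cancel]
      exact max_eq_right (by positivity)
    rw [h2]
    have h3 : (2 * Real.exp 1 * ((5000:ℕ):ℝ)) ≤ Real.exp 11 := by
      have h4 : (2.7:ℝ) ≤ Real.exp 1 := by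
        have := Real.exp_one_gt_d9
        linarith
      have h5 : Real.exp 11 = Real.exp 1 ^ 10 * Real.exp 1 := by
        rw [← Real.exp_nat_mul, ← Real.exp_add]
        norm_num
      rw [h5]
      have h6 : (10000:ℝ) ≤ Real.exp 1 ^ 10 := by
        calc (10000:ℝ) ≤ 2.7 ^ 10 := by norm_num
          _ ≤ _ := pow_le_pow_left₀ (by norm_num) h4 10
      push_cast
      nlinarith [Real.exp_pos 1]
    have hcard := card_SS h i
    have h4 : (2 * Real.exp 1 * ((5000:ℕ):ℝ)) ^ (suppN c (K i + 1)).card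
        ≤ Real.exp (11 * (2 * Z / 10 ^ 7)) := by
      calc (2 * Real.exp 1 * ((5000:ℕ):ℝ)) ^ (suppN c (K i + 1)).card
          ≤ Real.exp 11 ^ (suppN c (K i + 1)).card := by
            apply pow_le_pow_left₀ _ h3
            positivity
        _ = Real.exp ((suppN c (K i + 1)).card * 11) := by rw [← Real.exp_nat_mul]
        _ ≤ _ := by
            apply Real.exp_le_exp.mpr
            linarith
    calc (2 * Real.exp 1 * ((5000:ℕ):ℝ)) ^ (suppN c (K i + 1)).card * Real.exp (P * (5 * D))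
          * Real.exp (Z / 2000)
        ≤ Real.exp (11 * (2 * Z / 10 ^ 7)) * Real.exp (P * (5 * D)) * Real.exp (Z / 2000) := by
          gcongr
      _ = Real.exp (11 * (2 * Z / 10 ^ 7) + P * (5 * D) + Z / 2000) := by
          rw [Real.exp_add, Real.exp_add]
      _ ≤ Real.exp (11 * ((H:ℝ) ^ i * D)) := by
          apply Real.exp_le_exp.mpr
          have h5 : P * (5 * D) ≤ 2 * (H:ℝ) ^ i * (5 * D) :=
            mul_le_mul_of_nonneg_right hP2 (by positivity)
          have h6 : 2 * (H:ℝ) ^ i * (5 * D) = 10 * ((H:ℝ) ^ i * D) := by ring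
          linarith
  -- crude bound of G at depth D / 4
  have hGcrude : ∀ w ∈ Cn al be (p - ((D / 4 : ℝ) : ℂ)),
      ‖G w‖ ≤ Real.exp (12 * ((H:ℝ) ^ i * D)) := by
    intro w hw
    have h1 := hcF (D / 4) (by linarith) w hw
    have h2 := hScrude w hw
    have h3 : G w = expSum (fun m => χ m * c m) T w - SS c K i w := by rw [hid]; ring
    rw [h3]
    refine (norm_sub_le _ _).trans ?_
    have h4 : Real.exp (Z / 4000) ≤ Real.exp (11 * ((H:ℝ) ^ i * D)) := by
      apply Real.exp_le_exp.mpr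
      linarith
    have h5 : (2:ℝ) ≤ Real.exp 1 := by
      have := Real.add_one_le_exp (1:ℝ)
      linarith
    calc ‖expSum (fun m => χ m * c m) T w‖ + ‖SS c K i w‖
        ≤ 2 * Real.exp (11 * ((H:ℝ) ^ i * D)) := by linarith
      _ ≤ Real.exp 1 * Real.exp (11 * ((H:ℝ) ^ i * D)) := by gcongr
      _ = Real.exp (1 + 11 * ((H:ℝ) ^ i * D)) := by rw [Real.exp_add]
      _ ≤ Real.exp (12 * ((H:ℝ) ^ i * D)) := by
          apply Real.exp_le_exp.mpr
          linarith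
  -- conclusion
  intro w hw
  have hNR : (10000:ℝ) ≤ N := by exact_mod_cast hN
  have hN0 : (0:ℝ) < N := by linarith
  set r : ℝ := 5 * D / N with hrdef
  have hr0 : 0 < r := by positivity
  have hr : r ≤ D / 2000 := by
    rw [hrdef, div_le_iff₀ hN0]
    nlinarith
  have hNr : (N:ℝ) * r = 5 * D := by rw [hrdef]; field_simp
  have h2N : (0:ℝ) < 2 ^ N := by positivity
  have hG1 : ‖G w‖ ≤ 1 := by
    have h1 := chain_horiz hGd (X := 12 * ((H:ℝ) ^ i * D)) (Y := (H:ℝ) ^ (l + 2) * D / 4) hr0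
      (by positivity) w N
      (by
        intro u hu
        rw [hNr] at hu
        apply hGdeep
        have h2 := cn_left (s := 5 * D) (t' := D / 2 + 5 * D) hw le_rfl
        exact cn_ball (by linarith) ha (by linarith) hb h2 hu (by linarith))
      (by
        intro t ht0 _ u hu
        apply hGcrude
        have h2 := cn_left (s := t) (t' := D / 2) hw (by linarith)
        exact cn_ball (by linarith) ha (by linarith) hb h2 hu (by linarith))
    refine h1.trans ?_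
    rw [← Real.exp_zero]
    apply Real.exp_le_exp.mpr
    rw [sub_nonpos, le_div_iff₀ h2N]
    have h2 : (H:ℝ) ^ i * D * (48 * 2 ^ N) ≤ (H:ℝ) ^ (l + 2) * D := by
      calc (H:ℝ) ^ i * D * (48 * 2 ^ N) ≤ (H:ℝ) ^ (l + 1) * D * H :=
            mul_le_mul (mul_le_mul_of_nonneg_right hHi hD.le) hHN (by positivity) (by positivity)
        _ = (H:ℝ) ^ (l + 2) * D := by rw [pow_succ (H:ℝ) (l + 1)]; ring
    have h3 : 0 ≤ 12 * ((H:ℝ) ^ i * D) := by positivity
    linarith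
  have h1 := hcF (D / 2) (by linarith) w hw
  have h3 : SS c K i w = expSum (fun m => χ m * c m) T w - G w := by rw [hid]; ring
  rw [h3]
  refine (norm_sub_le _ _).trans ?_
  have h4 : 1 ≤ Real.exp (Z / 4000) := Real.one_le_exp (by linarith)
  have h5 : (2:ℝ) ≤ Real.exp 1 := by
    have := Real.add_one_le_exp (1:ℝ)
    linarith
  calc ‖expSum (fun m => χ m * c m) T w‖ + ‖G w‖ ≤ 2 * Real.exp (Z / 4000) := by linarith
    _ ≤ Real.exp 1 * Real.exp (Z / 4000) := by gcongr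
    _ = Real.exp (1 + Z / 4000) := by rw [Real.exp_add]
    _ ≤ Real.exp (Z / 1000) := by
        apply Real.exp_le_exp.mpr
        linarith

end Pool.Agent.Mac
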