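import Pool.Agent.Mac.DecB

set_option autoImplicit false

/-!
# Decoupling in a cone
-/

namespace Pool.Agent.Mac

open Finset Filter Topology
open Pool.Agent.MP_e061a3_an Pool.Agent.GapReg

/-- The induction step `4 D → D`. -/
theorem dec_step {c : ℕ → ℂ} {H : ℕ} {d : ℕ → ℝ} {K : ℕ → ℕ} (h : Lev c H d K) {N₁ : ℕ}
    (hfin : ∀ m, N₁ ≤ m → c m = 0) {al be : ℝ} (ha1 : 1 ≤ al) (ha : al ≤ 100) (hb1 : 1 ≤ be)
    (hb : be ≤ 100) {p : ℂ} {M : ℝ} (hF : Bd (Fs c) M (Cn al be p)) {N : ℕ}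
    (hN : 10000 ≤ N) (hHN : (48:ℝ) * 2 ^ N ≤ H) {D : ℝ}
    (ih : ∀ l : ℕ, M ≤ cOne * ((H:ℝ) ^ l * (4 * D)) → d l ≤ cTwo H * (4 * D) →
      Bd (RR c K l) (-((H:ℝ) ^ l * (4 * D) / 8)) (Cn al be (p - ((4 * D : ℝ) : ℂ)))) {l : ℕ}
    (hM : M ≤ cOne * ((H:ℝ) ^ l * D)) (hd : d l ≤ cTwo H * D) :
    Bd (RR c K l) (-((H:ℝ) ^ l * D / 8)) (Cn al be (p - (D : ℂ))) := by
  obtain ⟨hD, hZ, hdD, hdZ⟩ := dec_num h hd
  have hH : (16:ℝ) ≤ H := by exact_mod_cast h.H_ge
  have hp := powH_pos h.H_ge l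
  have hc1 : (0:ℝ) < cOne := by unfold cOne; norm_num
  have hc2 : (0:ℝ) < cTwo H := by unfold cTwo; positivity
  have hd0 := h.d_pos l
  have hd1 : d (l + 1) ≤ 2 * d l := h.d_up l
  have hd2 : d (l + 2) ≤ 4 * d l := by linarith [h.d_up (l + 1), h.d_up l]
  have hc2D : 0 < cTwo H * D := by positivity
  have hmono : ∀ j : ℕ, l ≤ j → cOne * ((H:ℝ) ^ l * D) ≤ cOne * ((H:ℝ) ^ j * (4 * D)) := by
    intro j hj
    apply mul_le_mul_of_nonneg_left _ hc1.le
    have h1 : (H:ℝ) ^ l ≤ (H:ℝ) ^ j := pow_le_pow_right₀ (by linarith) hj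
    have h2 : (H:ℝ) ^ l * D ≤ (H:ℝ) ^ j * D := mul_le_mul_of_nonneg_right h1 hD.le
    have h3 : 0 ≤ (H:ℝ) ^ j * D := by positivity
    nlinarith
  have ih2 := ih (l + 2) (hM.trans (hmono _ (by omega))) (by linarith)
  have ih1 := ih (l + 1) (hM.trans (hmono _ (by omega))) (by linarith)
  have hS0 := dec_low h hfin ha1 ha hb1 hb hF hN hHN ih2 hM hd (i := l) le_rfl (by omega)
  have hS1 := dec_low h hfin ha1 ha hb1 hb hF hN hHN ih2 hM hd (i := l + 1) (by omega) le_rfl
  set Z := (H:ℝ) ^ l * D with hZdef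
  have hMZ : M ≤ Z / 10 ^ 4 := by
    unfold cOne at hM
    linarith
  have h2e : (2:ℝ) ≤ Real.exp 1 := by
    have := Real.add_one_le_exp (1:ℝ)
    linarith
  -- the block
  have hBid : ∀ w, SS c K (l + 1) w - SS c K l w
      = expSum c ((suppN c (K (l + 1) + 1)).filter (fun m => ¬ m ≤ K l)) w := by
    intro w
    unfold SS
    have h1 : suppN c (K l + 1) = (suppN c (K (l + 1) + 1)).filter (fun m => m ≤ K l) := by
      have hK : K l ≤ K (l + 1) := by
        have h1 := K_lt_pow h l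
        have h2 := h.K_ge (l + 1)
        omega
      ext m
      rw [mem_filter, mem_suppN, mem_suppN]
      constructor
      · rintro ⟨a, b⟩; exact ⟨⟨by omega, b⟩, by omega⟩
      · rintro ⟨⟨_, b⟩, a⟩; exact ⟨by omega, b⟩
    rw [h1]
    unfold expSum
    rw [← sum_filter_add_sum_filter_not (suppN c (K (l + 1) + 1)) (fun m => m ≤ K l)]
    ring
  have hBmid : ∀ w ∈ Cn al be (p - ((D / 2 : ℝ) : ℂ)),
      ‖SS c K (l + 1) w - SS c K l w‖ ≤ Real.exp (Z / 500) := by
    intro w hw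
    refine (norm_sub_le _ _).trans ?_
    have h1 := hS0 w hw
    have h2 := hS1 w hw
    calc ‖SS c K (l + 1) w‖ + ‖SS c K l w‖ ≤ 2 * Real.exp (Z / 1000) := by linarith
      _ ≤ Real.exp 1 * Real.exp (Z / 1000) := by gcongr
      _ = Real.exp (1 + Z / 1000) := by rw [Real.exp_add]
      _ ≤ Real.exp (Z / 500) := by
          apply Real.exp_le_exp.mpr
          linarith
  intro w hw
  have hB : ‖SS c K (l + 1) w - SS c K l w‖ ≤ Real.exp (-(Z * (19 / 100))) := by
    rw [hBid]
    have h1 := expSum_left c ((suppN c (K (l + 1) + 1)).filter (fun m => ¬ m ≤ K l))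
      ((H:ℝ) ^ l) hp.le (by
        intro m hm
        rw [mem_filter] at hm
        have h1 := h.K_ge l
        have h2 : H ^ l ≤ m := by omega
        exact_mod_cast h2) (w + ((2 / 5 * D : ℝ) : ℂ)) w (D / 2000) 800 (by norm_num)
      (by
        have : w - (w + ((2 / 5 * D : ℝ) : ℂ)) = -((2 / 5 * D : ℝ) : ℂ) := by ring
        rw [this, norm_neg, Complex.norm_real, Real.norm_eq_abs, abs_of_pos (by positivity)]
        push_cast
        linarith)
      (by simp; positivity) (Real.exp (Z / 500)) (Real.exp_pos _).le (by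
        intro u hu
        rw [← hBid]
        apply hBmid
        have h2 := cn_left (s := -(2 / 5 * D)) (t' := D - 2 / 5 * D) hw (by linarith)
        have h3 : w - ((-(2 / 5 * D) : ℝ) : ℂ) = w + ((2 / 5 * D : ℝ) : ℂ) := by
          push_cast; ring
        rw [h3] at h2
        exact cn_ball (by linarith) ha (by linarith) hb h2 hu (by linarith))
    refine h1.trans ?_
    have h2 : (w + ((2 / 5 * D : ℝ) : ℂ)).re - w.re = 2 / 5 * D := by
      simp
    rw [h2]
    have h3 : (2 * Real.exp 1 * ((800:ℕ):ℝ)) ≤ Real.exp 9 := by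
      have h4 : (2.7:ℝ) ≤ Real.exp 1 := by
        have := Real.exp_one_gt_d9
        linarith
      have h5 : Real.exp 9 = Real.exp 1 ^ 8 * Real.exp 1 := by
        rw [← Real.exp_nat_mul, ← Real.exp_add]
        norm_num
      rw [h5]
      have h6 : (1600:ℝ) ≤ Real.exp 1 ^ 8 := by
        calc (1600:ℝ) ≤ 2.7 ^ 8 := by norm_num
          _ ≤ _ := pow_le_pow_left₀ (by norm_num) h4 8
      push_cast
      nlinarith [Real.exp_pos 1]
    have hcard : (((suppN c (K (l + 1) + 1)).filter (fun m => ¬ m ≤ K l)).card : ℝ)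
        ≤ 2 * Z / 10 ^ 7 := by
      have h4 : (((suppN c (K (l + 1) + 1)).filter (fun m => ¬ m ≤ K l)).card : ℝ)
          ≤ ((suppN c (K (l + 1) + 1)).card : ℝ) := by
        exact_mod_cast card_filter_le _ _
      have h5 := card_SS h (l + 1)
      have hHd : (H:ℝ) * d l ≤ D / 10 ^ 7 := by
        refine le_trans ?_ hdD
        apply mul_le_mul_of_nonneg_right _ hd0.le
        nlinarith
      calc _ ≤ (H:ℝ) ^ (l + 1) * d (l + 1) := h4.trans h5
        _ ≤ (H:ℝ) ^ (l + 1) * (2 * d l) := mul_le_mul_of_nonneg_left hd1 (by positivity)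
        _ = 2 * ((H:ℝ) ^ l * (H * d l)) := by rw [pow_succ]; ring
        _ ≤ 2 * ((H:ℝ) ^ l * (D / 10 ^ 7)) := by gcongr
        _ = 2 * Z / 10 ^ 7 := by rw [hZdef]; ring
    have h4 : (2 * Real.exp 1 * ((800:ℕ):ℝ)) ^
        ((suppN c (K (l + 1) + 1)).filter (fun m => ¬ m ≤ K l)).card
        ≤ Real.exp (9 * (2 * Z / 10 ^ 7)) := by
      calc _ ≤ Real.exp 9 ^ ((suppN c (K (l + 1) + 1)).filter (fun m => ¬ m ≤ K l)).card := by
            apply pow_le_pow_left₀ _ h3
            positivity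
        _ = Real.exp (((suppN c (K (l + 1) + 1)).filter (fun m => ¬ m ≤ K l)).card * 9) := by
            rw [← Real.exp_nat_mul]
        _ ≤ _ := by
            apply Real.exp_le_exp.mpr
            linarith
    calc (2 * Real.exp 1 * ((800:ℕ):ℝ)) ^
          ((suppN c (K (l + 1) + 1)).filter (fun m => ¬ m ≤ K l)).card *
          Real.exp (-((H:ℝ) ^ l * (2 / 5 * D) / 2)) * Real.exp (Z / 500)
        ≤ Real.exp (9 * (2 * Z / 10 ^ 7)) * Real.exp (-((H:ℝ) ^ l * (2 / 5 * D) / 2))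
          * Real.exp (Z / 500) := by gcongr
      _ = Real.exp (9 * (2 * Z / 10 ^ 7) + -((H:ℝ) ^ l * (2 / 5 * D) / 2) + Z / 500) := by
          rw [Real.exp_add, Real.exp_add]
      _ ≤ Real.exp (-(Z * (19 / 100))) := by
          apply Real.exp_le_exp.mpr
          have : (H:ℝ) ^ l * (2 / 5 * D) / 2 = Z * (1 / 5) := by rw [hZdef]; ring
          rw [this]
          linarith
  -- the remainder of level l + 1
  have hRd : Differentiable ℂ (RR c K (l + 1)) := by
    intro z
    exact ((differentiable_Fs c h.ent) z).sub ((differentiable_expSum _ _) z)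
  have hR : ‖RR c K (l + 1) w‖ ≤ Real.exp (-Z) := by
    have hNR : (10000:ℝ) ≤ N := by exact_mod_cast hN
    have hN0 : (0:ℝ) < N := by linarith
    set r : ℝ := 4 * D / N with hrdef
    have hr0 : 0 < r := by positivity
    have hr : r ≤ D / 2500 := by
      rw [hrdef, div_le_iff₀ hN0]
      nlinarith
    have hNr : (N:ℝ) * r = 4 * D := by rw [hrdef]; field_simp
    have h2N : (0:ℝ) < 2 ^ N := by positivity
    have h1 := chain_horiz hRd (X := Z / 500) (Y := (H:ℝ) ^ (l + 1) * D / 2) hr0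
      (by positivity) w N
      (by
        intro u hu
        rw [hNr] at hu
        have h2 := cn_left (s := 4 * D) (t' := D + 4 * D) hw le_rfl
        have h3 := cn_ball (by linarith) ha (by linarith) hb h2 hu (t' := 4 * D) (by linarith)
        refine (ih1 u h3).trans (Real.exp_le_exp.mpr (le_of_eq ?_))
        ring)
      (by
        intro t ht0 _ u hu
        have h2 := cn_left (s := t) (t' := D) hw (by linarith)
        have h3 := cn_ball (by linarith) ha (by linarith) hb h2 hu (t' := D / 2) (by linarith)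
        have h4 : RR c K (l + 1) u = Fs c u - SS c K (l + 1) u := rfl
        rw [h4]
        refine (norm_sub_le _ _).trans ?_
        have h5 := hS1 u h3
        have h6 : ‖Fs c u‖ ≤ Real.exp M := by
          apply hF
          have := cn_mono h3 (t' := 0) (by linarith)
          simpa using this
        have h7 : Real.exp M ≤ Real.exp (Z / 1000) := Real.exp_le_exp.mpr (by linarith)
        calc ‖Fs c u‖ + ‖SS c K (l + 1) u‖ ≤ 2 * Real.exp (Z / 1000) := by linarith
          _ ≤ Real.exp 1 * Real.exp (Z / 1000) := by gcongr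
          _ = Real.exp (1 + Z / 1000) := by rw [Real.exp_add]
          _ ≤ Real.exp (Z / 500) := by
              apply Real.exp_le_exp.mpr
              linarith)
    refine h1.trans (Real.exp_le_exp.mpr ?_)
    have h2 : Z + Z / 500 ≤ (Z / 500 + (H:ℝ) ^ (l + 1) * D / 2) / 2 ^ N := by
      rw [le_div_iff₀ h2N]
      have h3 : Z * (48 * 2 ^ N) ≤ (H:ℝ) ^ (l + 1) * D := by
        calc Z * (48 * 2 ^ N) ≤ Z * H := mul_le_mul_of_nonneg_left hHN (by linarith)
          _ = (H:ℝ) ^ (l + 1) * D := by rw [hZdef, pow_succ]; ring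
      have h4 : 0 ≤ Z * 2 ^ N := by positivity
      have h5 : (Z + Z / 500) * 2 ^ N = (501 / 500) * (Z * 2 ^ N) := by ring
      rw [h5]
      have h6 : Z * (48 * 2 ^ N) = 48 * (Z * 2 ^ N) := by ring
      rw [h6] at h3
      linarith
    linarith
  have hfinal : RR c K l w = (SS c K (l + 1) w - SS c K l w) + RR c K (l + 1) w := by
    unfold RR
    ring
  rw [hfinal]
  refine (norm_add_le _ _).trans ?_
  calc ‖SS c K (l + 1) w - SS c K l w‖ + ‖RR c K (l + 1) w‖
      ≤ Real.exp (-(Z * (19 / 100))) + Real.exp (-(Z * (19 / 100))) := by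
        have : Real.exp (-Z) ≤ Real.exp (-(Z * (19 / 100))) := Real.exp_le_exp.mpr (by linarith)
        linarith
    _ = 2 * Real.exp (-(Z * (19 / 100))) := by ring
    _ ≤ Real.exp 1 * Real.exp (-(Z * (19 / 100))) := by gcongr
    _ = Real.exp (1 + -(Z * (19 / 100))) := by rw [Real.exp_add]
    _ ≤ Real.exp (-(Z / 8)) := by
        apply Real.exp_le_exp.mpr
        linarith

/-- The base case: `D ≥ 1300`. -/
theorem dec_base {c : ℕ → ℂ} {H : ℕ} {d : ℕ → ℝ} {K : ℕ → ℕ} (h : Lev c H d K) {N₁ : ℕ}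
    (hfin : ∀ m, N₁ ≤ m → c m = 0) {al be : ℝ} (ha1 : 1 ≤ al) (ha : al ≤ 100) (hb1 : 1 ≤ be)
    (hb : be ≤ 100) {p : ℂ} {M : ℝ} (hF : Bd (Fs c) M (Cn al be p)) {D : ℝ} (hD : 1300 ≤ D)
    {l : ℕ} (hM : M ≤ cOne * ((H:ℝ) ^ l * D)) :
    Bd (RR c K l) (-((H:ℝ) ^ l * D / 8)) (Cn al be (p - (D : ℂ))) := by
  have hH : (16:ℝ) ≤ H := by exact_mod_cast h.H_ge
  have hp := powH_pos h.H_ge l
  have hp1 : (1:ℝ) ≤ (H:ℝ) ^ l := one_le_pow₀ (by linarith)
  have hpi := Real.pi_gt_three
  have hpi2 := Real.pi_lt_d4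
  -- the line re = p.re - 315
  have hline : ∀ w : ℂ, w.re = p.re - 315 → ‖expSum c (suppN c N₁) w‖ ≤ Real.exp M := by
    intro w hw
    set k : ℤ := ⌊(p.im - w.im + 3.14) / (2 * Real.pi)⌋ with hk
    have hfl1 := Int.floor_le ((p.im - w.im + 3.14) / (2 * Real.pi))
    have hfl2 := Int.lt_floor_add_one ((p.im - w.im + 3.14) / (2 * Real.pi))
    rw [← hk] at hfl1 hfl2
    rw [le_div_iff₀ (by positivity)] at hfl1
    rw [div_lt_iff₀ (by positivity)] at hfl2
    have hE : expSum c (suppN c N₁) w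
        = expSum c (suppN c N₁) (w + k * (2 * Real.pi * Complex.I)) :=
      (expSum_add_two_pi c _ w k).symm
    rw [hE, ← fs_fin c N₁ hfin]
    apply hF
    have hre : (w + k * (2 * Real.pi * Complex.I)).re = w.re := by simp
    have him : (w + k * (2 * Real.pi * Complex.I)).im = w.im + k * (2 * Real.pi) := by simp
    constructor
    · rw [hre, him, hw]
      have h1 : w.im + k * (2 * Real.pi) - p.im ≤ 3.14 := by linarith
      calc al * (w.im + k * (2 * Real.pi) - p.im) ≤ al * 3.14 :=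
            mul_le_mul_of_nonneg_left h1 (by linarith)
        _ ≤ 100 * 3.14 := by nlinarith
        _ ≤ p.re - (p.re - 315) := by norm_num
    · rw [hre, him, hw]
      have h1 : p.im - (w.im + k * (2 * Real.pi)) ≤ 3.15 := by
        have : (k:ℝ) * (2 * Real.pi) + 2 * Real.pi = ((k:ℝ) + 1) * (2 * Real.pi) := by ring
        linarith
      calc be * (p.im - (w.im + k * (2 * Real.pi))) ≤ be * 3.15 :=
            mul_le_mul_of_nonneg_left h1 (by linarith)
        _ ≤ 100 * 3.15 := by nlinarith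
        _ ≤ p.re - (p.re - 315) := by norm_num
  have hcoef := expSum_coeff c (suppN c N₁) (p.re - 315) (Real.exp M) hline
  intro w hw
  rw [rr_fin hfin]
  have hwre : w.re ≤ p.re - D := by
    obtain ⟨h1, h2⟩ := hw
    simp only [Complex.sub_re, Complex.sub_im, Complex.ofReal_re, Complex.ofReal_im, sub_zero]
      at h1 h2
    rcases le_total p.im w.im with h3 | h3
    · have : 0 ≤ al * (w.im - p.im) := mul_nonneg (by linarith) (by linarith)
      linarith
    · have : 0 ≤ be * (p.im - w.im) := mul_nonneg (by linarith) (by linarith)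
      linarith
  set q : ℝ := Real.exp (-(D - 315)) with hq
  have hq0 : 0 < q := Real.exp_pos _
  have hq2 : q ≤ 1 / 2 := by
    have h1 : Real.exp (-(D - 315)) ≤ Real.exp (-1) := Real.exp_le_exp.mpr (by linarith)
    have h2 : Real.exp (-1) ≤ 1 / 2 := by
      rw [Real.exp_neg, ← one_div]
      apply one_div_le_one_div_of_le (by norm_num)
      have := Real.add_one_le_exp (1:ℝ)
      linarith
    exact h1.trans h2
  set T' := (suppN c N₁).filter (fun m => ¬ m ≤ K l) with hT'
  have hterm : ∀ m ∈ T', ‖c m * Complex.exp (m * w)‖ ≤ Real.exp M * q ^ m := by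
    intro m hm
    rw [hT', mem_filter] at hm
    have h1 := hcoef m hm.1
    rw [norm_mul, Complex.norm_exp]
    have h2 : ((m:ℂ) * w).re = m * w.re := by simp
    rw [h2]
    have h3 : Real.exp (m * w.re) ≤ Real.exp (m * (p.re - 315)) * q ^ m := by
      rw [hq, ← Real.exp_nat_mul, ← Real.exp_add]
      apply Real.exp_le_exp.mpr
      have h4 : (0:ℝ) ≤ m := Nat.cast_nonneg m
      have h5 : (m:ℝ) * w.re ≤ m * (p.re - D) := mul_le_mul_of_nonneg_left hwre h4
      linarith
    calc ‖c m‖ * Real.exp (m * w.re) ≤ ‖c m‖ * (Real.exp (m * (p.re - 315)) * q ^ m) :=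
          mul_le_mul_of_nonneg_left h3 (norm_nonneg _)
      _ = (‖c m‖ * Real.exp (m * (p.re - 315))) * q ^ m := by ring
      _ ≤ Real.exp M * q ^ m := mul_le_mul_of_nonneg_right h1 (by positivity)
  have hsum : ∑ m ∈ T', q ^ m ≤ 2 * q ^ (H ^ l) := by
    have h1 : ∀ m ∈ T', H ^ l ≤ m := by
      intro m hm
      rw [hT', mem_filter] at hm
      have := h.K_ge l
      omega
    have h2 : T' ⊆ Ico (H ^ l) (N₁ + H ^ l) := by
      intro m hm
      rw [mem_Ico]
      refine ⟨h1 m hm, ?_⟩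
      rw [hT', mem_filter, mem_suppN] at hm
      omega
    calc ∑ m ∈ T', q ^ m ≤ ∑ m ∈ Ico (H ^ l) (N₁ + H ^ l), q ^ m :=
          sum_le_sum_of_subset_of_nonneg h2 (fun _ _ _ => by positivity)
      _ = ∑ m ∈ range N₁, q ^ (H ^ l + m) := by
          rw [sum_Ico_eq_sum_range, Nat.add_sub_cancel]
      _ = q ^ (H ^ l) * ∑ m ∈ range N₁, q ^ m := by
          rw [mul_sum]
          refine sum_congr rfl fun m _ => ?_
          rw [pow_add]
      _ ≤ q ^ (H ^ l) * 2 := by
          apply mul_le_mul_of_nonneg_left _ (by positivity)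
          calc ∑ m ∈ range N₁, q ^ m ≤ ∑ m ∈ range N₁, (1 / 2 : ℝ) ^ m :=
                sum_le_sum fun m _ => pow_le_pow_left₀ hq0.le hq2 m
            _ ≤ ∑' m : ℕ, (1 / 2 : ℝ) ^ m :=
                summable_geometric_two.sum_le_tsum _ (fun _ _ => by positivity)
            _ = 2 := tsum_geometric_two
      _ = 2 * q ^ (H ^ l) := by ring
  have hZ : 1300 ≤ (H:ℝ) ^ l * D := by nlinarith
  unfold expSum
  calc ‖∑ m ∈ T', c m * Complex.exp (m * w)‖ ≤ ∑ m ∈ T', ‖c m * Complex.exp (m * w)‖ :=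
        norm_sum_le _ _
    _ ≤ ∑ m ∈ T', Real.exp M * q ^ m := sum_le_sum hterm
    _ = Real.exp M * ∑ m ∈ T', q ^ m := by rw [mul_sum]
    _ ≤ Real.exp M * (2 * q ^ (H ^ l)) := mul_le_mul_of_nonneg_left hsum (Real.exp_pos _).le
    _ ≤ Real.exp M * (Real.exp 1 * q ^ (H ^ l)) := by
        have : (2:ℝ) ≤ Real.exp 1 := by
          have := Real.add_one_le_exp (1:ℝ)
          linarith
        gcongr
    _ = Real.exp (M + (1 + -((H:ℝ) ^ l * (D - 315)))) := by
        rw [hq, ← Real.exp_nat_mul, Real.exp_add M, Real.exp_add 1]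
        push_cast
        congr 3
        ring
    _ ≤ Real.exp (-((H:ℝ) ^ l * D / 8)) := by
        apply Real.exp_le_exp.mpr
        unfold cOne at hM
        have h1 : (H:ℝ) ^ l * (D - 315) ≥ (H:ℝ) ^ l * (3 / 4 * D) :=
          mul_le_mul_of_nonneg_left (by linarith) hp.le
        have h2 : (H:ℝ) ^ l * (3 / 4 * D) = 3 / 4 * ((H:ℝ) ^ l * D) := by ring
        linarith

/-- Decoupling for finite series. -/
theorem dec_fin {c : ℕ → ℂ} {H : ℕ} {d : ℕ → ℝ} {K : ℕ → ℕ} (h : Lev c H d K) {N₁ : ℕ}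
    (hfin : ∀ m, N₁ ≤ m → c m = 0) {al be : ℝ} (ha1 : 1 ≤ al) (ha : al ≤ 100) (hb1 : 1 ≤ be)
    (hb : be ≤ 100) {p : ℂ} {M : ℝ} (hF : Bd (Fs c) M (Cn al be p)) {N : ℕ}
    (hN : 10000 ≤ N) (hHN : (48:ℝ) * 2 ^ N ≤ H) (k : ℕ) :
    ∀ (D : ℝ), 1300 ≤ 4 ^ k * D → ∀ l : ℕ, M ≤ cOne * ((H:ℝ) ^ l * D) → d l ≤ cTwo H * D →
      Bd (RR c K l) (-((H:ℝ) ^ l * D / 8)) (Cn al be (p - (D : ℂ))) := by
  induction k with
  | zero =>
    intro D hD l hM _
    rw [pow_zero, one_mul] at hD
    exact dec_base h hfin ha1 ha hb1 hb hF hD hM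
  | succ k ih =>
    intro D hD l hM hd
    exact dec_step h hfin ha1 ha hb1 hb hF hN hHN (ih (4 * D) (by rw [pow_succ] at hD; linarith))
      hM hd

/-- **Decoupling in a cone.** -/
theorem decP {H N : ℕ} (hN : 10000 ≤ N) (hHN : (48:ℝ) * 2 ^ N ≤ H) :
    DecP H cOne (cTwo H) := by
  intro c d K h al be ha1 ha hb1 hb l p M D hM0 hF hM hd
  obtain ⟨hD, -, -, -⟩ := dec_num h hd
  intro w hw
  -- truncations
  have hreP : ∀ u ∈ Cn al be p, u.re ≤ p.re := by
    rintro u ⟨h1, h2⟩
    rcases le_total p.im u.im with h3 | h3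
    · have : 0 ≤ al * (u.im - p.im) := mul_nonneg (by linarith) (by linarith)
      linarith
    · have : 0 ≤ be * (p.im - u.im) := mul_nonneg (by linarith) (by linarith)
      linarith
  have hwP : w ∈ Cn al be p := by
    have := cn_mono hw hD.le
    simpa using this
  -- for every ε
  have hkey : ∀ ε : ℝ, 0 < ε → ε < 1 →
      (1 - ε) * ‖RR c K l w‖ ≤ Real.exp (-((H:ℝ) ^ l * D / 8)) + ε := by
    intro ε hε hε1
    obtain ⟨N₀, hN₀⟩ := unif_trunc c h.ent p.re ε hε
    set N₁ := max N₀ (K l + 1) with hN₁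
    set c' : ℕ → ℂ := fun m => if m < N₁ then ((1 - ε : ℝ) : ℂ) * c m else 0 with hc'
    have hfin : ∀ m, N₁ ≤ m → c' m = 0 := by
      intro m hm
      simp only [hc']
      rw [if_neg (by omega)]
    have hne : ((1 - ε : ℝ) : ℂ) ≠ 0 := by
      rw [Ne, Complex.ofReal_eq_zero]
      linarith
    have hc'0 : ∀ m, c' m ≠ 0 → c m ≠ 0 := by
      intro m hm h0
      apply hm
      simp only [hc', h0, mul_zero, ite_self]
    have hent : Ent c' := by
      intro z
      apply summable_of_ne_finset_zero (s := range N₁)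
      intro m hm
      rw [mem_range] at hm
      rw [hfin m (by omega), zero_mul]
    have hL' := lev_mono h hc'0 hent
    have hsupp : ∀ k, k ≤ N₁ → suppN c' k = suppN c k := by
      intro k hk
      ext m
      rw [mem_suppN, mem_suppN]
      constructor
      · rintro ⟨a, b⟩; exact ⟨a, hc'0 m b⟩
      · rintro ⟨a, b⟩
        refine ⟨a, ?_⟩
        simp only [hc']
        rw [if_pos (by omega)]
        exact mul_ne_zero hne b
    have hexp : ∀ k, k ≤ N₁ → ∀ u, expSum c' (suppN c' k) u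
        = ((1 - ε : ℝ) : ℂ) * expSum c (suppN c k) u := by
      intro k hk u
      rw [hsupp k hk]
      unfold expSum
      rw [mul_sum]
      refine sum_congr rfl fun m hm => ?_
      rw [mem_suppN] at hm
      simp only [hc']
      rw [if_pos (by omega)]
      ring
    have hFs' : ∀ u, Fs c' u = ((1 - ε : ℝ) : ℂ) * expSum c (suppN c N₁) u := by
      intro u
      rw [fs_fin c' N₁ hfin, hexp N₁ le_rfl]
    have htr : ∀ u : ℂ, u.re ≤ p.re → ‖Fs c u - expSum c (suppN c N₁) u‖ ≤ ε :=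
      hN₀ N₁ (le_max_left _ _)
    have hnorm : ‖((1 - ε : ℝ) : ℂ)‖ = 1 - ε := by
      rw [Complex.norm_real, Real.norm_eq_abs, abs_of_pos (by linarith)]
    have hBd' : Bd (Fs c') M (Cn al be p) := by
      intro u hu
      rw [hFs', norm_mul, hnorm]
      have h1 := htr u (hreP u hu)
      have h2 := hF u hu
      have h3 : expSum c (suppN c N₁) u = Fs c u - (Fs c u - expSum c (suppN c N₁) u) := by ring
      have h4 : ‖expSum c (suppN c N₁) u‖ ≤ Real.exp M + ε := by
        rw [h3]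
        exact (norm_sub_le _ _).trans (add_le_add h2 h1)
      have h5 : 1 ≤ Real.exp M := Real.one_le_exp hM0
      calc (1 - ε) * ‖expSum c (suppN c N₁) u‖ ≤ (1 - ε) * (Real.exp M + ε) :=
            mul_le_mul_of_nonneg_left h4 (by linarith)
        _ ≤ Real.exp M := by nlinarith
    obtain ⟨k, hk⟩ : ∃ k : ℕ, 1300 ≤ 4 ^ k * D := by
      obtain ⟨k, hk⟩ := pow_unbounded_of_one_lt (1300 / D) (by norm_num : (1:ℝ) < 4)
      refine ⟨k, ?_⟩
      rw [div_lt_iff₀ hD] at hk
      exact hk.le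
    have hres := dec_fin hL' hfin ha1 ha hb1 hb hBd' hN hHN k D hk l hM hd w hw
    have hRR' : RR c' K l w = ((1 - ε : ℝ) : ℂ) *
        (expSum c (suppN c N₁) w - SS c K l w) := by
      unfold RR SS
      rw [hFs', hexp _ (le_max_right _ _)]
      ring
    rw [hRR', norm_mul, hnorm] at hres
    have h1 := htr w (hreP w hwP)
    have h2 : RR c K l w = (expSum c (suppN c N₁) w - SS c K l w)
        + (Fs c w - expSum c (suppN c N₁) w) := by
      unfold RR; ring
    have h3 : ‖RR c K l w‖ ≤ ‖expSum c (suppN c N₁) w - SS c K l w‖ + ε := by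
      rw [h2]
      exact (norm_add_le _ _).trans (by linarith)
    calc (1 - ε) * ‖RR c K l w‖
        ≤ (1 - ε) * (‖expSum c (suppN c N₁) w - SS c K l w‖ + ε) :=
          mul_le_mul_of_nonneg_left h3 (by linarith)
      _ = (1 - ε) * ‖expSum c (suppN c N₁) w - SS c K l w‖ + (1 - ε) * ε := by ring
      _ ≤ Real.exp (-((H:ℝ) ^ l * D / 8)) + ε := by
          have : (1 - ε) * ε ≤ 1 * ε := mul_le_mul_of_nonneg_right (by linarith) hε.le
          linarith
  -- let ε → 0
  by_contra hcon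
  push Not at hcon
  set A := ‖RR c K l w‖ with hA
  set B := Real.exp (-((H:ℝ) ^ l * D / 8)) with hB
  have hAB : 0 < A - B := by linarith
  have hA0 : 0 < A := lt_of_le_of_lt (Real.exp_pos _).le hcon
  set ε := min (1 / 2) ((A - B) / (2 * (A + 1))) with hεdef
  have hε0 : 0 < ε := lt_min (by norm_num) (by positivity)
  have hε1 : ε < 1 := lt_of_le_of_lt (min_le_left _ _) (by norm_num)
  have hε2 : ε * (2 * (A + 1)) ≤ A - B := by
    have := min_le_right (1 / 2 : ℝ) ((A - B) / (2 * (A + 1)))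
    rwa [← hεdef, le_div_iff₀ (by positivity)] at this
  have := hkey ε hε0 hε1
  nlinarith

end Pool.Agent.Mac
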