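import Pool.Agent.GapReg.Defs

set_option autoImplicit false

/-!
# Macintyre's conjecture: levels, cones, the four analytic properties
-/

namespace Pool.Agent.Mac

open Finset Filter Topology
open Pool.Agent.MP_e061a3_an Pool.Agent.GapReg

/-- Closed left cone with apex `p`, slope `al` above and slope `be` below. -/
def Cn (al be : ℝ) (p : ℂ) : Set ℂ :=
  {w | al * (w.im - p.im) ≤ p.re - w.re ∧ be * (p.im - w.im) ≤ p.re - w.re}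

/-- Open left cone. -/
def Co (al be : ℝ) (p : ℂ) : Set ℂ :=
  {w | al * (w.im - p.im) < p.re - w.re ∧ be * (p.im - w.im) < p.re - w.re}

/-- `|F| ≤ e^M` on `U`. -/
def Bd (F : ℂ → ℂ) (M : ℝ) (U : Set ℂ) : Prop := ∀ w ∈ U, ‖F w‖ ≤ Real.exp M

/-- Levels of a gap series: densities `d j` at the frequencies `H ^ j`, cuts `K j`. -/
structure Lev (c : ℕ → ℂ) (H : ℕ) (d : ℕ → ℝ) (K : ℕ → ℕ) : Prop where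
  ent : Ent c
  zero : c 0 = 0
  H_ge : 16 ≤ H
  d_pos : ∀ j, 0 < d j
  d_up : ∀ j, d (j + 1) ≤ 2 * d j
  d_dn : ∀ j, d j ≤ 2 * d (j + 1)
  d_big : ∀ j, 1 ≤ (H : ℝ) ^ j * d j
  card_le : ∀ (j : ℕ) (T : Finset ℕ), (∀ m ∈ T, c m ≠ 0 ∧ m < H ^ (j + 1)) →
    (T.card : ℝ) ≤ (H : ℝ) ^ j * d j
  dens : ∀ j : ℕ, Dens {m | c m ≠ 0 ∧ m < H ^ (j + 1)} (d j) ((H : ℝ) ^ j)
  K_ge : ∀ j, H ^ j ≤ K j
  K_lt : ∀ j, K j < 2 * H ^ j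
  good : ∀ (j : ℕ) (S : Finset ℕ), (∀ m ∈ S, c m ≠ 0) →
    Real.exp (-(61 * ((H : ℝ) ^ j * d j))) ≤ ∏ m ∈ S, |1 - (((K j : ℝ) + 1 / 2) / m) ^ 2|

/-- The part of the series with exponents at most `K l`. -/
noncomputable def SS (c : ℕ → ℂ) (K : ℕ → ℕ) (l : ℕ) (w : ℂ) : ℂ :=
  expSum c (suppN c (K l + 1)) w

/-- The rest. -/
noncomputable def RR (c : ℕ → ℂ) (K : ℕ → ℕ) (l : ℕ) (w : ℂ) : ℂ := Fs c w - SS c K l w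

/-- The block between the levels `l` and `l + 1`. -/
noncomputable def BB (c : ℕ → ℂ) (K : ℕ → ℕ) (l : ℕ) (w : ℂ) : ℂ :=
  SS c K (l + 1) w - SS c K l w

/-- Decoupling in a cone. -/
def DecP (H : ℕ) (c1 c2 : ℝ) : Prop :=
  ∀ (c : ℕ → ℂ) (d : ℕ → ℝ) (K : ℕ → ℕ), Lev c H d K →
    ∀ (al be : ℝ), 1 ≤ al → al ≤ 100 → 1 ≤ be → be ≤ 100 →
    ∀ (l : ℕ) (p : ℂ) (M D : ℝ), 0 ≤ M → Bd (Fs c) M (Cn al be p) →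
      M ≤ c1 * ((H : ℝ) ^ l * D) → d l ≤ c2 * D →
      Bd (RR c K l) (-((H : ℝ) ^ l * D / 8)) (Cn al be (p - (D : ℂ)))

/-- Left extension of the low part. -/
def LwP (H : ℕ) (c2 CL : ℝ) : Prop :=
  ∀ (c : ℕ → ℂ) (d : ℕ → ℝ) (K : ℕ → ℕ), Lev c H d K →
    ∀ (l : ℕ) (z : ℂ) (ρ m : ℝ), 0 < ρ → d l ≤ c2 * ρ →
      (∀ u, ‖u - z‖ ≤ ρ → ‖SS c K l u‖ ≤ Real.exp m) →
      ∀ w, ‖w - z‖ ≤ 8 * (z.re - w.re) →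
        ‖SS c K l w‖ ≤ Real.exp (m + CL * ((H : ℝ) ^ l * d l))

/-- Left decay of a block. -/
def BlP (H : ℕ) (c2 : ℝ) : Prop :=
  ∀ (c : ℕ → ℂ) (d : ℕ → ℝ) (K : ℕ → ℕ), Lev c H d K →
    ∀ (l : ℕ) (z : ℂ) (ρ m : ℝ), 0 < ρ → d l ≤ c2 * ρ →
      (∀ u, ‖u - z‖ ≤ ρ → ‖BB c K l u‖ ≤ Real.exp m) →
      ∀ w, ‖w - z‖ ≤ 8 * (z.re - w.re) → ρ / 16 ≤ z.re - w.re →
        ‖BB c K l w‖ ≤ Real.exp (m - (H : ℝ) ^ l * (z.re - w.re) / 4)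

/-- Remez inequality on an annulus. -/
def RemP (CR : ℝ) : Prop :=
  ∀ (c : ℕ → ℂ) (S : Finset ℕ) (P : ℝ), (∀ p ∈ S, (p : ℝ) ≤ P) → 0 ≤ P →
    ∀ (z : ℂ) (r : ℝ), 0 < r → ∀ M : ℝ, 0 ≤ M →
      (∀ ρ, r ≤ ρ → ρ ≤ 2 * r → ∃ w, ‖w - z‖ = ρ ∧ ‖expSum c S w‖ ≤ M) →
      ∀ w, ‖w - z‖ ≤ 2 * r →
        ‖expSum c S w‖ ≤ Real.exp (CR * ((S.card : ℝ) + P * r + 1)) * M

end Pool.Agent.Mac
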