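import Pool.Agent.Mac.Geo3
import Pool.Agent.Mac.Lem70
import Pool.Agent.Mac.Rega

set_option autoImplicit false

/-!
# The initial state
-/

namespace Pool.Agent.Mac

open Finset Filter Topology
open Pool.Agent.MP_e061a3_an Pool.Agent.GapReg

namespace Arc

variable {y : Sys} (A : Arc y)

/-- MODULE Init.
HINT. `exists_top`; `q ∈ Cn 1 1 k`, so `Cn 1 100 (sh q t)` and the ray of `q` are in `Cn 1 1 k`
where `|F| ≤ e^(s m)`. Barrier: `join e q` in `G`, then the segment from `q` to `sh q (C1 r)`.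
`lam ≤ CV r_m ≤ Lam / 32` from `CV_a`, `CT_a` (`C2 ≤ CT`), `C30_a`, `wide`. -/
theorem exists_init : ∃ q, A.State q A.m ∧ 48 * A.eta q ≤ y.k.C2 * y.r A.m ∧
    q.re + 50 * A.eta q ≤ A.k.re := by
  obtain ⟨q, hq, hqk, hq48⟩ := A.exists_top
  refine ⟨q, ?_, hq48, hqk⟩
  have hr := y.r_pos A.m
  have hs := y.s_pos A.m
  have hC4 := y.k.C4_c
  have hC0 := y.k.C0_a
  have hC1 := y.k.C1_a
  have hC2 := y.k.C2_b
  have hC3 := y.k.C3_a
  have hX := y.k.X_a
  have hC33 := y.k.C33_c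
  have hC37 := y.k.C37_c
  have hC31 := y.k.C31_a
  have hCT := y.k.CT_a
  have hCV := y.k.CV_a
  have hC30 := y.k.C30_a
  have hC30c := y.k.C30_c
  have hwide := A.wide
  have hqim := hq.2.1
  have hlt := A.lt
  have heta0 : 0 ≤ A.eta q := by unfold eta; linarith
  have hw30 : y.k.C2 * y.r A.m ≤ A.Lam / 4 := by
    have h1 : 4 * y.k.C2 * y.r A.m ≤ y.k.C30 * y.r A.m := mul_le_mul_of_nonneg_right hC30c hr.le
    unfold Lam
    linarith
  have hlam : A.lam q A.m ≤ A.Lam / 32 := by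
    have h1 : A.eta q + y.r A.m ≤ (y.k.CT + 1) * y.r A.m := by
      have h2 : y.k.C2 * y.r A.m ≤ y.k.CT * y.r A.m :=
        mul_le_mul_of_nonneg_right (by linarith) hr.le
      nlinarith
    have h3 : y.k.C31 * (A.eta q + y.r A.m) ≤ y.k.C31 * ((y.k.CT + 1) * y.r A.m) :=
      mul_le_mul_of_nonneg_left h1 (by linarith)
    have h4 : (y.k.C31 * (y.k.CT + 1) + y.k.C37) * y.r A.m ≤ y.k.CV * y.r A.m :=
      mul_le_mul_of_nonneg_right (by linarith) hr.le
    have h5 : 32 * y.k.CV * y.r A.m ≤ y.k.C30 * y.r A.m :=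
      mul_le_mul_of_nonneg_right hC30 hr.le
    unfold lam Lam
    nlinarith
  have hlam0 : 0 ≤ A.lam q A.m := by
    unfold lam
    have h1 : 0 ≤ y.k.C31 * (A.eta q + y.r A.m) := mul_nonneg (by linarith) (by linarith)
    have h2 : 0 ≤ y.k.C37 * y.r A.m := mul_nonneg (by linarith) hr.le
    linarith
  have hLam : 0 < A.Lam := by unfold Lam; linarith
  have hexp : Real.exp (y.s A.m) ≤ Real.exp (2 * y.s A.m) := Real.exp_le_exp.mpr (by linarith)
  have hsub : ∀ t : ℝ, 0 ≤ t → Cn 1 100 (sh q t) ⊆ Cn 1 1 A.k := by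
    intro t ht w hw
    obtain ⟨hw1, hw2⟩ := hw
    rw [sh_re, sh_im] at hw1 hw2
    unfold eta at hqk heta0
    constructor
    · linarith
    · rcases le_or_gt w.im q.im with h1 | h1 <;> linarith
  refine ⟨hq, A.ham.le, le_refl _, by linarith, by linarith, ?_, ?_, ?_, Or.inr (le_refl _)⟩
  · intro w hw
    have hC1r : 0 ≤ y.k.C1 * y.r A.m := mul_nonneg (by linarith) hr.le
    exact (A.w1 w (hsub _ hC1r hw)).trans hexp
  · have hC1r : 0 ≤ y.k.C1 * y.r A.m := mul_nonneg (by linarith) hr.le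
    unfold Barr
    refine PJ.trans (PJ.mono (A.join A.e A.e_mem q hq.1) Set.subset_union_left) ?_
    apply PJ.of_segment
    intro z hz
    right
    rw [segment_eq_image'] at hz
    obtain ⟨θ, hθ, rfl⟩ := hz
    obtain ⟨hθ0, hθ1⟩ := hθ
    have hz : q + θ • (sh q (y.k.C1 * y.r A.m) - q) = sh q (θ * (y.k.C1 * y.r A.m)) := by
      apply Complex.ext
      · simp [sh]
        ring
      · simp [sh]
    have h1 : 0 ≤ θ * (y.k.C1 * y.r A.m) := mul_nonneg hθ0 hC1r
    change q + θ • (sh q (y.k.C1 * y.r A.m) - q) ∈ _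
    rw [hz]
    refine ⟨?_, ?_⟩
    · have : sh q (θ * (y.k.C1 * y.r A.m)) - q = ((-(θ * (y.k.C1 * y.r A.m)) : ℝ) : ℂ) := by
        apply Complex.ext <;> simp [sh]
      rw [this, Complex.norm_real, Real.norm_eq_abs, abs_neg, abs_of_nonneg h1]
      calc θ * (y.k.C1 * y.r A.m) ≤ 1 * (y.k.C1 * y.r A.m) :=
            mul_le_mul_of_nonneg_right hθ1 hC1r
        _ = y.k.C1 * y.r A.m := one_mul _
    · refine (A.w1 _ (hsub _ h1 ?_)).trans hexp
      constructor
      · rw [sub_self, mul_zero, sub_self]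
      · rw [sub_self, mul_zero, sub_self]
  · intro w hw
    refine (A.w1 w ?_).trans hexp
    obtain ⟨hw1, hw2⟩ := hw
    rw [sh_re, sh_im] at hw1 hw2
    constructor
    · linarith
    · linarith

variable {A} in
/-- The region of a state. HINT. `exists_reg`, `ray_e` (`lam_le`), `s1` for the ray of `q`. -/
theorem State.reg {q : ℂ} {l : ℕ} (h : A.State q l) :
    ∃ W : Set ℂ, A.Reg q (y.k.C1 * y.r l) (2 * y.s l) W := by
  have hr := y.r_pos l
  have hs := y.s_pos l
  have hC4 := y.k.C4_c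
  have hC0 := y.k.C0_a
  have hC1 := y.k.C1_a
  have hC3 := y.k.C3_a
  have hC33 := y.k.C33_c
  have hlt := A.lt
  have heta := h.eta_le
  have hlam := h.lam_le
  have hC1r : 0 ≤ y.k.C1 * y.r l := mul_nonneg (by linarith) hr.le
  have hLam : 0 < A.Lam := by unfold Lam; linarith
  have hsm := y.r_small l (A.ha.trans h.la)
  have h1 : y.k.C1 * y.r l ≤ y.k.C33 * y.r l := mul_le_mul_of_nonneg_right (by linarith) hr.le
  refine exists_reg A q (y.k.C1 * y.r l) (2 * y.s l) h.touch.1 ?_ hC1r (by linarith) (by linarith)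
    h.s2 ?_ ?_
  · unfold eta Lam at heta
    linarith
  · exact ray_e A l h.la (A.lam q l) (by linarith) h.s3
  · intro w hw
    apply h.s1
    obtain ⟨hw1, hw2⟩ := hw
    constructor
    · rw [sh_re, sh_im, hw1]
      linarith
    · rw [sh_re, sh_im, hw1]
      linarith

end Arc

end Pool.Agent.Mac
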