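import Pool.Agent.Mac.Ext
import Pool.Agent.Mac.Tent1
import Pool.Agent.Mac.Init
import Pool.Agent.GapReg.FsBasic

set_option autoImplicit false

/-!
# The new barrier (10.3, end)
-/

namespace Pool.Agent.Mac

open Finset Filter Topology
open Pool.Agent.MP_e061a3_an Pool.Agent.GapReg

namespace Arc

variable {y : Sys} {A : Arc y}

/-- Sizes used in the module Newb. -/
private lemma newb_sizes {q : ℂ} {l : ℕ} (h : A.State q l) :
    0 < y.k.C3 * y.r l ∧ 4 * (y.k.C1 * y.r l) ≤ y.k.C3 * y.r l ∧ 0 < y.k.C1 * y.r l ∧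
      140 * (y.k.C3 * y.r l) ≤ 1 ∧ 4 * (y.k.C4 * y.r l) ≤ y.k.C3 * y.r l ∧
      q.im - A.e.im > 2 * (y.k.C3 * y.r l) ∧ q.im ≤ A.k.im ∧ A.XL + 10 < q.re := by
  have hr := y.r_pos l
  have hC4 := y.k.C4_c
  have hC3 : 0 < y.k.C3 := by have := y.k.C3_b; linarith
  have hC0 := y.k.C0_a
  have hC1a := y.k.C1_a
  have hC1 : 0 < y.k.C1 := by linarith
  have hla : y.a0 ≤ l := le_trans A.ha h.la
  have hsm := y.r_small l hla
  have h33 : 140 * (y.k.C3 * y.r l) ≤ y.k.C33 * y.r l := by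
    have := mul_le_mul_of_nonneg_right y.k.C33_c hr.le
    linarith
  have hlt := A.lt
  have heta := h.eta_le
  have hlam := h.lam_le
  have hqG := h.touch.1
  have hqk := h.touch.2.1
  have hfar := A.far q hqG
  have hT : 0 ≤ A.eta q := by unfold eta; linarith
  have hLam : A.Lam = A.k.im - A.e.im := rfl
  have hLpos : 0 < A.Lam := by rw [hLam]; linarith
  have h37 : y.k.C37 * y.r l ≤ A.Lam / 2 := by
    have h1 : 0 ≤ y.k.C31 * (A.eta q + y.r A.m) := by
      apply mul_nonneg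
      · have := y.k.C31_a
        have := y.k.C2_b
        linarith
      · have := y.r_pos A.m
        linarith
    unfold lam at hlam
    linarith
  have h5 : 5 * (y.k.C33 * y.r l) ≤ y.k.C37 * y.r l := by
    have := mul_le_mul_of_nonneg_right y.k.C37_a hr.le
    linarith
  refine ⟨mul_pos hC3 hr, ?_, mul_pos hC1 hr, ?_, ?_, ?_, hqk, ?_⟩
  · have := mul_le_mul_of_nonneg_right y.k.C3_a hr.le
    linarith
  · linarith
  · have := mul_le_mul_of_nonneg_right y.k.C3_b hr.le
    linarith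
  · have h6 : A.eta q = A.k.im - q.im := rfl
    have h7 : 0 < y.k.C3 * y.r l := mul_pos hC3 hr
    linarith
  · linarith

/-- Points of the arc in the left horizontal ray of a touch point. -/
private lemma newb_ray {q : ℂ} (hq : A.Touch q) {z : ℂ} (hz : z ∈ A.G) (h1 : z.im = q.im)
    (h2 : z.re < q.re) : False := by
  refine hq.2.2 z hz (by rw [h1]; exact hq.2.1) ⟨?_, ?_⟩
  · rw [h1]; simpa using h2
  · rw [h1]; simpa using h2

/-- MODULE Newb. The ray of `q` and the arc in the annulus (compactness).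
HINT. `G` is compact and no point of `G` is on the ray (a point of `G` at height `q.im ≤ k.im` is
not in `Co (1/2) 50 q`); so for some `ε > 0` no `z ∈ G` has `|z.im - q.im| < ε`,
`z.re ≤ q.re - ρ0 / 2`; then `out`. `ρ0 = C3 r_l ≥ 4 C1 r_l`. -/
theorem State.above {q : ℂ} {l : ℕ} (h : A.State q l) {W : Set ℂ}
    (hW : A.Reg q (y.k.C1 * y.r l) (2 * y.s l) W) :
    ∃ ε > 0, ∀ z ∈ Ann q (y.k.C3 * y.r l), q.im < z.im → z.im < q.im + ε → z.re < q.re →
      z ∉ W := by
  obtain ⟨hρ, hC1, hC1p, h140, -, -, hqk, hXL⟩ := newb_sizes h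
  set ρ := y.k.C3 * y.r l with hρdef
  set ρ1 := y.k.C1 * y.r l with hρ1def
  -- the compact set
  have key : ∃ ε > 0, ∀ g ∈ A.G, g.re ≤ q.re - ρ / 2 → ε ≤ |g.im - q.im| := by
    by_cases hne : (A.G ∩ {g : ℂ | g.re ≤ q.re - ρ / 2}).Nonempty
    · have hc : IsCompact (A.G ∩ {g : ℂ | g.re ≤ q.re - ρ / 2}) :=
        A.cpt.inter_right (isClosed_le Complex.continuous_re continuous_const)
      have hcont : ContinuousOn (fun g : ℂ => |g.im - q.im|)
          (A.G ∩ {g : ℂ | g.re ≤ q.re - ρ / 2}) := by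
        apply Continuous.continuousOn
        fun_prop
      obtain ⟨g0, hg0, hmin⟩ := hc.exists_isMinOn hne hcont
      refine ⟨|g0.im - q.im|, ?_, ?_⟩
      · rw [gt_iff_lt, abs_pos]
        intro h0
        have h1 : g0.im = q.im := by linarith
        have h2 : g0.re ≤ q.re - ρ / 2 := hg0.2
        exact newb_ray h.touch hg0.1 h1 (by linarith)
      · intro g hg hre
        exact hmin ⟨hg, hre⟩
    · refine ⟨1, one_pos, ?_⟩
      intro g hg hre
      exact absurd ⟨g, hg, hre⟩ hne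
  obtain ⟨ε, hε, hG⟩ := key
  refine ⟨min ε (ρ / 8), lt_min hε (by linarith), ?_⟩
  intro z hz h1 h2 h3
  have h2a : z.im < q.im + ε := lt_of_lt_of_le h2 (by gcongr; exact min_le_left _ _)
  have h2b : z.im < q.im + ρ / 8 := lt_of_lt_of_le h2 (by gcongr; exact min_le_right _ _)
  obtain ⟨hz1, hz2⟩ := hz
  have hn : ‖z - q‖ ≤ |z.re - q.re| + |z.im - q.im| := by
    simpa using Complex.norm_le_abs_re_add_abs_im (z - q)
  rw [abs_of_neg (by linarith : z.re - q.re < 0), abs_of_pos (by linarith : 0 < z.im - q.im)] at hn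
  have hre : z.re < q.re - ρ / 2 := by linarith
  have hre2 : |z.re - q.re| ≤ ‖z - q‖ := by simpa using Complex.abs_re_le_norm (z - q)
  rw [abs_le] at hre2
  apply hW.out z (by linarith) h1
  · intro g hg hgi
    by_contra hcon
    push Not at hcon
    have := hG g hg (by linarith)
    rw [hgi, abs_of_pos (by linarith : 0 < z.im - q.im)] at this
    linarith
  · intro z' hz' _
    have h5 : |z'.re - q.re| ≤ ‖z' - q‖ := by simpa using Complex.abs_re_le_norm (z' - q)
    rw [abs_le] at h5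
    linarith

/-- Convexity of closed cones. -/
private lemma newb_convex (al be : ℝ) (p : ℂ) : Convex ℝ (Cn al be p) := by
  intro a ha b hb s t hs ht hst
  obtain ⟨ha1, ha2⟩ := ha
  obtain ⟨hb1, hb2⟩ := hb
  have ht' : t = 1 - s := by linarith
  subst ht'
  constructor
  · simp only [Complex.add_im, Complex.smul_im, Complex.add_re, Complex.smul_re, smul_eq_mul]
    nlinarith [mul_le_mul_of_nonneg_left ha1 hs, mul_le_mul_of_nonneg_left hb1 ht]
  · simp only [Complex.add_im, Complex.smul_im, Complex.add_re, Complex.smul_re, smul_eq_mul]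
    nlinarith [mul_le_mul_of_nonneg_left ha2 hs, mul_le_mul_of_nonneg_left hb2 ht]

/-- The new barrier. HINT. `State.reg`, `ext_trick` with `R = y.R l`, `ρ = C3 r_l`, `L = 3 e^T`,
`T = del * M`, `X = 2 s_l + 1`, `Y = H^l ρ / 32` (`Sys.dec4` from `s1`, `D = ρ / 4`), `C3_c`.
Polygon: `join e κ` in `G`, the segment from `κ` to `z` (`|F| ≤ 2` near `κ`), the polygon to `z₁`
(`|F| ≤ |R| + |S| ≤ 4 e^T`), the vertical segment to the ray, the ray to `sh q (2ρ)`
(`|F| ≤ 1 + e^T`); all in the ball of radius `2 ρ`. -/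
theorem State.newb {q : ℂ} {l : ℕ} (h : A.State q l) (T : ℝ) (hT1 : 10 ≤ T) (hT2 : T ≤ 2 * y.s l)
    (hS : ∀ z : ℂ, ‖z - q‖ ≤ 2 * (y.k.C3 * y.r l) → ‖y.S l z‖ ≤ Real.exp T) :
    A.Barr q (2 * (y.k.C3 * y.r l)) (T + 2) := by
  obtain ⟨hρ, hC1, hC1p, h140, hC4, him, hqk, hXL⟩ := newb_sizes h
  obtain ⟨W, hW⟩ := h.reg
  have habove := h.above hW
  have hrpos := y.r_pos l
  have hHl : (0:ℝ) < (y.k.H : ℝ) ^ l := pow_pos y.H_pos l
  have hs10 : 5 ≤ y.s l := by linarith
  set ρ := y.k.C3 * y.r l with hρdef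
  set ρ1 := y.k.C1 * y.r l with hρ1def
  have hFd : Differentiable ℂ y.F := differentiable_Fs y.c y.lev.ent
  have hSd : Differentiable ℂ (y.S l) := differentiable_expSum y.c (suppN y.c (y.K l + 1))
  have hRd : Differentiable ℂ (y.R l) := hFd.sub hSd
  have hFle : ∀ z, ‖y.F z‖ ≤ ‖y.R l z‖ + ‖y.S l z‖ := by
    intro z
    rw [y.F_eq l z, add_comm (y.S l z)]
    exact norm_add_le _ _
  have hRle : ∀ z, ‖y.R l z‖ ≤ ‖y.F z‖ + ‖y.S l z‖ := by
    intro z
    have : y.R l z = y.F z - y.S l z := by rw [y.F_eq l z]; ring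
    rw [this]
    exact norm_sub_le _ _
  have hSann : ∀ z ∈ Ann q ρ, ‖y.S l z‖ ≤ Real.exp T := fun z hz => hS z hz.2.le
  -- cone bound
  have hcone : ∀ z ∈ Cn 1 100 (sh q (ρ / 2)), ‖y.R l z‖ ≤ Real.exp (-((y.k.H : ℝ) ^ l * ρ / 32)) := by
    have h1 := y.dec4 (al := 1) (be := 100) le_rfl (by norm_num) (by norm_num) le_rfl l
      (sh q ρ1) (ρ / 4) h.s1 (by linarith)
    intro z hz
    have h2 : sh q (ρ / 2) ∈ Cn 1 100 (sh (sh q ρ1) (ρ / 4)) := by
      constructor
      · simp only [sh_re, sh_im]; linarith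
      · simp only [sh_re, sh_im]; linarith
    have h3 := h1 z (Cn_trans h2 hz)
    refine h3.trans (le_of_eq ?_)
    congr 1
    ring
  have hcone1 : ∀ z ∈ Cn 1 100 (sh q (ρ / 2)), ‖y.R l z‖ ≤ 1 := by
    intro z hz
    refine (hcone z hz).trans ?_
    rw [Real.exp_le_one_iff]
    have : 0 < (y.k.H : ℝ) ^ l * ρ / 32 := by positivity
    linarith
  have he10 : (1:ℝ) ≤ Real.exp T := Real.one_le_exp (by linarith)
  have he2 : Real.exp T * 4 ≤ Real.exp (T + 2) := by
    rw [Real.exp_add]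
    have h4 : (4:ℝ) ≤ Real.exp 2 := by
      have h5 : Real.exp 2 = Real.exp 1 * Real.exp 1 := by rw [← Real.exp_add]; norm_num
      have h6 : (2:ℝ) ≤ Real.exp 1 := by
        have := Real.add_one_le_exp (1:ℝ); linarith
      rw [h5]; nlinarith
    exact mul_le_mul_of_nonneg_left h4 (Real.exp_pos T).le
  have heX : Real.exp (2 * y.s l) * 2 ≤ Real.exp (2 * y.s l + 1) := by
    rw [Real.exp_add]
    have h6 : (2:ℝ) ≤ Real.exp 1 := by
      have := Real.add_one_le_exp (1:ℝ); linarith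
    exact mul_le_mul_of_nonneg_left h6 (Real.exp_pos _).le
  have hsinh2 : 0 < Real.sinh (2 * Real.pi ^ 2) := Real.sinh_pos_iff.mpr (by positivity)
  have hsinh6 : 0 < Real.sinh (6 * Real.pi ^ 2) := Real.sinh_pos_iff.mpr (by positivity)
  obtain ⟨z₁, hz1A, hz1C, hz1i, κ, hκG, hκA, hκ⟩ := ext_trick (y.R l) hRd q ρ (3 * Real.exp T)
    (2 * y.s l + 1) ((y.k.H : ℝ) ^ l * ρ / 32) W A.G hρ hW.isOpen A.cpt.isClosed
    (by linarith) (by linarith)
    (by
      have h1 : (y.k.H : ℝ) ^ l * ρ / 32 * Real.sinh (2 * Real.pi ^ 2)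
          = y.s l / 32 * (y.k.C3 * Real.sinh (2 * Real.pi ^ 2)) := by
        rw [hρdef]; unfold Sys.s; ring
      have h2 := mul_le_mul_of_nonneg_left y.k.C3_c (by linarith : (0:ℝ) ≤ y.s l / 32)
      rw [h1]
      nlinarith)
    (by
      intro z hz hzA
      obtain ⟨hzA1, hzA2⟩ := hzA
      have hre2 : |z.re - q.re| ≤ ‖z - q‖ := by simpa using Complex.abs_re_le_norm (z - q)
      have him2 : |z.im - q.im| ≤ ‖z - q‖ := by simpa using Complex.abs_im_le_norm (z - q)
      rw [abs_le] at hre2 him2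
      rcases hW.front z hz with h1 | h1 | h1 | h1 | h1
      · exact Or.inl h1
      · exfalso; linarith
      · exfalso; linarith
      · exact Or.inr ⟨h1.1, by linarith [h1.2]⟩
      · exfalso; linarith)
    (by
      intro z hz hzA hcon
      have hne : z.re ≠ q.re := by
        intro h0
        have : z = q := Complex.ext h0 hcon.1
        have h1 := hzA.1
        rw [this, sub_self, norm_zero] at h1
        linarith
      exact newb_ray h.touch hz hcon.1 (lt_of_le_of_ne hcon.2 hne))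
    (by
      intro z hz h1 h2 h3
      obtain ⟨hzA1, hzA2⟩ := hz
      have hn : ‖z - q‖ ≤ |z.re - q.re| + |z.im - q.im| := by
        simpa using Complex.norm_le_abs_re_add_abs_im (z - q)
      have hre2 : |z.re - q.re| ≤ ‖z - q‖ := by simpa using Complex.abs_re_le_norm (z - q)
      have him2 : |z.im - q.im| ≤ ‖z - q‖ := by simpa using Complex.abs_im_le_norm (z - q)
      rw [abs_of_neg (by linarith : z.re - q.re < 0),
        abs_of_neg (by linarith : z.im - q.im < 0)] at hn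
      rw [abs_le] at hre2 him2
      refine hW.inn z (by linarith) (by linarith) h1 ?_ ?_
      · intro g hg hgi
        by_contra hcon
        push Not at hcon
        refine h.touch.2.2 g hg (by rw [hgi]; linarith) ⟨?_, ?_⟩
        · rw [hgi]; linarith
        · rw [hgi]; linarith
      · intro z' hz' _
        have h5 : |z'.re - q.re| ≤ ‖z' - q‖ := by simpa using Complex.abs_re_le_norm (z' - q)
        rw [abs_le] at h5
        linarith)
    habove
    (by
      intro z hz hzA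
      have h1 := hRle z
      have h2 := A.one z hz
      have h3 := hSann z hzA
      linarith)
    (by
      intro z hz hzA
      have h1 := hRle z
      have h2 := hW.bound z hz
      have h3 := hSann z hzA
      have h4 : Real.exp T ≤ Real.exp (2 * y.s l) := Real.exp_le_exp.mpr hT2
      linarith)
    hcone
  -- the polygon
  have hball : Convex ℝ {z : ℂ | ‖z - q‖ ≤ 2 * ρ} := by
    have : {z : ℂ | ‖z - q‖ ≤ 2 * ρ} = Metric.closedBall q (2 * ρ) := by
      ext z; simp [dist_eq_norm]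
    rw [this]
    exact convex_closedBall q (2 * ρ)
  set U : Set ℂ := A.G ∪ {z | ‖z - q‖ ≤ 2 * ρ ∧ ‖y.F z‖ ≤ Real.exp (T + 2)} with hU
  have hP1 : PJ U A.e κ := (A.join A.e A.e_mem κ hκG).mono Set.subset_union_left
  -- near κ
  have hFκ : ‖y.F κ‖ < 2 := lt_of_le_of_lt (A.one κ hκG) (by norm_num)
  have hcont : Continuous (fun z => ‖y.F z‖) := hFd.continuous.norm
  obtain ⟨δ, hδ, hδ2⟩ : ∃ δ > 0, ∀ z : ℂ, ‖z - κ‖ < δ → ‖y.F z‖ < 2 := by
    have := Metric.eventually_nhds_iff.mp ((hcont.tendsto κ).eventually (gt_mem_nhds hFκ))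
    obtain ⟨δ, hδ, h1⟩ := this
    refine ⟨δ, hδ, fun z hz => h1 ?_⟩
    rwa [dist_eq_norm]
  have hroom : 0 < 2 * ρ - ‖κ - q‖ := by linarith [hκA.2]
  obtain ⟨z, hzκ, hzP⟩ := hκ (min δ (2 * ρ - ‖κ - q‖)) (lt_min hδ hroom)
  have hz1 : ‖z - κ‖ < δ := lt_of_lt_of_le hzκ (min_le_left _ _)
  have hz2 : ‖z - κ‖ < 2 * ρ - ‖κ - q‖ := lt_of_lt_of_le hzκ (min_le_right _ _)
  have h2e : (2:ℝ) ≤ Real.exp (T + 2) := by linarith
  have hP2 : PJ U κ z := by
    apply PJ.of_segment
    intro x hx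
    right
    have hxk : x ∈ Metric.closedBall κ ‖z - κ‖ := by
      refine (convex_closedBall κ ‖z - κ‖).segment_subset ?_ ?_ hx
      · simp
      · simp [dist_eq_norm]
    rw [Metric.mem_closedBall, dist_eq_norm] at hxk
    refine ⟨?_, ?_⟩
    · have h1 : x - q = (x - κ) + (κ - q) := by ring
      rw [h1]
      refine (norm_add_le _ _).trans ?_
      linarith
    · exact (hδ2 x (by linarith)).le.trans h2e
  have hP3 : PJ U z z₁ := by
    refine hzP.symm.mono ?_
    rintro x ⟨hxW, hxA, hxR⟩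
    right
    refine ⟨hxA.2.le, ?_⟩
    have h1 := hFle x
    have h2 := hSann x hxA
    linarith
  -- the last two segments
  have hlast : ∀ a b : ℂ, a ∈ Cn 1 100 (sh q (ρ / 2)) → b ∈ Cn 1 100 (sh q (ρ / 2)) →
      ‖a - q‖ ≤ 2 * ρ → ‖b - q‖ ≤ 2 * ρ → PJ U a b := by
    intro a b ha hb ha2 hb2
    apply PJ.of_segment
    intro x hx
    right
    have h1 : x ∈ Cn 1 100 (sh q (ρ / 2)) := (newb_convex 1 100 _).segment_subset ha hb hx
    have h2 : x ∈ {z : ℂ | ‖z - q‖ ≤ 2 * ρ} := hball.segment_subset ha2 hb2 hx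
    refine ⟨h2, ?_⟩
    have h3 := hFle x
    have h4 := hS x h2
    have h5 := hcone1 x h1
    linarith
  have hP4 : PJ U z₁ (sh q (2 * ρ)) := by
    refine hlast _ _ hz1C ?_ hz1A.2.le ?_
    · constructor
      · simp only [sh_re, sh_im]; linarith
      · simp only [sh_re, sh_im]; linarith
    · have : sh q (2 * ρ) - q = -((2 * ρ : ℝ) : ℂ) := by
        unfold sh; ring
      rw [this, norm_neg, Complex.norm_real, Real.norm_eq_abs, abs_of_pos (by linarith)]
  exact ((hP1.trans hP2).trans hP3).trans hP4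

end Arc

end Pool.Agent.Mac
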