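import Pool.Agent.Mac.Decc
import Pool.Agent.Mac.Arc

set_option autoImplicit false

/-!
# The tent: low part and blocks
-/

namespace Pool.Agent.Mac

open Finset Filter Topology
open Pool.Agent.MP_e061a3_an Pool.Agent.GapReg

namespace Arc

variable {y : Sys} {A : Arc y}

lemma Tent2_r_pow (y : Sys) (a n : ℕ) : y.r a ≤ 2 ^ n * y.r (a + n) := by
  induction n with
  | zero => simp
  | succ n ih =>
    have h1 := y.r_dn (a + n)
    have h2 : (0 : ℝ) < 2 ^ n := by positivity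
    have h3 : (2 : ℝ) ^ (n + 1) * y.r (a + (n + 1)) = 2 ^ n * (2 * y.r (a + n + 1)) := by
      rw [pow_succ, ← add_assoc]
      ring
    rw [h3]
    exact ih.trans (mul_le_mul_of_nonneg_left h1 h2.le)

lemma Tent2_pow (H : ℝ) (hH : 16 ≤ H) (n : ℕ) : ((n : ℝ) + 1) ≤ H ^ n := by
  have h1 := one_add_mul_le_pow (a := H - 1) (by linarith) n
  have h2 : (1 : ℝ) + (H - 1) = H := by ring
  rw [h2] at h1
  have h3 : (0 : ℝ) ≤ n := Nat.cast_nonneg n
  nlinarith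

lemma Tent2_sum (y : Sys) (z : ℂ) (i : ℕ) (E : ℝ) (L : ℕ)
    (h : ∀ n, n < L → ‖BB y.c y.K (i + n) z‖ ≤ E * (1 / 2) ^ (n + 1)) :
    ‖y.S (i + L) z - y.S i z‖ ≤ E * (1 - (1 / 2) ^ L) := by
  induction L with
  | zero => simp
  | succ L ih =>
    have h1 := ih (fun n hn => h n (by omega))
    have h2 := h L (by omega)
    have h3 : y.S (i + (L + 1)) z - y.S i z =
        (y.S (i + L) z - y.S i z) + BB y.c y.K (i + L) z := by
      simp only [Sys.S, BB, ← add_assoc]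
      ring
    rw [h3]
    have h4 : E * (1 - (1 / 2) ^ (L + 1)) = E * (1 - (1 / 2) ^ L) + E * (1 / 2) ^ (L + 1) := by
      rw [pow_succ]
      ring
    rw [h4]
    exact (norm_add_le _ _).trans (add_le_add h1 h2)

/-- The ball about `zT` lies in the cone. -/
lemma Tent2_ball (q : ℂ) (h1 : ℝ) (h0 : 0 < h1) (u : ℂ) (hu : ‖u - zT q h1‖ ≤ h1 / 100000) :
    u ∈ Cn 1 100 (sh ⟨q.re + h1 / 50, q.im - h1 / 20⟩ (3 * h1 / 1000)) := by
  refine Cn_ball (t := 2 * h1 / 1000) (w := zT q h1) (by norm_num) (by norm_num) (by norm_num)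
    (by norm_num) ?_ (hu.trans (by linarith))
  have e : sh (⟨q.re + h1 / 50, q.im - h1 / 20⟩ : ℂ) (3 * h1 / 1000) - ((2 * h1 / 1000 : ℝ) : ℂ) =
      zT q h1 := by
    apply Complex.ext
    · rw [Complex.sub_re, sh_re, Complex.ofReal_re]
      simp only [zT]
      ring
    · rw [Complex.sub_im, sh_im, Complex.ofReal_im]
      simp only [zT]
      ring
  rw [e]
  constructor <;> simp

lemma Tent2_cone (q : ℂ) (h1 : ℝ) (h0 : 0 < h1) (u : ℂ)
    (hu : u ∈ Cn 1 100 (sh (⟨q.re + h1 / 50, q.im - h1 / 20⟩ : ℂ) (3 * h1 / 1000))) :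
    u ∈ Cn 1 100 (⟨q.re + h1 / 50, q.im - h1 / 20⟩ : ℂ) := by
  refine Cn_trans ?_ hu
  constructor
  · rw [sh_re, sh_im]
    simp only
    linarith
  · rw [sh_re, sh_im]
    simp only
    linarith

lemma Tent2_idx {q : ℂ} {l jst j : ℕ} {h1 : ℝ} (h : A.DH q l h1 jst) (hj : jst < j)
    (hjl : j ≤ l) : ∃ i, i ≤ j ∧ y.k.C4 * (2 * y.s j) ≤ (y.k.H : ℝ) ^ i * h1 ∧
      (y.k.H : ℝ) ^ i * h1 ≤ y.k.H * y.k.C4 * (2 * y.s j) ∧
      ∀ i', i ≤ i' → i' ≤ l → y.r i' ≤ h1 := by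
  have ha0 : y.a0 ≤ j := by
    have := A.ha
    have := h.a_le
    omega
  have hS0 := y.s_ge j ha0
  have hSa := y.k.S0_a
  have hH := y.H_ge
  have hC4 := y.k.C4_c
  have hc13 := y.k.c13_pos
  have hc13a := y.k.c13_a
  have hC33 := y.k.C33_b
  have hrl := y.r_pos l
  have hlo := h.lo
  have hsj := y.s_pos j
  -- `r_l ≤ c13 h1`
  have hrl1 : y.r l ≤ y.k.c13 * h1 := by
    have e1 : y.k.c13 * (y.k.C33 * y.r l) ≤ y.k.c13 * h1 := mul_le_mul_of_nonneg_left hlo hc13.le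
    have e2 : 2 * y.r l ≤ y.k.c13 * y.k.C33 * y.r l := mul_le_mul_of_nonneg_right hC33 hrl.le
    nlinarith
  have hh0 : 0 < h1 := by
    by_contra hcon
    have : y.k.c13 * h1 ≤ 0 := mul_nonpos_of_nonneg_of_nonpos hc13.le (not_lt.1 hcon)
    linarith
  have hthin : ∀ j', jst < j' → j' ≤ l → y.r j' ≤ y.k.c13 * h1 := by
    intro j' h2 h3
    rcases Nat.lt_or_ge j' l with h4 | h4
    · exact h.thin j' h2 h4
    · have : j' = l := by omega
      rw [this]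
      exact hrl1
  have hc1 : y.k.c13 ≤ 1 := by nlinarith
  have hrj := hthin j hj hjl
  have hex : ∃ i, y.k.C4 * (2 * y.s j) ≤ (y.k.H : ℝ) ^ i * h1 := by
    refine ⟨j, ?_⟩
    have hp : (0 : ℝ) < (y.k.H : ℝ) ^ j := pow_pos y.H_pos j
    have e1 : 2 * y.k.C4 * y.r j ≤ h1 := by
      calc 2 * y.k.C4 * y.r j ≤ 2 * y.k.C4 * (y.k.c13 * h1) :=
            mul_le_mul_of_nonneg_left hrj (by linarith)
        _ = (2 * y.k.c13 * y.k.C4) * h1 := by ring
        _ ≤ 1 * h1 := mul_le_mul_of_nonneg_right hc13a hh0.le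
        _ = h1 := one_mul _
    have e2 : y.k.C4 * (2 * y.s j) = (y.k.H : ℝ) ^ j * (2 * y.k.C4 * y.r j) := by
      unfold Sys.s
      ring
    rw [e2]
    exact mul_le_mul_of_nonneg_left e1 hp.le
  have hlej : Nat.find hex ≤ j := by
    apply Nat.find_min'
    have hp : (0 : ℝ) < (y.k.H : ℝ) ^ j := pow_pos y.H_pos j
    have e1 : 2 * y.k.C4 * y.r j ≤ h1 := by
      calc 2 * y.k.C4 * y.r j ≤ 2 * y.k.C4 * (y.k.c13 * h1) :=
            mul_le_mul_of_nonneg_left hrj (by linarith)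
        _ = (2 * y.k.c13 * y.k.C4) * h1 := by ring
        _ ≤ 1 * h1 := mul_le_mul_of_nonneg_right hc13a hh0.le
        _ = h1 := one_mul _
    have e2 : y.k.C4 * (2 * y.s j) = (y.k.H : ℝ) ^ j * (2 * y.k.C4 * y.r j) := by
      unfold Sys.s
      ring
    rw [e2]
    exact mul_le_mul_of_nonneg_left e1 hp.le
  obtain ⟨i, hi⟩ : ∃ i, i = Nat.find hex := ⟨_, rfl⟩
  have hspec := Nat.find_spec hex
  have hmin : ∀ i' < Nat.find hex, ¬ (y.k.C4 * (2 * y.s j) ≤ (y.k.H : ℝ) ^ i' * h1) :=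
    fun i' hi' => Nat.find_min hex hi'
  rw [← hi] at hspec hmin hlej
  have hCM : 1 < y.k.C4 * (2 * y.s j) := by
    have e1 : (1 : ℝ) ≤ y.s j := by linarith
    nlinarith
  have hi1 : i ≠ 0 := by
    intro h0
    rw [h0, pow_zero, one_mul] at hspec
    have := h.one
    linarith
  obtain ⟨i0, rfl⟩ := Nat.exists_eq_succ_of_ne_zero hi1
  refine ⟨i0.succ, hlej, hspec, ?_, ?_⟩
  · have e1 := hmin i0 (Nat.lt_succ_self i0)
    rw [not_le] at e1
    rw [Nat.succ_eq_add_one, pow_succ]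
    have e2 := mul_le_mul_of_nonneg_left e1.le y.H_pos.le
    linarith
  · intro i' h2 h3
    rcases Nat.lt_or_ge jst i' with h4 | h4
    · calc y.r i' ≤ y.k.c13 * h1 := hthin i' h4 h3
        _ ≤ 1 * h1 := mul_le_mul_of_nonneg_right hc1 hh0.le
        _ = h1 := one_mul _
    · obtain ⟨n, hn⟩ := Nat.exists_eq_add_of_le (show i' ≤ j by omega)
      obtain ⟨n', hn'⟩ := Nat.exists_eq_add_of_le hlej
      have hnn : n ≤ n' := by omega
      have e1 := Tent2_r_pow y i' n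
      rw [← hn] at e1
      have e2 : (2 : ℝ) ^ n ≤ (y.k.H : ℝ) ^ n' := by
        calc (2 : ℝ) ^ n ≤ (y.k.H : ℝ) ^ n := pow_le_pow_left₀ (by norm_num) (by linarith) n
          _ ≤ (y.k.H : ℝ) ^ n' := pow_le_pow_right₀ (by linarith) hnn
      have e3 : (y.k.H : ℝ) ^ n' * y.r j ≤ h1 := by
        have hp : (0 : ℝ) < (y.k.H : ℝ) ^ i0.succ := pow_pos y.H_pos _
        have e4 : y.k.C4 * (2 * y.s j) =
            (y.k.H : ℝ) ^ i0.succ * (2 * y.k.C4 * ((y.k.H : ℝ) ^ n' * y.r j)) := by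
          unfold Sys.s
          rw [show (y.k.H : ℝ) ^ j = (y.k.H : ℝ) ^ i0.succ * (y.k.H : ℝ) ^ n' by
            rw [← pow_add, ← hn']]
          ring
        rw [e4] at hspec
        have e5 := le_of_mul_le_mul_left hspec hp
        have e6 : 0 < (y.k.H : ℝ) ^ n' * y.r j := mul_pos (pow_pos y.H_pos _) (y.r_pos j)
        nlinarith
      calc y.r i' ≤ 2 ^ n * y.r j := e1
        _ ≤ (y.k.H : ℝ) ^ n' * y.r j := mul_le_mul_of_nonneg_right e2 (y.r_pos j).le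
        _ ≤ h1 := e3

/-- MODULE Tent2. (10.1), second part. `M = 2 s_j`.
HINT. `i` = least index with `H^i h1 ≥ C4 M` (`≤ j` because `r_j ≤ c13 h1`, `2 c13 C4 ≤ 1`; `i ≥ 1`
because `C4 M > 1 ≥ h1`). For `i ≤ i' ≤ l`: `r_i' ≤ h1 / (2 C4)` or `≤ c13 h1`, so `≤ h1 / 100000`.
`Sys.dec` with `D = 3 h1 / 1000`, apex `z_T'`, at the levels `i ≤ i' ≤ l`: `|R_i'| ≤ e^(-3 H^i' h1/8000)`
on `Cn 1 100 (sh z_T' D)`, which contains the ball of radius `h1 / 100000` about `zT` (`Cn_ball`: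
`zT = sh z_T' (h1/200)`). So `|S_i| ≤ e^M + 1`, `|BB i'| ≤ 2 e^(-3 H^i' h1/8000)` there; `y.k.lw`,
`y.k.bl` from this ball (`sig_a`), `S l - S i = ∑ BB i'`. -/
theorem DH.tent2 {q : ℂ} {l jst j : ℕ} {h1 : ℝ} (h : A.DH q l h1 jst) (hj : jst < j) (hjl : j ≤ l)
    (hB : Bd y.F (2 * y.s j) (Cn 1 100 ⟨q.re + h1 / 50, q.im - h1 / 20⟩)) :
    ∃ i, i ≤ j ∧ Tent y q l h1 (2 * y.s j) i := by
  obtain ⟨i, hij, hi1, hi2, hr⟩ := Tent2_idx h hj hjl
  have ha0 : y.a0 ≤ j := by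
    have := A.ha
    have := h.a_le
    omega
  have hS0 := y.s_ge j ha0
  have hSa := y.k.S0_a
  have hH := y.H_ge
  have hC4 := y.k.C4_c
  have hsj := y.s_pos j
  obtain ⟨M, hM⟩ : ∃ M, M = 2 * y.s j := ⟨_, rfl⟩
  rw [← hM] at hi1 hi2 hB ⊢
  have hM1 : 1000000 ≤ M := by rw [hM]; linarith
  have hh0 : 0 < h1 := lt_of_lt_of_le (y.r_pos i) (hr i le_rfl (hij.trans hjl))
  have hil : i ≤ l := hij.trans hjl
  have hpi : ∀ n : ℕ, (0 : ℝ) < (y.k.H : ℝ) ^ n := fun n => pow_pos y.H_pos n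
  have hd : ∀ i', i ≤ i' → i' ≤ l → y.d i' ≤ y.k.sig * h1 := by
    intro i' h2 h3
    rw [y.d_eq]
    exact mul_le_mul_of_nonneg_left (hr i' h2 h3) y.sig_pos.le
  have hd2 : ∀ i', i ≤ i' → i' ≤ l → y.d i' ≤ y.k.c2 * (h1 / 100000) := by
    intro i' h2 h3
    refine (hd i' h2 h3).trans ?_
    have e1 := mul_le_mul_of_nonneg_right y.k.sig_a hh0.le
    linarith
  -- decoupling
  have hdec : ∀ i', i ≤ i' → i' ≤ l → ∀ u, ‖u - zT q h1‖ ≤ h1 / 100000 →
      ‖y.R i' u‖ ≤ Real.exp (-((y.k.H : ℝ) ^ i' * (3 * h1 / 1000) / 8)) := by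
    intro i' h2 h3 u hu
    refine y.dec (al := 1) (be := 100) le_rfl (by norm_num) (by norm_num) le_rfl i' _ M
      (3 * h1 / 1000) (by linarith) hB ?_ ?_ u (Tent2_ball q h1 hh0 u hu)
    · have e1 : (y.k.H : ℝ) ^ i ≤ (y.k.H : ℝ) ^ i' := pow_le_pow_right₀ (by linarith) h2
      have e2 : y.k.C4 * M ≤ (y.k.H : ℝ) ^ i' * h1 :=
        hi1.trans (mul_le_mul_of_nonneg_right e1 hh0.le)
      have e3 := mul_le_mul_of_nonneg_left e2 y.k.c1_pos.le
      have e4 := mul_le_mul_of_nonneg_right y.k.C4_b (show (0 : ℝ) ≤ M by linarith)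
      nlinarith
    · have := hr i' h2 h3
      linarith
  have hFb : ∀ u, ‖u - zT q h1‖ ≤ h1 / 100000 → ‖y.F u‖ ≤ Real.exp M := by
    intro u hu
    exact hB u (Tent2_cone q h1 hh0 u (Tent2_ball q h1 hh0 u hu))
  have hexp1 : (2 : ℝ) ≤ Real.exp 1 := by
    have := Real.add_one_le_exp (1 : ℝ)
    linarith
  have hSb : ∀ u, ‖u - zT q h1‖ ≤ h1 / 100000 → ‖SS y.c y.K i u‖ ≤ Real.exp (M + 1) := by
    intro u hu
    have e1 := hdec i le_rfl hil u hu
    have e2 : Real.exp (-((y.k.H : ℝ) ^ i * (3 * h1 / 1000) / 8)) ≤ 1 := by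
      rw [Real.exp_le_one_iff]
      have := mul_pos (hpi i) hh0
      nlinarith
    have e3 : SS y.c y.K i u = y.F u - y.R i u := by
      rw [y.F_eq i u]
      simp [Sys.S]
    rw [e3, Real.exp_add]
    have e4 : (1 : ℝ) ≤ Real.exp M := Real.one_le_exp (by linarith)
    have e5 := norm_sub_le (y.F u) (y.R i u)
    have e6 := hFb u hu
    nlinarith
  have hBb : ∀ i', i ≤ i' → i' + 1 ≤ l → ∀ u, ‖u - zT q h1‖ ≤ h1 / 100000 →
      ‖BB y.c y.K i' u‖ ≤ Real.exp (1 - (y.k.H : ℝ) ^ i' * (3 * h1 / 1000) / 8) := by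
    intro i' h2 h3 u hu
    have e1 := hdec i' h2 (by omega) u hu
    have e2 := hdec (i' + 1) (by omega) h3 u hu
    have e3 : Real.exp (-((y.k.H : ℝ) ^ (i' + 1) * (3 * h1 / 1000) / 8)) ≤
        Real.exp (-((y.k.H : ℝ) ^ i' * (3 * h1 / 1000) / 8)) := by
      apply Real.exp_le_exp.2
      have e4 : (y.k.H : ℝ) ^ i' ≤ (y.k.H : ℝ) ^ (i' + 1) :=
        pow_le_pow_right₀ (by linarith) (by omega)
      have e5 := mul_le_mul_of_nonneg_right e4 hh0.le
      linarith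
    have e6 : BB y.c y.K i' u = y.R i' u - y.R (i' + 1) u := by
      simp only [BB, Sys.R, RR]
      ring
    rw [e6, sub_eq_add_neg (1 : ℝ), Real.exp_add]
    have e7 := norm_sub_le (y.R i' u) (y.R (i' + 1) u)
    have e8 := Real.exp_pos (-((y.k.H : ℝ) ^ i' * (3 * h1 / 1000) / 8))
    nlinarith
  refine ⟨i, hij, hil, hi2, hd i le_rfl hil, ?_, ?_⟩
  · intro z hz
    have e1 := y.k.lw y.c y.d y.K y.lev i (zT q h1) (h1 / 100000) (M + 1) (by positivity)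
      (hd2 i le_rfl hil) hSb z hz
    refine e1.trans (Real.exp_le_exp.2 ?_)
    have hCL := y.k.CL_ge
    have e2 : (y.k.H : ℝ) ^ i * y.d i ≤ y.k.sig * (y.k.H * y.k.C4 * M) := by
      calc (y.k.H : ℝ) ^ i * y.d i ≤ (y.k.H : ℝ) ^ i * (y.k.sig * h1) :=
            mul_le_mul_of_nonneg_left (hd i le_rfl hil) (hpi i).le
        _ = y.k.sig * ((y.k.H : ℝ) ^ i * h1) := by ring
        _ ≤ y.k.sig * (y.k.H * y.k.C4 * M) := mul_le_mul_of_nonneg_left hi2 y.sig_pos.le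
    have e3 : y.k.CL * ((y.k.H : ℝ) ^ i * y.d i) ≤ y.k.CL * (y.k.sig * y.k.H * y.k.C4) * M := by
      calc y.k.CL * ((y.k.H : ℝ) ^ i * y.d i) ≤ y.k.CL * (y.k.sig * (y.k.H * y.k.C4 * M)) :=
            mul_le_mul_of_nonneg_left e2 (by linarith)
        _ = y.k.CL * (y.k.sig * y.k.H * y.k.C4) * M := by ring
    have e4 : y.k.CL * (y.k.sig * y.k.H * y.k.C4) ≤ 1 / 1600 := by
      have e5 := y.k.sig_d
      have e6 : 0 ≤ y.k.CL * (y.k.sig * y.k.H * y.k.C4) := by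
        have := y.sig_pos
        have := y.H_pos
        positivity
      nlinarith
    have e7 := mul_le_mul_of_nonneg_right e4 (show (0 : ℝ) ≤ M by linarith)
    show M + 1 + y.k.CL * ((y.k.H : ℝ) ^ i * y.d i) ≤ 11 / 10 * M
    linarith
  · intro z hz hz2
    obtain ⟨L, hL⟩ := Nat.exists_eq_add_of_le hil
    have key : ‖y.S (i + L) z - y.S i z‖ ≤
        Real.exp (-(y.k.C4 * M / 8000)) * (1 - (1 / 2) ^ L) := by
      apply Tent2_sum
      intro n hn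
      have e1 := y.k.bl y.c y.d y.K y.lev (i + n) (zT q h1) (h1 / 100000)
        (1 - (y.k.H : ℝ) ^ (i + n) * (3 * h1 / 1000) / 8) (by positivity)
        (hd2 (i + n) (by omega) (by omega)) (hBb (i + n) (by omega) (by omega)) z hz
        (by linarith)
      refine e1.trans ?_
      have e2 : Real.exp (-(1 : ℝ)) ≤ 1 / 2 := by
        rw [Real.exp_neg, one_div]
        exact inv_anti₀ (by norm_num) hexp1
      have e3 : Real.exp (-(y.k.C4 * M / 8000) - ((n : ℝ) + 1)) ≤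
          Real.exp (-(y.k.C4 * M / 8000)) * (1 / 2) ^ (n + 1) := by
        have e4 : Real.exp (-(y.k.C4 * M / 8000) - ((n : ℝ) + 1)) =
            Real.exp (-(y.k.C4 * M / 8000)) * Real.exp (-(1 : ℝ)) ^ (n + 1) := by
          rw [← Real.exp_nat_mul, ← Real.exp_add]
          congr 1
          push_cast
          ring
        rw [e4]
        exact mul_le_mul_of_nonneg_left
          (pow_le_pow_left₀ (Real.exp_pos _).le e2 _) (Real.exp_pos _).le
      refine le_trans (Real.exp_le_exp.2 ?_) e3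
      have e5 := Tent2_pow (y.k.H : ℝ) hH n
      have e6 : ((n : ℝ) + 1) * (y.k.C4 * M) ≤ (y.k.H : ℝ) ^ (i + n) * h1 := by
        calc ((n : ℝ) + 1) * (y.k.C4 * M) ≤ (y.k.H : ℝ) ^ n * (y.k.C4 * M) :=
              mul_le_mul_of_nonneg_right e5 (by positivity)
          _ ≤ (y.k.H : ℝ) ^ n * ((y.k.H : ℝ) ^ i * h1) :=
              mul_le_mul_of_nonneg_left hi1 (hpi n).le
          _ = (y.k.H : ℝ) ^ (i + n) * h1 := by rw [pow_add]; ring
      have e7 : 0 ≤ (y.k.H : ℝ) ^ (i + n) * ((zT q h1).re - z.re) / 4 := by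
        have := mul_nonneg (hpi (i + n)).le
          (show (0 : ℝ) ≤ (zT q h1).re - z.re by linarith)
        linarith
      have e8 : (8000 : ℝ) ≤ y.k.C4 * M := by nlinarith
      have e9 : (0 : ℝ) ≤ n := Nat.cast_nonneg n
      have e10 : ((n : ℝ) + 1) * 8000 ≤ ((n : ℝ) + 1) * (y.k.C4 * M) :=
        mul_le_mul_of_nonneg_left e8 (by linarith)
      have e11 : 1 * (y.k.C4 * M) ≤ ((n : ℝ) + 1) * (y.k.C4 * M) :=
        mul_le_mul_of_nonneg_right (by linarith) (by linarith)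
      nlinarith
    rw [← hL] at key
    refine key.trans ?_
    have e1 : (0 : ℝ) ≤ (1 / 2) ^ L := by positivity
    have e2 := Real.exp_pos (-(y.k.C4 * M / 8000))
    nlinarith

end Arc

end Pool.Agent.Mac
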