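import Pool.Agent.Mac.Dropbc
import Pool.Agent.Mac.Newb
import Pool.Agent.Mac.Tent2

set_option autoImplicit false

/-!
# The drop lemma
-/

namespace Pool.Agent.Mac

open Finset Filter Topology
open Pool.Agent.MP_e061a3_an Pool.Agent.GapReg

namespace Arc

variable {y : Sys} {A : Arc y}

/-- points to the left on the same line are in the cone -/
lemma Drop_ray {al be t : ℝ} {q z : ℂ} (h1 : z.im = q.im) (h2 : z.re ≤ q.re - t) :
    z ∈ Cn al be (sh q t) := by
  constructor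
  · rw [sh_re, sh_im, h1]
    linarith
  · rw [sh_re, sh_im, h1]
    linarith

lemma Drop_Cn {al be t t' : ℝ} {q : ℂ} (h : t ≤ t') : Cn al be (sh q t') ⊆ Cn al be (sh q t) :=
  Cn_trans (Drop_ray (by rw [sh_im]) (by rw [sh_re]; linarith))

lemma Barr.mono {q : ℂ} {ρ M M' : ℝ} (h : A.Barr q ρ M) (hM : M ≤ M') : A.Barr q ρ M' := by
  refine PJ.mono h ?_
  refine Set.union_subset_union_right _ ?_
  rintro z ⟨h1, h2⟩
  exact ⟨h1, h2.trans (Real.exp_le_exp.2 hM)⟩

/-- prolonging a barrier along the ray -/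
lemma Barr.ext {q : ℂ} {ρ ρ' t M al be : ℝ} (h : A.Barr q ρ M) (h0 : 0 ≤ ρ) (hρ : ρ ≤ ρ')
    (ht : t ≤ ρ) (hB : Bd y.F M (Cn al be (sh q t))) : A.Barr q ρ' M := by
  have h1 : PJ (A.G ∪ {z | ‖z - q‖ ≤ ρ' ∧ ‖y.F z‖ ≤ Real.exp M}) A.e (sh q ρ) := by
    refine PJ.mono h ?_
    refine Set.union_subset_union_right _ ?_
    rintro z ⟨h1, h2⟩
    exact ⟨h1.trans hρ, h2⟩
  refine h1.trans (PJ.of_segment ?_)
  rintro z ⟨a, b, ha, hb, hab, rfl⟩
  right
  have e1 : a • sh q ρ + b • sh q ρ' = sh q (a * ρ + b * ρ') := by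
    apply Complex.ext
    · simp only [Complex.add_re, Complex.real_smul, Complex.mul_re, Complex.ofReal_re,
        Complex.ofReal_im, sh_re, sh_im, zero_mul, sub_zero]
      have : a = 1 - b := by linarith
      subst this
      ring
    · simp only [Complex.add_im, Complex.real_smul, Complex.mul_im, Complex.ofReal_re,
        Complex.ofReal_im, sh_re, sh_im, zero_mul, add_zero]
      have : a = 1 - b := by linarith
      subst this
      ring
  have e2 : ρ ≤ a * ρ + b * ρ' := by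
    have : b * ρ ≤ b * ρ' := mul_le_mul_of_nonneg_left hρ hb
    have e3 : a * ρ + b * ρ = ρ := by rw [← add_mul, hab, one_mul]
    linarith
  have e4 : a * ρ + b * ρ' ≤ ρ' := by
    have : a * ρ ≤ a * ρ' := mul_le_mul_of_nonneg_left hρ ha
    have e3 : a * ρ' + b * ρ' = ρ' := by rw [← add_mul, hab, one_mul]
    linarith
  rw [e1]
  constructor
  · have : sh q (a * ρ + b * ρ') - q = -((a * ρ + b * ρ' : ℝ) : ℂ) := by
      simp [sh]
    rw [this, norm_neg, Complex.norm_real, Real.norm_eq_abs, abs_of_nonneg (h0.trans e2)]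
    exact e4
  · exact hB _ (Drop_ray (by rw [sh_im]) (by rw [sh_re]; linarith))

/-- MODULE Drop (glue). -/
theorem DH.step {q : ℂ} {l jst j : ℕ} {h1 : ℝ} (h : A.DH q l h1 jst) (hj : jst ≤ j)
    (hjl : j + 1 ≤ l) (hI : A.Inv q l (j + 1)) : A.Inv q l j := by
  have haj : A.a ≤ j + 1 := by
    have := h.a_le
    omega
  have haj' : y.a0 ≤ j := (A.ha.trans h.a_le).trans hj
  have hlt : jst < j + 1 := by omega
  have hB := DH.tent1 h haj hI
  obtain ⟨i, hij, hT⟩ := DH.tent2 h hlt hjl hB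
  obtain ⟨W, hW⟩ := Inv.reg h.st haj hI
  have hN : Near y q l h1 (2 * y.s (j + 1)) i :=
    DH.near h hlt hjl hij hT fun ρ h2 h3 => DH.circ h hlt hjl hW hij hT ρ h2 h3
  have hr := y.r_pos l
  have hH := y.H_ge
  have hH0 := y.H_pos
  have hs0 := y.s_ge j haj'
  have hS0 := y.k.S0_a
  have hsj := y.s_pos j
  have hsj1 := y.s_pos (j + 1)
  have hsup := y.s_up j
  have hsdn := y.s_dn j
  have hsl : y.s (j + 1) ≤ y.s l := y.s_mono hjl
  have hdel : y.k.del = 1 / (100 * y.k.H) := rfl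
  have hdel0 : 0 < y.k.del := by rw [hdel]; positivity
  have hdH : y.k.del * (100 * y.k.H) = 1 := by rw [hdel]; field_simp
  have hdel1 : y.k.del ≤ 1 := by
    rw [hdel, div_le_one (by positivity)]
    linarith
  -- `T = del * (2 s (j+1))`
  have hT1 : y.k.del * (2 * y.s (j + 1)) ≤ y.s j / 25 := by
    have h4 := mul_le_mul_of_nonneg_left hsup hdel0.le
    have h5 : y.k.del * (2 * y.k.H * y.s j) = (y.k.del * (100 * y.k.H)) * y.s j / 50 := by ring
    rw [h5, hdH] at h4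
    linarith
  have hT2 : 10 ≤ y.k.del * (2 * y.s (j + 1)) := by
    have h4 : 1000 * (100 * (y.k.H : ℝ)) ≤ y.s (j + 1) := by linarith
    have h5 := mul_le_mul_of_nonneg_left h4 hdel0.le
    have h6 : y.k.del * (1000 * (100 * (y.k.H : ℝ))) = 1000 * (y.k.del * (100 * y.k.H)) := by ring
    rw [h6, hdH] at h5
    linarith
  have hT3 : y.k.del * (2 * y.s (j + 1)) ≤ 2 * y.s l := by
    have h4 : y.k.del * (2 * y.s (j + 1)) ≤ 1 * (2 * y.s (j + 1)) :=
      mul_le_mul_of_nonneg_right hdel1 (by linarith)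
    linarith
  have hC3 : 2 * (y.k.C3 * y.r l) ≤ 2 * (y.k.eps1 * h1) := by
    have h4 := mul_le_mul_of_nonneg_right y.k.C33_d hr.le
    have h5 := mul_le_mul_of_nonneg_left h.lo y.k.eps1_pos.le
    have h6 := y.k.C3_b
    have h7 := y.k.C4_c
    have h8 : 0 < y.k.C3 * y.r l := mul_pos (by linarith) hr
    have h9 : y.k.eps1 * (y.k.C33 * y.r l) = y.k.eps1 * y.k.C33 * y.r l := by ring
    rw [h9] at h5
    linarith
  have hnew := State.newb h.st _ hT2 hT3 fun z hz => hN.sl z (hz.trans hC3)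
  refine ⟨Barr.mono hnew ?_, DH.nextb h hj hjl hN, DH.nextc h hj hjl hN⟩
  have : (1600000 : ℝ) ≤ 1000 * (100 * (y.k.H : ℝ)) := by linarith
  linarith

theorem DH.inv {q : ℂ} {l jst : ℕ} {h1 : ℝ} (h : A.DH q l h1 jst) :
    ∀ j, jst ≤ j → j ≤ l → A.Inv q l j := by
  have hr := y.r_pos l
  have hC1 := y.k.C1_a
  have hC0 := y.k.C0_a
  have hC4 := y.k.C4_c
  have hC3 := y.k.C3_a
  have hC1r : 0 < y.k.C1 * y.r l := mul_pos (by linarith) hr
  have hC13 : y.k.C1 * y.r l ≤ y.k.C3 * y.r l := mul_le_mul_of_nonneg_right (by linarith) hr.le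
  have hC4r : 0 < y.k.C4 * y.r l := mul_pos (by linarith) hr
  have hbase : A.Inv q l l := by
    refine ⟨?_, ?_, ?_⟩
    · exact Barr.ext h.st.s2 hC1r.le (by linarith) le_rfl h.st.s1
    · exact fun w hw => h.st.s1 w (Drop_Cn hC13 hw)
    · exact fun w hw => h.st.s3 w (Drop_Cn (by linarith) hw)
  intro j hj hjl
  obtain ⟨n, rfl⟩ := Nat.exists_eq_add_of_le hjl
  have key : ∀ n' : ℕ, n' ≤ n → A.Inv q (j + n) (j + n - n') := by
    intro n'
    induction n' with
    | zero => intro _; exact hbase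
    | succ n' ih =>
      intro hn'
      have h3 := ih (by omega)
      have e : j + n - n' = (j + n - (n' + 1)) + 1 := by omega
      rw [e] at h3
      exact DH.step h (by omega) (by omega) h3
  have := key n le_rfl
  rwa [Nat.add_sub_cancel] at this

/-- The CONSEQUENCE of the drop lemma. -/
theorem DH.state {q : ℂ} {l jst : ℕ} {h1 : ℝ} (h : A.DH q l h1 jst)
    (h2 : y.k.c13 * h1 < y.r jst) (h3 : A.lam q jst ≤ A.Lam / 2) : A.State q jst := by
  have hI := DH.inv h jst le_rfl h.lt.le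
  have hr := y.r_pos l
  have hC1 := y.k.C1_a
  have hC0 := y.k.C0_a
  have hC4 := y.k.C4_c
  have hC3 := y.k.C3_a
  have hC3r : 0 < y.k.C3 * y.r l := mul_pos (by linarith) hr
  have hc13 := y.k.c13_pos
  have hlo : y.k.c13 * (y.k.C33 * y.r l) ≤ y.k.c13 * h1 := mul_le_mul_of_nonneg_left h.lo hc13.le
  have hr2 : y.k.c13 * y.k.C33 * y.r l < y.r jst := by
    have e : y.k.c13 * (y.k.C33 * y.r l) = y.k.c13 * y.k.C33 * y.r l := by ring
    linarith
  have hr3 : 2 * y.r l ≤ y.r jst := by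
    have := mul_le_mul_of_nonneg_right y.k.C33_b hr.le
    linarith
  have hr4 : 2 * (y.k.C3 * y.r l) ≤ y.k.C1 * y.r jst := by
    have h4 := mul_le_mul_of_nonneg_right y.k.C33_f hr.le
    have h5 : y.k.C1 * (y.k.c13 * y.k.C33 * y.r l) ≤ y.k.C1 * y.r jst :=
      mul_le_mul_of_nonneg_left hr2.le (by linarith)
    have e : y.k.C1 * (y.k.c13 * y.k.C33) * y.r l = y.k.C1 * (y.k.c13 * y.k.C33 * y.r l) := by ring
    rw [e] at h4
    linarith
  refine ⟨h.st.touch, h.a_le, h.lt.le.trans h.st.lm, h.st.eta_le, h3, ?_, ?_, ?_, ?_⟩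
  · exact fun w hw => hI.b w (Drop_Cn (by linarith) hw)
  · exact Barr.ext hI.a (by linarith) hr4 (by linarith) hI.b
  · refine fun w hw => hI.c w (Drop_Cn ?_ hw)
    unfold lam
    have h4 : y.k.C37 * (2 * y.r l) ≤ y.k.C37 * y.r jst :=
      mul_le_mul_of_nonneg_left hr3 (by have := y.k.C37_c; linarith)
    have h5 := mul_le_mul_of_nonneg_right y.k.C37_c hr.le
    linarith
  · rcases h.st.s4 with h4 | h4
    · exact Or.inl h4
    · exact Or.inr (by linarith)

end Arc

end Pool.Agent.Mac
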