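import Pool.Agent.Mac.Nearm
import Pool.Agent.Mac.Init

set_option autoImplicit false

/-!
# The cones at the next level (10.4)
-/

namespace Pool.Agent.Mac

open Finset Filter Topology
open Pool.Agent.MP_e061a3_an Pool.Agent.GapReg

namespace Arc

variable {y : Sys} {A : Arc y}

lemma Dropbc_aux {q : ℂ} {l jst j i : ℕ} {h1 : ℝ} (h : A.DH q l h1 jst) (hj : jst ≤ j)
    (hN : Near y q l h1 (2 * y.s (j + 1)) i) (w : ℂ) (hZ : 0 ≤ q.re - w.re)
    (him : |w.im - q.im| ≤ 2 * (q.re - w.re)) (hR : ‖y.R l w‖ ≤ 1) :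
    ‖y.F w‖ ≤ Real.exp (2 * y.s j) := by
  have ha0 : y.a0 ≤ j := by
    have := A.ha
    have := h.a_le
    omega
  have hS0 := y.s_ge j ha0
  have hSa := y.k.S0_a
  have hH := y.H_ge
  have hHp := y.H_pos
  have hC4 := y.k.C4_c
  have hrl := y.r_pos l
  have hh0 : 0 < h1 := by
    have e1 := h.lo
    have e2 := y.k.C33_b
    have e3 := y.k.c13_pos
    have e4 : 0 < y.k.C33 := by
      by_contra hcon
      have := mul_nonpos_of_nonneg_of_nonpos e3.le (not_lt.1 hcon)
      linarith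
    exact lt_of_lt_of_le (mul_pos e4 hrl) e1
  have he1 := y.k.eps1_pos
  obtain ⟨M, hM⟩ : ∃ M, M = 2 * y.s (j + 1) := ⟨_, rfl⟩
  rw [← hM] at hN
  have hs1 := y.s_pos (j + 1)
  have hMs : M ≤ 4 * y.k.H * y.s j := by
    have := y.s_up j
    rw [hM]
    linarith
  have hM0 : 0 < M := by rw [hM]; linarith
  have hdel : 0 < y.k.del := by
    unfold Cst.del
    positivity
  have hdM : y.k.del * M ≤ y.s j / 25 := by
    have e1 := mul_le_mul_of_nonneg_left hMs hdel.le
    have e2 : y.k.del * (4 * y.k.H * y.s j) = y.s j / 25 := by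
      unfold Cst.del
      field_simp
      ring
    linarith
  have hdM0 : 0 < y.k.del * M := mul_pos hdel hM0
  have hre : |w.re - q.re| = q.re - w.re := by
    rw [abs_sub_comm]
    exact abs_of_nonneg hZ
  have hnq : ‖w - q‖ ≤ 8 * (q.re - w.re) := by
    have e1 := Complex.norm_le_abs_re_add_abs_im (w - q)
    rw [Complex.sub_re, Complex.sub_im, hre] at e1
    linarith
  have hzre : (zT q h1).re = q.re + 3 * h1 / 200 := rfl
  have hzim : (zT q h1).im = q.im - h1 / 20 := rfl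
  have hnT : ‖w - zT q h1‖ ≤ 8 * ((zT q h1).re - w.re) := by
    have e1 := Complex.norm_le_abs_re_add_abs_im (w - zT q h1)
    rw [Complex.sub_re, Complex.sub_im, hzre, hzim] at e1
    rw [hzre]
    have e2 : |w.re - (q.re + 3 * h1 / 200)| = q.re - w.re + 3 * h1 / 200 := by
      rw [abs_of_nonpos (by linarith)]
      ring
    have e3 : |w.im - (q.im - h1 / 20)| ≤ |w.im - q.im| + h1 / 20 := by
      have e4 : w.im - (q.im - h1 / 20) = (w.im - q.im) + h1 / 20 := by ring
      rw [e4]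
      exact (abs_add_le _ _).trans (by rw [abs_of_pos (show 0 < h1 / 20 by linarith)])
    linarith
  -- the low part
  have hSi : ‖y.S i w‖ ≤ Real.exp (y.k.del * M) := by
    have hdi : y.d i ≤ y.k.c2 * (2 * (y.k.eps1 * h1)) := by
      refine hN.tent.di.trans ?_
      have e1 := mul_le_mul_of_nonneg_right y.k.sig_b hh0.le
      have e2 : 0 ≤ y.k.c2 * y.k.eps1 * h1 :=
        mul_nonneg (mul_nonneg y.k.c2_pos.le he1.le) hh0.le
      nlinarith
    have e1 := y.k.lw y.c y.d y.K y.lev i q (2 * (y.k.eps1 * h1)) (3 * (y.k.del * M) / 4)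
      (by positivity) hdi hN.si w hnq
    refine e1.trans (Real.exp_le_exp.2 ?_)
    have hCL := y.k.CL_ge
    have e2 : (y.k.H : ℝ) ^ i * y.d i ≤ y.k.sig * (y.k.H * y.k.C4 * M) := by
      calc (y.k.H : ℝ) ^ i * y.d i ≤ (y.k.H : ℝ) ^ i * (y.k.sig * h1) :=
            mul_le_mul_of_nonneg_left hN.tent.di (pow_pos hHp i).le
        _ = y.k.sig * ((y.k.H : ℝ) ^ i * h1) := by ring
        _ ≤ y.k.sig * (y.k.H * y.k.C4 * M) :=
            mul_le_mul_of_nonneg_left hN.tent.hi y.sig_pos.le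
    have e3 : y.k.CL * ((y.k.H : ℝ) ^ i * y.d i) ≤ y.k.CL * (y.k.sig * y.k.H * y.k.C4) * M := by
      calc y.k.CL * ((y.k.H : ℝ) ^ i * y.d i) ≤ y.k.CL * (y.k.sig * (y.k.H * y.k.C4 * M)) :=
            mul_le_mul_of_nonneg_left e2 (by linarith)
        _ = y.k.CL * (y.k.sig * y.k.H * y.k.C4) * M := by ring
    have e4 : y.k.CL * (y.k.sig * y.k.H * y.k.C4) ≤ y.k.del / 16 := by
      have e5 := y.k.sig_d
      have e6 : y.k.del / 16 = 1 / (1600 * y.k.H) := by
        unfold Cst.del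
        field_simp
        norm_num
      rw [e6, le_div_iff₀ (by linarith)]
      exact e5
    have e7 := mul_le_mul_of_nonneg_right e4 hM0.le
    linarith
  have hSd : ‖y.S l w - y.S i w‖ ≤ 1 := by
    refine (hN.tent.blk w hnT (by rw [hzre]; linarith)).trans ?_
    rw [Real.exp_le_one_iff]
    have : 0 ≤ y.k.C4 * M := mul_nonneg (by linarith) hM0.le
    linarith
  have hF : y.F w = y.S i w + (y.S l w - y.S i w) + y.R l w := by
    rw [y.F_eq l w]
    ring
  rw [hF]
  have e1 : ‖y.S i w + (y.S l w - y.S i w) + y.R l w‖ ≤ Real.exp (y.k.del * M) + 1 + 1 :=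
    (norm_add_le _ _).trans (add_le_add ((norm_add_le _ _).trans (add_le_add hSi hSd)) hR)
  refine e1.trans ?_
  have e2 : Real.exp (y.k.del * M) + 1 + 1 ≤ Real.exp (y.k.del * M + 2) := by
    rw [Real.exp_add]
    have e3 : (1 : ℝ) ≤ Real.exp (y.k.del * M) := Real.one_le_exp hdM0.le
    have e4 : (3 : ℝ) ≤ Real.exp 2 := by
      have := Real.add_one_le_exp (2 : ℝ)
      linarith
    nlinarith
  refine e2.trans (Real.exp_le_exp.2 ?_)
  linarith

/-- MODULE Dropbc (10.4). `M = 2 s_(j+1)`, conclusion at the level `j`.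
HINT. `|R_l| ≤ 1` (`Sys.dec1` from `s1`, resp. `s3`), `|S_l| ≤ |S_i| + |S_l - S_i|`; near `q`:
`Near.sl`; otherwise `y.k.lw` from the ball of radius `2 eps1 h1` about `q` (`di`, `sig_b`, `sig_d`)
and `Tent.blk`. `del M + 2 ≤ 2 s_j`. -/
theorem DH.nextb {q : ℂ} {l jst j i : ℕ} {h1 : ℝ} (h : A.DH q l h1 jst) (hj : jst ≤ j)
    (hjl : j + 1 ≤ l) (hN : Near y q l h1 (2 * y.s (j + 1)) i) :
    Bd y.F (2 * y.s j) (Cn 1 100 (sh q (y.k.C3 * y.r l))) := by
  intro w hw
  have hw' := hw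
  obtain ⟨hw1, hw2⟩ := hw
  rw [sh_re, sh_im] at hw1 hw2
  have hrl := y.r_pos l
  have hC3a := mul_le_mul_of_nonneg_right y.k.C3_a hrl.le
  have hC3b := mul_le_mul_of_nonneg_right y.k.C3_b hrl.le
  have hC4 := y.k.C4_c
  have hC4r : 0 < y.k.C4 * y.r l := mul_pos (by linarith) hrl
  have hC3r : 0 < y.k.C3 * y.r l := by linarith
  have hZ : 0 ≤ q.re - w.re := by
    rcases le_or_gt q.im w.im with h2 | h2
    · linarith
    · linarith
  refine Dropbc_aux h hj hN w hZ ?_ ?_
  · rw [abs_le]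
    constructor
    · linarith
    · linarith
  · refine y.dec1 (al := 1) (be := 100) le_rfl (by norm_num) (by norm_num) le_rfl l
      (sh q (y.k.C1 * y.r l)) h.st.s1 w (Cn_trans ?_ hw')
    constructor
    · simp only [sh_re, sh_im]
      linarith
    · simp only [sh_re, sh_im]
      linarith

theorem DH.nextc {q : ℂ} {l jst j i : ℕ} {h1 : ℝ} (h : A.DH q l h1 jst) (hj : jst ≤ j)
    (hjl : j + 1 ≤ l) (hN : Near y q l h1 (2 * y.s (j + 1)) i) :
    Bd y.F (2 * y.s j) (Cn 1 1 (sh A.k (A.lam q l + y.k.C4 * y.r l))) := by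
  intro w hw
  have hw' := hw
  obtain ⟨hw1, hw2⟩ := hw
  rw [sh_re, sh_im] at hw1 hw2
  have hrl := y.r_pos l
  have hrm := y.r_pos A.m
  have hC4 := y.k.C4_c
  have hC4r : 0 < y.k.C4 * y.r l := mul_pos (by linarith) hrl
  obtain ⟨hT1, hT2, hT3⟩ := h.st.touch.T2
  have hC2 := y.k.C2_b
  have hlam : 4 * A.eta q + 2 * (y.k.C2 * y.r A.m) ≤ A.lam q l := by
    have e1 : (4 + 2 * y.k.C2) * (A.eta q + y.r A.m) ≤ y.k.C31 * (A.eta q + y.r A.m) :=
      mul_le_mul_of_nonneg_right y.k.C31_a (by linarith)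
    have e2 : 0 ≤ y.k.C37 * y.r l := mul_nonneg (by have := y.k.C37_c; linarith) hrl.le
    have e3 : 0 ≤ y.k.C2 * A.eta q := mul_nonneg (by linarith) hT3
    unfold lam
    nlinarith
  have hC2r : 0 < y.k.C2 * y.r A.m := mul_pos (by linarith) hrm
  have heta : A.eta q = A.k.im - q.im := rfl
  refine Dropbc_aux h hj hN w ?_ ?_ ?_
  · rcases le_or_gt A.k.im w.im with h2 | h2
    · linarith
    · linarith
  · rw [abs_le]
    constructor
    · rcases le_or_gt A.k.im w.im with h2 | h2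
      · linarith
      · linarith
    · rcases le_or_gt A.k.im w.im with h2 | h2
      · linarith
      · linarith
  · refine y.dec1 (al := 1) (be := 1) le_rfl (by norm_num) le_rfl (by norm_num) l
      (sh A.k (A.lam q l)) h.st.s3 w ?_
    have e1 : sh (sh A.k (A.lam q l)) (y.k.C4 * y.r l) =
        sh A.k (A.lam q l + y.k.C4 * y.r l) := by
      apply Complex.ext
      · simp only [sh_re]
        ring
      · simp only [sh_im]
    rw [e1]
    exact hw'

end Arc

end Pool.Agent.Mac
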