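import Pool.Agent.Mac.Cst
import Pool.Agent.GapReg.Index

set_option autoImplicit false

/-!
# Polygons
-/

namespace Pool.Agent.Mac

open Finset Filter Topology
open Pool.Agent.MP_e061a3_an Pool.Agent.GapReg

/-- `a` and `b` are joined by a polygon inside `U`. -/
def PJ (U : Set ℂ) (a b : ℂ) : Prop :=
  ∃ (v : ℕ → ℂ) (n : ℕ), 0 < n ∧ v 0 = a ∧ v n = b ∧ Poly v n ⊆ U

lemma PJ.of_segment {U : Set ℂ} {a b : ℂ} (h : segment ℝ a b ⊆ U) : PJ U a b := by
  refine ⟨fun k => if k = 0 then a else b, 1, one_pos, by simp, by simp, ?_⟩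
  rintro z ⟨k, hk, hz⟩
  have : k = 0 := by omega
  subst this
  exact h (by simpa using hz)

lemma PJ.refl {U : Set ℂ} {a : ℂ} (h : a ∈ U) : PJ U a a := by
  apply PJ.of_segment
  simpa using h

lemma PJ.mono {U V : Set ℂ} {a b : ℂ} (h : PJ U a b) (hUV : U ⊆ V) : PJ V a b := by
  obtain ⟨v, n, h0, h1, h2, h3⟩ := h
  exact ⟨v, n, h0, h1, h2, h3.trans hUV⟩

lemma PJ.trans {U : Set ℂ} {a b c : ℂ} (h : PJ U a b) (h' : PJ U b c) : PJ U a c := by
  obtain ⟨v, n, h0, h1, h2, h3⟩ := h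
  obtain ⟨v', n', h0', h1', h2', h3'⟩ := h'
  refine ⟨fun k => if k ≤ n then v k else v' (k - n), n + n', by omega, by simp [h1], ?_, ?_⟩
  · have : ¬ (n + n' ≤ n) := by omega
    simp only [this, if_false, Nat.add_sub_cancel_left]
    exact h2'
  · rintro z ⟨k, hk, hz⟩
    by_cases hkn : k < n
    · apply h3
      refine ⟨k, hkn, ?_⟩
      have e1 : k ≤ n := by omega
      have e2 : k + 1 ≤ n := by omega
      simpa [e1, e2] using hz
    · apply h3'
      refine ⟨k - n, by omega, ?_⟩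
      have e2 : ¬ (k + 1 ≤ n) := by omega
      have e3 : k + 1 - n = k - n + 1 := by omega
      by_cases hk2 : k ≤ n
      · have e4 : k = n := by omega
        subst e4
        simp only [le_refl, if_true, e2, if_false, Nat.sub_self, zero_add] at hz ⊢
        rw [h1', ← h2]
        have e5 : k + 1 - k = 1 := by omega
        rw [e5] at hz
        exact hz
      · simp only [hk2, if_false, e2, e3] at hz
        exact hz

lemma PJ.symm {U : Set ℂ} {a b : ℂ} (h : PJ U a b) : PJ U b a := by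
  obtain ⟨v, n, h0, h1, h2, h3⟩ := h
  refine ⟨fun k => v (n - k), n, h0, by simpa using h2, by simpa using h1, ?_⟩
  rintro z ⟨k, hk, hz⟩
  apply h3
  refine ⟨n - (k + 1), by omega, ?_⟩
  have e : n - (k + 1) + 1 = n - k := by omega
  rw [e, segment_symm]
  exact hz

lemma PJ.left_mem {U : Set ℂ} {a b : ℂ} (h : PJ U a b) : a ∈ U := by
  obtain ⟨v, n, h0, h1, h2, h3⟩ := h
  apply h3
  exact ⟨0, h0, by rw [← h1]; exact left_mem_segment ℝ _ _⟩

lemma PJ.right_mem {U : Set ℂ} {a b : ℂ} (h : PJ U a b) : b ∈ U := h.symm.left_mem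

end Pool.Agent.Mac
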