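import Pool.Agent.Mac.Rect
import Pool.Agent.Mac.Poly

set_option autoImplicit false

/-!
# The extension trick (10.3)
-/

namespace Pool.Agent.Mac

open Finset Filter Topology
open Pool.Agent.MP_e061a3_an Pool.Agent.GapReg

/-- The annulus of 10.3. -/
def Ann (q : ℂ) (ρ : ℝ) : Set ℂ := {z | ρ < ‖z - q‖ ∧ ‖z - q‖ < 2 * ρ}

namespace ExtAux

open Classical in
/-- The function of 10.3 in the plane. -/
noncomputable def G0 (R : ℂ → ℂ) (L Y : ℝ) (E W : Set ℂ) (z : ℂ) : ℝ :=
  if z ∈ E then max (‖R z‖ / L) (Real.exp (-Y)) else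
    if z ∈ W then max (‖R z‖ / L) 1 else 1

theorem G0_pos (R : ℂ → ℂ) (L Y : ℝ) (E W : Set ℂ) (z : ℂ) : 0 < G0 R L Y E W z := by
  unfold G0
  split_ifs
  · exact lt_max_of_lt_right (Real.exp_pos _)
  · exact lt_max_of_lt_right one_pos
  · exact one_pos

theorem norm_divL (R : ℂ → ℂ) {L : ℝ} (hL : 0 < L) (w : ℂ) : ‖R w / (L : ℂ)‖ = ‖R w‖ / L := by
  rw [norm_div, Complex.norm_real, Real.norm_of_nonneg hL.le]

theorem local_eq_one {g : ℂ → ℝ} {z : ℂ} (h : g =ᶠ[𝓝 z] fun _ => (1 : ℝ)) :
    ContinuousAt g z ∧ ∃ f : ℂ → ℂ, AnalyticAt ℂ f z ∧ ‖f z‖ = g z ∧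
      ∀ᶠ w in 𝓝 z, ‖f w‖ ≤ g w := by
  refine ⟨continuousAt_const.congr h.symm, fun _ => 1, analyticAt_const, ?_, ?_⟩
  · rw [h.self_of_nhds]
    simp
  · filter_upwards [h] with w hw
    rw [hw]
    simp

theorem G0_local (R : ℂ → ℂ) (hR : Differentiable ℂ R) (L Y : ℝ) (hL : 0 < L) (hY : 0 ≤ Y)
    (E W : Set ℂ) (hE : IsOpen E) (hW : IsOpen W) (hEW : E ⊆ W) (z : ℂ)
    (h3 : z ∈ W → z ∉ E → z ∈ closure E → ‖R z‖ = L)
    (h5 : z ∉ W → z ∈ closure W → z ∉ closure E ∧ ‖R z‖ < L) :
    ContinuousAt (G0 R L Y E W) z ∧ ∃ f : ℂ → ℂ, AnalyticAt ℂ f z ∧ ‖f z‖ = G0 R L Y E W z ∧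
      ∀ᶠ w in 𝓝 z, ‖f w‖ ≤ G0 R L Y E W w := by
  have hcR : Continuous fun w => ‖R w‖ / L := (hR.continuous.norm).div_const L
  have haR : AnalyticAt ℂ (fun w => R w / (L : ℂ)) z := by
    have h1 : Differentiable ℂ (fun w => R w / (L : ℂ)) := hR.div_const _
    exact h1.analyticAt z
  have hexp1 : Real.exp (-Y) ≤ 1 := Real.exp_le_one_iff.2 (by linarith)
  by_cases hzW : z ∈ W
  · by_cases hzE : z ∈ E
    · -- case 1
      have hev : G0 R L Y E W =ᶠ[𝓝 z] fun w => max (‖R w‖ / L) (Real.exp (-Y)) := by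
        filter_upwards [hE.mem_nhds hzE] with w hw
        unfold G0
        rw [if_pos hw]
      have hval : G0 R L Y E W z = max (‖R z‖ / L) (Real.exp (-Y)) := hev.self_of_nhds
      refine ⟨((hcR.max continuous_const).continuousAt).congr hev.symm, ?_⟩
      rcases le_total (Real.exp (-Y)) (‖R z‖ / L) with h | h
      · refine ⟨_, haR, ?_, ?_⟩
        · rw [norm_divL R hL, hval, max_eq_left h]
        · filter_upwards [hev] with w hw
          rw [norm_divL R hL, hw]
          exact le_max_left _ _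
      · refine ⟨fun _ => (Real.exp (-Y) : ℂ), analyticAt_const, ?_, ?_⟩
        · rw [hval, max_eq_right h, Complex.norm_real,
            Real.norm_of_nonneg (Real.exp_pos _).le]
        · filter_upwards [hev] with w hw
          rw [hw, Complex.norm_real, Real.norm_of_nonneg (Real.exp_pos _).le]
          exact le_max_right _ _
    · by_cases hzc : z ∈ closure E
      · -- case 3
        have hz1 : ‖R z‖ / L = 1 := by
          rw [h3 hzW hzE hzc]
          exact div_self hL.ne'
        have hval : G0 R L Y E W z = 1 := by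
          unfold G0
          rw [if_neg hzE, if_pos hzW, hz1, max_self]
        classical
        have hev : G0 R L Y E W =ᶠ[𝓝 z] fun w => if w ∈ E then
            max (‖R w‖ / L) (Real.exp (-Y)) else max (‖R w‖ / L) 1 := by
          filter_upwards [hW.mem_nhds hzW] with w hw
          unfold G0
          by_cases hwE : w ∈ E
          · rw [if_pos hwE, if_pos hwE]
          · rw [if_neg hwE, if_neg hwE, if_pos hw]
        refine ⟨?_, _, haR, ?_, ?_⟩
        · have ht : Tendsto (fun w => if w ∈ E then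
              max (‖R w‖ / L) (Real.exp (-Y)) else max (‖R w‖ / L) 1) (𝓝 z) (𝓝 1) := by
            refine Filter.Tendsto.if' ?_ ?_
            · have h1 := (hcR.max (continuous_const (y := Real.exp (-Y)))).tendsto z
              rw [hz1, max_eq_left hexp1] at h1
              exact h1
            · have h1 := (hcR.max (continuous_const (y := (1 : ℝ)))).tendsto z
              rw [hz1, max_self] at h1
              exact h1
          unfold ContinuousAt
          rw [hval]
          exact ht.congr' hev.symm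
        · rw [norm_divL R hL, hval, hz1]
        · filter_upwards [hev] with w hw
          rw [norm_divL R hL, hw]
          split_ifs
          · exact le_max_left _ _
          · exact le_max_left _ _
      · -- case 2
        have hev : G0 R L Y E W =ᶠ[𝓝 z] fun w => max (‖R w‖ / L) 1 := by
          filter_upwards [hW.mem_nhds hzW, isClosed_closure.isOpen_compl.mem_nhds hzc] with w hw hwE
          unfold G0
          rw [if_neg (fun h => hwE (subset_closure h)), if_pos hw]
        have hval : G0 R L Y E W z = max (‖R z‖ / L) 1 := hev.self_of_nhds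
        refine ⟨((hcR.max continuous_const).continuousAt).congr hev.symm, ?_⟩
        rcases le_total 1 (‖R z‖ / L) with h | h
        · refine ⟨_, haR, ?_, ?_⟩
          · rw [norm_divL R hL, hval, max_eq_left h]
          · filter_upwards [hev] with w hw
            rw [norm_divL R hL, hw]
            exact le_max_left _ _
        · refine ⟨fun _ => 1, analyticAt_const, ?_, ?_⟩
          · rw [hval, max_eq_right h]
            simp
          · filter_upwards [hev] with w hw
            rw [hw, norm_one]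
            exact le_max_right _ _
  · apply local_eq_one
    by_cases hzc : z ∈ closure W
    · obtain ⟨h6, h7⟩ := h5 hzW hzc
      have h8 : ∀ᶠ w in 𝓝 z, ‖R w‖ < L :=
        (hR.continuous.norm).continuousAt.eventually_lt continuousAt_const h7
      filter_upwards [h8, isClosed_closure.isOpen_compl.mem_nhds h6] with w hw hwE
      unfold G0
      rw [if_neg (fun h => hwE (subset_closure h))]
      split_ifs
      · apply max_eq_right
        rw [div_le_one hL]
        exact hw.le
      · rfl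
    · filter_upwards [isClosed_closure.isOpen_compl.mem_nhds hzc] with w hw
      have hwW : w ∉ W := fun h => hw (subset_closure h)
      unfold G0
      rw [if_neg (fun h => hwW (hEW h)), if_neg hwW]

/-- The polar map of 10.3. -/
noncomputable def Z (q : ℂ) (ρ : ℝ) (ζ : ℂ) : ℂ := q - ((Real.sqrt 2 * ρ : ℝ) : ℂ) * Complex.exp ζ

theorem Z_diff (q : ℂ) (ρ : ℝ) : Differentiable ℂ (Z q ρ) := by
  unfold Z
  exact (differentiable_const _).sub ((differentiable_const _).mul Complex.differentiable_exp)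

theorem Z_re (q : ℂ) (ρ : ℝ) (ζ : ℂ) :
    (Z q ρ ζ).re = q.re - Real.sqrt 2 * ρ * Real.exp ζ.re * Real.cos ζ.im := by
  unfold Z
  rw [Complex.sub_re, Complex.re_ofReal_mul, Complex.exp_re]
  ring

theorem Z_im (q : ℂ) (ρ : ℝ) (ζ : ℂ) :
    (Z q ρ ζ).im = q.im - Real.sqrt 2 * ρ * Real.exp ζ.re * Real.sin ζ.im := by
  unfold Z
  rw [Complex.sub_im, Complex.im_ofReal_mul, Complex.exp_im]
  ring

theorem Z_norm (q : ℂ) (ρ : ℝ) (hρ : 0 < ρ) (ζ : ℂ) :
    ‖Z q ρ ζ - q‖ = Real.sqrt 2 * ρ * Real.exp ζ.re := by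
  have h1 : Z q ρ ζ - q = -(((Real.sqrt 2 * ρ : ℝ) : ℂ) * Complex.exp ζ) := by
    unfold Z
    ring
  rw [h1, norm_neg, norm_mul, Complex.norm_real, Complex.norm_exp, Real.norm_of_nonneg]
  positivity

theorem bounds (ρ a : ℝ) (hρ : 0 < ρ) (h1 : -(1 / 4) ≤ a) (h2 : a ≤ 1 / 4) :
    11 / 10 * ρ ≤ Real.sqrt 2 * ρ * Real.exp a ∧ Real.sqrt 2 * ρ * Real.exp a < 2 * ρ := by
  have hs1 : (1.4142 : ℝ) ≤ Real.sqrt 2 := by
    apply Real.le_sqrt_of_sq_le
    norm_num
  have hs2 : Real.sqrt 2 ≤ 1.4143 := by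
    rw [Real.sqrt_le_left (by norm_num)]
    norm_num
  have he0 : Real.exp (1 / 4) ≤ 1.2845 := by
    have h := Real.exp_bound' (x := 1 / 4) (by norm_num) (by norm_num) (n := 4) (by norm_num)
    refine h.trans ?_
    norm_num [Finset.sum_range_succ, Nat.factorial]
  have he1 : Real.exp a ≤ 1.2845 := (Real.exp_le_exp.2 h2).trans he0
  have he2 : (0.7785 : ℝ) ≤ Real.exp a := by
    have h3 : Real.exp (-(1 / 4)) ≤ Real.exp a := Real.exp_le_exp.2 h1
    have h4 : Real.exp (-(1 / 4)) * Real.exp (1 / 4) = 1 := by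
      rw [← Real.exp_add]
      norm_num
    have h5 : (0 : ℝ) < Real.exp (-(1 / 4)) := Real.exp_pos _
    nlinarith
  have hmul1 : (1.4142 : ℝ) * 0.7785 ≤ Real.sqrt 2 * Real.exp a :=
    mul_le_mul hs1 he2 (by norm_num) (by positivity)
  have hmul2 : Real.sqrt 2 * Real.exp a ≤ 1.4143 * 1.2845 :=
    mul_le_mul hs2 he1 (Real.exp_pos _).le (by norm_num)
  constructor
  · have e : Real.sqrt 2 * ρ * Real.exp a = Real.sqrt 2 * Real.exp a * ρ := by ring
    rw [e]
    nlinarith
  · have e : Real.sqrt 2 * ρ * Real.exp a = Real.sqrt 2 * Real.exp a * ρ := by ring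
    rw [e]
    nlinarith

end ExtAux

open ExtAux

/-- MODULE Ext (section 10.3, the CLAIM). General form, no levels: `R` entire, `W` open, `G` closed.
`base`: points of the thin sector just below the ray of `q` are in `W`; `above`: points just above
the ray are not in `W`. Then some polygon in `{z ∈ W ∩ Ann | ‖R z‖ < L}` starting at the point
`z₁ = q - √2 ρ e^(i/400)` comes arbitrarily near to a point `κ` of `G` in the annulus.
HINT. `O = {z ∈ W ∩ Ann | ‖R z‖ < L}` is open, `E = {z | PJ O z₁ z}` is open and `O \ E` is open.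
If no point of `closure E ∩ Ann` is in `G` define `u` on `RR0` (`z = q - √2 ρ e^ζ`) by
`u = max (log ‖R z‖ - log L) (-Y)` on `E`, `max (log ‖R z‖ - log L) 0` on `W \ E`, `0` else
(for `im ζ < 2π`), `0` for `im ζ ≥ 2π`; continuity and the minorants as in the text; `rect` gives
`0 = u(2πi) < 0`. (`√2 e^(±1/4)` is between `11/10` and `182/100`.) -/
theorem ext_trick (R : ℂ → ℂ) (hR : Differentiable ℂ R) (q : ℂ) (ρ L X Y : ℝ) (W G : Set ℂ)
    (hρ : 0 < ρ) (hW : IsOpen W) (hG : IsClosed G) (hL : 1 ≤ L) (hX : 0 ≤ X)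
    (hY : 2 * X * Real.sinh (6 * Real.pi ^ 2) < Y * Real.sinh (2 * Real.pi ^ 2))
    (front : ∀ z ∈ frontier W, z ∈ Ann q ρ → z ∈ G ∨ (z.im = q.im ∧ z.re ≤ q.re))
    (ray : ∀ z ∈ G, z ∈ Ann q ρ → ¬ (z.im = q.im ∧ z.re ≤ q.re))
    (base : ∀ z ∈ Ann q ρ, z.im < q.im → z.re < q.re → 150 * (q.im - z.im) ≤ q.re - z.re → z ∈ W)
    (above : ∃ ε > 0, ∀ z ∈ Ann q ρ, q.im < z.im → z.im < q.im + ε → z.re < q.re → z ∉ W)
    (hRG : ∀ z ∈ G, z ∈ Ann q ρ → ‖R z‖ < L) (hRW : ∀ z ∈ W, z ∈ Ann q ρ → ‖R z‖ ≤ Real.exp X)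
    (hRlow : ∀ z ∈ Cn 1 100 (sh q (ρ / 2)), ‖R z‖ ≤ Real.exp (-Y)) :
    ∃ z₁ : ℂ, z₁ ∈ Ann q ρ ∧ z₁ ∈ Cn 1 100 (sh q (ρ / 2)) ∧ z₁.im < q.im ∧
      ∃ κ ∈ G, κ ∈ Ann q ρ ∧ ∀ ε > 0, ∃ z, ‖z - κ‖ < ε ∧
        PJ {z | z ∈ W ∧ z ∈ Ann q ρ ∧ ‖R z‖ < L} z₁ z := by
  have hL0 : 0 < L := lt_of_lt_of_le one_pos hL
  have hs1 : 0 < Real.sinh (2 * Real.pi ^ 2) := Real.sinh_pos_iff.2 (by positivity)
  have hs2 : 0 < Real.sinh (6 * Real.pi ^ 2) := Real.sinh_pos_iff.2 (by positivity)
  have hY0 : 0 < Y := by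
    by_contra hcon
    rw [not_lt] at hcon
    have h1 : Y * Real.sinh (2 * Real.pi ^ 2) ≤ 0 := mul_nonpos_of_nonpos_of_nonneg hcon hs1.le
    have h2 : 0 ≤ 2 * X * Real.sinh (6 * Real.pi ^ 2) := by positivity
    linarith
  -- the annulus
  have hAnn : IsOpen (Ann q ρ) := by
    have h1 : Continuous fun z : ℂ => ‖z - q‖ := by fun_prop
    exact (isOpen_lt continuous_const h1).inter (isOpen_lt h1 continuous_const)
  -- the convex sector
  set Q : Set ℂ := {z | ‖z - q‖ < 2 * ρ ∧ z.re < q.re - ρ ∧ z.im < q.im ∧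
    150 * (q.im - z.im) ≤ q.re - z.re ∧ z ∈ Cn 1 100 (sh q (ρ / 2))} with hQ
  have hQconv : Convex ℝ Q := by
    intro x hx y hy a b ha hb hab
    obtain ⟨x1, x2, x3, x4, x5, x6⟩ := hx
    obtain ⟨y1, y2, y3, y4, y5, y6⟩ := hy
    simp only [sh_re, sh_im] at x5 x6 y5 y6
    have hre : (a • x + b • y).re = a * x.re + b * y.re := by simp
    have him : (a • x + b • y).im = a * x.im + b * y.im := by simp
    have hb' : b = 1 - a := by linarith
    refine ⟨?_, ?_, ?_, ?_, ?_, ?_⟩
    · have hball := (convex_ball q (2 * ρ)) (x := x) (by rwa [Metric.mem_ball, dist_eq_norm])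
        (y := y) (by rwa [Metric.mem_ball, dist_eq_norm]) ha hb hab
      rwa [Metric.mem_ball, dist_eq_norm] at hball
    · rw [hre]
      rcases ha.eq_or_lt with h0 | h0
      · rw [← h0, hb', ← h0]
        linarith
      · have h1 := mul_lt_mul_of_pos_left x2 h0
        have h2 := mul_le_mul_of_nonneg_left y2.le hb
        rw [hb'] at h2 ⊢
        linarith
    · rw [him]
      rcases ha.eq_or_lt with h0 | h0
      · rw [← h0, hb', ← h0]
        linarith
      · have h1 := mul_lt_mul_of_pos_left x3 h0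
        have h2 := mul_le_mul_of_nonneg_left y3.le hb
        rw [hb'] at h2 ⊢
        linarith
    · rw [him, hre]
      have h1 := mul_le_mul_of_nonneg_left x4 ha
      have h2 := mul_le_mul_of_nonneg_left y4 hb
      rw [hb'] at h2 ⊢
      linarith
    · rw [him, hre]
      simp only [sh_re, sh_im]
      have h1 := mul_le_mul_of_nonneg_left x5 ha
      have h2 := mul_le_mul_of_nonneg_left y5 hb
      rw [hb'] at h2 ⊢
      linarith
    · rw [him, hre]
      simp only [sh_re, sh_im]
      have h1 := mul_le_mul_of_nonneg_left x6 ha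
      have h2 := mul_le_mul_of_nonneg_left y6 hb
      rw [hb'] at h2 ⊢
      linarith
  have hQAnn : ∀ z ∈ Q, z ∈ Ann q ρ := by
    intro z hz
    refine ⟨?_, hz.1⟩
    have h1 : |(z - q).re| ≤ ‖z - q‖ := Complex.abs_re_le_norm _
    have h2 : ρ < q.re - z.re := by linarith [hz.2.1]
    have h3 : q.re - z.re ≤ |(z - q).re| := by
      rw [Complex.sub_re]
      exact (le_abs_self _).trans (by rw [abs_sub_comm])
    linarith
  set O : Set ℂ := {z | z ∈ W ∧ z ∈ Ann q ρ ∧ ‖R z‖ < L} with hO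
  have hQO : Q ⊆ O := by
    intro z hz
    refine ⟨?_, hQAnn z hz, ?_⟩
    · exact base z (hQAnn z hz) hz.2.2.1 (by linarith [hz.2.1]) hz.2.2.2.1
    · refine lt_of_le_of_lt (hRlow z hz.2.2.2.2) (lt_of_lt_of_le ?_ hL)
      rw [← Real.exp_zero]
      exact Real.exp_lt_exp.2 (by linarith)
  have hOopen : IsOpen O := by
    have h1 : IsOpen {z | ‖R z‖ < L} := isOpen_lt hR.continuous.norm continuous_const
    have h2 : O = W ∩ (Ann q ρ ∩ {z | ‖R z‖ < L}) := rfl
    rw [h2]
    exact hW.inter (hAnn.inter h1)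
  -- the sector in polar coordinates
  have hZQ : ∀ ζ : ℂ, -(1 / 4) ≤ ζ.re → ζ.re ≤ 1 / 4 → 0 < ζ.im → ζ.im ≤ 1 / 400 →
      Z q ρ ζ ∈ Q := by
    intro ζ h1 h2 h3 h4
    obtain ⟨hb1, hb2⟩ := bounds ρ ζ.re hρ h1 h2
    set t := Real.sqrt 2 * ρ * Real.exp ζ.re with ht
    have ht0 : 0 < t := by linarith
    have hsin0 : 0 < Real.sin ζ.im := Real.sin_pos_of_pos_of_lt_pi h3 (by
      have := Real.pi_gt_three
      linarith)
    have hsin1 : Real.sin ζ.im ≤ 1 / 400 := (Real.sin_lt h3).le.trans h4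
    have hcos : 99 / 100 ≤ Real.cos ζ.im := by
      have h5 := Real.one_sub_sq_div_two_le_cos (x := ζ.im)
      nlinarith
    have hcos1 : Real.cos ζ.im ≤ 1 := Real.cos_le_one _
    have hre : q.re - (Z q ρ ζ).re = t * Real.cos ζ.im := by
      rw [Z_re]
      ring
    have him : q.im - (Z q ρ ζ).im = t * Real.sin ζ.im := by
      rw [Z_im]
      ring
    have hts : t * Real.sin ζ.im ≤ t * (1 / 400) := mul_le_mul_of_nonneg_left hsin1 ht0.le
    have hts0 : 0 < t * Real.sin ζ.im := mul_pos ht0 hsin0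
    have htc : t * (99 / 100) ≤ t * Real.cos ζ.im := mul_le_mul_of_nonneg_left hcos ht0.le
    refine ⟨?_, ?_, ?_, ?_, ?_, ?_⟩
    · rw [Z_norm q ρ hρ]
      exact hb2
    · have : ρ < t * Real.cos ζ.im := by linarith
      linarith
    · linarith
    · rw [him, hre]
      linarith
    · simp only [sh_re, sh_im]
      have e : 1 * ((Z q ρ ζ).im - q.im) = -(t * Real.sin ζ.im) := by
        rw [← him]
        ring
      rw [e]
      linarith
    · simp only [sh_re, sh_im]
      rw [him]
      linarith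
  set z₁ : ℂ := Z q ρ (⟨0, 1 / 400⟩ : ℂ) with hz₁
  have hz₁Q : z₁ ∈ Q := hZQ _ (by norm_num) (by norm_num) (by norm_num) (by norm_num)
  refine ⟨z₁, hQAnn z₁ hz₁Q, hz₁Q.2.2.2.2, hz₁Q.2.2.1, ?_⟩
  by_contra hcon
  push Not at hcon
  -- the component
  set E : Set ℂ := {z | PJ O z₁ z} with hEdef
  have hEO : E ⊆ O := fun z hz => PJ.right_mem hz
  have hEW : E ⊆ W := fun z hz => (hEO hz).1
  have hball : ∀ z ∈ O, ∃ r > 0, ∀ w, ‖w - z‖ < r → segment ℝ z w ⊆ O := by
    intro z hz
    obtain ⟨r, hr, hsub⟩ := Metric.isOpen_iff.1 hOopen z hz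
    refine ⟨r, hr, fun w hw => ?_⟩
    refine (Convex.segment_subset (convex_ball z r) (Metric.mem_ball_self hr) ?_).trans hsub
    rwa [Metric.mem_ball, dist_eq_norm]
  have hEopen : IsOpen E := by
    rw [Metric.isOpen_iff]
    intro z hz
    obtain ⟨r, hr, h1⟩ := hball z (hEO hz)
    refine ⟨r, hr, fun w hw => ?_⟩
    rw [Metric.mem_ball, dist_eq_norm] at hw
    exact PJ.trans hz (PJ.of_segment (h1 w hw))
  have hOE : ∀ z ∈ O, z ∉ E → z ∉ closure E := by
    intro z hz hzE hzc
    obtain ⟨r, hr, h1⟩ := hball z hz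
    obtain ⟨w, hwE, hw⟩ := Metric.mem_closure_iff.1 hzc r hr
    rw [dist_comm, dist_eq_norm] at hw
    exact hzE (PJ.trans hwE (PJ.of_segment (h1 w hw)).symm)
  have hGE : ∀ z ∈ G, z ∈ Ann q ρ → z ∉ closure E := by
    intro z hz hzA hzc
    obtain ⟨ε, hε, h1⟩ := hcon z hz hzA
    obtain ⟨w, hwE, hw⟩ := Metric.mem_closure_iff.1 hzc ε hε
    rw [dist_comm, dist_eq_norm] at hw
    exact h1 w hw hwE
  -- the local properties
  have hloc : ∀ z ∈ Ann q ρ, ¬ (z.im = q.im ∧ z.re ≤ q.re) →
      ContinuousAt (G0 R L Y E W) z ∧ ∃ f : ℂ → ℂ, AnalyticAt ℂ f z ∧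
        ‖f z‖ = G0 R L Y E W z ∧ ∀ᶠ w in 𝓝 z, ‖f w‖ ≤ G0 R L Y E W w := by
    intro z hzA hzray
    refine G0_local R hR L Y hL0 hY0.le E W hEopen hW hEW z ?_ ?_
    · intro hzW hzE hzc
      apply le_antisymm
      · have h1 : closure E ⊆ {w | ‖R w‖ ≤ L} := by
          apply closure_minimal
          · intro w hw
            exact (hEO hw).2.2.le
          · exact isClosed_le hR.continuous.norm continuous_const
        exact h1 hzc
      · by_contra hlt
        rw [not_le] at hlt
        exact hOE z ⟨hzW, hzA, hlt⟩ hzE hzc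
    · intro hzW hzc
      have hfr : z ∈ frontier W := by
        rw [frontier, hW.interior_eq]
        exact ⟨hzc, hzW⟩
      rcases front z hfr hzA with h1 | h1
      · exact ⟨hGE z h1 hzA, hRG z h1 hzA⟩
      · exact absurd h1 hzray
  -- the function on the rectangle
  classical
  set g : ℂ → ℝ := fun ζ => if ζ.im < 2 * Real.pi then G0 R L Y E W (Z q ρ ζ) else 1 with hg
  have hgpos : ∀ ζ, 0 < g ζ := by
    intro ζ
    simp only [hg]
    split_ifs
    · exact G0_pos _ _ _ _ _ _
    · exact one_pos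
  have hZc : Continuous (Z q ρ) := (Z_diff q ρ).continuous
  have hZA : ∀ ζ ∈ RR0, Z q ρ ζ ∈ Ann q ρ := by
    intro ζ hζ
    obtain ⟨h1, h2⟩ := bounds ρ ζ.re hρ hζ.1 hζ.2.1
    constructor
    · rw [Z_norm q ρ hρ]
      linarith
    · rw [Z_norm q ρ hρ]
      exact h2
  have hpi := Real.pi_gt_three
  have hgloc : ∀ ζ ∈ RR0, ContinuousAt g ζ ∧ ∃ f : ℂ → ℂ, AnalyticAt ℂ f ζ ∧
      ‖f ζ‖ = g ζ ∧ ∀ᶠ w in 𝓝 ζ, ‖f w‖ ≤ g w := by
    intro ζ hζ
    have hT0 : 0 < Real.sqrt 2 * ρ * Real.exp ζ.re := by positivity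
    rcases lt_trichotomy ζ.im (2 * Real.pi) with h | h | h
    · have hray : ¬ ((Z q ρ ζ).im = q.im ∧ (Z q ρ ζ).re ≤ q.re) := by
        rintro ⟨h1, h2⟩
        rw [Z_im] at h1
        rw [Z_re] at h2
        have h3 : Real.sin ζ.im = 0 := by
          have h4 : Real.sqrt 2 * ρ * Real.exp ζ.re * Real.sin ζ.im = 0 := by linarith
          exact (mul_eq_zero.1 h4).resolve_left hT0.ne'
        have h5 : 0 ≤ Real.cos ζ.im := by
          by_contra hneg
          rw [not_le] at hneg
          have := mul_neg_of_pos_of_neg hT0 hneg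
          linarith
        obtain ⟨n, hn⟩ := Real.sin_eq_zero_iff.1 h3
        have hlow := hζ.2.2.1
        have hn1 : (0 : ℝ) < n := by
          by_contra hcc
          rw [not_lt] at hcc
          have : (n : ℝ) * Real.pi ≤ 0 := mul_nonpos_of_nonpos_of_nonneg hcc (by linarith)
          linarith
        have hn2 : (n : ℝ) < 2 := by
          by_contra hcc
          rw [not_lt] at hcc
          have : 2 * Real.pi ≤ (n : ℝ) * Real.pi := mul_le_mul_of_nonneg_right hcc (by linarith)
          linarith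
        have hn3 : n = 1 := by
          have h6 : (0 : ℤ) < n := by exact_mod_cast hn1
          have h7 : n < (2 : ℤ) := by exact_mod_cast hn2
          omega
        rw [← hn, hn3, Int.cast_one, one_mul, Real.cos_pi] at h5
        linarith
      obtain ⟨hc, f, hf1, hf2, hf3⟩ := hloc _ (hZA ζ hζ) hray
      have hev : ∀ᶠ w in 𝓝 ζ, w.im < 2 * Real.pi :=
        (Complex.continuous_im.continuousAt).eventually_lt continuousAt_const h
      have hge : g =ᶠ[𝓝 ζ] fun w => G0 R L Y E W (Z q ρ w) := by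
        filter_upwards [hev] with w hw
        simp only [hg]
        rw [if_pos hw]
      refine ⟨(hc.comp hZc.continuousAt).congr hge.symm, fun w => f (Z q ρ w),
        hf1.comp ((Z_diff q ρ).analyticAt ζ), ?_, ?_⟩
      · rw [hge.self_of_nhds]
        exact hf2
      · have h1 := hZc.continuousAt.eventually hf3
        filter_upwards [h1, hge] with w hw hw'
        rw [hw']
        exact hw
    · -- on the line
      obtain ⟨ε, hε, hab⟩ := above
      apply local_eq_one
      have e1 : ∀ᶠ w in 𝓝 ζ, Z q ρ w ∈ Ann q ρ :=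
        hZc.continuousAt.eventually (hAnn.mem_nhds (hZA ζ hζ))
      have e2 : ∀ᶠ w in 𝓝 ζ, (Z q ρ w).im < q.im + ε := by
        have h1 : ContinuousAt (fun w => (Z q ρ w).im) ζ :=
          (Complex.continuous_im.comp hZc).continuousAt
        refine h1.eventually_lt continuousAt_const ?_
        rw [Z_im, h, Real.sin_two_pi]
        linarith
      have e3 : ∀ᶠ w in 𝓝 ζ, (Z q ρ w).re < q.re := by
        have h1 : ContinuousAt (fun w => (Z q ρ w).re) ζ :=
          (Complex.continuous_re.comp hZc).continuousAt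
        refine h1.eventually_lt continuousAt_const ?_
        rw [Z_re, h, Real.cos_two_pi]
        linarith
      have e4 : ∀ᶠ w in 𝓝 ζ, Real.pi < w.im := by
        refine continuousAt_const.eventually_lt (Complex.continuous_im.continuousAt) ?_
        rw [h]
        linarith
      filter_upwards [e1, e2, e3, e4] with w h1 h2 h3 h4
      simp only [hg]
      split_ifs with h5
      · have h6 : q.im < (Z q ρ w).im := by
          rw [Z_im]
          have h7 : Real.sin w.im < 0 := by
            have h8 : Real.sin (w.im - 2 * Real.pi) < 0 :=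
              Real.sin_neg_of_neg_of_neg_pi_lt (by linarith) (by linarith)
            rwa [Real.sin_sub_two_pi] at h8
          have h9 : 0 < Real.sqrt 2 * ρ * Real.exp w.re := by positivity
          have := mul_neg_of_pos_of_neg h9 h7
          linarith
        have h7 := hab _ h1 h6 h2 h3
        unfold G0
        rw [if_neg (fun h => h7 (hEW h)), if_neg h7]
      · rfl
    · apply local_eq_one
      have e4 : ∀ᶠ w in 𝓝 ζ, 2 * Real.pi < w.im :=
        continuousAt_const.eventually_lt (Complex.continuous_im.continuousAt) h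
      filter_upwards [e4] with w hw
      simp only [hg]
      rw [if_neg (not_lt.2 hw.le)]
  have hexpX : (1 : ℝ) ≤ Real.exp X := Real.one_le_exp hX
  have hgle : ∀ ζ ∈ RR0, g ζ ≤ Real.exp X := by
    intro ζ hζ
    simp only [hg]
    split_ifs with h
    · have hA := hZA ζ hζ
      have hWle : Z q ρ ζ ∈ W → ‖R (Z q ρ ζ)‖ / L ≤ Real.exp X := by
        intro hw
        rw [div_le_iff₀ hL0]
        have h1 := hRW _ hw hA
        nlinarith [Real.exp_pos X]
      unfold G0
      split_ifs with h1 h2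
      · apply max_le (hWle (hEW h1))
        exact (Real.exp_le_one_iff.2 (by linarith)).trans hexpX
      · exact max_le (hWle h2) hexpX
      · exact hexpX
    · exact hexpX
  have hmain := rect (fun ζ => Real.log (g ζ)) Y X hY0.le hX ?_ ?_ ?_ ?_ ?_
  · have h1 : g (2 * Real.pi * Complex.I) = 1 := by
      simp only [hg]
      rw [if_neg]
      simp
    simp only [h1, Real.log_one, zero_mul] at hmain
    linarith
  · intro ζ hζ
    exact ((hgloc ζ hζ).1.log (hgpos ζ).ne').continuousWithinAt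
  · intro ζ hζ
    have hζ0 : ζ ∈ RR0 := ⟨hζ.1.le, hζ.2.1.le, hζ.2.2.1.le, hζ.2.2.2.le⟩
    obtain ⟨-, f, hf1, hf2, hf3⟩ := hgloc ζ hζ0
    refine ⟨f, hf1, ?_, ?_⟩
    · rw [Real.exp_log (hgpos ζ)]
      exact hf2
    · filter_upwards [hf3] with w hw
      rw [Real.exp_log (hgpos w)]
      exact hw
  · intro ζ hζ
    rw [← Real.log_exp X]
    exact Real.log_le_log (hgpos ζ) (hgle ζ hζ)
  · intro ζ hζ him
    have hζQ : Z q ρ ζ ∈ Q := hZQ ζ hζ.1 hζ.2.1 (by rw [him]; norm_num) (by rw [him]; norm_num)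
    have hζE : Z q ρ ζ ∈ E := by
      apply PJ.of_segment
      exact (hQconv.segment_subset hz₁Q hζQ).trans hQO
    have h1 : g ζ = Real.exp (-Y) := by
      simp only [hg]
      rw [if_pos (by rw [him]; linarith)]
      unfold G0
      rw [if_pos hζE]
      apply max_eq_right
      rw [div_le_iff₀ hL0]
      have h2 := hRlow _ hζQ.2.2.2.2
      nlinarith [Real.exp_pos (-Y)]
    simp only [h1, Real.log_exp]
    exact le_refl _
  · intro ζ _ him
    have h1 : g ζ = 1 := by
      simp only [hg]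
      rw [if_neg]
      rw [him]
      linarith
    simp only [h1, Real.log_one]
    exact le_refl _

end Pool.Agent.Mac
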