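import Pool.Agent.Mac.Arc

set_option autoImplicit false

/-!
# Touch points exist (section 7)
-/

namespace Pool.Agent.Mac

open Finset Filter Topology
open Pool.Agent.MP_e061a3_an Pool.Agent.GapReg

namespace Arc

variable {y : Sys} (A : Arc y)

/-- MODULE Geo1. A point which is not free sees a touch point.
HINT. `G ∩ {im ≤ k.im}` is compact; minimise on it the continuous function
`φ w = w.re + (1/2) * max 0 (w.im - z.im) + 50 * max 0 (z.im - w.im)`; `w ∈ Cn (1/2) 50 z` iff
`φ w ≤ z.re`. A minimiser `q` is a touch point: if `w ∈ Co (1/2) 50 q` then `φ w < φ q`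
(triangle inequality for the two positive parts). -/
theorem touch_of_not_free (z : ℂ) (h : ¬ A.Free z) : ∃ q, A.Touch q ∧ q ∈ Cn (1 / 2) 50 z := by
  unfold Free at h
  push Not at h
  obtain ⟨w0, hw0, hk0, hc0⟩ := h
  have hcpt : IsCompact (A.G ∩ {w : ℂ | w.im ≤ A.k.im}) :=
    A.cpt.inter_right (isClosed_le Complex.continuous_im continuous_const)
  let φ : ℂ → ℝ := fun w => w.re + (1 / 2) * max 0 (w.im - z.im) + 50 * max 0 (z.im - w.im)
  have hcont : Continuous φ := by
    have h1 := Complex.continuous_re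
    have h2 := Complex.continuous_im
    fun_prop
  obtain ⟨q, ⟨hqG, hqk⟩, hmin⟩ := hcpt.exists_isMinOn ⟨w0, hw0, hk0⟩ hcont.continuousOn
  have hq0 : φ q ≤ φ w0 := hmin ⟨hw0, hk0⟩
  obtain ⟨c1, c2⟩ := hc0
  have hz : φ q ≤ z.re := by
    refine hq0.trans ?_
    simp only [φ]
    rcases le_total w0.im z.im with h1 | h1
    · rw [max_eq_left (by linarith : w0.im - z.im ≤ 0), max_eq_right (by linarith : 0 ≤ z.im - w0.im)]
      linarith
    · rw [max_eq_right (by linarith : 0 ≤ w0.im - z.im), max_eq_left (by linarith : z.im - w0.im ≤ 0)]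
      linarith
  refine ⟨q, ⟨hqG, hqk, fun w hw hwk hc => ?_⟩, ?_⟩
  · have hqw : φ q ≤ φ w := hmin ⟨hw, hwk⟩
    obtain ⟨d1, d2⟩ := hc
    simp only [φ] at hqw
    have e1 : 0 ≤ max 0 (q.im - z.im) := le_max_left _ _
    have e2 : q.im - z.im ≤ max 0 (q.im - z.im) := le_max_right _ _
    have e3 : 0 ≤ max 0 (z.im - q.im) := le_max_left _ _
    have e4 : z.im - q.im ≤ max 0 (z.im - q.im) := le_max_right _ _
    rcases le_total w.im z.im with h1 | h1
    · rw [max_eq_left (by linarith : w.im - z.im ≤ 0),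
        max_eq_right (by linarith : 0 ≤ z.im - w.im)] at hqw
      linarith
    · rw [max_eq_right (by linarith : 0 ≤ w.im - z.im),
        max_eq_left (by linarith : z.im - w.im ≤ 0)] at hqw
      linarith
  · simp only [φ] at hz
    have e1 : 0 ≤ max 0 (q.im - z.im) := le_max_left _ _
    have e2 : q.im - z.im ≤ max 0 (q.im - z.im) := le_max_right _ _
    have e3 : 0 ≤ max 0 (z.im - q.im) := le_max_left _ _
    have e4 : z.im - q.im ≤ max 0 (z.im - q.im) := le_max_right _ _
    constructor <;> linarith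

end Arc

end Pool.Agent.Mac
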