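import Pool.Agent.Mac.Arc

set_option autoImplicit false

/-!
# Elementary facts on touch points (section 7)
-/

namespace Pool.Agent.Mac

open Finset Filter Topology
open Pool.Agent.MP_e061a3_an Pool.Agent.GapReg

namespace Arc

variable {y : Sys} (A : Arc y)

variable {A}

/-- MODULE Geo2 (seven easy lemmas; only linear inequalities). -/
theorem free_of_mem_Co {q z : ℂ} (hq : A.Touch q) (hz : z ∈ Co (1 / 2) 50 q) : A.Free z :=
  fun w hw hk hc => hq.2.2 w hw hk (Cn_sub_Co hz hc)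

theorem Free.mono {z w : ℂ} (hz : A.Free z) (hw : w ∈ Cn (1 / 2) 50 z) : A.Free w :=
  fun u hu hk hc => hz u hu hk (Cn_trans hw hc)

/-- The left ray of a free point of height `≤ k.im` does not meet the arc. -/
theorem Free.ray {w : ℂ} (hw : A.Free w) (him : w.im ≤ A.k.im) :
    ∀ z ∈ A.G, z.im = w.im → w.re < z.re := by
  intro z hz h
  by_contra hc
  push Not at hc
  refine hw z hz (by rw [h]; exact him) ⟨?_, ?_⟩
  · rw [h]; linarith
  · rw [h]; linarith

/-- Comparison of a touch point with a lower point of the arc. -/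
theorem Touch.below {q w : ℂ} (hq : A.Touch q) (hw : w ∈ A.G) (hk : w.im ≤ A.k.im)
    (h : w.im ≤ q.im) : q.re ≤ w.re + 50 * (q.im - w.im) := by
  by_contra hc
  push Not at hc
  refine hq.2.2 w hw hk ⟨?_, ?_⟩
  · linarith
  · linarith

theorem Touch.above {q w : ℂ} (hq : A.Touch q) (hw : w ∈ A.G) (hk : w.im ≤ A.k.im)
    (h : q.im ≤ w.im) : q.re ≤ w.re + (w.im - q.im) / 2 := by
  by_contra hc
  push Not at hc
  refine hq.2.2 w hw hk ⟨?_, ?_⟩
  · linarith
  · linarith

/-- (W2) for all points of the arc (from `w2`, `w3`). -/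
theorem avoid {z : ℂ} (hz : z ∈ A.G) :
    A.k.re - y.k.C2 * y.r A.m - z.re ≤ 2 * |A.k.im - z.im| := by
  by_contra hc
  push Not at hc
  have h1 : A.k.im - z.im ≤ |A.k.im - z.im| := le_abs_self _
  have h2 : -(A.k.im - z.im) ≤ |A.k.im - z.im| := neg_le_abs _
  have hm : z ∈ Cn 2 2 (sh A.k (y.k.C2 * y.r A.m)) := by
    refine ⟨?_, ?_⟩
    · simp only [sh_re, sh_im]
      linarith
    · simp only [sh_re, sh_im]
      linarith
  have he := A.w2 z hz hm
  subst he
  rcases A.w3 with h3 | ⟨-, h3⟩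
  · rw [h3] at hc
    linarith
  · exact h3 hm

/-- (T2). -/
theorem Touch.T2 {q : ℂ} (hq : A.Touch q) :
    A.k.re - y.k.C2 * y.r A.m - 2 * A.eta q ≤ q.re ∧ q.re ≤ A.k.re + A.eta q / 2 ∧
      0 ≤ A.eta q := by
  have h0 : 0 ≤ A.k.im - q.im := sub_nonneg.2 hq.2.1
  have h1 := avoid (A := A) hq.1
  rw [abs_of_nonneg h0] at h1
  have h2 := hq.above A.k_mem le_rfl hq.2.1
  unfold eta
  exact ⟨by linarith, h2, h0⟩

end Arc

end Pool.Agent.Mac
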