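import Pool.Agent.Mac.Geo1
import Pool.Agent.Mac.Geo2

set_option autoImplicit false

/-!
# The top touch point
-/

namespace Pool.Agent.Mac

open Finset Filter Topology
open Pool.Agent.MP_e061a3_an Pool.Agent.GapReg

namespace Arc

variable {y : Sys} {A : Arc y}

variable (A) in
/-- MODULE Geo3. (T1).
HINT. `k` is in `Cn (1/2) 50 k`, so it is not free: `touch_of_not_free`, then `avoid`. -/
theorem exists_top : ∃ q, A.Touch q ∧ q.re + 50 * A.eta q ≤ A.k.re ∧
    48 * A.eta q ≤ y.k.C2 * y.r A.m := by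
  have h0 : ¬ A.Free A.k := fun h => h A.k A.k_mem le_rfl ⟨by simp, by simp⟩
  obtain ⟨q, hq, c1, c2⟩ := A.touch_of_not_free A.k h0
  have h1 := avoid hq.1
  have h2 : 0 ≤ A.k.im - q.im := by linarith [hq.2.1]
  rw [abs_of_nonneg h2] at h1
  refine ⟨q, hq, ?_, ?_⟩ <;> unfold eta <;> linarith

end Arc

end Pool.Agent.Mac
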