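import Pool.Agent.Mac.DecB

set_option autoImplicit false

/-!
# Left extension of the low part, left decay of the blocks
-/

namespace Pool.Agent.Mac

open Finset Filter Topology
open Pool.Agent.MP_e061a3_an Pool.Agent.GapReg

theorem BB_eq {c : ℕ → ℂ} {H : ℕ} {d : ℕ → ℝ} {K : ℕ → ℕ} (h : Lev c H d K) (l : ℕ) (w : ℂ) :
    BB c K l w = expSum c ((suppN c (K (l + 1) + 1)).filter (fun m => ¬ m ≤ K l)) w := by
  unfold BB SS
  have h1 : suppN c (K l + 1) = (suppN c (K (l + 1) + 1)).filter (fun m => m ≤ K l) := by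
    have hK : K l ≤ K (l + 1) := by
      have h1 := K_lt_pow h l
      have h2 := h.K_ge (l + 1)
      omega
    ext m
    rw [mem_filter, mem_suppN, mem_suppN]
    constructor
    · rintro ⟨a, b⟩; exact ⟨⟨by omega, b⟩, by omega⟩
    · rintro ⟨⟨_, b⟩, a⟩; exact ⟨by omega, b⟩
  rw [h1]
  unfold expSum
  rw [← sum_filter_add_sum_filter_not (suppN c (K (l + 1) + 1)) (fun m => m ≤ K l)]
  ring

theorem card_BB {c : ℕ → ℂ} {H : ℕ} {d : ℕ → ℝ} {K : ℕ → ℕ} (h : Lev c H d K) (l : ℕ) :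
    (((suppN c (K (l + 1) + 1)).filter (fun m => ¬ m ≤ K l)).card : ℝ)
      ≤ (H:ℝ) ^ (l + 1) * d (l + 1) := by
  have h4 : (((suppN c (K (l + 1) + 1)).filter (fun m => ¬ m ≤ K l)).card : ℝ)
      ≤ ((suppN c (K (l + 1) + 1)).card : ℝ) := by
    exact_mod_cast card_filter_le _ _
  exact h4.trans (card_SS h (l + 1))

theorem two_e_le : 2 * Real.exp 1 ≤ 5.45 := by
  have := Real.exp_one_lt_d9
  linarith

theorem x_le_exp_sqrt {v : ℝ} (hv : 0 ≤ v) : v ≤ Real.exp (√(2 * v)) := by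
  have h1 : 0 ≤ √(2 * v) := Real.sqrt_nonneg _
  have h2 := Real.quadratic_le_exp_of_nonneg h1
  have h3 : √(2 * v) ^ 2 = 2 * v := Real.sq_sqrt (by positivity)
  rw [h3] at h2
  linarith

/-- Left decay of a block. -/
theorem blP (H : ℕ) : BlP H (cTwo H) := by
  intro c d K h l z ρ m hρ hd hb w hw hZρ
  have hH : (16:ℝ) ≤ H := by exact_mod_cast h.H_ge
  obtain ⟨-, -, hdD, -⟩ := dec_num h hd
  have hp := powH_pos h.H_ge l
  set Z := z.re - w.re with hZ
  have hZ0 : 0 < Z := by linarith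
  have hd0 := h.d_pos l
  obtain ⟨k, hk2, hk1, hk3⟩ : ∃ k : ℕ, 2 ≤ k ∧ 8 * Z ≤ k * ρ ∧ (k : ℝ) ≤ 40 * (Z / ρ) := by
    refine ⟨⌈8 * Z / ρ⌉₊ + 1, ?_, ?_, ?_⟩
    · have : 0 < ⌈8 * Z / ρ⌉₊ := by
        rw [Nat.ceil_pos]; positivity
      omega
    · have := Nat.le_ceil (8 * Z / ρ)
      rw [div_le_iff₀ hρ] at this
      push_cast
      nlinarith
    · have h1 := (Nat.ceil_lt_add_one (show 0 ≤ 8 * Z / ρ by positivity)).le
      have h2 : (2:ℝ) ≤ 32 * (Z / ρ) := by
        rw [← mul_div_assoc, le_div_iff₀ hρ]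
        linarith
      push_cast
      have h3 : 8 * Z / ρ = 8 * (Z / ρ) := by ring
      rw [h3] at h1 ⊢
      linarith
  rw [BB_eq h]
  have h1 := expSum_left c ((suppN c (K (l + 1) + 1)).filter (fun m => ¬ m ≤ K l))
    ((H:ℝ) ^ l) hp.le (by
      intro m hm
      rw [mem_filter] at hm
      have h1 := h.K_ge l
      have h2 : H ^ l ≤ m := by omega
      exact_mod_cast h2) z w ρ k hk2 (hw.trans hk1) (by linarith) (Real.exp m)
    (Real.exp_pos _).le (by
      intro u hu
      rw [← BB_eq h]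
      exact hb u hu)
  refine h1.trans ?_
  have hcard := card_BB h l
  have hHd : (H:ℝ) * d l ≤ ρ / 10 ^ 7 := by
    refine le_trans ?_ hdD
    apply mul_le_mul_of_nonneg_right _ hd0.le
    nlinarith
  have hcard2 : (((suppN c (K (l + 1) + 1)).filter (fun m => ¬ m ≤ K l)).card : ℝ)
      ≤ 2 * ((H:ℝ) ^ l * (ρ / 10 ^ 7)) := by
    calc _ ≤ (H:ℝ) ^ (l + 1) * d (l + 1) := hcard
      _ ≤ (H:ℝ) ^ (l + 1) * (2 * d l) := mul_le_mul_of_nonneg_left (h.d_up l) (by positivity)
      _ = 2 * ((H:ℝ) ^ l * (H * d l)) := by rw [pow_succ]; ring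
      _ ≤ _ := by gcongr
  have hk0 : (0:ℝ) ≤ 2 * Real.exp 1 * k := by positivity
  have h2 : (2 * Real.exp 1 * (k:ℝ)) ^
      ((suppN c (K (l + 1) + 1)).filter (fun m => ¬ m ≤ K l)).card
      ≤ Real.exp ((H:ℝ) ^ l * Z / 4) := by
    calc _ ≤ Real.exp (2 * Real.exp 1 * (k:ℝ)) ^
          ((suppN c (K (l + 1) + 1)).filter (fun m => ¬ m ≤ K l)).card := by
          apply pow_le_pow_left₀ hk0
          have := Real.add_one_le_exp (2 * Real.exp 1 * (k:ℝ))
          linarith
      _ = Real.exp (((suppN c (K (l + 1) + 1)).filter (fun m => ¬ m ≤ K l)).card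
            * (2 * Real.exp 1 * (k:ℝ))) := by rw [← Real.exp_nat_mul]
      _ ≤ Real.exp ((H:ℝ) ^ l * Z / 4) := by
          apply Real.exp_le_exp.mpr
          calc _ ≤ 2 * ((H:ℝ) ^ l * (ρ / 10 ^ 7)) * (5.45 * (40 * (Z / ρ))) := by
                apply mul_le_mul hcard2 _ hk0 (by positivity)
                exact mul_le_mul two_e_le hk3 (Nat.cast_nonneg k) (by norm_num)
            _ = (H:ℝ) ^ l * Z * (2 * 5.45 * 40 / 10 ^ 7) := by field_simp
            _ ≤ (H:ℝ) ^ l * Z * (1 / 4) := by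
                apply mul_le_mul_of_nonneg_left _ (by positivity)
                norm_num
            _ = _ := by ring
  calc _ ≤ Real.exp ((H:ℝ) ^ l * Z / 4) * Real.exp (-((H:ℝ) ^ l * Z / 2)) * Real.exp m := by
        gcongr
    _ = Real.exp (m - (H:ℝ) ^ l * Z / 4) := by
        rw [← Real.exp_add, ← Real.exp_add]
        congr 1
        ring

theorem Hd_mono {c : ℕ → ℂ} {H : ℕ} {d : ℕ → ℝ} {K : ℕ → ℕ} (h : Lev c H d K) {l i : ℕ}
    (hil : i ≤ l) : (H:ℝ) ^ i * d i ≤ (H:ℝ) ^ l * d l := by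
  have hH : (16:ℝ) ≤ H := by exact_mod_cast h.H_ge
  induction l, hil using Nat.le_induction with
  | base => exact le_rfl
  | succ k hk ih =>
    have h5 := h.d_dn k
    have h6 := h.d_pos (k + 1)
    have h7 := powH_pos h.H_ge k
    calc (H:ℝ) ^ i * d i ≤ (H:ℝ) ^ k * d k := ih
      _ ≤ (H:ℝ) ^ k * (2 * d (k + 1)) := mul_le_mul_of_nonneg_left h5 h7.le
      _ ≤ (H:ℝ) ^ k * (H * d (k + 1)) := by
          apply mul_le_mul_of_nonneg_left _ h7.le
          exact mul_le_mul_of_nonneg_right (by linarith) h6.le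
      _ = (H:ℝ) ^ (k + 1) * d (k + 1) := by
          rw [pow_succ]; ring

/-- Low parts are controlled by the sum: cuts at lower levels. -/
theorem cut_low {c : ℕ → ℂ} {H : ℕ} {d : ℕ → ℝ} {K : ℕ → ℕ} (h : Lev c H d K) {l i : ℕ}
    (hil : i ≤ l) {w : ℂ} {ρ m : ℝ} (hρ : 104 * d l ≤ ρ)
    (hb : ∀ u, ‖u - w‖ ≤ ρ → ‖SS c K l u‖ ≤ Real.exp m) :
    ‖SS c K i w‖ ≤ Real.exp (m + 128 * ((H : ℝ) ^ l * d l)) := by
  have hH : (16:ℝ) ≤ H := by exact_mod_cast h.H_ge
  have hd0 := h.d_pos l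
  have hp := powH_pos h.H_ge l
  have hpi := powH_pos h.H_ge i
  set S := suppN c (K l + 1) with hSdef
  have hSmem : ∀ m ∈ S, c m ≠ 0 ∧ m < H ^ (l + 1) := by
    intro m hm
    rw [hSdef, mem_suppN] at hm
    exact ⟨hm.2, by have := K_lt_pow h l; omega⟩
  have hSpos : ∀ m ∈ S, 0 < m := fun m hm => (h.dens l).1 m (hSmem m hm)
  have hprod : ∀ x : ℝ, 0 ≤ x → ∏ m ∈ S, (1 + (x / m) ^ 2)
      ≤ Real.exp (13 * d l * (H:ℝ) ^ l + 13 * d l * x) := by
    intro x hx
    apply prod_one_add_sq_le _ (d l) ((H:ℝ) ^ l) hd0 _ (h.dens l) S hSmem x hx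
    exact one_le_pow₀ (by linarith)
  have hP2 := K_half_le h i
  have hne : ∀ m ∈ S, (m:ℝ) ≠ (K i : ℝ) + 1 / 2 := by
    intro m _ hm
    have h1 : (2:ℝ) * m = 2 * K i + 1 := by linarith
    have h2 : 2 * m = 2 * K i + 1 := by exact_mod_cast h1
    omega
  have hcut := cut_bound S hSpos c (13 * d l * (H:ℝ) ^ l) (13 * d l) (by positivity) hprod ρ
    (by linarith) (by linarith) ((K i : ℝ) + 1 / 2) (by positivity) (61 * ((H:ℝ) ^ i * d i))
    (h.good i S (fun m hm => (hSmem m hm).1)) w (Real.exp m) hb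
  have hfil : S.filter (fun m : ℕ => (m:ℝ) < (K i : ℝ) + 1 / 2) = suppN c (K i + 1) := by
    have hK : K i ≤ K l := by
      rcases Nat.lt_or_ge i l with h1 | h1
      · have h2 := K_lt_pow h i
        have h3 := h.K_ge l
        have h4 : H ^ (i + 1) ≤ H ^ l :=
          Nat.pow_le_pow_right (by have := h.H_ge; omega) (by omega)
        omega
      · have : i = l := by omega
        rw [this]
    ext m
    rw [mem_filter, hSdef, mem_suppN, mem_suppN]
    constructor
    · rintro ⟨⟨_, b⟩, a⟩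
      refine ⟨?_, b⟩
      by_contra h5
      have h6 : K i + 1 ≤ m := by omega
      have h7 : ((K i + 1 : ℕ) : ℝ) ≤ m := by exact_mod_cast h6
      push_cast at h7
      linarith
    · rintro ⟨a, b⟩
      refine ⟨⟨by omega, b⟩, ?_⟩
      have h6 : m ≤ K i := by omega
      have h7 : ((m : ℕ) : ℝ) ≤ K i := by exact_mod_cast h6
      linarith
  rw [hfil] at hcut
  refine hcut.trans ?_
  have h3 : (3:ℝ) ≤ Real.exp 2 := by
    have := Real.add_one_le_exp (2:ℝ)
    linarith
  have hmono := Hd_mono h hil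
  have hbig := h.d_big l
  have hHi : (H:ℝ) ^ i ≤ (H:ℝ) ^ l := pow_le_pow_right₀ (by linarith) hil
  have h5 : 2 * (13 * d l) * ((K i : ℝ) + 1 / 2) ≤ 52 * ((H:ℝ) ^ l * d l) := by
    calc 2 * (13 * d l) * ((K i : ℝ) + 1 / 2) ≤ 2 * (13 * d l) * (2 * (H:ℝ) ^ l) := by
          apply mul_le_mul_of_nonneg_left (hP2.trans (by linarith)) (by positivity)
      _ = _ := by ring
  calc 3 * Real.exp (13 * d l * (H:ℝ) ^ l + 2 * (13 * d l) * ((K i : ℝ) + 1 / 2)
        + 61 * ((H:ℝ) ^ i * d i)) * Real.exp m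
      ≤ Real.exp 2 * Real.exp (13 * d l * (H:ℝ) ^ l + 2 * (13 * d l) * ((K i : ℝ) + 1 / 2)
        + 61 * ((H:ℝ) ^ i * d i)) * Real.exp m := by gcongr
    _ = Real.exp (2 + (13 * d l * (H:ℝ) ^ l + 2 * (13 * d l) * ((K i : ℝ) + 1 / 2)
        + 61 * ((H:ℝ) ^ i * d i)) + m) := by
        rw [← Real.exp_add, ← Real.exp_add]
    _ ≤ Real.exp (m + 128 * ((H : ℝ) ^ l * d l)) := by
        apply Real.exp_le_exp.mpr
        have h6 : 13 * d l * (H:ℝ) ^ l = 13 * ((H:ℝ) ^ l * d l) := by ring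
        rw [h6]
        linarith

theorem d_up_pow {c : ℕ → ℂ} {H : ℕ} {d : ℕ → ℝ} {K : ℕ → ℕ} (h : Lev c H d K) (i k : ℕ) :
    d i ≤ 2 ^ k * d (i + k) := by
  induction k with
  | zero => simp
  | succ k ih =>
    have h5 := h.d_dn (i + k)
    calc d i ≤ 2 ^ k * d (i + k) := ih
      _ ≤ 2 ^ k * (2 * d (i + k + 1)) := mul_le_mul_of_nonneg_left h5 (by positivity)
      _ = 2 ^ (k + 1) * d (i + (k + 1)) := by rw [pow_succ]; ring_nf

/-- Left extension of the low part. -/
theorem lwP (H : ℕ) : LwP H (cTwo H) 132 := by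
  intro c d K h l z ρ m hρ hd hb w hw
  have hH : (16:ℝ) ≤ H := by exact_mod_cast h.H_ge
  obtain ⟨-, -, hdD, -⟩ := dec_num h hd
  have hp := powH_pos h.H_ge l
  have hd0 := h.d_pos l
  have hbig := h.d_big l
  rcases le_or_gt ‖w - z‖ ρ with hnear | hfar
  · refine (hb w hnear).trans (Real.exp_le_exp.mpr ?_)
    linarith
  set Z := z.re - w.re with hZ
  have hZρ : ρ / 8 < Z := by linarith
  have hZ0 : 0 < Z := by linarith
  have hH2 : (1:ℝ) ≤ (H:ℝ) ^ 2 := one_le_pow₀ (by linarith)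
  have hdρ : d l ≤ ρ / 10 ^ 7 := by
    refine le_trans ?_ hdD
    exact le_mul_of_one_le_left hd0.le hH2
  have hZd : d l ≤ Z := by linarith
  set m' := m + 128 * ((H : ℝ) ^ l * d l) with hm'
  -- cuts on the half ball
  have hcut : ∀ i ≤ l, ∀ u, ‖u - z‖ ≤ ρ / 2 → ‖SS c K i u‖ ≤ Real.exp m' := by
    intro i hi u hu
    apply cut_low h hi (ρ := ρ / 2) (by linarith)
    intro v hv
    apply hb
    have : v - z = (v - u) + (u - z) := by ring
    rw [this]
    exact (norm_add_le _ _).trans (by linarith)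
  -- the least j
  classical
  have hex : ∃ j : ℕ, (H:ℝ) ^ l * d l ≤ (H:ℝ) ^ j * Z := ⟨l, mul_le_mul_of_nonneg_left hZd hp.le⟩
  set j := Nat.find hex with hj
  have hj1 : (H:ℝ) ^ l * d l ≤ (H:ℝ) ^ j * Z := Nat.find_spec hex
  have hjl : j ≤ l := Nat.find_min' hex (mul_le_mul_of_nonneg_left hZd hp.le)
  have hjmin : ∀ k, k < j → (H:ℝ) ^ k * Z < (H:ℝ) ^ l * d l := fun k hk =>
    not_le.mp (Nat.find_min hex hk)
  clear_value j
  set x : ℝ := 2 ^ (l - j) with hx
  have hx0 : 0 < x := by positivity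
  have hx1 : 1 ≤ x := one_le_pow₀ (by norm_num)
  have hx4 : x ^ 4 * d l ≤ Z := by
    have h1 : x ^ 4 ≤ (H:ℝ) ^ (l - j) := by
      calc x ^ 4 = 16 ^ (l - j) := by
            rw [hx, ← pow_mul, mul_comm, pow_mul]; norm_num
        _ ≤ (H:ℝ) ^ (l - j) := pow_le_pow_left₀ (by norm_num) hH _
    have h2 : (H:ℝ) ^ l = (H:ℝ) ^ j * (H:ℝ) ^ (l - j) := by
      rw [← pow_add]; congr 1; omega
    have hpj := powH_pos h.H_ge j
    have h3 : (H:ℝ) ^ j * ((H:ℝ) ^ (l - j) * d l) ≤ (H:ℝ) ^ j * Z := by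
      rw [← mul_assoc, ← h2]; exact hj1
    have h4 : (H:ℝ) ^ (l - j) * d l ≤ Z := le_of_mul_le_mul_left h3 hpj
    exact (mul_le_mul_of_nonneg_right h1 hd0.le).trans h4
  -- the chain length k
  obtain ⟨k, hk2, hk1, hk3⟩ : ∃ k : ℕ, 2 ≤ k ∧ 8 * Z ≤ k * (ρ / 2) ∧
      (k : ℝ) ≤ 32 * (Z / ρ) := by
    refine ⟨⌈16 * Z / ρ⌉₊ + 1, ?_, ?_, ?_⟩
    · have : 0 < ⌈16 * Z / ρ⌉₊ := by
        rw [Nat.ceil_pos]; positivity
      omega
    · have := Nat.le_ceil (16 * Z / ρ)
      rw [div_le_iff₀ hρ] at this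
      push_cast
      nlinarith
    · have h1 := (Nat.ceil_lt_add_one (show 0 ≤ 16 * Z / ρ by positivity)).le
      have h2 : (2:ℝ) ≤ 16 * (Z / ρ) := by
        rw [← mul_div_assoc, le_div_iff₀ hρ]
        linarith
      push_cast
      have h3 : 16 * Z / ρ = 16 * (Z / ρ) := by ring
      rw [h3] at h1 ⊢
      linarith
  set v : ℝ := 200 * (Z / ρ) with hv
  have hv0 : 0 ≤ v := by positivity
  set s : ℝ := √(2 * v) with hs
  have hs0 : 0 ≤ s := Real.sqrt_nonneg _
  have hs2 : s ^ 2 = 400 * (Z / ρ) := by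
    rw [hs, Real.sq_sqrt (by positivity), hv]; ring
  have hks : 2 * Real.exp 1 * (k:ℝ) ≤ Real.exp s := by
    refine le_trans ?_ (x_le_exp_sqrt hv0)
    calc 2 * Real.exp 1 * (k:ℝ) ≤ 5.45 * (32 * (Z / ρ)) :=
          mul_le_mul two_e_le hk3 (Nat.cast_nonneg k) (by norm_num)
      _ ≤ v := by
          rw [hv]
          have : 0 ≤ Z / ρ := by positivity
          linarith
  have hk0 : (0:ℝ) ≤ 2 * Real.exp 1 * k := by positivity
  -- the key inequality
  have hkey : 2 * H * x * s * d l ≤ Z := by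
    have h1 : (2 * H * x * s * d l) ^ 2 ≤ Z ^ 2 := by
      have h2 : (2 * H * x * s * d l) ^ 2
          = 4 * 400 * (Z / ρ) * (((H:ℝ) ^ 2 * d l) * (x ^ 2 * d l)) := by
        rw [mul_pow, mul_pow, mul_pow, mul_pow, hs2]
        ring
      rw [h2]
      have h3 : x ^ 2 * d l ≤ Z := by
        refine le_trans (mul_le_mul_of_nonneg_right ?_ hd0.le) hx4
        exact pow_le_pow_right₀ hx1 (by norm_num)
      calc 4 * 400 * (Z / ρ) * (((H:ℝ) ^ 2 * d l) * (x ^ 2 * d l))
          ≤ 4 * 400 * (Z / ρ) * ((ρ / 10 ^ 7) * Z) := by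
            apply mul_le_mul_of_nonneg_left _ (by positivity)
            exact mul_le_mul hdD h3 (by positivity) (by positivity)
        _ = Z ^ 2 * (1600 / 10 ^ 7) := by field_simp; ring
        _ ≤ Z ^ 2 * 1 := mul_le_mul_of_nonneg_left (by norm_num) (by positivity)
        _ = Z ^ 2 := mul_one _
    exact le_of_sq_le_sq h1 hZ0.le
  -- densities
  have hdj : ∀ i, j ≤ i → i ≤ l → d i ≤ x * d l := by
    intro i hi1 hi2
    have h1 := d_up_pow h i (l - i)
    rw [show i + (l - i) = l by omega] at h1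
    refine h1.trans (mul_le_mul_of_nonneg_right ?_ hd0.le)
    rw [hx]
    exact pow_le_pow_right₀ (by norm_num) (by omega)
  -- blocks
  have hblock : ∀ i, j ≤ i → i < l → ‖BB c K i w‖
      ≤ 2 * Real.exp m' * (4 * (1 / 16) ^ (i - j)) := by
    intro i hi1 hi2
    have hpi := powH_pos h.H_ge i
    rw [BB_eq h]
    have h1 := expSum_left c ((suppN c (K (i + 1) + 1)).filter (fun m => ¬ m ≤ K i))
      ((H:ℝ) ^ i) hpi.le (by
        intro m hm
        rw [mem_filter] at hm
        have h1 := h.K_ge i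
        have h2 : H ^ i ≤ m := by omega
        exact_mod_cast h2) z w (ρ / 2) k hk2 (hw.trans hk1) (by linarith) (2 * Real.exp m')
      (by positivity) (by
        intro u hu
        rw [← BB_eq h]
        unfold BB
        refine (norm_sub_le _ _).trans ?_
        have h1 := hcut (i + 1) (by omega) u hu
        have h2 := hcut i (by omega) u hu
        linarith)
    refine h1.trans ?_
    have hcard := card_BB h i
    have hcs : (((suppN c (K (i + 1) + 1)).filter (fun m => ¬ m ≤ K i)).card : ℝ) * s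
        ≤ (H:ℝ) ^ i * Z / 4 := by
      have hpow : x / 2 * d l ≥ d (i + 1) := by
        have h1 := d_up_pow h (i + 1) (l - (i + 1))
        rw [show i + 1 + (l - (i + 1)) = l by omega] at h1
        refine h1.trans (mul_le_mul_of_nonneg_right ?_ hd0.le)
        rw [hx, show l - j = (l - (i + 1)) + ((i - j) + 1) by omega, pow_add, pow_succ,
          ← mul_assoc, mul_div_assoc]
        have h3 : (1:ℝ) ≤ 2 ^ (i - j) := one_le_pow₀ (by norm_num)
        have h4 : (0:ℝ) < 2 ^ (l - (i + 1)) := by positivity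
        nlinarith
      have h2 : (((suppN c (K (i + 1) + 1)).filter (fun m => ¬ m ≤ K i)).card : ℝ)
          ≤ (H:ℝ) ^ (i + 1) * (x / 2 * d l) :=
        hcard.trans (mul_le_mul_of_nonneg_left hpow (by positivity))
      calc _ ≤ (H:ℝ) ^ (i + 1) * (x / 2 * d l) * s := mul_le_mul_of_nonneg_right h2 hs0
        _ = (H:ℝ) ^ i * (2 * H * x * s * d l) / 4 := by rw [pow_succ]; ring
        _ ≤ (H:ℝ) ^ i * Z / 4 := by
            apply div_le_div_of_nonneg_right _ (by norm_num)
            exact mul_le_mul_of_nonneg_left hkey hpi.le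
    have h2 : (2 * Real.exp 1 * (k:ℝ)) ^
        ((suppN c (K (i + 1) + 1)).filter (fun m => ¬ m ≤ K i)).card
        ≤ Real.exp ((H:ℝ) ^ i * Z / 4) := by
      calc _ ≤ Real.exp s ^ ((suppN c (K (i + 1) + 1)).filter (fun m => ¬ m ≤ K i)).card :=
            pow_le_pow_left₀ hk0 hks _
        _ = Real.exp (((suppN c (K (i + 1) + 1)).filter (fun m => ¬ m ≤ K i)).card * s) := by
            rw [← Real.exp_nat_mul]
        _ ≤ _ := Real.exp_le_exp.mpr hcs
    have h3 : Real.exp (-((H:ℝ) ^ i * Z / 4)) ≤ 4 * (1 / 16) ^ (i - j) := by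
      have h4 : (16:ℝ) ^ (i - j) ≤ (H:ℝ) ^ i * Z := by
        calc (16:ℝ) ^ (i - j) ≤ (H:ℝ) ^ (i - j) * 1 := by
              rw [mul_one]; exact pow_le_pow_left₀ (by norm_num) hH _
          _ ≤ (H:ℝ) ^ (i - j) * ((H:ℝ) ^ j * Z) := by
              apply mul_le_mul_of_nonneg_left (hbig.trans hj1) (by positivity)
          _ = (H:ℝ) ^ i * Z := by
              rw [← mul_assoc, ← pow_add]
              congr 2
              omega
      have h5 : (0:ℝ) < 16 ^ (i - j) := by positivity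
      rw [Real.exp_neg]
      have h6 : (16:ℝ) ^ (i - j) / 4 ≤ Real.exp ((H:ℝ) ^ i * Z / 4) := by
        have := Real.add_one_le_exp ((H:ℝ) ^ i * Z / 4)
        linarith
      calc (Real.exp ((H:ℝ) ^ i * Z / 4))⁻¹ ≤ ((16:ℝ) ^ (i - j) / 4)⁻¹ :=
            inv_anti₀ (by positivity) h6
        _ = 4 * (1 / 16) ^ (i - j) := by
            rw [one_div, inv_pow]; field_simp
    calc _ ≤ Real.exp ((H:ℝ) ^ i * Z / 4) * Real.exp (-((H:ℝ) ^ i * Z / 2))
          * (2 * Real.exp m') := by gcongr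
      _ = 2 * Real.exp m' * Real.exp (-((H:ℝ) ^ i * Z / 4)) := by
          rw [← Real.exp_add]
          have : (H:ℝ) ^ i * Z / 4 + -((H:ℝ) ^ i * Z / 2) = -((H:ℝ) ^ i * Z / 4) := by ring
          rw [this]; ring
      _ ≤ _ := by gcongr
  -- the lowest part
  have hlow : ‖SS c K j w‖ ≤ Real.exp (m' + (H:ℝ) ^ l * d l) := by
    rcases Nat.eq_zero_or_pos j with h0 | h0
    · -- only the exponent 1
      have hK0 : K j = 1 := by
        have h1 := h.K_ge j
        have h2 := h.K_lt j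
        rw [h0, pow_zero] at h1 h2
        rw [h0]
        omega
      have hz := hcut j hjl z (by rw [sub_self, norm_zero]; positivity)
      refine le_trans ?_ (hz.trans (Real.exp_le_exp.mpr (by
        have : 0 ≤ (H:ℝ) ^ l * d l := by positivity
        linarith)))
      have hset : ∀ u, SS c K j u = c 1 * Complex.exp u := by
        intro u
        unfold SS expSum
        rw [hK0]
        have h1 : suppN c (1 + 1) = (({1} : Finset ℕ).filter (fun m => c m ≠ 0)) := by
          ext m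
          rw [mem_suppN, mem_filter, mem_singleton]
          constructor
          · rintro ⟨a, b⟩
            refine ⟨?_, b⟩
            have : m ≠ 0 := by
              rintro rfl
              exact b h.zero
            omega
          · rintro ⟨a, b⟩
            exact ⟨by omega, b⟩
        rw [h1, sum_filter_of_ne]
        · simp
        · intro m hm hne h2
          rw [h2, zero_mul] at hne
          exact hne rfl
      rw [hset, hset, norm_mul, norm_mul, Complex.norm_exp, Complex.norm_exp]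
      apply mul_le_mul_of_nonneg_left _ (norm_nonneg _)
      exact Real.exp_le_exp.mpr (by linarith)
    · have h1 := expSum_left c (suppN c (K j + 1)) 0 le_rfl (fun m _ => Nat.cast_nonneg m) z w
        (ρ / 2) k hk2 (hw.trans hk1) (by linarith) (Real.exp m') (Real.exp_pos _).le
        (hcut j hjl)
      have hcard := card_SS h j
      have hpj := powH_pos h.H_ge j
      have h2 := hjmin (j - 1) (by omega)
      have h3 : (H:ℝ) ^ j * Z ≤ H * ((H:ℝ) ^ l * d l) := by
        have h4 : (H:ℝ) ^ j = (H:ℝ) ^ (j - 1) * H := by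
          rw [← pow_succ]; congr 1; omega
        calc (H:ℝ) ^ j * Z = H * ((H:ℝ) ^ (j - 1) * Z) := by rw [h4]; ring
          _ ≤ _ := mul_le_mul_of_nonneg_left h2.le (by linarith)
      have hcs : ((suppN c (K j + 1)).card : ℝ) * s ≤ (H:ℝ) ^ l * d l := by
        have h5 : ((suppN c (K j + 1)).card : ℝ) ≤ (H:ℝ) ^ j * (x * d l) :=
          hcard.trans (mul_le_mul_of_nonneg_left (hdj j le_rfl hjl) hpj.le)
        have h6 : ((suppN c (K j + 1)).card : ℝ) * s ≤ (H:ℝ) ^ j * (x * d l) * s :=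
          mul_le_mul_of_nonneg_right h5 hs0
        -- multiply by H Z
        have h7 : ((H:ℝ) ^ j * (x * d l) * s) * Z ≤ ((H:ℝ) ^ l * d l) * Z := by
          calc ((H:ℝ) ^ j * (x * d l) * s) * Z = ((H:ℝ) ^ j * Z) * (x * d l * s) := by ring
            _ ≤ (H * ((H:ℝ) ^ l * d l)) * (x * d l * s) :=
                mul_le_mul_of_nonneg_right h3 (by positivity)
            _ = ((H:ℝ) ^ l * d l) * ((2 * H * x * s * d l) / 2) := by ring
            _ ≤ ((H:ℝ) ^ l * d l) * Z := by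
                apply mul_le_mul_of_nonneg_left _ (by positivity)
                linarith
        exact h6.trans (le_of_mul_le_mul_right h7 hZ0)
      refine h1.trans ?_
      rw [zero_mul, zero_div, neg_zero, Real.exp_zero, mul_one]
      calc (2 * Real.exp 1 * (k:ℝ)) ^ (suppN c (K j + 1)).card * Real.exp m'
          ≤ Real.exp s ^ (suppN c (K j + 1)).card * Real.exp m' := by
            apply mul_le_mul_of_nonneg_right _ (Real.exp_pos _).le
            exact pow_le_pow_left₀ hk0 hks _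
        _ = Real.exp ((suppN c (K j + 1)).card * s + m') := by
            rw [← Real.exp_nat_mul, ← Real.exp_add]
        _ ≤ _ := Real.exp_le_exp.mpr (by linarith)
  -- telescope
  have htel : ∀ t : ℕ, j + t ≤ l → ‖SS c K (j + t) w‖
      ≤ Real.exp (m' + (H:ℝ) ^ l * d l) + 2 * Real.exp m' * (4 * (2 - (1 / 2) ^ t)) := by
    intro t
    induction t with
    | zero =>
      intro _
      have : (0:ℝ) ≤ 2 * Real.exp m' * (4 * (2 - (1 / 2) ^ 0)) := by
        have := Real.exp_pos m'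
        norm_num
        positivity
      rw [add_zero]
      linarith
    | succ t ih =>
      intro ht
      have h1 := ih (by omega)
      have h2 := hblock (j + t) (by omega) (by omega)
      have h3 : SS c K (j + (t + 1)) w = SS c K (j + t) w + BB c K (j + t) w := by
        unfold BB
        rw [← add_assoc]; ring
      rw [h3]
      refine (norm_add_le _ _).trans ?_
      rw [show j + t - j = t by omega] at h2
      have h4 : ((1:ℝ) / 16) ^ t ≤ (1 / 2) ^ t * (1 / 2) ∨ t = 0 := by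
        rcases Nat.eq_zero_or_pos t with h5 | h5
        · right; exact h5
        · left
          obtain ⟨t', rfl⟩ : ∃ t', t = t' + 1 := ⟨t - 1, by omega⟩
          have h6 : ((1:ℝ) / 16) ^ t' ≤ (1 / 2) ^ t' := pow_le_pow_left₀ (by norm_num) (by norm_num) _
          rw [pow_succ, pow_succ]
          have : (0:ℝ) < (1 / 2) ^ t' := by positivity
          nlinarith
      have hE := Real.exp_pos m'
      rcases h4 with h4 | h4
      · have h5 : (2 - (1 / 2 : ℝ) ^ (t + 1)) = (2 - (1 / 2) ^ t) + (1 / 2) ^ t * (1 / 2) := by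
          rw [pow_succ]; ring
        rw [h5]
        have : 2 * Real.exp m' * (4 * (1 / 16) ^ t) ≤ 2 * Real.exp m' * (4 * ((1 / 2) ^ t * (1 / 2))) := by
          gcongr
        linarith
      · subst h4
        have h7 : ‖SS c K (j + 0) w‖ ≤ Real.exp (m' + (H:ℝ) ^ l * d l) := by
          rw [add_zero]; exact hlow
        rw [pow_zero] at h2
        norm_num
        norm_num at h2
        linarith
  have h1 := htel (l - j) (by omega)
  rw [show j + (l - j) = l by omega] at h1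
  refine h1.trans ?_
  have h2 : (2 - (1 / 2 : ℝ) ^ (l - j)) ≤ 2 := by
    have : (0:ℝ) < (1 / 2) ^ (l - j) := by positivity
    linarith
  have h3 : 2 * Real.exp m' * (4 * (2 - (1 / 2) ^ (l - j))) ≤ 16 * Real.exp (m' + (H:ℝ) ^ l * d l) := by
    have h4 : Real.exp m' ≤ Real.exp (m' + (H:ℝ) ^ l * d l) := Real.exp_le_exp.mpr (by
      have : 0 ≤ (H:ℝ) ^ l * d l := by positivity
      linarith)
    have h5 := Real.exp_pos m'
    calc 2 * Real.exp m' * (4 * (2 - (1 / 2) ^ (l - j))) ≤ 2 * Real.exp m' * (4 * 2) := by gcongr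
      _ = 16 * Real.exp m' := by ring
      _ ≤ _ := by linarith
  have h17 : (17:ℝ) ≤ Real.exp 3 := by
    have h4 : (2.7:ℝ) ≤ Real.exp 1 := by
      have := Real.exp_one_gt_d9
      linarith
    calc (17:ℝ) ≤ 2.7 ^ 3 := by norm_num
      _ ≤ Real.exp 1 ^ 3 := pow_le_pow_left₀ (by norm_num) h4 3
      _ = Real.exp 3 := by rw [← Real.exp_nat_mul]; norm_num
  calc _ ≤ 17 * Real.exp (m' + (H:ℝ) ^ l * d l) := by linarith
    _ ≤ Real.exp 3 * Real.exp (m' + (H:ℝ) ^ l * d l) := by gcongr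
    _ = Real.exp (3 + (m' + (H:ℝ) ^ l * d l)) := (Real.exp_add _ _).symm
    _ ≤ Real.exp (m + 132 * ((H:ℝ) ^ l * d l)) := by
        apply Real.exp_le_exp.mpr
        rw [hm']
        linarith

end Pool.Agent.Mac
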