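import Pool.Agent.Mac.Circ
import Pool.Agent.GapReg.FsBasic

set_option autoImplicit false

/-!
# The low part is small near q (10.2, end)
-/

namespace Pool.Agent.Mac

open Finset Filter Topology
open Pool.Agent.MP_e061a3_an Pool.Agent.GapReg

namespace Arc

variable {y : Sys} {A : Arc y}

/-- MODULE Nearm. HINT. `y.k.rem` with `r = eps1 h1`, `P = 2 H^i`, `S = suppN c (K i + 1)`
(`card_le`), `M = e^(del M/2)`; `eps1_a`, `sig_e`, `S0_b`. Then `S_l = S_i + (S_l - S_i)`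
(`Tent.blk`; the ball is to the left of `zT`: `|z - zT| ≤ 8 (..)`). -/
theorem DH.near {q : ℂ} {l jst j : ℕ} {h1 : ℝ} (h : A.DH q l h1 jst) (hj : jst < j) (hjl : j ≤ l)
    {i : ℕ} (hij : i ≤ j) (hT : Tent y q l h1 (2 * y.s j) i)
    (hc : ∀ ρ, y.k.eps1 * h1 ≤ ρ → ρ ≤ 2 * (y.k.eps1 * h1) →
      ∃ z, ‖z - q‖ = ρ ∧ ‖y.S i z‖ ≤ Real.exp (y.k.del * (2 * y.s j) / 2)) :
    Near y q l h1 (2 * y.s j) i := by
  have hH := y.H_ge
  have hHp := y.H_pos
  have hja : y.a0 ≤ j := (A.ha.trans h.a_le).trans hj.le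
  have hsj := y.s_ge j hja
  have hsp := y.s_pos j
  have hCR := y.k.CR_ge
  have heps := y.k.eps1_pos
  have hh1 : 0 < h1 := by
    have e1 := y.k.C33_a
    have e2 := y.k.X_c
    have e3 := y.k.C2_b
    have e4 : 0 < y.k.C33 := by linarith
    exact lt_of_lt_of_le (mul_pos e4 (y.r_pos l)) h.lo
  set M : ℝ := 2 * y.s j with hM
  have hMpos : 0 < M := by rw [hM]; linarith
  -- `del = 1 / (100 H)`
  have hdel : y.k.del * (100 * y.k.H) = 1 := by
    unfold Cst.del
    field_simp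
  have hdp : 0 < y.k.del := by
    unfold Cst.del
    positivity
  have hMbig : 200000 * (y.k.H : ℝ) ≤ M := by
    have := y.k.S0_a
    rw [hM]; linarith
  have hdM : 2000 ≤ y.k.del * M := by
    have e1 := mul_le_mul_of_nonneg_left hMbig hdp.le
    have e2 : y.k.del * (200000 * (y.k.H : ℝ)) = 2000 * (y.k.del * (100 * y.k.H)) := by ring
    rw [e2, hdel] at e1
    linarith
  -- the exponents
  have hKi : (y.K i : ℝ) ≤ 2 * (y.k.H : ℝ) ^ i := by
    have := y.lev.K_lt i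
    exact_mod_cast this.le
  have hPow : (0 : ℝ) < (y.k.H : ℝ) ^ i := pow_pos hHp i
  have hmem : ∀ p ∈ suppN y.c (y.K i + 1), y.c p ≠ 0 ∧ p ≤ y.K i := by
    intro p hp
    rw [mem_suppN] at hp
    exact ⟨hp.2, by omega⟩
  have hP : ∀ p ∈ suppN y.c (y.K i + 1), (p : ℝ) ≤ 2 * (y.k.H : ℝ) ^ i := by
    intro p hp
    have : (p : ℝ) ≤ y.K i := by exact_mod_cast (hmem p hp).2
    linarith
  have hcard : ((suppN y.c (y.K i + 1)).card : ℝ) ≤ (y.k.H : ℝ) ^ i * y.d i := by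
    apply y.lev.card_le i
    intro p hp
    refine ⟨(hmem p hp).1, ?_⟩
    have e1 := (hmem p hp).2
    have e2 := y.lev.K_lt i
    have e3 : 2 * y.k.H ^ i ≤ y.k.H ^ (i + 1) := by
      rw [pow_succ, mul_comm]
      exact Nat.mul_le_mul_left _ (by have := y.k.H_ge; omega)
    omega
  -- the exponent in Remez
  have hX : y.k.CR * (((suppN y.c (y.K i + 1)).card : ℝ) + 2 * (y.k.H : ℝ) ^ i * (y.k.eps1 * h1) + 1)
      ≤ y.k.del * M / 4 := by
    have e1 : (y.k.H : ℝ) ^ i * y.d i ≤ y.k.sig * (y.k.H * y.k.C4 * M) := by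
      have f1 := mul_le_mul_of_nonneg_left hT.di hPow.le
      have f2 := mul_le_mul_of_nonneg_left hT.hi y.k.sig_pos.le
      have f3 : (y.k.H : ℝ) ^ i * (y.k.sig * h1) = y.k.sig * ((y.k.H : ℝ) ^ i * h1) := by ring
      linarith
    have e2 : 2 * (y.k.H : ℝ) ^ i * (y.k.eps1 * h1) ≤ 2 * y.k.eps1 * (y.k.H * y.k.C4 * M) := by
      have f2 := mul_le_mul_of_nonneg_left hT.hi (by positivity : 0 ≤ 2 * y.k.eps1)
      have f3 : 2 * (y.k.H : ℝ) ^ i * (y.k.eps1 * h1) = 2 * y.k.eps1 * ((y.k.H : ℝ) ^ i * h1) := by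
        ring
      linarith
    -- multiply by `1600 H`
    have g1 : y.k.CR * (y.k.sig * (y.k.H * y.k.C4 * M)) * (1600 * y.k.H) ≤ M := by
      have f1 := mul_le_mul_of_nonneg_right y.k.sig_e hMpos.le
      have f2 : y.k.CR * (y.k.sig * (y.k.H * y.k.C4 * M)) * (1600 * y.k.H) =
          y.k.CR * (y.k.sig * y.k.H * y.k.C4) * (1600 * y.k.H) * M := by ring
      linarith
    have g2 : y.k.CR * (2 * y.k.eps1 * (y.k.H * y.k.C4 * M)) * (1600 * y.k.H) ≤ M := by
      have f1 := mul_le_mul_of_nonneg_right y.k.eps1_a hMpos.le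
      have f2 : y.k.CR * (2 * y.k.eps1 * (y.k.H * y.k.C4 * M)) * (1600 * y.k.H) =
          y.k.CR * (2 * y.k.eps1 * y.k.H * y.k.C4) * (1600 * y.k.H) * M := by ring
      linarith
    have g3 : y.k.CR * (1600 * y.k.H) ≤ M / 2 := by
      have f1 := y.k.S0_b
      have f2 : 0 < y.k.CR * y.k.H := mul_pos (by linarith) hHp
      have f3 : 100 * y.k.CR * (100 * (y.k.H : ℝ)) = 10000 * (y.k.CR * y.k.H) := by ring
      have f4 : y.k.CR * (1600 * (y.k.H : ℝ)) = 1600 * (y.k.CR * y.k.H) := by ring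
      rw [hM]
      linarith
    have g4 : y.k.CR * (((suppN y.c (y.K i + 1)).card : ℝ) +
        2 * (y.k.H : ℝ) ^ i * (y.k.eps1 * h1) + 1) * (1600 * y.k.H) ≤ 5 / 2 * M := by
      have f1 : ((suppN y.c (y.K i + 1)).card : ℝ) + 2 * (y.k.H : ℝ) ^ i * (y.k.eps1 * h1) + 1 ≤
          y.k.sig * (y.k.H * y.k.C4 * M) + 2 * y.k.eps1 * (y.k.H * y.k.C4 * M) + 1 := by linarith
      have f2 := mul_le_mul_of_nonneg_left f1 (by linarith : 0 ≤ y.k.CR)
      have f3 := mul_le_mul_of_nonneg_right f2 (by positivity : (0 : ℝ) ≤ 1600 * y.k.H)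
      have f4 : y.k.CR * (y.k.sig * (y.k.H * y.k.C4 * M) + 2 * y.k.eps1 * (y.k.H * y.k.C4 * M) + 1) *
          (1600 * y.k.H) = y.k.CR * (y.k.sig * (y.k.H * y.k.C4 * M)) * (1600 * y.k.H) +
          y.k.CR * (2 * y.k.eps1 * (y.k.H * y.k.C4 * M)) * (1600 * y.k.H) +
          y.k.CR * (1600 * y.k.H) := by ring
      linarith
    have g5 : y.k.del * M / 4 * (1600 * y.k.H) = 4 * M := by
      have : y.k.del * M / 4 * (1600 * y.k.H) = 4 * M * (y.k.del * (100 * y.k.H)) := by ring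
      rw [this, hdel, mul_one]
    have g6 : (0 : ℝ) < 1600 * y.k.H := by positivity
    refine le_of_mul_le_mul_right ?_ g6
    linarith
  have hsi : ∀ u : ℂ, ‖u - q‖ ≤ 2 * (y.k.eps1 * h1) →
      ‖y.S i u‖ ≤ Real.exp (3 * (y.k.del * M) / 4) := by
    intro u hu
    have e1 := y.k.rem y.c (suppN y.c (y.K i + 1)) (2 * (y.k.H : ℝ) ^ i) hP (by positivity) q
      (y.k.eps1 * h1) (mul_pos heps hh1) (Real.exp (y.k.del * M / 2)) (Real.exp_pos _).le
      (fun ρ h2 h3 => hc ρ h2 h3) u hu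
    refine e1.trans ?_
    rw [← Real.exp_add]
    apply Real.exp_le_exp.mpr
    linarith
  refine ⟨hT, hsi, ?_⟩
  intro u hu
  have h3 := hsi u hu
  have hu' : ‖u - q‖ ≤ h1 / 2000 := by
    have e1 := mul_le_mul_of_nonneg_right y.k.eps1_le hh1.le
    linarith
  have hre : |u.re - q.re| ≤ h1 / 2000 := by
    have := Complex.abs_re_le_norm (u - q)
    rw [Complex.sub_re] at this
    linarith
  have hre' := (abs_le.mp hre).2
  have hzre : (zT q h1).re = q.re + 3 * h1 / 200 := rfl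
  have hzT : ‖q - zT q h1‖ ≤ 13 * h1 / 200 := by
    have e1 := Complex.norm_le_abs_re_add_abs_im (q - zT q h1)
    have e2 : (q - zT q h1).re = -(3 * h1 / 200) := by
      rw [Complex.sub_re, hzre]; ring
    have e3 : (q - zT q h1).im = h1 / 20 := by
      rw [Complex.sub_im]
      show q.im - (q.im - h1 / 20) = _
      ring
    rw [e2, e3, abs_neg, abs_of_nonneg (by positivity), abs_of_nonneg (by positivity)] at e1
    linarith
  have hblk := hT.blk u (by
    have e1 : ‖u - zT q h1‖ ≤ ‖u - q‖ + ‖q - zT q h1‖ := by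
      have := norm_add_le (u - q) (q - zT q h1)
      simpa using this
    rw [hzre]
    linarith) (by rw [hzre]; linarith)
  have hsmall : Real.exp (-(y.k.C4 * M / 8000)) ≤ 1 := by
    rw [← Real.exp_zero]
    apply Real.exp_le_exp.mpr
    have e1 := y.k.C4_c
    have e2 : 0 ≤ y.k.C4 * M := mul_nonneg (by linarith) hMpos.le
    linarith
  have hsum : ‖y.S l u‖ ≤ ‖y.S i u‖ + ‖y.S l u - y.S i u‖ := by
    have := norm_add_le (y.S i u) (y.S l u - y.S i u)
    simpa using this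
  have hfin : Real.exp (3 * (y.k.del * M) / 4) + 1 ≤ Real.exp (y.k.del * M) := by
    have e1 : Real.exp (y.k.del * M) =
        Real.exp (3 * (y.k.del * M) / 4) * Real.exp (y.k.del * M / 4) := by
      rw [← Real.exp_add]; congr 1; ring
    have e2 : y.k.del * M / 4 + 1 ≤ Real.exp (y.k.del * M / 4) := Real.add_one_le_exp _
    have e3 : 1 ≤ Real.exp (3 * (y.k.del * M) / 4) := Real.one_le_exp (by linarith)
    rw [e1]
    nlinarith
  linarith

end Arc

end Pool.Agent.Mac
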