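import Pool.Agent.Mac.Poly
import Pool.Agent.GapReg.FsBasic

set_option autoImplicit false

/-!
# Points of a polygonal line are joined inside it; far left the function is small
-/

namespace Pool.Agent.Mac

open Finset Filter Topology
open Pool.Agent.MP_e061a3_an Pool.Agent.GapReg

/-- MODULE Pjoin. HINT. every point of the side `k` is joined to `v k` inside the side, `v k` to
`v (k+1)` by the side; induction, `PJ.trans`, `PJ.symm`. -/
theorem poly_join (v : ℕ → ℂ) (n : ℕ) (z : ℂ) (hz : z ∈ Poly v n) (w : ℂ) (hw : w ∈ Poly v n) :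
    PJ (Poly v n) z w := by
  have hside : ∀ k < n, segment ℝ (v k) (v (k + 1)) ⊆ Poly v n := fun k hk u hu => ⟨k, hk, hu⟩
  have hpt : ∀ u ∈ Poly v n, ∃ k, k < n ∧ PJ (Poly v n) u (v k) := by
    rintro u ⟨k, hk, hu⟩
    refine ⟨k, hk, PJ.of_segment (Set.Subset.trans ?_ (hside k hk))⟩
    exact (convex_segment (v k) (v (k + 1))).segment_subset hu (left_mem_segment ℝ _ _)
  have hv : ∀ k, k < n → PJ (Poly v n) (v 0) (v k) := by
    intro k
    induction k with
    | zero =>
      intro hk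
      exact PJ.refl (hside 0 hk (left_mem_segment ℝ _ _))
    | succ k ih =>
      intro hk
      exact (ih (by omega)).trans (PJ.of_segment (hside k (by omega)))
  obtain ⟨k, hk, h1⟩ := hpt z hz
  obtain ⟨l, hl, h2⟩ := hpt w hw
  exact (h1.trans (hv k hk).symm).trans ((hv l hl).trans h2.symm)

/-- Far left `|F| ≤ 1`. HINT. `unif_trunc` or the series directly: `‖Fs c w‖ ≤ ∑ ‖c m‖ e^(m x)`,
`c 0 = 0`, so `≤ e^x ∑ ‖c m‖` for `x = w.re ≤ 0`. -/
theorem far_left (c : ℕ → ℂ) (hc : Ent c) (h0 : c 0 = 0) :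
    ∃ XL : ℝ, ∀ w : ℂ, w.re ≤ XL → ‖Fs c w‖ ≤ 1 := by
  have hs : Summable (fun m : ℕ => ‖c m‖) := by
    have := (hc 1).norm
    simpa using this
  set S : ℝ := ∑' m : ℕ, ‖c m‖ with hS
  have hS0 : 0 ≤ S := tsum_nonneg fun m => norm_nonneg _
  refine ⟨-Real.log (S + 1), fun w hw => ?_⟩
  have hlog : 0 ≤ Real.log (S + 1) := Real.log_nonneg (by linarith)
  have hre : w.re ≤ 0 := by linarith
  have h1 : HasSum (fun m : ℕ => ‖c m‖ * Real.exp w.re) (S * Real.exp w.re) :=
    hs.hasSum.mul_right _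
  have h2 : ‖Fs c w‖ ≤ S * Real.exp w.re := by
    refine tsum_of_norm_bounded h1 fun m => ?_
    rcases Nat.eq_zero_or_pos m with rfl | hm
    · rw [h0]
      simp
    · rw [norm_mul, norm_pow, Complex.norm_exp]
      refine mul_le_mul_of_nonneg_left ?_ (norm_nonneg _)
      have h3 : Real.exp w.re ≤ 1 := Real.exp_le_one_iff.2 hre
      calc Real.exp w.re ^ m ≤ Real.exp w.re ^ 1 :=
            pow_le_pow_of_le_one (Real.exp_pos _).le h3 hm
        _ = Real.exp w.re := pow_one _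
  have h4 : Real.exp w.re ≤ (S + 1)⁻¹ := by
    rw [← Real.exp_log (show (0 : ℝ) < S + 1 by linarith), ← Real.exp_neg]
    exact Real.exp_le_exp.2 hw
  calc ‖Fs c w‖ ≤ S * Real.exp w.re := h2
    _ ≤ S * (S + 1)⁻¹ := mul_le_mul_of_nonneg_left h4 hS0
    _ ≤ 1 := by
      rw [← div_eq_mul_inv, div_le_one (by linarith)]
      linarith

end Pool.Agent.Mac
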