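import Pool.Agent.Mac.Smp

set_option autoImplicit false

/-!
# Harmonic comparison on the rectangle (10.3)
-/

namespace Pool.Agent.Mac

open Finset Filter Topology
open Pool.Agent.MP_e061a3_an Pool.Agent.GapReg

/-- The closed rectangle of 10.3. -/
def RR0 : Set ℂ := {ζ | -(1 / 4) ≤ ζ.re ∧ ζ.re ≤ 1 / 4 ∧ 1 / 800 ≤ ζ.im ∧ ζ.im ≤ 3 * Real.pi}

/-- Its interior. -/
def RR1 : Set ℂ := {ζ | -(1 / 4) < ζ.re ∧ ζ.re < 1 / 4 ∧ 1 / 800 < ζ.im ∧ ζ.im < 3 * Real.pi}

theorem Rect_closed : IsClosed RR0 := by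
  have h1 : IsClosed {ζ : ℂ | -(1 / 4) ≤ ζ.re} := isClosed_le continuous_const Complex.continuous_re
  have h2 : IsClosed {ζ : ℂ | ζ.re ≤ 1 / 4} := isClosed_le Complex.continuous_re continuous_const
  have h3 : IsClosed {ζ : ℂ | 1 / 800 ≤ ζ.im} := isClosed_le continuous_const Complex.continuous_im
  have h4 : IsClosed {ζ : ℂ | ζ.im ≤ 3 * Real.pi} :=
    isClosed_le Complex.continuous_im continuous_const
  exact h1.inter (h2.inter (h3.inter h4))

theorem Rect_open : IsOpen RR1 := by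
  have h1 : IsOpen {ζ : ℂ | -(1 / 4) < ζ.re} := isOpen_lt continuous_const Complex.continuous_re
  have h2 : IsOpen {ζ : ℂ | ζ.re < 1 / 4} := isOpen_lt Complex.continuous_re continuous_const
  have h3 : IsOpen {ζ : ℂ | 1 / 800 < ζ.im} := isOpen_lt continuous_const Complex.continuous_im
  have h4 : IsOpen {ζ : ℂ | ζ.im < 3 * Real.pi} :=
    isOpen_lt Complex.continuous_im continuous_const
  exact h1.inter (h2.inter (h3.inter h4))

theorem Rect_sub : RR1 ⊆ RR0 := fun _ h => ⟨h.1.le, h.2.1.le, h.2.2.1.le, h.2.2.2.le⟩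

theorem Rect_closure : closure RR1 ⊆ RR0 := closure_minimal Rect_sub Rect_closed

theorem Rect_bdd : Bornology.IsBounded RR1 := by
  refine (Metric.isBounded_iff_subset_closedBall (0 : ℂ)).mpr ⟨1 + 3 * Real.pi, ?_⟩
  intro ζ h
  rw [mem_closedBall_zero_iff]
  have h1 := Complex.norm_le_abs_re_add_abs_im ζ
  have h2 : |ζ.re| ≤ 1 := abs_le.mpr ⟨by linarith [h.1], by linarith [h.2.1]⟩
  have h3 : |ζ.im| ≤ 3 * Real.pi := by
    rw [abs_of_pos (by linarith [h.2.2.1])]
    exact h.2.2.2.le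
  linarith

/-- The comparison function. -/
noncomputable def Rect_g (Y X : ℝ) (ζ : ℂ) : ℂ :=
  ((-Y / Real.sinh (6 * Real.pi ^ 2) : ℝ) : ℂ) *
      Complex.sinh (2 * Real.pi * (3 * Real.pi + Complex.I * ζ)) +
    ((X / Real.cos (Real.pi / 6) : ℝ) : ℂ) * Complex.cosh ((ζ - 3 * Real.pi / 2 * Complex.I) / 9)

theorem Rect_g_re (Y X : ℝ) (ζ : ℂ) : (Rect_g Y X ζ).re =
    -Y / Real.sinh (6 * Real.pi ^ 2) *
      (Real.sinh (2 * Real.pi * (3 * Real.pi - ζ.im)) * Real.cos (2 * Real.pi * ζ.re)) +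
    X / Real.cos (Real.pi / 6) *
      (Real.cosh (ζ.re / 9) * Real.cos ((ζ.im - 3 * Real.pi / 2) / 9)) := by
  unfold Rect_g
  rw [Complex.add_re, Complex.re_ofReal_mul, Complex.re_ofReal_mul]
  have e1 : (2 * (Real.pi : ℂ) * (3 * Real.pi + Complex.I * ζ)) =
      ((2 * Real.pi * (3 * Real.pi - ζ.im) : ℝ) : ℂ) +
        ((2 * Real.pi * ζ.re : ℝ) : ℂ) * Complex.I := by
    apply Complex.ext <;> simp <;> ring
  have e2 : (ζ - 3 * (Real.pi : ℂ) / 2 * Complex.I) / 9 =
      ((ζ.re / 9 : ℝ) : ℂ) + (((ζ.im - 3 * Real.pi / 2) / 9 : ℝ) : ℂ) * Complex.I := by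
    apply Complex.ext
    · simp
    · simp
  rw [e1, e2, Complex.sinh_add, Complex.cosh_add, Complex.cosh_mul_I, Complex.sinh_mul_I,
    Complex.cosh_mul_I, Complex.sinh_mul_I]
  simp only [← Complex.ofReal_sinh, ← Complex.ofReal_cosh, ← Complex.ofReal_cos,
    ← Complex.ofReal_sin, Complex.add_re, Complex.re_ofReal_mul, Complex.ofReal_re,
    Complex.mul_re, Complex.I_re, Complex.I_im, Complex.ofReal_im, Complex.mul_im]
  ring

theorem Rect_g_diff (Y X : ℝ) : Differentiable ℂ (Rect_g Y X) := by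
  unfold Rect_g
  fun_prop

theorem Rect_cos6 : 0 < Real.cos (Real.pi / 6) :=
  Real.cos_pos_of_mem_Ioo ⟨by linarith [Real.pi_pos], by linarith [Real.pi_pos]⟩

theorem Rect_X {X : ℝ} (hX : 0 ≤ X) {ζ : ℂ} (hζ : ζ ∈ RR0) : X ≤
    X / Real.cos (Real.pi / 6) *
      (Real.cosh (ζ.re / 9) * Real.cos ((ζ.im - 3 * Real.pi / 2) / 9)) := by
  have hc := Rect_cos6
  have h1 : 1 ≤ Real.cosh (ζ.re / 9) := Real.one_le_cosh _
  have h2 : Real.cos (Real.pi / 6) ≤ Real.cos ((ζ.im - 3 * Real.pi / 2) / 9) := by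
    rw [← Real.cos_abs ((ζ.im - 3 * Real.pi / 2) / 9)]
    apply Real.cos_le_cos_of_nonneg_of_le_pi (abs_nonneg _) (by linarith [Real.pi_pos])
    rw [abs_le]
    have h3 := hζ.2.2.1
    have h4 := hζ.2.2.2
    constructor <;> linarith [Real.pi_pos]
  have h3 : Real.cos (Real.pi / 6) ≤
      Real.cosh (ζ.re / 9) * Real.cos ((ζ.im - 3 * Real.pi / 2) / 9) := by nlinarith
  calc X = X / Real.cos (Real.pi / 6) * Real.cos (Real.pi / 6) := by
        rw [div_mul_cancel₀ _ hc.ne']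
    _ ≤ _ := mul_le_mul_of_nonneg_left h3 (div_nonneg hX hc.le)

/-- MODULE Rect. -/
theorem rect (u : ℂ → ℝ) (Y X : ℝ) (hY : 0 ≤ Y) (hX : 0 ≤ X) (hc : ContinuousOn u RR0)
    (hs : ∀ z ∈ RR1, ∃ f : ℂ → ℂ, AnalyticAt ℂ f z ∧ ‖f z‖ = Real.exp (u z) ∧
      ∀ᶠ w in 𝓝 z, ‖f w‖ ≤ Real.exp (u w))
    (hle : ∀ ζ ∈ RR0, u ζ ≤ X) (hbot : ∀ ζ ∈ RR0, ζ.im = 1 / 800 → u ζ ≤ -Y)
    (htop : ∀ ζ ∈ RR0, ζ.im = 3 * Real.pi → u ζ ≤ 0) :
    u (2 * Real.pi * Complex.I) * Real.sinh (6 * Real.pi ^ 2) ≤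
      -(Y * Real.sinh (2 * Real.pi ^ 2)) + 2 * X * Real.sinh (6 * Real.pi ^ 2) := by
  have hpi := Real.pi_pos
  have hsh : 0 < Real.sinh (6 * Real.pi ^ 2) := Real.sinh_pos_iff.mpr (by positivity)
  have key := smp RR1 Rect_open Rect_bdd (fun ζ => u ζ - (Rect_g Y X ζ).re)
    (((hc.mono Rect_closure).sub
      (Complex.continuous_re.comp (Rect_g_diff Y X).continuous).continuousOn)) 0
    (by
      intro ζ hζ
      have h0 : ζ ∈ RR0 := Rect_closure hζ.1
      have h1 : ζ ∉ RR1 := by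
        have := hζ.2
        rwa [Rect_open.interior_eq] at this
      have hXl := Rect_X hX h0
      show u ζ - (Rect_g Y X ζ).re ≤ 0
      rw [Rect_g_re]
      have hcases : ζ.re = -(1 / 4) ∨ ζ.re = 1 / 4 ∨ ζ.im = 1 / 800 ∨ ζ.im = 3 * Real.pi := by
        by_contra hcon
        push Not at hcon
        obtain ⟨c1, c2, c3, c4⟩ := hcon
        exact h1 ⟨lt_of_le_of_ne h0.1 (Ne.symm c1), lt_of_le_of_ne h0.2.1 c2,
          lt_of_le_of_ne h0.2.2.1 (Ne.symm c3), lt_of_le_of_ne h0.2.2.2 c4⟩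
      rcases hcases with h | h | h | h
      · have e : Real.cos (2 * Real.pi * ζ.re) = 0 := by
          rw [h, show 2 * Real.pi * (-(1 / 4)) = -(Real.pi / 2) by ring, Real.cos_neg,
            Real.cos_pi_div_two]
        rw [e, mul_zero, mul_zero, zero_add]
        linarith [hle ζ h0]
      · have e : Real.cos (2 * Real.pi * ζ.re) = 0 := by
          rw [h, show 2 * Real.pi * (1 / 4) = Real.pi / 2 by ring, Real.cos_pi_div_two]
        rw [e, mul_zero, mul_zero, zero_add]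
        linarith [hle ζ h0]
      · have hu := hbot ζ h0 h
        have c0 : 0 ≤ Real.cos (2 * Real.pi * ζ.re) := by
          apply Real.cos_nonneg_of_mem_Icc
          constructor
          · nlinarith [h0.1]
          · nlinarith [h0.2.1]
        have c1 : Real.cos (2 * Real.pi * ζ.re) ≤ 1 := Real.cos_le_one _
        have s1 : Real.sinh (2 * Real.pi * (3 * Real.pi - ζ.im)) ≤
            Real.sinh (6 * Real.pi ^ 2) := by
          apply Real.sinh_le_sinh.mpr
          rw [h]; nlinarith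
        have s0 : 0 ≤ Real.sinh (2 * Real.pi * (3 * Real.pi - ζ.im)) := by
          apply Real.sinh_nonneg_iff.mpr
          have := h0.2.2.2
          have h5 : 0 ≤ 3 * Real.pi - ζ.im := by linarith
          positivity
        have s2 : Real.sinh (2 * Real.pi * (3 * Real.pi - ζ.im)) *
            Real.cos (2 * Real.pi * ζ.re) ≤ Real.sinh (6 * Real.pi ^ 2) := by nlinarith
        have s3 : -Y ≤ -Y / Real.sinh (6 * Real.pi ^ 2) *
            (Real.sinh (2 * Real.pi * (3 * Real.pi - ζ.im)) * Real.cos (2 * Real.pi * ζ.re)) := by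
          have e : -Y / Real.sinh (6 * Real.pi ^ 2) * Real.sinh (6 * Real.pi ^ 2) = -Y :=
            div_mul_cancel₀ _ hsh.ne'
          have hn : -Y / Real.sinh (6 * Real.pi ^ 2) ≤ 0 :=
            div_nonpos_of_nonpos_of_nonneg (by linarith) hsh.le
          nlinarith [mul_le_mul_of_nonpos_left s2 hn]
        linarith
      · have hu := htop ζ h0 h
        rw [h, sub_self, mul_zero, Real.sinh_zero, zero_mul, mul_zero, zero_add]
        rw [h] at hXl
        linarith)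
    (by
      intro z hz
      obtain ⟨f, hf1, hf2, hf3⟩ := hs z hz
      refine ⟨fun w => f w * Complex.exp (-(Rect_g Y X w)), ?_, ?_, ?_⟩
      · have h1 : AnalyticAt ℂ (Rect_g Y X) z := (Rect_g_diff Y X).analyticAt z
        exact hf1.mul (h1.neg.cexp)
      · show ‖f z * Complex.exp (-(Rect_g Y X z))‖ = Real.exp (u z - (Rect_g Y X z).re)
        rw [norm_mul, Complex.norm_exp, hf2, Complex.neg_re, ← Real.exp_add, sub_eq_add_neg]
      · filter_upwards [hf3] with w hw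
        show ‖f w * Complex.exp (-(Rect_g Y X w))‖ ≤ Real.exp (u w - (Rect_g Y X w).re)
        rw [norm_mul, Complex.norm_exp, Complex.neg_re, sub_eq_add_neg, Real.exp_add]
        exact mul_le_mul_of_nonneg_right hw (Real.exp_pos _).le)
  have hre : (2 * (Real.pi : ℂ) * Complex.I).re = 0 := by simp
  have him : (2 * (Real.pi : ℂ) * Complex.I).im = 2 * Real.pi := by simp
  have hmem : (2 * (Real.pi : ℂ) * Complex.I) ∈ RR1 := by
    refine ⟨?_, ?_, ?_, ?_⟩
    · rw [hre]; norm_num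
    · rw [hre]; norm_num
    · rw [him]; linarith [Real.pi_gt_three]
    · rw [him]; linarith
  have h := key _ hmem
  have h' : u (2 * Real.pi * Complex.I) ≤ (Rect_g Y X (2 * Real.pi * Complex.I)).re := by
    have : u (2 * Real.pi * Complex.I) - (Rect_g Y X (2 * Real.pi * Complex.I)).re ≤ 0 := h
    linarith
  rw [Rect_g_re, hre, him] at h'
  rw [show 2 * Real.pi * (3 * Real.pi - 2 * Real.pi) = 2 * Real.pi ^ 2 by ring, mul_zero,
    Real.cos_zero, mul_one, zero_div, Real.cosh_zero, one_mul] at h'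
  have hc6 := Rect_cos6
  have hcle : Real.cos ((2 * Real.pi - 3 * Real.pi / 2) / 9) ≤ 1 := Real.cos_le_one _
  have hhalf : 1 / 2 ≤ Real.cos (Real.pi / 6) := by
    rw [Real.cos_pi_div_six]
    have : 1 ≤ Real.sqrt 3 := by
      rw [Real.one_le_sqrt]; norm_num
    linarith
  have hq : X / Real.cos (Real.pi / 6) * Real.cos ((2 * Real.pi - 3 * Real.pi / 2) / 9) ≤
      2 * X := by
    have h1 : X / Real.cos (Real.pi / 6) ≤ 2 * X := by
      rw [div_le_iff₀ hc6]
      nlinarith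
    have h0 : 0 ≤ X / Real.cos (Real.pi / 6) := div_nonneg hX hc6.le
    nlinarith
  have h2 : u (2 * Real.pi * Complex.I) ≤
      -Y / Real.sinh (6 * Real.pi ^ 2) * Real.sinh (2 * Real.pi ^ 2) + 2 * X := by linarith
  calc u (2 * Real.pi * Complex.I) * Real.sinh (6 * Real.pi ^ 2)
      ≤ (-Y / Real.sinh (6 * Real.pi ^ 2) * Real.sinh (2 * Real.pi ^ 2) + 2 * X) *
        Real.sinh (6 * Real.pi ^ 2) := mul_le_mul_of_nonneg_right h2 hsh.le
    _ = -(Y * Real.sinh (2 * Real.pi ^ 2)) + 2 * X * Real.sinh (6 * Real.pi ^ 2) := by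
        have : -Y / Real.sinh (6 * Real.pi ^ 2) * Real.sinh (2 * Real.pi ^ 2) *
            Real.sinh (6 * Real.pi ^ 2) = -(Y * Real.sinh (2 * Real.pi ^ 2)) := by
          field_simp
        rw [add_mul, this]

end Pool.Agent.Mac
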