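import Pool.Agent.Mac.WalkDef
import Pool.Agent.GapReg.FsBasic

set_option autoImplicit false

/-!
# Reflection: the WALK lemma for arcs going down
-/

namespace Pool.Agent.Mac

open Finset Filter Topology
open Pool.Agent.MP_e061a3_an Pool.Agent.GapReg

/-- The WALK lemma when `v 0` is below `v n`. -/
def WalkU (H : ℕ) (sig C2 C30 CW S0 eps : ℝ) : Prop :=
  ∀ (c : ℕ → ℂ) (d : ℕ → ℝ) (K : ℕ → ℕ), Lev c H d K →
    ∀ (a m : ℕ), a < m → (∀ j, a ≤ j → S0 ≤ sz H d sig j) → (∀ j, a ≤ j → rr d sig j ≤ eps) →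
    ∀ (v : ℕ → ℂ) (n : ℕ), 0 < n → (∀ z ∈ Poly v n, ‖Fs c z‖ ≤ 1) →
      (∀ z ∈ Poly v n, Reach (Fs c) z) → (v 0).im < (v n).im →
      C30 * rr d sig m ≤ (v n).im - (v 0).im →
      Bd (Fs c) (sz H d sig m) (Cn 1 1 (v n)) →
      (∀ z ∈ Poly v n, z ∈ Cn 2 2 (v n - ((C2 * rr d sig m : ℝ) : ℂ)) → z = v 0) →
      ((v n).re - C2 * rr d sig m - (v 0).re = 2 * ((v n).im - (v 0).im) ∨
        (Bd (Fs c) (sz H d sig a) (Cn 1 1 (v 0)) ∧
          v 0 ∉ Cn 2 2 (v n - ((C2 * rr d sig m : ℝ) : ℂ)))) →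
      ∃ (l : ℕ) (lam : ℝ), a ≤ l ∧ l ≤ m ∧ 0 ≤ lam ∧ lam ≤ ((v n).im - (v 0).im) / 2 ∧
        lam ≤ CW * (Rs d sig l m + rr d sig m) ∧
        Bd (Fs c) (2 * sz H d sig l) (Cn 1 1 (v n - (lam : ℂ))) ∧
        (l = a ∨ (l < m ∧ (v n).im - (v 0).im ≤ CW * Rs d sig l m))

/-- MODULE Refl. Coefficients `conj (c m)`. -/
theorem lev_conj {c : ℕ → ℂ} {H : ℕ} {d : ℕ → ℝ} {K : ℕ → ℕ} (h : Lev c H d K) :
    Lev (fun m => (starRingEnd ℂ) (c m)) H d K := by
  have hne : ∀ m, ((starRingEnd ℂ) (c m) ≠ 0) = (c m ≠ 0) := fun m => by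
    rw [ne_eq, map_eq_zero]
  refine ⟨?_, ?_, h.H_ge, h.d_pos, h.d_up, h.d_dn, h.d_big, ?_, ?_, h.K_ge, h.K_lt, ?_⟩
  · intro z
    have h1 := (h.ent ((starRingEnd ℂ) z)).map (starRingEnd ℂ) Complex.continuous_conj
    refine h1.congr fun m => ?_
    simp [Function.comp]
  · show (starRingEnd ℂ) (c 0) = 0
    rw [h.zero, map_zero]
  · intro j T hT
    exact h.card_le j T fun m hm => by
      have := hT m hm
      rw [hne] at this
      exact this
  · intro j
    have := h.dens j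
    simp only [hne]
    exact this
  · intro j S hS
    exact h.good j S fun m hm => by
      have := hS m hm
      rw [hne] at this
      exact this

theorem Fs_conj (c : ℕ → ℂ) (w : ℂ) :
    Fs (fun m => (starRingEnd ℂ) (c m)) w = (starRingEnd ℂ) (Fs c ((starRingEnd ℂ) w)) := by
  unfold Fs
  rw [Complex.conj_tsum]
  refine tsum_congr fun m => ?_
  rw [map_mul, map_pow, ← Complex.exp_conj, Complex.conj_conj]

theorem Refl_norm (c : ℕ → ℂ) (w : ℂ) :
    ‖Fs (fun m => (starRingEnd ℂ) (c m)) w‖ = ‖Fs c ((starRingEnd ℂ) w)‖ := by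
  rw [Fs_conj, Complex.norm_conj]

theorem Refl_Cn (al : ℝ) (p w : ℂ) :
    w ∈ Cn al al ((starRingEnd ℂ) p) ↔ (starRingEnd ℂ) w ∈ Cn al al p := by
  unfold Cn
  simp only [Set.mem_ofPred_eq, Complex.conj_re, Complex.conj_im]
  constructor
  · rintro ⟨h1, h2⟩
    exact ⟨by linarith, by linarith⟩
  · rintro ⟨h1, h2⟩
    exact ⟨by linarith, by linarith⟩

theorem Refl_Bd (c : ℕ → ℂ) (M al : ℝ) (p : ℂ) :
    Bd (Fs (fun m => (starRingEnd ℂ) (c m))) M (Cn al al ((starRingEnd ℂ) p)) ↔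
      Bd (Fs c) M (Cn al al p) := by
  constructor
  · intro h w hw
    have h1 := h ((starRingEnd ℂ) w) ((Refl_Cn al p _).2 (by rwa [Complex.conj_conj]))
    rwa [Refl_norm, Complex.conj_conj] at h1
  · intro h w hw
    rw [Refl_norm]
    exact h _ ((Refl_Cn al p w).1 hw)

theorem Refl_Poly (v : ℕ → ℂ) (n : ℕ) (z : ℂ)
    (hz : z ∈ Poly (fun k => (starRingEnd ℂ) (v k)) n) : (starRingEnd ℂ) z ∈ Poly v n := by
  obtain ⟨k, hk, s, t, hs, ht, hst, rfl⟩ := hz
  refine ⟨k, hk, s, t, hs, ht, hst, ?_⟩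
  simp [Complex.real_smul]

theorem Refl_Reach (c : ℕ → ℂ) (z : ℂ) (h : Reach (Fs c) ((starRingEnd ℂ) z)) :
    Reach (Fs (fun m => (starRingEnd ℂ) (c m))) z := by
  intro ρ hρ
  obtain ⟨ζ, h1, h2⟩ := h ρ hρ
  refine ⟨(starRingEnd ℂ) ζ, ?_, ?_⟩
  · rw [← h1, ← Complex.norm_conj ((starRingEnd ℂ) ζ - z), map_sub, Complex.conj_conj]
  · rw [Refl_norm, Complex.conj_conj]
    exact h2

/-- HINT. `(v 0).im ≠ (v n).im` because of `C30 > 0`, `rr > 0`; if `(v n).im < (v 0).im` apply the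
hypothesis to the coefficients `conj (c m)` and the vertices `conj (v k)`. -/
theorem walkP_of_up {H : ℕ} {sig C2 C30 CW S0 eps : ℝ} (hs : 0 < sig) (h30 : 0 < C30)
    (h : WalkU H sig C2 C30 CW S0 eps) : WalkP H sig C2 C30 CW S0 eps := by
  intro c d K hL a m ham hS heps v n hn hone hreach hC hB hcone hcase
  have hr : 0 < rr d sig m := div_pos (hL.d_pos m) hs
  have hpos : 0 < |(v n).im - (v 0).im| := lt_of_lt_of_le (mul_pos h30 hr) hC
  rcases lt_or_gt_of_ne (abs_pos.mp hpos) with hneg | hpos'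
  · -- going down
    rw [abs_of_neg hneg] at hC hcase ⊢
    have e0 : ∀ k, ((fun k => (starRingEnd ℂ) (v k)) k).im = -(v k).im := fun k => rfl
    have e1 : ∀ k, ((fun k => (starRingEnd ℂ) (v k)) k).re = (v k).re := fun k => rfl
    have e2 : ∀ t : ℝ, (starRingEnd ℂ) (v n) - (t : ℂ) = (starRingEnd ℂ) (v n - (t : ℂ)) := by
      intro t
      rw [map_sub, Complex.conj_ofReal]
    obtain ⟨l, lam, g1, g2, g3, g4, g5, g6, g7⟩ := h (fun m => (starRingEnd ℂ) (c m)) d K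
      (lev_conj hL) a m ham hS heps (fun k => (starRingEnd ℂ) (v k)) n hn
      (fun z hz => by
        rw [Refl_norm]
        exact hone _ (Refl_Poly v n z hz))
      (fun z hz => Refl_Reach c z (hreach _ (Refl_Poly v n z hz)))
      (by rw [e0, e0]; linarith) (by rw [e0, e0]; linarith)
      ((Refl_Bd c _ 1 (v n)).2 hB)
      (fun z hz hz2 => by
        have h1 := hcone _ (Refl_Poly v n z hz) (by
          rw [← Refl_Cn, ← e2]
          exact hz2)
        show z = (starRingEnd ℂ) (v 0)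
        rw [← h1, Complex.conj_conj])
      (by
        rcases hcase with h1 | ⟨h1, h2⟩
        · left
          rw [e0, e0, e1, e1]
          linarith
        · right
          refine ⟨(Refl_Bd c _ 1 (v 0)).2 h1, fun h3 => h2 ?_⟩
          have h4 : (starRingEnd ℂ) (v 0) ∈ Cn 2 2 ((starRingEnd ℂ)
            (v n - ((C2 * rr d sig m : ℝ) : ℂ))) := by
            rw [← e2]
            exact h3
          rw [Refl_Cn, Complex.conj_conj] at h4
          exact h4)
    rw [e0, e0] at g4 g7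
    refine ⟨l, lam, g1, g2, g3, by linarith, g5, ?_, ?_⟩
    · have h5 : Bd (Fs fun m => (starRingEnd ℂ) (c m)) (2 * sz H d sig l)
          (Cn 1 1 ((starRingEnd ℂ) (v n - (lam : ℂ)))) := by
        rw [← e2]
        exact g6
      exact (Refl_Bd c _ 1 _).1 h5
    · rcases g7 with h6 | ⟨h6, h7⟩
      · left; exact h6
      · right; exact ⟨h6, by linarith⟩
  · rw [abs_of_pos hpos'] at hC hcase ⊢
    exact h c d K hL a m ham hS heps v n hn hone hreach (by linarith) hC hB hcone hcase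

end Pool.Agent.Mac
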