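import Pool.Agent.Mac.Defs
import Pool.Agent.MP_e061a3_an.ExpSum

set_option autoImplicit false

/-!
# A Remez type inequality on sets meeting all circles `|w - z₀| = ρ`, `r ≤ ρ ≤ 2 r`
-/

namespace Pool.Agent.Mac

open Finset Polynomial
open Pool.Agent.MP_e061a3_an Pool.Agent.GapReg

/-- Remez type inequality for polynomials, nodes with `|v i - v j| ≥ |i - j| r / d`. -/
private theorem poly_remez4 (T : ℂ[X]) (d : ℕ) (hd : 0 < d) (hT : T.degree < d) (v : ℕ → ℂ) (r : ℝ)
    (hr : 0 < r) (hv : ∀ i < d, ∀ j < d, |(i:ℝ) - j| * (r / d) ≤ ‖v i - v j‖) (w : ℂ)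
    (hw : ∀ j < d, ‖w - v j‖ ≤ 4 * r) (M : ℝ) (hM : 0 ≤ M) (hTM : ∀ i < d, ‖T.eval (v i)‖ ≤ M) :
    ‖T.eval w‖ ≤ 22 ^ d * M := by
  have hdR : (0:ℝ) < d := by exact_mod_cast hd
  have hinj : Set.InjOn v (range d : Finset ℕ) := by
    intro i hi j hj hij
    by_contra hne
    have h1 := hv i (mem_range.mp hi) j (mem_range.mp hj)
    rw [hij, sub_self, norm_zero] at h1
    have h2 : 0 < |(i:ℝ) - j| := by
      rw [abs_pos, sub_ne_zero]
      exact_mod_cast hne
    have : 0 < |(i:ℝ) - j| * (r / d) := by positivity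
    linarith
  have hint := Lagrange.eq_interpolate (s := range d) (v := v) (f := T) hinj (by simpa using hT)
  have hev : T.eval w = ∑ i ∈ range d, T.eval (v i) * (Lagrange.basis (range d) v i).eval w := by
    conv_lhs => rw [hint]
    rw [Lagrange.interpolate_apply, eval_finsetSum]
    apply sum_congr rfl
    intro i _
    rw [eval_mul, eval_C]
  have hbasis : ∀ i ∈ range d, ‖(Lagrange.basis (range d) v i).eval w‖
      ≤ (4 * d) ^ (d - 1) * ((d - 1).choose i : ℝ) / ((d - 1).factorial : ℝ) := by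
    intro i hi
    have hid := mem_range.mp hi
    have h1 : (Lagrange.basis (range d) v i).eval w
        = ∏ j ∈ (range d).erase i, ((v i - v j)⁻¹ * (w - v j)) := by
      unfold Lagrange.basis
      rw [eval_prod]
      apply prod_congr rfl
      intro j _
      simp [Lagrange.basisDivisor]
    rw [h1, norm_prod]
    have h2 : ∏ j ∈ (range d).erase i, ‖(v i - v j)⁻¹ * (w - v j)‖
        ≤ ∏ j ∈ (range d).erase i, ((4 * d) * (|(i:ℝ) - j|)⁻¹) := by
      apply prod_le_prod
      · intro j _; exact norm_nonneg _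
      · intro j hj
        have hj' := mem_erase.mp hj
        have hjd := mem_range.mp hj'.2
        have hpos : 0 < |(i:ℝ) - j| := by
          rw [abs_pos, sub_ne_zero]
          exact_mod_cast (Ne.symm hj'.1)
        rw [norm_mul, norm_inv]
        have h3 : (‖v i - v j‖)⁻¹ ≤ (|(i:ℝ) - j| * (r / d))⁻¹ := by
          apply inv_anti₀ (by positivity)
          exact hv i hid j hjd
        calc ‖v i - v j‖⁻¹ * ‖w - v j‖ ≤ (|(i:ℝ) - j| * (r / d))⁻¹ * (4 * r) :=
              mul_le_mul h3 (hw j hjd) (norm_nonneg _) (by positivity)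
          _ = (4 * d) * (|(i:ℝ) - j|)⁻¹ := by
              field_simp
    refine h2.trans ?_
    rw [prod_mul_distrib, prod_const, card_erase_of_mem hi, card_range, prod_inv_distrib,
      prod_erase_range d i hid]
    have h4 : ((d - 1).choose i : ℝ) * ((i.factorial : ℝ) * ((d - 1 - i).factorial : ℝ))
        = ((d - 1).factorial : ℝ) := by
      have := Nat.choose_mul_factorial_mul_factorial (show i ≤ d - 1 by omega)
      rw [← mul_assoc]
      exact_mod_cast this
    have hf1 : (0:ℝ) < (i.factorial : ℝ) * ((d - 1 - i).factorial : ℝ) := by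
      have := Nat.factorial_pos i
      have := Nat.factorial_pos (d - 1 - i)
      positivity
    have hf2 : (0:ℝ) < ((d - 1).factorial : ℝ) := by
      exact_mod_cast Nat.factorial_pos (d - 1)
    apply le_of_eq
    rw [eq_div_iff hf2.ne', ← h4]
    field_simp
  rw [hev]
  calc ‖∑ i ∈ range d, T.eval (v i) * (Lagrange.basis (range d) v i).eval w‖
      ≤ ∑ i ∈ range d, M * ((4 * d) ^ (d - 1) * ((d - 1).choose i : ℝ) / ((d - 1).factorial : ℝ)) := by
        apply (norm_sum_le _ _).trans
        apply sum_le_sum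
        intro i hi
        rw [norm_mul]
        exact mul_le_mul (hTM i (mem_range.mp hi)) (hbasis i hi) (norm_nonneg _) hM
    _ = M * ((4 * d) ^ (d - 1) * (2:ℝ) ^ (d - 1) / ((d - 1).factorial : ℝ)) := by
        rw [← mul_sum]
        congr 1
        rw [← sum_div, ← mul_sum]
        congr 2
        have h5 := Nat.sum_range_choose (d - 1)
        have h6 : d - 1 + 1 = d := by omega
        rw [h6] at h5
        exact_mod_cast h5
    _ ≤ 22 ^ d * M := by
        rw [mul_comm]
        apply mul_le_mul_of_nonneg_right _ hM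
        obtain ⟨e, rfl⟩ : ∃ e, d = e + 1 := ⟨d - 1, by omega⟩
        simp only [Nat.add_sub_cancel]
        have h7 : ((4:ℝ) * ((e + 1 : ℕ) : ℝ)) ^ e * 2 ^ e / (e.factorial : ℝ)
            = 8 ^ e * ((((e + 1 : ℕ) : ℝ)) ^ (e + 1) / ((e + 1).factorial : ℝ)) := by
          rw [Nat.factorial_succ, mul_pow]
          push_cast
          have h8 : (0:ℝ) < (e:ℝ) + 1 := by positivity
          have h9 : (0:ℝ) < (e.factorial : ℝ) := by exact_mod_cast Nat.factorial_pos e
          have h10 : (8:ℝ) ^ e = 4 ^ e * 2 ^ e := by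
            rw [← mul_pow]; norm_num
          rw [h10, pow_succ]
          field_simp
        rw [h7]
        have h11 := pow_div_factorial_le_exp_nat (e + 1)
        have h12 : Real.exp ((e + 1 : ℕ) : ℝ) = Real.exp 1 ^ (e + 1) := by
          rw [← Real.exp_nat_mul]; simp
        have h13 : Real.exp 1 ≤ 2.75 := by
          have := Real.exp_one_lt_d9
          linarith
        calc (8:ℝ) ^ e * ((((e + 1 : ℕ) : ℝ)) ^ (e + 1) / ((e + 1).factorial : ℝ))
            ≤ 8 ^ e * (2.75 ^ (e + 1)) := by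
              apply mul_le_mul_of_nonneg_left _ (by positivity)
              refine h11.trans ?_
              rw [h12]
              exact pow_le_pow_left₀ (Real.exp_pos 1).le h13 _
          _ ≤ 8 ^ (e + 1) * (2.75 ^ (e + 1)) := by
              apply mul_le_mul_of_nonneg_right _ (by positivity)
              exact pow_le_pow_right₀ (by norm_num) (Nat.le_succ e)
          _ = 22 ^ (e + 1) := by
              rw [← mul_pow]; norm_num

theorem remP : RemP 500 := by
  intro c S P hP hP0 z₀ r hr M hM hE w hw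
  have hr2 : 0 < 2 * r := by positivity
  -- maximum on the closed disc
  obtain ⟨ws, hws, hmax⟩ := (isCompact_closedBall z₀ (2 * r)).exists_isMaxOn
    ⟨z₀, Metric.mem_closedBall_self hr2.le⟩
    ((differentiable_expSum c S).continuous.norm.continuousOn)
  set B := ‖expSum c S ws‖ with hB
  have hB0 : 0 ≤ B := norm_nonneg _
  have hball : ∀ u, ‖u - z₀‖ ≤ 2 * r → ‖expSum c S u‖ ≤ B := by
    intro u hu
    exact hmax (by rw [Metric.mem_closedBall, dist_eq_norm]; exact hu)
  set n := S.card with hn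
  set A : ℝ := (2 * Real.exp 1 * (60 : ℕ)) ^ n * Real.exp (P * (120 * r)) with hA
  have hA1 : 1 ≤ A := by
    have he : (1:ℝ) ≤ Real.exp 1 := Real.one_le_exp (by norm_num)
    have h1 : (1:ℝ) ≤ (2 * Real.exp 1 * (60 : ℕ)) ^ n := by
      apply one_le_pow₀
      push_cast
      linarith
    have h2 : (1:ℝ) ≤ Real.exp (P * (120 * r)) := Real.one_le_exp (by positivity)
    rw [hA]
    nlinarith
  have hbig : ∀ u, ‖u - z₀‖ ≤ 60 * (2 * r) → ‖expSum c S u‖ ≤ A * B := by
    intro u hu
    have h := expSum_from_disc c S P hP hP0 z₀ u (60 * (2 * r)) (2 * r) 60 (by norm_num) hu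
      (by norm_num) B hB0 hball
    refine h.trans ?_
    rw [hA]
    apply mul_le_mul_of_nonneg_right _ hB0
    apply mul_le_mul_of_nonneg_left _ (by positivity)
    apply Real.exp_le_exp.mpr
    apply mul_le_mul_of_nonneg_left _ hP0
    apply max_le (by positivity)
    have h1 : u.re - z₀.re ≤ ‖u - z₀‖ := by
      rw [← Complex.sub_re]
      exact (le_abs_self _).trans (Complex.abs_re_le_norm _)
    linarith
  have he27 : (2.7:ℝ) ≤ Real.exp 1 := by
    have := Real.exp_one_gt_d9
    linarith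
  -- degree of the Taylor polynomial
  obtain ⟨d, hd1, hd2, hd3⟩ : ∃ d : ℕ, 0 < d ∧ (8 * A ≤ (60 / 22 : ℝ) ^ d ∧
      (22:ℝ) ^ d ≤ Real.exp (480 * (n + P * r) + 16)) := by
    set X : ℝ := 120 * (n + P * r) + 3.5 with hX
    have hPr : 0 ≤ P * r := by positivity
    have hX0 : 0 ≤ X := by rw [hX]; positivity
    refine ⟨⌈X⌉₊, ?_, ?_, ?_⟩
    · rw [Nat.ceil_pos, hX]
      positivity
    · have hc := Nat.le_ceil X
      have he1 : Real.exp 1 ≤ 60 / 22 := by
        have := Real.exp_one_lt_d9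
        linarith
      have h1 : Real.exp X ≤ (60 / 22 : ℝ) ^ ⌈X⌉₊ := by
        calc Real.exp X ≤ Real.exp (⌈X⌉₊ : ℝ) := Real.exp_le_exp.mpr hc
          _ = Real.exp 1 ^ ⌈X⌉₊ := by rw [← Real.exp_nat_mul]; simp
          _ ≤ _ := pow_le_pow_left₀ (Real.exp_pos 1).le he1 _
      refine le_trans ?_ h1
      -- 8 A ≤ exp X
      have h8 : (8:ℝ) ≤ Real.exp 3.5 := by
        calc (8:ℝ) ≤ 2.7 ^ 3 := by norm_num
          _ ≤ Real.exp 1 ^ 3 := pow_le_pow_left₀ (by norm_num) he27 3
          _ = Real.exp 3 := by rw [← Real.exp_nat_mul]; norm_num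
          _ ≤ Real.exp 3.5 := Real.exp_le_exp.mpr (by norm_num)
      have h3 : (2 * Real.exp 1 * (60 : ℕ)) ^ n ≤ Real.exp (6 * n) := by
        have h4 : (2 * Real.exp 1 * (60 : ℕ) : ℝ) ≤ Real.exp 6 := by
          have h6 : Real.exp 6 = Real.exp 1 ^ 5 * Real.exp 1 := by
            rw [← Real.exp_nat_mul, ← Real.exp_add]
            norm_num
          rw [h6]
          have h7 : (120:ℝ) ≤ Real.exp 1 ^ 5 := by
            calc (120:ℝ) ≤ 2.7 ^ 5 := by norm_num
              _ ≤ _ := pow_le_pow_left₀ (by norm_num) he27 5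
          push_cast
          nlinarith [Real.exp_pos 1]
        calc (2 * Real.exp 1 * (60 : ℕ) : ℝ) ^ n ≤ Real.exp 6 ^ n :=
              pow_le_pow_left₀ (by positivity) h4 n
          _ = Real.exp (6 * n) := by rw [← Real.exp_nat_mul]; ring_nf
      calc 8 * A ≤ Real.exp 3.5 * (Real.exp (6 * n) * Real.exp (P * (120 * r))) := by
            rw [hA]
            apply mul_le_mul h8 _ (by positivity) (by positivity)
            apply mul_le_mul_of_nonneg_right h3 (by positivity)
        _ = Real.exp (3.5 + (6 * n + P * (120 * r))) := by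
            rw [← Real.exp_add, ← Real.exp_add]
        _ ≤ Real.exp X := by
            apply Real.exp_le_exp.mpr
            rw [hX]
            have : (0:ℝ) ≤ n := Nat.cast_nonneg n
            nlinarith
    · have hc := (Nat.ceil_lt_add_one hX0).le
      have h22 : (22:ℝ) ≤ Real.exp 3.5 := by
        have h3 : Real.exp 7 = Real.exp 3.5 ^ 2 := by
          rw [← Real.exp_nat_mul]; norm_num
        have h4 : (22:ℝ) ^ 2 ≤ Real.exp 3.5 ^ 2 := by
          rw [← h3]
          calc (22:ℝ) ^ 2 ≤ 2.7 ^ 7 := by norm_num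
            _ ≤ Real.exp 1 ^ 7 := pow_le_pow_left₀ (by norm_num) he27 7
            _ = Real.exp 7 := by rw [← Real.exp_nat_mul]; norm_num
        exact le_of_sq_le_sq h4 (Real.exp_pos _).le
      calc (22:ℝ) ^ ⌈X⌉₊ ≤ Real.exp 3.5 ^ ⌈X⌉₊ := pow_le_pow_left₀ (by norm_num) h22 _
        _ = Real.exp (⌈X⌉₊ * 3.5) := by rw [← Real.exp_nat_mul]
        _ ≤ Real.exp (480 * (n + P * r) + 16) := by
            apply Real.exp_le_exp.mpr
            have h5 : (⌈X⌉₊ : ℝ) ≤ 120 * (n + P * r) + 4.5 := by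
              have h6 := hX
              linarith [hc, h6]
            have : 0 ≤ (n:ℝ) + P * r := by positivity
            nlinarith
  -- Taylor polynomial
  obtain ⟨T, hTdeg, -, hTrem⟩ := taylor_remainder (expSum c S) (differentiable_expSum c S) z₀
    (2 * r) 60 (A * B) hr2 (by norm_num) (fun u hu => hbig u hu) d
  set ε : ℝ := 2 * (A * B) * (60⁻¹) ^ d with hε
  have hε0 : 0 ≤ ε := by rw [hε]; positivity
  -- nodes
  have hdR : (0:ℝ) < d := by exact_mod_cast hd1
  have hird : ∀ i : ℕ, i < d → (i:ℝ) * (r / d) ≤ r := by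
    intro i hi
    have hiR : (i:ℝ) ≤ d := by exact_mod_cast hi.le
    calc (i:ℝ) * (r / d) ≤ d * (r / d) := mul_le_mul_of_nonneg_right hiR (by positivity)
      _ = r := by field_simp
  have hnode : ∀ i : ℕ, ∃ v : ℂ, i < d → ‖v - z₀‖ = r + i * (r / d) ∧ ‖expSum c S v‖ ≤ M := by
    intro i
    by_cases hi : i < d
    · obtain ⟨v, hv1, hv2⟩ := hE (r + i * (r / d)) (by
        have : 0 ≤ (i:ℝ) * (r / d) := by positivity
        linarith) (by linarith [hird i hi])
      exact ⟨v, fun _ => ⟨hv1, hv2⟩⟩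
    · exact ⟨0, fun h => absurd h hi⟩
  choose v hv using hnode
  have hvr : ∀ i < d, ‖v i - z₀‖ ≤ 2 * r := by
    intro i hi
    rw [(hv i hi).1]
    linarith [hird i hi]
  have hsep : ∀ i < d, ∀ j < d, |(i:ℝ) - j| * (r / d) ≤ ‖v i - v j‖ := by
    intro i hi j hj
    have h1 : ‖v i - v j‖ = ‖(v i - z₀) - (v j - z₀)‖ := by congr 1; ring
    rw [h1]
    have h2 := abs_norm_sub_norm_le (v i - z₀) (v j - z₀)
    rw [(hv i hi).1, (hv j hj).1] at h2
    have h3 : r + (i:ℝ) * (r / d) - (r + j * (r / d)) = ((i:ℝ) - j) * (r / d) := by ring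
    rw [h3, abs_mul, abs_of_pos (show 0 < r / d by positivity)] at h2
    exact h2
  have hTn : ∀ i < d, ‖T.eval (v i)‖ ≤ M + ε := by
    intro i hi
    have h1 := hTrem (v i) (hvr i hi)
    have h2 : T.eval (v i) = expSum c S (v i) - (expSum c S (v i) - T.eval (v i)) := by ring
    rw [h2]
    exact (norm_sub_le _ _).trans (add_le_add (hv i hi).2 h1)
  have hTw : ∀ u, ‖u - z₀‖ ≤ 2 * r → ‖T.eval u‖ ≤ 22 ^ d * (M + ε) := by
    intro u hu
    apply poly_remez4 T d hd1 hTdeg v r hr hsep u _ (M + ε) (by positivity) hTn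
    intro j hj
    have : u - v j = (u - z₀) - (v j - z₀) := by ring
    rw [this]
    refine (norm_sub_le _ _).trans ?_
    linarith [hvr j hj]
  -- bound for B
  have hBle : B ≤ 22 ^ d * (M + ε) + ε := by
    have hws' : ‖ws - z₀‖ ≤ 2 * r := by
      rw [Metric.mem_closedBall, dist_eq_norm] at hws
      exact hws
    have h1 := hTrem ws hws'
    have h2 : expSum c S ws = T.eval ws + (expSum c S ws - T.eval ws) := by ring
    rw [hB, h2]
    exact (norm_add_le _ _).trans (add_le_add (hTw ws hws') h1)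
  have hεle : (22 ^ d + 1) * ε ≤ B / 2 := by
    have h1 : (22 ^ d + 1 : ℝ) ≤ 2 * 22 ^ d := by
      have : (1:ℝ) ≤ 22 ^ d := one_le_pow₀ (by norm_num)
      linarith
    have h2 : (22:ℝ) ^ d * (60⁻¹) ^ d = ((60 / 22 : ℝ) ^ d)⁻¹ := by
      rw [← mul_pow, ← inv_pow]
      congr 1
      norm_num
    calc (22 ^ d + 1) * ε ≤ 2 * 22 ^ d * ε := mul_le_mul_of_nonneg_right h1 hε0
      _ = 4 * A * B * (22 ^ d * (60⁻¹) ^ d) := by rw [hε]; ring
      _ = B * (4 * A * ((60 / 22 : ℝ) ^ d)⁻¹) := by rw [h2]; ring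
      _ ≤ B * (1 / 2) := by
          apply mul_le_mul_of_nonneg_left _ hB0
          rw [← div_eq_mul_inv, div_le_iff₀ (by positivity)]
          linarith
      _ = B / 2 := by ring
  have hB2 : B ≤ 2 * 22 ^ d * M := by
    nlinarith
  have h2e : (2:ℝ) ≤ Real.exp 1 := by linarith
  have hPr : 0 ≤ P * r := by positivity
  calc ‖expSum c S w‖ ≤ B := hball w hw
    _ ≤ 2 * 22 ^ d * M := hB2
    _ ≤ Real.exp 1 * Real.exp (480 * (n + P * r) + 16) * M := by
        apply mul_le_mul_of_nonneg_right _ hM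
        exact mul_le_mul h2e hd3 (by positivity) (Real.exp_pos _).le
    _ ≤ Real.exp (500 * ((n:ℝ) + P * r + 1)) * M := by
        apply mul_le_mul_of_nonneg_right _ hM
        rw [← Real.exp_add]
        apply Real.exp_le_exp.mpr
        have : (0:ℝ) ≤ n := Nat.cast_nonneg n
        nlinarith

end Pool.Agent.Mac
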