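import Pool.Agent.Mac.Geo2
import Pool.Agent.Mac.Rega
import Pool.Agent.Mac.Lem70
import Pool.Agent.Mac.Decc

set_option autoImplicit false

/-!
# The small step: hypotheses
-/

namespace Pool.Agent.Mac

open Finset Filter Topology
open Pool.Agent.MP_e061a3_an Pool.Agent.GapReg

namespace Arc

variable {y : Sys} {A : Arc y}

/-- Hypotheses of the small step from `(q, l + 1)` to `(q₂, l)`. -/
structure SH (A : Arc y) (q q₂ : ℂ) (l : ℕ) : Prop where
  st : A.State q (l + 1)
  al : A.a ≤ l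
  touch : A.Touch q₂
  gap : q₂.im ≤ q.im - y.k.X * y.r (l + 1)
  eta_le : A.eta q₂ ≤ A.Lam / 8
  lam_le : A.lam q₂ l ≤ A.Lam / 2

end Arc

end Pool.Agent.Mac
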