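import Pool.Agent.Mac.Defs

set_option autoImplicit false

/-!
# Maximum principle with local analytic minorants
-/

namespace Pool.Agent.Mac

open Finset Filter Topology
open Pool.Agent.MP_e061a3_an Pool.Agent.GapReg

/-- Maximum principle. `Ψ` is continuous on the bounded open set `D`, has at every point of `D` a
local minorant `‖g‖`, `g` analytic, touching it at this point, and has upper limits at most `M` at
the frontier. Then `Ψ ≤ M` on `D`. -/
theorem Smp_aux {D : Set ℂ} (hD : IsOpen D) (hb : Bornology.IsBounded D) {Ψ : ℂ → ℝ} {M : ℝ}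
    (hc : ContinuousOn Ψ D)
    (hloc : ∀ p ∈ D, ∃ g : ℂ → ℂ, AnalyticAt ℂ g p ∧ ‖g p‖ = Ψ p ∧ ∀ᶠ z in 𝓝 p, ‖g z‖ ≤ Ψ z)
    (hbd : ∀ q ∈ frontier D, ∀ ε > 0, ∀ᶠ z in 𝓝[D] q, Ψ z ≤ M + ε) :
    ∀ z ∈ D, Ψ z ≤ M := by
  intro z₀ hz₀
  by_contra hcon
  push Not at hcon
  obtain ⟨c, hc1, hc2⟩ := exists_between hcon
  -- the set where `Ψ ≥ c` is compact
  set K : Set ℂ := {z | z ∈ D ∧ c ≤ Ψ z} with hK
  have hKcl : IsClosed K := by
    rw [← closure_subset_iff_isClosed]
    intro q hq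
    have hqD : q ∈ closure D := closure_mono (fun z hz => hz.1) hq
    have hfreq : ∃ᶠ z in 𝓝 q, z ∈ K := mem_closure_iff_frequently.mp hq
    by_cases hqD' : q ∈ D
    · refine ⟨hqD', ?_⟩
      by_contra hlt
      push Not at hlt
      have h1 : ContinuousAt Ψ q := hc.continuousAt (hD.mem_nhds hqD')
      have h2 : ∀ᶠ z in 𝓝 q, Ψ z < c := h1.eventually_lt continuousAt_const hlt
      obtain ⟨z, hz1, hz2⟩ := (hfreq.and_eventually h2).exists
      exact absurd hz1.2 (not_le.mpr hz2)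
    · have hqf : q ∈ frontier D := by
        rw [frontier, Set.mem_sdiff]
        exact ⟨hqD, fun h => hqD' (interior_subset h)⟩
      have h1 := hbd q hqf ((c - M) / 2) (by linarith)
      rw [eventually_nhdsWithin_iff] at h1
      obtain ⟨z, hz1, hz2⟩ := (hfreq.and_eventually h1).exists
      have h3 := hz2 hz1.1
      have h4 := hz1.2
      linarith
  have hKb : Bornology.IsBounded K := hb.subset fun z hz => hz.1
  have hKc : IsCompact K := Metric.isCompact_of_isClosed_isBounded hKcl hKb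
  have hz₀K : z₀ ∈ K := ⟨hz₀, hc2.le⟩
  obtain ⟨p, hpK, hpmax⟩ := hKc.exists_isMaxOn ⟨z₀, hz₀K⟩ (hc.mono fun z hz => hz.1)
  have hmax : ∀ z ∈ D, Ψ z ≤ Ψ p := by
    intro z hz
    by_cases h : c ≤ Ψ z
    · exact hpmax ⟨hz, h⟩
    · push Not at h
      exact h.le.trans hpK.2
  -- the set where the maximum is attained is open and compact
  set E : Set ℂ := {z | z ∈ D ∧ Ψ z = Ψ p} with hE
  have hEK : E ⊆ K := fun z hz => ⟨hz.1, by rw [hz.2]; exact hpK.2⟩
  have hEo : IsOpen E := by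
    rw [isOpen_iff_mem_nhds]
    intro z hz
    obtain ⟨g, hg1, hg2, hg3⟩ := hloc z hz.1
    have hg4 : ∀ᶠ w in 𝓝 z, ‖g w‖ ≤ ‖g z‖ := by
      filter_upwards [hg3, hD.mem_nhds hz.1] with w hw hwD
      calc ‖g w‖ ≤ Ψ w := hw
        _ ≤ Ψ p := hmax w hwD
        _ = Ψ z := hz.2.symm
        _ = ‖g z‖ := hg2.symm
    have hdiff : ∀ᶠ w in 𝓝 z, DifferentiableAt ℂ g w := by
      filter_upwards [hg1.eventually_analyticAt] with w hw
      exact hw.differentiableAt
    have hconst := Complex.norm_eventually_eq_of_isLocalMax hdiff hg4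
    filter_upwards [hconst, hg3, hD.mem_nhds hz.1] with w hw1 hw2 hw3
    refine ⟨hw3, le_antisymm (hmax w hw3) ?_⟩
    calc Ψ p = Ψ z := hz.2.symm
      _ = ‖g z‖ := hg2.symm
      _ = ‖g w‖ := hw1.symm
      _ ≤ Ψ w := hw2
  have hEcl : IsClosed E := by
    rw [← closure_subset_iff_isClosed]
    intro q hq
    have hqK : q ∈ K := hKcl.closure_subset (closure_mono hEK hq)
    refine ⟨hqK.1, ?_⟩
    have hfreq : ∃ᶠ z in 𝓝 q, z ∈ E := mem_closure_iff_frequently.mp hq
    have h1 : ContinuousAt Ψ q := hc.continuousAt (hD.mem_nhds hqK.1)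
    by_contra hne
    have hlt : Ψ q < Ψ p := lt_of_le_of_ne (hmax q hqK.1) hne
    have h2 : ∀ᶠ z in 𝓝 q, Ψ z < Ψ p := h1.eventually_lt continuousAt_const hlt
    obtain ⟨z, hz1, hz2⟩ := (hfreq.and_eventually h2).exists
    exact absurd hz1.2 (ne_of_lt hz2)
  have hEne : E.Nonempty := ⟨p, hpK.1, rfl⟩
  have hEu : E = Set.univ := IsClopen.eq_univ ⟨hEcl, hEo⟩ hEne
  have hbu : Bornology.IsBounded (Set.univ : Set ℂ) := by
    rw [← hEu]
    exact hKb.subset hEK
  exact NormedSpace.unbounded_univ ℂ ℂ |> fun h => h hbu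

/-- MODULE Smp. HINT. Let `u` attain its maximum `m` over the compact set `closure U` at an interior
point; `{z ∈ U | u z = m}` is closed in `U` and open (`‖f z‖ ≤ e^(u z) ≤ e^m = ‖f z₀‖`, so `‖f‖` has a
local maximum, `Complex.eventually_eq_of_isLocalMax_norm`, so `e^m = ‖f z‖ ≤ e^(u z)` near `z₀`);
a bounded nonempty open set is not closed: follow a connected component / a ray to the frontier. -/
theorem smp (U : Set ℂ) (hU : IsOpen U) (hb : Bornology.IsBounded U) (u : ℂ → ℝ)
    (hc : ContinuousOn u (closure U)) (m : ℝ) (hfr : ∀ z ∈ frontier U, u z ≤ m)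
    (hs : ∀ z ∈ U, ∃ f : ℂ → ℂ, AnalyticAt ℂ f z ∧ ‖f z‖ = Real.exp (u z) ∧
      ∀ᶠ w in 𝓝 z, ‖f w‖ ≤ Real.exp (u w)) :
    ∀ z ∈ U, u z ≤ m := by
  intro z hz
  have key := Smp_aux hU hb (Ψ := fun w => Real.exp (u w)) (M := Real.exp m)
    (Real.continuous_exp.comp_continuousOn (hc.mono subset_closure)) hs (by
      intro q hq ε hε
      have hqc : q ∈ closure U := frontier_subset_closure hq
      have hcw : ContinuousWithinAt (fun w => Real.exp (u w)) U q :=
        Real.continuous_exp.continuousAt.comp_continuousWithinAt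
          ((hc q hqc).mono subset_closure)
      have hlt : Real.exp (u q) < Real.exp m + ε := by
        have := Real.exp_le_exp.mpr (hfr q hq)
        linarith
      filter_upwards [hcw.eventually_lt (continuousWithinAt_const (b := Real.exp m + ε)) hlt]
        with w hw
      exact hw.le) z hz
  exact Real.exp_le_exp.mp key


end Pool.Agent.Mac
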