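import Pool.Agent.Mac.Sh

set_option autoImplicit false

/-!
# Small step, part A
-/

namespace Pool.Agent.Mac

open Finset Filter Topology
open Pool.Agent.MP_e061a3_an Pool.Agent.GapReg

namespace Arc

variable {y : Sys} {A : Arc y}

/-- MODULE StepA (section 9, A). Here `r = r (l+1)`, `s = s (l+1)`.
HINT. `u = q.im - q₂.im ≥ X r`. Four cases for the height of `w`: above `q`: `w` is in
`Cn 1 100 (sh q (C1 r))` (`s1`), equality: same; between `e.im` and `q.im`: `w` is in
`Co (1/2) 50 q₂`, free, its left ray avoids `G` (`Free.ray`) and the ball (`X > 4 C1`), so `w ∈ W`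
by `inn` (or `w.re ≤ XL`, where `|F| ≤ 1`); below `e`: `below_e` with `z = sh q₂ (C0 r)`, `s3`. -/
theorem SH.A1 {q q₂ : ℂ} {l : ℕ} (h : SH A q q₂ l) {W : Set ℂ}
    (hW : A.Reg q (y.k.C1 * y.r (l + 1)) (2 * y.s (l + 1)) W) :
    Bd y.F (2 * y.s (l + 1)) (Cn 1 100 (sh q₂ (y.k.C0 * y.r (l + 1)))) := by
  intro w hw
  have hr := y.r_pos (l + 1)
  have hs := y.s_pos (l + 1)
  have hC4 := y.k.C4_c
  have hC0 := y.k.C0_a
  have hC1 := y.k.C1_a
  have hX := y.k.X_a
  set r := y.r (l + 1) with hrdef
  set s := y.s (l + 1) with hsdef
  obtain ⟨hw1, hw2⟩ := hw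
  rw [sh_re, sh_im] at hw1 hw2
  have hC0r : 0 < y.k.C0 * r := mul_pos (by linarith) hr
  have hC1r : 4 * (y.k.C0 * r) ≤ y.k.C1 * r := by
    have := mul_le_mul_of_nonneg_right hC1 hr.le
    linarith
  have hXr : 4 * (y.k.C1 * r) + r ≤ y.k.X * r := by
    have := mul_le_mul_of_nonneg_right hX hr.le
    linarith
  have hgap := h.gap
  have hqG := h.st.touch.1
  have hqk := h.st.touch.2.1
  have hab := h.touch.above hqG hqk (by linarith)
  have hq2k := h.touch.2.1
  have hlt := A.lt
  rcases le_or_gt q.im w.im with hcase | hcase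
  · -- above
    apply h.st.s1
    rw [← hrdef]
    constructor
    · rw [sh_re, sh_im]
      linarith
    · rw [sh_re, sh_im]
      linarith
  · rcases le_or_gt w.im A.e.im with hcase2 | hcase2
    · -- below
      have hfree : A.Free (sh q₂ (y.k.C0 * r)) := by
        apply free_of_mem_Co h.touch
        constructor
        · rw [sh_re, sh_im]
          linarith
        · rw [sh_re, sh_im]
          linarith
      have hT2 := h.touch.T2
      have heta := h.eta_le
      have hlam := h.st.lam_le
      unfold eta at hT2 heta
      unfold Lam at heta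
      refine below_e A (l + 1) (le_trans h.al (Nat.le_succ l)) (A.lam q (l + 1)) ?_ h.st.s3
        (sh q₂ (y.k.C0 * r)) ?_ ?_ ?_ hfree w ?_ hcase2
      · have : 0 < A.Lam := by unfold Lam; linarith
        linarith
      · rw [sh_im]; unfold Lam; linarith
      · rw [sh_im]; exact hq2k
      · rw [sh_re]; unfold Lam; linarith
      · constructor
        · rw [sh_re, sh_im]; linarith
        · rw [sh_re, sh_im]; linarith
    · rcases le_or_gt w.re A.XL with hcase3 | hcase3
      · refine (A.left w hcase3).trans ?_
        rw [← Real.exp_zero]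
        apply Real.exp_le_exp.mpr
        linarith
      · apply hW.bound
        apply hW.inn w hcase3 hcase2 hcase
        · have hfree : A.Free w := by
            apply free_of_mem_Co h.touch
            constructor
            · rcases le_or_gt q₂.im w.im with h1 | h1 <;> linarith
            · rcases le_or_gt q₂.im w.im with h1 | h1 <;> linarith
          exact hfree.ray (by linarith)
        · intro z hz hzw
          have h1 : |z.re - q.re| ≤ ‖z - q‖ := by simpa using Complex.abs_re_le_norm (z - q)
          have h2 : |z.im - q.im| ≤ ‖z - q‖ := by simpa using Complex.abs_im_le_norm (z - q)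
          rw [abs_le] at h1 h2
          rw [hzw] at h2
          linarith

end Arc

end Pool.Agent.Mac
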