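import Pool.Agent.Mac.Sh
import Pool.Agent.Mac.Regd

set_option autoImplicit false

/-!
# Small step, part B
-/

namespace Pool.Agent.Mac

open Finset Filter Topology
open Pool.Agent.MP_e061a3_an Pool.Agent.GapReg

namespace Arc

variable {y : Sys} {A : Arc y}

/-- MODULE StepB (section 9, B). Here `r = r (l+1)`.
HINT. `Reg.decay` at `κ = q₂`, `R = 3 C0 1000^J r`, `M = 2 s`: the ball is below `q` by
`X r - R ≥ C1 r + r` (`X_b`) and above `e` (`C37_d`, `lam_le` of the state: `C37 r ≤ Lam / 2`).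
The points in question are in `W`: they are in `Co (1/2) 50 q₂` (so free, `Free.ray`), of height
in `(e.im, q.im - C1 r)`: `inn`. -/
theorem SH.B1 {q q₂ : ℂ} {l : ℕ} (h : SH A q q₂ l) {W : Set ℂ}
    (hW : A.Reg q (y.k.C1 * y.r (l + 1)) (2 * y.s (l + 1)) W) (z : ℂ)
    (hz : z ∈ Co (1 / 2) 50 q₂) (hd : ‖z - q₂‖ ≤ 3 * (y.k.C0 * y.r (l + 1))) :
    ‖y.F z‖ ≤ 2 * Real.exp (2 * y.s (l + 1) / 2 ^ y.k.J) := by
  have hr := y.r_pos (l + 1)
  have hrm := y.r_pos A.m
  have hs := y.s_pos (l + 1)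
  have hC4 := y.k.C4_c
  have hC0 := y.k.C0_a
  have hC1 := y.k.C1_a
  have hC0p : 0 < y.k.C0 := by linarith
  have hC1p : 0 < y.k.C1 := by linarith
  have hC31 := y.k.C31_a
  have hC2 := y.k.C2_b
  have hJ : (1 : ℝ) ≤ 1000 ^ y.k.J := one_le_pow₀ (by norm_num)
  have hJp : (0 : ℝ) < 1000 ^ y.k.J := by linarith
  have heta : 0 ≤ A.eta q := by
    have := h.st.touch.2.1
    unfold eta
    linarith
  have hlam := h.st.lam_le
  unfold lam at hlam
  have hX := y.k.X_b
  have hC37 := y.k.C37_d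
  have hLam : 0 < A.Lam := by
    have := A.lt
    unfold Lam
    linarith
  -- `12 C0 1000^J r ≤ Lam / 2`
  have hR1 : 12 * y.k.C0 * 1000 ^ y.k.J * y.r (l + 1) ≤ A.Lam / 2 := by
    have h1 : 0 ≤ y.k.C31 * (A.eta q + y.r A.m) :=
      mul_nonneg (by linarith) (by linarith)
    have h2 := mul_le_mul_of_nonneg_right hC37 hr.le
    linarith
  have hC0J : y.k.C0 * y.r (l + 1) ≤ y.k.C0 * 1000 ^ y.k.J * y.r (l + 1) := by
    have h1 : y.k.C0 * 1 ≤ y.k.C0 * 1000 ^ y.k.J := mul_le_mul_of_nonneg_left hJ hC0p.le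
    have h2 := mul_le_mul_of_nonneg_right h1 hr.le
    linarith
  have hC0r : 0 < y.k.C0 * y.r (l + 1) := mul_pos hC0p hr
  have hC1r : 0 < y.k.C1 * y.r (l + 1) := mul_pos hC1p hr
  have hXr : 3 * (y.k.C0 * 1000 ^ y.k.J * y.r (l + 1)) + y.k.C1 * y.r (l + 1) + y.r (l + 1) ≤
      y.k.X * y.r (l + 1) := by
    have h2 := mul_le_mul_of_nonneg_right hX hr.le
    linarith
  have hgap := h.gap
  have he2 : A.Lam - A.Lam / 8 ≤ q₂.im - A.e.im := by
    have := h.eta_le
    unfold eta at this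
    have h3 : A.Lam = A.k.im - A.e.im := rfl
    linarith
  have him : |z.im - q₂.im| ≤ ‖z - q₂‖ := by
    simpa using Complex.abs_im_le_norm (z - q₂)
  have hre : |z.re - q₂.re| ≤ ‖z - q₂‖ := by
    simpa using Complex.abs_re_le_norm (z - q₂)
  rw [abs_le] at him hre
  have hzW : z ∈ W := by
    refine hW.inn z ?_ ?_ ?_ ?_ ?_
    · have h1 := A.far q₂ h.touch.1
      have h3 : A.Lam = A.k.im - A.e.im := rfl
      linarith
    · linarith
    · linarith
    · refine Free.ray (free_of_mem_Co h.touch hz) ?_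
      have := h.st.touch.2.1
      linarith
    · intro w hw hwz
      exfalso
      have h1 : |w.im - q.im| ≤ ‖w - q‖ := by
        simpa using Complex.abs_im_le_norm (w - q)
      rw [abs_le] at h1
      linarith
  have hR0 : 0 < 3 * y.k.C0 * 1000 ^ y.k.J * y.r (l + 1) := by positivity
  refine Reg.decay hW (by linarith) q₂ h.touch.1 (3 * y.k.C0 * 1000 ^ y.k.J * y.r (l + 1)) hR0
    ?_ ?_ ?_ ?_ y.k.J z hzW ?_
  · intro w hw
    have h1 : |w.im - q.im| ≤ ‖w - q‖ := by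
      simpa using Complex.abs_im_le_norm (w - q)
    have h2 : |w.im - q₂.im| ≤ ‖w - q₂‖ := by
      simpa using Complex.abs_im_le_norm (w - q₂)
    rw [abs_le] at h1 h2
    linarith
  · rintro w hw ⟨h3, -⟩
    have h2 : |w.im - q₂.im| ≤ ‖w - q₂‖ := by
      simpa using Complex.abs_im_le_norm (w - q₂)
    rw [abs_le] at h2
    linarith
  · rw [abs_of_pos (by linarith)]
    linarith
  · linarith
  · have h1 : 3 * y.k.C0 * 1000 ^ y.k.J * y.r (l + 1) / 1000 ^ y.k.J =
        3 * (y.k.C0 * y.r (l + 1)) := by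
      field_simp
    rw [h1]
    exact hd

end Arc

end Pool.Agent.Mac
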