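import Pool.Agent.Mac.StepA
import Pool.Agent.Mac.StepB
import Pool.Agent.Mac.Init

set_option autoImplicit false

/-!
# Small step, the new state
-/

namespace Pool.Agent.Mac

open Finset Filter Topology
open Pool.Agent.MP_e061a3_an Pool.Agent.GapReg

namespace Arc

variable {y : Sys} {A : Arc y}

lemma StepC_Co {q u : ℂ} {t : ℝ} (ht : 0 < t) (h : u ∈ Cn 1 100 (sh q t)) :
    u ∈ Co (1 / 2) 50 q := by
  obtain ⟨h1, h2⟩ := h
  rw [sh_re, sh_im] at h1 h2
  constructor
  · rcases le_total q.im u.im with h3 | h3 <;> linarith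
  · rcases le_total q.im u.im with h3 | h3 <;> linarith

lemma StepC_exp {y : Sys} {l : ℕ} (hl : y.a0 ≤ l) :
    2 * Real.exp (2 * y.s (l + 1) / 2 ^ y.k.J) + 1 ≤ Real.exp (y.k.del * y.s (l + 1) / 2) := by
  have hHp := y.H_pos
  have hs := y.s_pos (l + 1)
  have hJ := y.k.hJ
  have hp : (0:ℝ) < 2 ^ y.k.J := by positivity
  have h1 : 2 * y.s (l + 1) / 2 ^ y.k.J ≤ y.k.del * y.s (l + 1) / 8 := by
    unfold Cst.del
    rw [div_le_div_iff₀ hp (by norm_num)]
    have e : 1 / (100 * (y.k.H:ℝ)) * y.s (l + 1) * 2 ^ y.k.J =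
        y.s (l + 1) * (2 ^ y.k.J / (100 * (y.k.H:ℝ))) := by ring
    rw [e]
    have h2 : 16 ≤ 2 ^ y.k.J / (100 * (y.k.H:ℝ)) := by
      rw [le_div_iff₀ (by positivity)]
      exact hJ
    nlinarith [mul_le_mul_of_nonneg_left h2 hs.le]
  have h3 : 1000 ≤ y.k.del * y.s (l + 1) := by
    have h4 := y.s_ge (l + 1) (by omega)
    have h5 := y.k.S0_a
    unfold Cst.del
    rw [one_div, inv_mul_eq_div, le_div_iff₀ (by positivity)]
    linarith
  set x := 2 * y.s (l + 1) / 2 ^ y.k.J with hx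
  have hx0 : 0 ≤ x := by positivity
  have h6 : 1 ≤ Real.exp x := Real.one_le_exp hx0
  have h7 : (3:ℝ) ≤ Real.exp 2 := by
    have := Real.add_one_le_exp (2 : ℝ)
    linarith
  have h8 : Real.exp 2 * Real.exp x ≤ Real.exp (y.k.del * y.s (l + 1) / 2) := by
    rw [← Real.exp_add]
    exact Real.exp_le_exp.2 (by linarith)
  have h9 : 3 * Real.exp x ≤ Real.exp 2 * Real.exp x :=
    mul_le_mul_of_nonneg_right h7 (Real.exp_pos _).le
  linarith

lemma StepC_R {q q₂ : ℂ} {l : ℕ} (h : SH A q q₂ l) {W : Set ℂ}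
    (hW : A.Reg q (y.k.C1 * y.r (l + 1)) (2 * y.s (l + 1)) W) :
    ∀ w ∈ Cn 1 100 (sh q₂ ((y.k.C0 + y.k.C4) * y.r (l + 1))), ‖y.R (l + 1) w‖ ≤ 1 := by
  intro w hw
  have hA := h.A1 hW
  refine y.dec1 (by norm_num) (by norm_num) (by norm_num) (by norm_num) (l + 1) _ hA w ?_
  have e : sh (sh q₂ (y.k.C0 * y.r (l + 1))) (y.k.C4 * y.r (l + 1)) =
      sh q₂ ((y.k.C0 + y.k.C4) * y.r (l + 1)) := by
    unfold sh
    push_cast
    ring
  rw [e]
  exact hw

/-- MODULE StepC (section 9, B to the end). `|S_(l+1)|` is small to the left of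
`z_c = sh q₂ (2 C0 r)`, `r = r (l+1)`.
HINT. On the ball `‖u - z_c‖ ≤ C0 r / 204` (it is in `Cn 1 100 (sh q₂ ((C0 + C4) r))` by `Cn_ball`,
`C0 ≥ 2 C4`, hence in `Co (1/2) 50 q₂`): `|F| ≤ 2 e^(2 s/2^J)` (`SH.B1`), `|R| ≤ 1` (`dec1` from
`SH.A1`), so `|S| ≤ e^(del s / 2)` (`hJ`, `S0_a`), then `Sys.lw1` (`C0 / 204 ≥ 1`). -/
theorem SH.S1 {q q₂ : ℂ} {l : ℕ} (h : SH A q q₂ l) {W : Set ℂ}
    (hW : A.Reg q (y.k.C1 * y.r (l + 1)) (2 * y.s (l + 1)) W) (w : ℂ)
    (hw : ‖w - sh q₂ (2 * (y.k.C0 * y.r (l + 1)))‖ ≤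
      8 * ((sh q₂ (2 * (y.k.C0 * y.r (l + 1)))).re - w.re)) :
    ‖y.S (l + 1) w‖ ≤ Real.exp (y.k.del * y.s (l + 1)) := by
  have hl : y.a0 ≤ l := A.ha.trans h.al
  have hr := y.r_pos (l + 1)
  have hs := y.s_pos (l + 1)
  have hC4 := y.k.C4_c
  have hC0 := y.k.C0_a
  have hR := StepC_R h hW
  have hHp := y.H_pos
  have hdel : 0 < y.k.del := by unfold Cst.del; positivity
  have hball : ∀ u, ‖u - sh q₂ (2 * (y.k.C0 * y.r (l + 1)))‖ ≤ y.k.C0 * y.r (l + 1) / 204 →
      ‖y.S (l + 1) u‖ ≤ Real.exp (y.k.del * y.s (l + 1) / 2) := by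
    intro u hu
    have hC : u ∈ Cn 1 100 (sh q₂ ((y.k.C0 + y.k.C4) * y.r (l + 1))) := by
      refine Cn_ball (t := (y.k.C0 - y.k.C4) * y.r (l + 1))
        (w := sh q₂ (2 * (y.k.C0 * y.r (l + 1)))) (by norm_num) (by norm_num) (by norm_num)
        (by norm_num) ?_ (hu.trans ?_)
      · have e : sh q₂ ((y.k.C0 + y.k.C4) * y.r (l + 1)) -
            (((y.k.C0 - y.k.C4) * y.r (l + 1) : ℝ) : ℂ) =
            sh q₂ (2 * (y.k.C0 * y.r (l + 1))) := by
          unfold sh
          push_cast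
          ring
        rw [e]
        constructor <;> simp
      · have h1 : y.k.C0 / 2 ≤ y.k.C0 - y.k.C4 := by linarith
        have h2 := mul_le_mul_of_nonneg_right h1 hr.le
        linarith
    have hpos : 0 < (y.k.C0 + y.k.C4) * y.r (l + 1) := mul_pos (by linarith) hr
    have hCo := StepC_Co hpos hC
    have hd : ‖u - q₂‖ ≤ 3 * (y.k.C0 * y.r (l + 1)) := by
      have e : u - q₂ = (u - sh q₂ (2 * (y.k.C0 * y.r (l + 1)))) -
          ((2 * (y.k.C0 * y.r (l + 1)) : ℝ) : ℂ) := by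
        unfold sh
        ring
      have hp : 0 < y.k.C0 * y.r (l + 1) := mul_pos (by linarith) hr
      rw [e]
      refine (norm_sub_le _ _).trans ?_
      rw [Complex.norm_real, Real.norm_of_nonneg (by positivity)]
      linarith
    have hF := h.B1 hW u hCo hd
    have hS : y.S (l + 1) u = y.F u - y.R (l + 1) u := by
      rw [y.F_eq (l + 1)]
      ring
    rw [hS]
    refine (norm_sub_le _ _).trans ?_
    have h1 := hR u hC
    have h2 := StepC_exp (y := y) hl
    linarith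
  have h3 := y.lw1 (l + 1) (sh q₂ (2 * (y.k.C0 * y.r (l + 1)))) (y.k.C0 * y.r (l + 1) / 204)
    (y.k.del * y.s (l + 1) / 2) (by nlinarith) hball w hw
  refine h3.trans (Real.exp_le_exp.2 ?_)
  have : 0 < y.k.del * y.s (l + 1) := mul_pos hdel hs
  linarith

/-- The small step. HINT. (S1), (S2), (S3), (S4) of section 9, with `Sys.next`; `State.reg` gives
`W`. For (S3) `lam q₂ l ≥ lam q (l+1) + C4 r (l+1)` from `C31_b`, `r_dn`. -/
theorem SH.state {q q₂ : ℂ} {l : ℕ} (h : SH A q q₂ l) : A.State q₂ l := by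
  obtain ⟨W, hW⟩ := h.st.reg
  have hl : y.a0 ≤ l := A.ha.trans h.al
  have hr := y.r_pos (l + 1)
  have hrl := y.r_pos l
  have hrm := y.r_pos A.m
  have hup := y.r_up l
  have hdn := y.r_dn l
  have hs := y.s_pos (l + 1)
  have hsl := y.s_pos l
  have hC4 := y.k.C4_c
  have hC0 := y.k.C0_a
  have hC1 := y.k.C1_a
  have hX := y.k.X_a
  have h31a := y.k.C31_a
  have h31b := y.k.C31_b
  have h37b := y.k.C37_b
  have h37c := y.k.C37_c
  have hC2 := y.k.C2_b
  have hXpos : 0 < y.k.X := by linarith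
  have hR := StepC_R h hW
  have hT2 := h.touch.T2
  have hT1 := h.st.touch.T2
  have heta : A.eta q + y.k.X * y.r (l + 1) ≤ A.eta q₂ := by
    have := h.gap
    unfold eta
    linarith
  set r := y.r (l + 1) with hrdef
  have hXr : 0 < y.k.X * r := mul_pos hXpos hr
  have hC0r : 0 < y.k.C0 * r := mul_pos (by linarith) hr
  have hC4r : 0 < y.k.C4 * r := mul_pos (by linarith) hr
  have hC04 : y.k.C0 * r ≥ 2 * (y.k.C4 * r) := by
    have := mul_le_mul_of_nonneg_right hC0 hr.le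
    linarith
  -- the cone of z_c
  have hN : ∀ w ∈ Cn 1 100 (sh q₂ (2 * (y.k.C0 * r))), ‖y.F w‖ ≤ Real.exp (y.s l) := by
    intro w hw
    refine y.next l hl w (h.S1 hW w ?_) (hR w ?_)
    · obtain ⟨h1, h2⟩ := hw
      have h3 : ‖w - sh q₂ (2 * (y.k.C0 * r))‖ ≤ |w.re - (sh q₂ (2 * (y.k.C0 * r))).re| +
          |w.im - (sh q₂ (2 * (y.k.C0 * r))).im| := by
        have := Complex.norm_le_abs_re_add_abs_im (w - sh q₂ (2 * (y.k.C0 * r)))
        simpa using this
      set z := sh q₂ (2 * (y.k.C0 * r)) with hz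
      have h0 : 0 ≤ z.re - w.re := by
        rcases le_total z.im w.im with h4 | h4 <;> linarith
      have h5 : |w.re - z.re| = z.re - w.re := by
        rw [abs_sub_comm, abs_of_nonneg h0]
      have h6 : |w.im - z.im| ≤ z.re - w.re := by
        rw [abs_le]
        constructor <;> linarith
      rw [h5] at h3
      linarith
    · obtain ⟨h1, h2⟩ := hw
      rw [sh_re, sh_im] at h1 h2
      constructor
      · rw [sh_re, sh_im]
        have : (y.k.C0 + y.k.C4) * r = y.k.C0 * r + y.k.C4 * r := by ring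
        linarith
      · rw [sh_re, sh_im]
        have : (y.k.C0 + y.k.C4) * r = y.k.C0 * r + y.k.C4 * r := by ring
        linarith
  have hC1r : 2 * (y.k.C0 * r) ≤ y.k.C1 * y.r l := by
    have h1 : y.k.C0 * r ≤ y.k.C0 * (2 * y.r l) := mul_le_mul_of_nonneg_left hup (by linarith)
    have h2 : 4 * y.k.C0 * y.r l ≤ y.k.C1 * y.r l := mul_le_mul_of_nonneg_right hC1 hrl.le
    linarith
  have hlam : A.lam q (l + 1) + y.k.C4 * r ≤ A.lam q₂ l := by
    unfold lam
    have h1 : y.k.C31 * (A.eta q + y.k.X * r + y.r A.m) ≤ y.k.C31 * (A.eta q₂ + y.r A.m) :=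
      mul_le_mul_of_nonneg_left (by linarith) (by linarith)
    have h2 : (y.k.C37 + y.k.C4) * r ≤ y.k.C31 * y.k.X * r :=
      mul_le_mul_of_nonneg_right h31b hr.le
    have h3 : 0 ≤ y.k.C37 * y.r l := mul_nonneg (by linarith) hrl.le
    rw [← hrdef]
    nlinarith
  have hlam2 : 2 * (y.k.C2 * y.r A.m + 2 * A.eta q₂ + 2 * (y.k.C0 * r)) ≤ A.lam q₂ l := by
    unfold lam
    have h1 : (4 + 2 * y.k.C2) * (A.eta q₂ + y.r A.m) ≤ y.k.C31 * (A.eta q₂ + y.r A.m) :=
      mul_le_mul_of_nonneg_right h31a (by linarith [hT2.2.2])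
    have h2 : 8 * y.k.C0 * y.r l ≤ y.k.C37 * y.r l := mul_le_mul_of_nonneg_right h37b hrl.le
    have h3 : y.k.C0 * r ≤ y.k.C0 * (2 * y.r l) := mul_le_mul_of_nonneg_left hup (by linarith)
    have h4 : 0 ≤ y.k.C2 * A.eta q₂ := mul_nonneg (by linarith) hT2.2.2
    nlinarith
  refine ⟨h.touch, h.al, (Nat.le_succ l).trans h.st.lm, h.eta_le, h.lam_le, ?_, ?_, ?_, ?_⟩
  · -- S1
    intro w hw
    refine (hN w ?_).trans (Real.exp_le_exp.2 (by linarith))
    obtain ⟨h1, h2⟩ := hw
    rw [sh_re, sh_im] at h1 h2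
    constructor
    · rw [sh_re, sh_im]
      linarith
    · rw [sh_re, sh_im]
      linarith
  · -- S2
    have h1 : PJ (A.G ∪ {z | ‖z - q₂‖ ≤ y.k.C1 * y.r l ∧ ‖y.F z‖ ≤ Real.exp (2 * y.s l)}) A.e q₂ :=
      (A.join A.e A.e_mem q₂ h.touch.1).mono Set.subset_union_left
    refine h1.trans (PJ.of_segment ?_)
    rintro z ⟨a, b, ha, hb, hab, rfl⟩
    have hz : a • q₂ + b • sh q₂ (y.k.C1 * y.r l) = sh q₂ (b * (y.k.C1 * y.r l)) := by
      have e : a = 1 - b := by linarith
      subst e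
      unfold sh
      simp only [Complex.real_smul]
      push_cast
      ring
    rw [hz]
    set t := b * (y.k.C1 * y.r l) with ht
    have hC1rl : 0 < y.k.C1 * y.r l := by linarith
    have ht0 : 0 ≤ t := mul_nonneg hb hC1rl.le
    have ht1 : t ≤ y.k.C1 * y.r l := mul_le_of_le_one_left hC1rl.le (by linarith)
    have hnorm : ‖sh q₂ t - q₂‖ = t := by
      have e : sh q₂ t - q₂ = ((-t : ℝ) : ℂ) := by
        unfold sh
        push_cast
        ring
      rw [e, Complex.norm_real, norm_neg, Real.norm_of_nonneg ht0]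
    right
    refine ⟨by rw [hnorm]; exact ht1, ?_⟩
    rcases eq_or_lt_of_le ht0 with h2 | h2
    · rw [← h2]
      have e : sh q₂ 0 = q₂ := by simp [sh]
      rw [e]
      exact (A.one q₂ h.touch.1).trans (Real.one_le_exp (by linarith))
    · rcases le_total t (2 * (y.k.C0 * r)) with h3 | h3
      · have hCo : sh q₂ t ∈ Co (1 / 2) 50 q₂ := by
          constructor
          · rw [sh_re, sh_im]
            linarith
          · rw [sh_re, sh_im]
            linarith
        have hF := h.B1 hW (sh q₂ t) hCo (by rw [hnorm]; linarith)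
        have h4 := StepC_exp (y := y) hl
        have hdel : y.k.del * y.s (l + 1) ≤ y.s l / 50 := by
          have hHp := y.H_pos
          unfold Cst.del
          rw [one_div, inv_mul_eq_div, div_le_iff₀ (by positivity)]
          calc y.s (l + 1) ≤ 2 * y.k.H * y.s l := y.s_up l
            _ = y.s l / 50 * (100 * y.k.H) := by ring
        have h5 : Real.exp (y.k.del * y.s (l + 1) / 2) ≤ Real.exp (2 * y.s l) :=
          Real.exp_le_exp.2 (by linarith)
        linarith
      · refine (hN _ ?_).trans (Real.exp_le_exp.2 (by linarith))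
        constructor
        · simp only [sh_re, sh_im]
          linarith
        · simp only [sh_re, sh_im]
          linarith
  · -- S3
    intro w hw
    obtain ⟨h1, h2⟩ := hw
    rw [sh_re, sh_im] at h1 h2
    refine (y.next l hl w (h.S1 hW w ?_) ?_).trans (Real.exp_le_exp.2 (by linarith))
    · rw [sh_re]
      have h3 : ‖w - sh q₂ (2 * (y.k.C0 * r))‖ ≤ |w.re - (q₂.re - 2 * (y.k.C0 * r))| +
          |w.im - q₂.im| := by
        have := Complex.norm_le_abs_re_add_abs_im (w - sh q₂ (2 * (y.k.C0 * r)))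
        simpa using this
      have h4 : A.eta q₂ = A.k.im - q₂.im := rfl
      have h5 := hT2.1
      have h6 := hT2.2.1
      have h7 := hT2.2.2
      have h8 : 0 < y.k.C2 * y.r A.m := mul_pos (by linarith) hrm
      have h9 : 0 ≤ q₂.re - 2 * (y.k.C0 * r) - w.re := by linarith
      have h10 : |w.re - (q₂.re - 2 * (y.k.C0 * r))| = q₂.re - 2 * (y.k.C0 * r) - w.re := by
        rw [abs_sub_comm, abs_of_nonneg h9]
      have h11 : |w.im - q₂.im| ≤ 3 * (q₂.re - 2 * (y.k.C0 * r) - w.re) := by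
        rw [abs_le]
        constructor <;> linarith
      rw [h10] at h3
      linarith
    · refine y.dec1 (by norm_num) (by norm_num) (by norm_num) (by norm_num) (l + 1) _ h.st.s3 w ?_
      constructor
      · simp only [sh_re, sh_im]
        linarith
      · simp only [sh_re, sh_im]
        linarith
  · -- S4
    left
    rcases h.st.s4 with h1 | h1
    · linarith
    · have h2 : y.k.X * y.r A.m ≤ y.k.X * r := mul_le_mul_of_nonneg_left h1 hXpos.le
      have h3 := hT1.2.2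
      linarith

end Arc

end Pool.Agent.Mac
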