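import Pool.Agent.Mac.Defs

set_option autoImplicit false

/-!
# Three circles
-/

namespace Pool.Agent.Mac

open Finset Filter Topology
open Pool.Agent.MP_e061a3_an Pool.Agent.GapReg

/-- MODULE Three. Three circles theorem with radii `r`, `2 r`, `4 r`. -/
theorem three_circles (f : ℂ → ℂ) (hf : Differentiable ℂ f) (z : ℂ) (r A B : ℝ) (hr : 0 < r)
    (hA : ∀ w, ‖w - z‖ ≤ r → ‖f w‖ ≤ Real.exp A) (hB : ∀ w, ‖w - z‖ ≤ 4 * r → ‖f w‖ ≤ Real.exp B) :
    ∀ w, ‖w - z‖ ≤ 2 * r → ‖f w‖ ≤ Real.exp ((A + B) / 2) := by
  intro w hw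
  by_cases hAB : B ≤ A
  · exact (hB w (by linarith)).trans (Real.exp_le_exp.mpr (by linarith))
  · push Not at hAB
    by_cases hwr : ‖w - z‖ ≤ r
    · exact (hA w hwr).trans (Real.exp_le_exp.mpr (by linarith))
    · push Not at hwr
      have hr0 : (r : ℂ) ≠ 0 := by exact_mod_cast hr.ne'
      have hn : 0 < ‖w - z‖ := hr.trans hwr
      have hwz : w - z ≠ 0 := norm_pos_iff.mp hn
      have hl4 : 0 < Real.log 4 := Real.log_pos (by norm_num)
      set g : ℂ → ℂ := fun ζ => f (z + r * Complex.exp ζ) with hg
      have hgd : Differentiable ℂ g := by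
        intro ζ
        exact (hf _).comp ζ (((Complex.differentiable_exp ζ).const_mul _).const_add _)
      have hnorm : ∀ ζ : ℂ, ‖(z + r * Complex.exp ζ) - z‖ = r * Real.exp ζ.re := by
        intro ζ
        rw [add_sub_cancel_left, norm_mul, Complex.norm_exp, Complex.norm_real, Real.norm_of_nonneg hr.le]
      have hstrip : ∀ ζ : ℂ, ζ.re ≤ Real.log 4 → ‖g ζ‖ ≤ Real.exp B := by
        intro ζ hζ
        apply hB
        rw [hnorm]
        have : Real.exp ζ.re ≤ 4 := by
          calc Real.exp ζ.re ≤ Real.exp (Real.log 4) := Real.exp_le_exp.mpr hζ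
            _ = 4 := Real.exp_log (by norm_num)
        nlinarith
      set ζ0 : ℂ := Complex.log ((w - z) / r) with hζ0
      have hexp : Complex.exp ζ0 = (w - z) / r := Complex.exp_log (div_ne_zero hwz hr0)
      have hre : ζ0.re = Real.log (‖w - z‖ / r) := by
        rw [hζ0, Complex.log_re, norm_div, Complex.norm_real, Real.norm_of_nonneg hr.le]
      have h1 : 0 ≤ ζ0.re := by
        rw [hre]
        exact Real.log_nonneg ((one_le_div hr).mpr hwr.le)
      have hhalf : ζ0.re ≤ Real.log 4 / 2 := by
        rw [hre]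
        have e4 : Real.log 4 = 2 * Real.log 2 := by
          rw [show (4 : ℝ) = 2 ^ 2 by norm_num, Real.log_pow]; norm_num
        rw [e4]
        have : Real.log (‖w - z‖ / r) ≤ Real.log 2 :=
          Real.log_le_log (div_pos hn hr) ((div_le_iff₀ hr).mpr hw)
        linarith
      have key := Complex.HadamardThreeLines.norm_le_interp_of_mem_verticalClosedStrip'
        (f := g) (z := ζ0) (a := Real.exp A) (b := Real.exp B) (l := 0) (u := Real.log 4)
        hl4 ⟨h1, by linarith⟩ hgd.diffContOnCl
        ⟨Real.exp B, by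
          rintro _ ⟨ζ, hζ, rfl⟩
          exact hstrip ζ hζ.2⟩
        (by
          intro ζ hζ
          apply hA
          rw [hnorm]
          have : ζ.re = 0 := hζ
          rw [this, Real.exp_zero, mul_one])
        (by
          intro ζ hζ
          exact hstrip ζ (le_of_eq hζ))
      have hgz : g ζ0 = f w := by
        simp only [hg]
        rw [hexp]
        congr 1
        field_simp
        ring
      rw [hgz, sub_zero, sub_zero, ← Real.exp_mul, ← Real.exp_mul, ← Real.exp_add] at key
      refine key.trans (Real.exp_le_exp.mpr ?_)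
      set t := ζ0.re / Real.log 4 with ht
      have ht2 : t ≤ 1 / 2 := by
        rw [ht, div_le_iff₀ hl4]
        linarith
      nlinarith

end Pool.Agent.Mac
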