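import Pool.Agent.Mac.Wi
import Pool.Agent.Mac.Geo1
import Pool.Agent.Mac.Geo2

set_option autoImplicit false

/-!
# The walk: the next touch point
-/

namespace Pool.Agent.Mac

open Finset Filter Topology
open Pool.Agent.MP_e061a3_an Pool.Agent.GapReg

namespace Arc

variable {y : Sys} {A : Arc y}

/-- MODULE Wnext. `r = r (l+1)`.
HINT. Let `z = ⟨q.re + C33 r/50, q.im - C33 r/20⟩`. If `z` is not free take a touch point
`κ ∈ Cn (1/2) 50 z` (`touch_of_not_free`). If `κ.im ≥ q.im - X r`: contradiction, because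
`z.re ≥ κ.re + (κ.im - z.im)/2` and `q.re ≤ κ.re + 50 (q.im - κ.im)` (`Touch.below`) resp.
`q.re ≤ κ.re + (κ.im - q.im)/2` (`Touch.above`), `C33 ≥ 50500 X`. Otherwise `q₂ = κ`,
`u = q.im - κ.im > X r`. If `u ≤ (X + C33) r`: `T' = T` (`Touch.above` for `κ` and `q`,
`Rs_split`, `Rs_one`). If `u > (X + C33) r`: `κ.re ≤ z.re - 50 (z.im - κ.im) ≤ q.re - 47 u`,
`T' = T + u`. -/
theorem next_cases {q : ℂ} {l : ℕ} {T : ℝ} (hq : A.Touch q) (hl : l + 1 ≤ A.m)
    (hW : A.WI q (l + 1) T) :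
    (∃ q₂ T', A.Touch q₂ ∧ q₂.im ≤ q.im - y.k.X * y.r (l + 1) ∧ A.WI q₂ l T') ∨
      A.Free ⟨q.re + y.k.C33 * y.r (l + 1) / 50, q.im - y.k.C33 * y.r (l + 1) / 20⟩ := by
  by_cases hF : A.Free ⟨q.re + y.k.C33 * y.r (l + 1) / 50, q.im - y.k.C33 * y.r (l + 1) / 20⟩
  · exact Or.inr hF
  left
  obtain ⟨κ, hκ, hκz⟩ := A.touch_of_not_free _ hF
  obtain ⟨hz1, hz2⟩ := hκz
  simp only at hz1 hz2
  have hr := y.r_pos (l + 1)
  have hH := y.H_ge
  have hC4 : (100000 : ℝ) ≤ y.k.C4 := y.k.C4_c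
  have hC0 : 0 < y.k.C0 := by linarith [y.k.C0_a]
  have hC1 : 0 < y.k.C1 := by linarith [y.k.C1_a]
  have hX : 0 < y.k.X := by linarith [y.k.X_a]
  have hC33 : 50500 * y.k.X ≤ y.k.C33 := y.k.C33_a
  set r := y.r (l + 1) with hrdef
  have hXr : 0 < y.k.X * r := mul_pos hX hr
  have hCr : 50500 * (y.k.X * r) ≤ y.k.C33 * r := by
    have := mul_le_mul_of_nonneg_right hC33 hr.le
    linarith
  have hκim : κ.im ≤ q.im - y.k.X * r := by
    by_contra hcon
    push Not at hcon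
    rcases le_total κ.im q.im with h | h
    · have h1 := hq.below hκ.1 hκ.2.1 h
      linarith
    · have h1 := hq.above hκ.1 hκ.2.1 h
      linarith
  have hab : κ.re ≤ q.re + (q.im - κ.im) / 2 := hκ.above hq.1 hq.2.1 (by linarith)
  have hRs : y.Rs l A.m = r + y.Rs (l + 1) A.m := by
    rw [y.Rs_split l (l + 1) A.m (by omega) hl, y.Rs_one]
  have i1 := hW.i1
  have i2 := hW.i2
  have hT := hW.T_nonneg
  have heta : A.eta κ = A.eta q + (q.im - κ.im) := by unfold Arc.eta; ring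
  by_cases hu : q.im - κ.im ≤ (y.k.X + y.k.C33) * r
  · refine ⟨κ, T, hκ, hκim, hT, ?_, ?_⟩
    · rw [heta, hRs]
      have e : (y.k.X + y.k.C33) * (r + y.Rs (l + 1) A.m) =
          (y.k.X + y.k.C33) * r + (y.k.X + y.k.C33) * y.Rs (l + 1) A.m := by ring
      rw [e]
      linarith
    · rw [heta]
      linarith
  · push Not at hu
    have hu2 : y.k.C33 * r < q.im - κ.im := by
      have e : (y.k.X + y.k.C33) * r = y.k.X * r + y.k.C33 * r := by ring
      rw [e] at hu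
      linarith
    refine ⟨κ, T + (q.im - κ.im), hκ, hκim, by linarith, ?_, ?_⟩
    · rw [heta, hRs]
      have e : (y.k.X + y.k.C33) * (r + y.Rs (l + 1) A.m) =
          (y.k.X + y.k.C33) * r + (y.k.X + y.k.C33) * y.Rs (l + 1) A.m := by ring
      rw [e]
      have h5 : 0 < (y.k.X + y.k.C33) * r := mul_pos (by linarith) hr
      linarith
    · rw [heta]
      linarith

end Arc

end Pool.Agent.Mac
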