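import Pool.Agent.Mac.Wbound
import Pool.Agent.Mac.Wnext
import Pool.Agent.Mac.Drop
import Pool.Agent.Mac.StepC

set_option autoImplicit false

/-!
# The walk (section 11)
-/

namespace Pool.Agent.Mac

open Finset Filter Topology
open Pool.Agent.MP_e061a3_an Pool.Agent.GapReg

namespace Arc

variable {y : Sys} {A : Arc y}

/-- signs of the constants -/
theorem Walk_signs (k : Cst) : 0 ≤ k.C31 ∧ 0 ≤ k.C37 ∧ 0 ≤ k.C33 ∧ 0 ≤ k.CT ∧ 0 ≤ k.CV ∧
    0 ≤ k.CW ∧ 0 ≤ k.C4 ∧ 0 ≤ k.X ∧ 0 < k.C30 := by
  have h1 := k.C4_c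
  have h2 := k.C0_a
  have h3 := k.C2_b
  have h4 := k.C31_a
  have h5 := k.C37_b
  have h6 := k.X_c
  have h7 := k.C33_a
  have h8 := k.CT_a
  have h9 := k.CV_a
  have h10 := k.CW_a
  have h11 := k.C30_c
  have p31 : 0 ≤ k.C31 := by linarith
  have p33 : 0 ≤ k.C33 := by linarith
  have pT : 0 ≤ k.CT := by linarith
  have p : 0 ≤ k.C31 * (k.CT + 1) := mul_nonneg p31 (by linarith)
  refine ⟨p31, by linarith, p33, pT, by linarith, by linarith, by linarith, by linarith,
    by linarith⟩

theorem Walk_Rs_mono (y : Sys) {a b c : ℕ} (h1 : a ≤ b) (h2 : b ≤ c) : y.Rs b c ≤ y.Rs a c := by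
  have := y.Rs_split a b c h1 h2
  have := y.Rs_nonneg a b
  linarith

theorem Walk_r_le (y : Sys) {l m : ℕ} (h : l ≤ m) : y.r l ≤ 2 * y.Rs l m + y.r m := by
  rcases Nat.lt_or_ge l m with h1 | h1
  · have := y.r_le_Rs l m h1
    have := y.r_pos m
    linarith
  · have : l = m := le_antisymm h h1
    subst this
    have := y.Rs_nonneg l l
    linarith

/-- the largest index with a property -/
theorem Walk_largest (P : ℕ → Prop) {a l : ℕ} (hal : a < l) (ha : P a) :
    ∃ j, a ≤ j ∧ j < l ∧ P j ∧ ∀ i, j < i → i < l → ¬ P i := by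
  classical
  let S := (Finset.range l).filter (fun j => a ≤ j ∧ P j)
  have hS : S.Nonempty := ⟨a, by
    rw [Finset.mem_filter, Finset.mem_range]
    exact ⟨hal, le_refl _, ha⟩⟩
  have h1 := Finset.max'_mem S hS
  rw [Finset.mem_filter, Finset.mem_range] at h1
  refine ⟨S.max' hS, h1.2.1, h1.1, h1.2.2, ?_⟩
  intro i hi hil hP
  have h2 : i ∈ S := by
    rw [Finset.mem_filter, Finset.mem_range]
    exact ⟨hil, h1.2.1.trans hi.le, hP⟩
  have := Finset.le_max' S i h2
  omega

/-- MODULE Walk. HINT. Strong induction on `l`. If `l = a` or `c23 * Lam ≤ Rs l m`: output.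
Otherwise `l = l' + 1`, `next_cases`. First case: `Rs l' m + r_m ≤ (3 c23 + 2/C30) Lam`, `WI.bound`,
`SH.state`. Second case: `h1 = C33 r_l`, `j*` = largest `j ∈ [a, l)` with
`c13 * h1 < r_j` or `c23 * Lam ≤ Rs j m` or `j = a`; `DH` with `jst = j*`; `DH.inv` at `j*` gives
the output if `c23 * Lam ≤ Rs j* m` or `j* = a` (depth `lam + C4 r_l`, `WI.bound` at `l`), else
`DH.state` (`WI.bound` at `j*`; `WI` at `j*` because `Rs j* m ≥ Rs l m`) and induction. -/
theorem walk_aux (A : Arc y) : ∀ (l : ℕ) (q : ℂ) (T : ℝ), A.State q l → A.WI q l T → A.Out := by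
  obtain ⟨p31, p37, p33, pT, pV, pW, p4, pX, p30⟩ := Walk_signs y.k
  have hLam : 0 < A.Lam := by
    have := A.lt
    unfold Lam
    linarith
  have hwide : y.k.C30 * y.r A.m ≤ A.Lam := A.wide
  have hrm := y.r_pos A.m
  have hV30 : 32 * (y.k.CV * y.r A.m) ≤ A.Lam := by
    have h1 := mul_le_mul_of_nonneg_right y.k.C30_a hrm.le
    linarith
  have hT30 : 128 * (y.k.CT * y.r A.m) ≤ A.Lam := by
    have h1 := mul_le_mul_of_nonneg_right y.k.C30_b hrm.le
    linarith
  have hVc : y.k.CV * (3 * (y.k.c23 * A.Lam)) ≤ A.Lam / 16 := by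
    have h1 := mul_le_mul_of_nonneg_right y.k.c23_a hLam.le
    linarith
  have hTc : y.k.CT * (3 * (y.k.c23 * A.Lam)) ≤ A.Lam / 64 := by
    have h1 := mul_le_mul_of_nonneg_right y.k.c23_b hLam.le
    linarith
  have hc23 : 0 < y.k.c23 * A.Lam := mul_pos y.k.c23_pos hLam
  have hWout : ∀ x : ℝ, y.k.c23 * A.Lam ≤ x → A.Lam ≤ y.k.CW * x := by
    intro x hx
    have h1 := mul_le_mul_of_nonneg_right y.k.CW_b hLam.le
    have h2 := mul_le_mul_of_nonneg_left hx pW
    linarith
  have heta : ∀ q l, A.State q l → 0 ≤ A.eta q := by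
    intro q l hS
    have := hS.touch.2.1
    unfold eta
    linarith
  have hlam0 : ∀ q l, A.State q l → 0 ≤ A.lam q l := by
    intro q l hS
    have h1 := heta q l hS
    have h2 := y.r_pos l
    unfold lam
    have h3 : 0 ≤ y.k.C31 * (A.eta q + y.r A.m) := mul_nonneg p31 (by linarith)
    have h4 : 0 ≤ y.k.C37 * y.r l := mul_nonneg p37 h2.le
    linarith
  intro l
  induction l using Nat.strong_induction_on with
  | _ l IH =>
  intro q T hS hW
  have hrl := y.r_pos l
  have hb := hW.bound hS.touch hS.lm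
  have h4l : 0 ≤ y.k.C4 * y.r l := mul_nonneg p4 hrl.le
  have hRs := y.Rs_nonneg l A.m
  by_cases hstop : l = A.a ∨ y.k.c23 * A.Lam ≤ y.Rs l A.m
  · refine ⟨l, A.lam q l, hS.la, hS.lm, hlam0 q l hS, hS.lam_le, ?_, hS.s3, ?_⟩
    · have h1 := mul_le_mul_of_nonneg_right y.k.CW_a (by linarith : 0 ≤ y.Rs l A.m + y.r A.m)
      linarith [hb.2]
    · rcases hstop with h | h
      · exact Or.inl h
      · right
        refine ⟨?_, hWout _ h⟩
        rcases Nat.lt_or_ge l A.m with h1 | h1
        · exact h1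
        · have : l = A.m := le_antisymm hS.lm h1
          rw [this, y.Rs_self] at h
          linarith
  · push Not at hstop
    obtain ⟨hla, hRl⟩ := hstop
    have hal : A.a < l := lt_of_le_of_ne hS.la (Ne.symm hla)
    obtain ⟨l', rfl⟩ : ∃ l', l = l' + 1 := ⟨l - 1, by omega⟩
    have hrl' := Walk_r_le y hS.lm
    rcases next_cases hS.touch hS.lm hW with ⟨q₂, T', ht, hgap, hW₂⟩ | hfree
    · -- small step
      have hb₂ := hW₂.bound ht (by have := hS.lm; omega : l' ≤ A.m)
      have hsp := y.Rs_split l' (l' + 1) A.m (by omega) hS.lm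
      rw [y.Rs_one] at hsp
      have hsum : y.Rs l' A.m + y.r A.m ≤ 3 * (y.k.c23 * A.Lam) + 2 * y.r A.m := by linarith
      have h1 := mul_le_mul_of_nonneg_left hsum pT
      have h2 := mul_le_mul_of_nonneg_left hsum pV
      have h4' : 0 ≤ y.k.C4 * y.r l' := mul_nonneg p4 (y.r_pos l').le
      have hSH : SH A q q₂ l' :=
        { st := hS
          al := by omega
          touch := ht
          gap := hgap
          eta_le := by linarith [hb₂.1]
          lam_le := by linarith [hb₂.2] }
      exact IH l' (by omega) q₂ T' hSH.state hW₂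
    · -- drop
      set h1 : ℝ := y.k.C33 * y.r (l' + 1) with hh1
      obtain ⟨j, hja, hjl, hjP, hjmax⟩ := Walk_largest
        (fun j => y.k.c13 * h1 < y.r j ∨ y.k.c23 * A.Lam ≤ y.Rs j A.m ∨ j = A.a) hal
        (Or.inr (Or.inr rfl))
      have hCT := y.k.CT_a
      have h33 : 2 * y.k.C33 ≤ y.k.CT := by
        have := y.k.C2_b
        linarith
      have hDH : A.DH q (l' + 1) h1 j :=
        { st := hS
          lt := hjl
          a_le := hja
          lo := le_refl _
          hi := by
            have e1 : h1 ≤ y.k.C33 * (2 * y.Rs (l' + 1) A.m + y.r A.m) :=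
              mul_le_mul_of_nonneg_left hrl' p33
            have e2 : 2 * y.k.C33 * (2 * y.Rs (l' + 1) A.m + y.r A.m) ≤
                y.k.CT * (2 * y.Rs (l' + 1) A.m + y.r A.m) :=
              mul_le_mul_of_nonneg_right h33 (by linarith)
            have e3 : y.k.CT * y.Rs (l' + 1) A.m ≤ y.k.CT * (y.k.c23 * A.Lam) :=
              mul_le_mul_of_nonneg_left hRl.le pT
            linarith
          one := y.r_small _ (A.ha.trans (by omega))
          free := hfree
          thin := by
            intro i hi hil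
            have := hjmax i hi hil
            push Not at this
            exact this.1 }
      have hInv := hDH.inv j le_rfl hjl.le
      have hRmono : y.Rs (l' + 1) A.m ≤ y.Rs j A.m := Walk_Rs_mono y hjl.le hS.lm
      have hjm : j < A.m := lt_of_lt_of_le hjl hS.lm
      by_cases hj : y.k.c23 * A.Lam ≤ y.Rs j A.m ∨ j = A.a
      · refine ⟨j, A.lam q (l' + 1) + y.k.C4 * y.r (l' + 1), hja, hjm.le,
          add_nonneg (hlam0 q _ hS) h4l, ?_, ?_, hInv.c, ?_⟩
        · have e1 : y.k.CV * (y.Rs (l' + 1) A.m + y.r A.m) ≤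
              y.k.CV * (y.k.c23 * A.Lam + y.r A.m) :=
            mul_le_mul_of_nonneg_left (by linarith) pV
          linarith [hb.2]
        · have e1 : y.k.CV * (y.Rs (l' + 1) A.m + y.r A.m) ≤
              y.k.CV * (y.Rs j A.m + y.r A.m) :=
            mul_le_mul_of_nonneg_left (by linarith) pV
          have e2 := mul_le_mul_of_nonneg_right y.k.CW_a
            (by have := y.Rs_nonneg j A.m; linarith : 0 ≤ y.Rs j A.m + y.r A.m)
          linarith [hb.2]
        · rcases hj with h | h
          · exact Or.inr ⟨hjm, hWout _ h⟩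
          · exact Or.inl h
      · push Not at hj
        obtain ⟨hjR, hjne⟩ := hj
        have hWj : A.WI q j T :=
          { T_nonneg := hW.T_nonneg
            i1 := by
              have e1 : (y.k.X + y.k.C33) * y.Rs (l' + 1) A.m ≤
                  (y.k.X + y.k.C33) * y.Rs j A.m :=
                mul_le_mul_of_nonneg_left hRmono (by linarith)
              have := hW.i1
              linarith
            i2 := hW.i2 }
        have hbj := hWj.bound hS.touch hjm.le
        have h2 : y.k.c13 * h1 < y.r j := by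
          rcases hjP with h | h | h
          · exact h
          · exact absurd h (not_le.mpr hjR)
          · exact absurd h hjne
        have h3 : A.lam q j ≤ A.Lam / 2 := by
          have e1 : y.k.CV * (y.Rs j A.m + y.r A.m) ≤ y.k.CV * (y.k.c23 * A.Lam + y.r A.m) :=
            mul_le_mul_of_nonneg_left (by linarith) pV
          have e2 : 0 ≤ y.k.C4 * y.r j := mul_nonneg p4 (y.r_pos j).le
          linarith [hbj.2]
        exact IH j hjl q T (hDH.state h2 h3) hWj

/-- The WALK LEMMA. -/
theorem walk (A : Arc y) : A.Out := by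
  obtain ⟨q, hS, h1, h2⟩ := A.exists_init
  refine walk_aux A A.m q 0 hS ⟨le_refl _, ?_, ?_⟩
  · rw [y.Rs_self]
    linarith
  · have h3 : 0 ≤ A.eta q := by
      have := hS.touch.2.1
      unfold eta
      linarith
    linarith

end Arc

end Pool.Agent.Mac
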