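import Pool.Agent.Mac.Refl
import Pool.Agent.Mac.Pjoin
import Pool.Agent.Mac.CstEx
import Pool.Agent.Mac.Walk

set_option autoImplicit false

/-!
# The WALK lemma, exported
-/

namespace Pool.Agent.Mac

open Finset Filter Topology
open Pool.Agent.MP_e061a3_an Pool.Agent.GapReg

/-- MODULE WalkEx. HINT. Build `y : Sys` (`a0 = a`) and `A : Arc y` with `G = Poly v n`
(`poly_compact`, `poly_join`, `far_left`; `G` is bounded, so `XL` can be taken far enough to the
left), then `Arc.walk`. -/
theorem walkU_of_cst (k : Cst) :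
    WalkU k.H k.sig k.C2 k.C30 k.CW k.S0 (1 / k.C33) := by
  intro c d K hL a m ham hS heps v n hn hone hreach him hC30 hB hcone hcase
  have hC33 : 0 < k.C33 := by
    have h1 := k.C33_a
    have h2 := k.X_c
    have h3 := k.C2_b
    nlinarith
  let y : Sys :=
    { k := k
      c := c
      d := d
      K := K
      a0 := a
      lev := hL
      big := fun j hj => hS j hj
      small := fun j hj => by
        have h1 : d j / k.sig ≤ 1 / k.C33 := heps j hj
        calc k.C33 * (d j / k.sig) ≤ k.C33 * (1 / k.C33) :=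
              mul_le_mul_of_nonneg_left h1 hC33.le
          _ = 1 := by field_simp }
  obtain ⟨XL₀, hXL₀⟩ := far_left c hL.ent hL.zero
  obtain ⟨B, hBd⟩ := ((IXAux.poly_compact v n).image Complex.continuous_re).bddBelow
  have hBre : ∀ z ∈ Poly v n, B ≤ z.re := fun z hz => hBd ⟨z, hz, rfl⟩
  let A : Arc y :=
    { a := a
      m := m
      e := v 0
      k := v n
      G := Poly v n
      XL := min XL₀ (B - 11 - 10 * ((v n).im - (v 0).im))
      ha := le_refl a
      ham := ham
      cpt := IXAux.poly_compact v n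
      e_mem := ⟨0, hn, left_mem_segment ℝ _ _⟩
      k_mem := ⟨n - 1, by omega, by
        have e1 : n - 1 + 1 = n := by omega
        rw [e1]
        exact right_mem_segment ℝ _ _⟩
      join := fun z hz w hw => poly_join v n z hz w hw
      one := hone
      reach := hreach
      lt := him
      wide := hC30
      w1 := hB
      w2 := hcone
      w3 := by
        rcases hcase with h | h
        · left
          show (v 0).re = (v n).re - k.C2 * rr d k.sig m - 2 * ((v n).im - (v 0).im)
          linarith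
        · right
          exact h
      left := fun w hw => hXL₀ w (hw.trans (min_le_left _ _))
      far := fun z hz => by
        have h1 := hBre z hz
        have h2 := min_le_right XL₀ (B - 11 - 10 * ((v n).im - (v 0).im))
        linarith }
  obtain ⟨l, lam, g1, g2, g3, g4, g5, g6, g7⟩ := A.walk
  exact ⟨l, lam, g1, g2, g3, g4, g5, g6, g7⟩

/-- The export. -/
theorem walk_exists (H : ℕ) (hH : 16 ≤ H) (c1 c2 CL CR C2 : ℝ) (h1 : 0 < c1) (h2 : 0 < c2)
    (hC2 : 1 ≤ C2) (hD : DecP H c1 c2) (hL : LwP H c2 CL) (hB : BlP H c2) (hR : RemP CR) :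
    ∃ C30 CW sig1 S1 eps : ℝ, 0 < C30 ∧ 0 < CW ∧ 0 < sig1 ∧ 0 < S1 ∧ 0 < eps ∧
      ∀ sig : ℝ, 0 < sig → sig ≤ sig1 → WalkP H sig C2 C30 CW S1 eps := by
  obtain ⟨C30, CW, sig1, S1, eps, h30, hW, hs1, hS1, he, hk⟩ :=
    exists_cst H hH c1 c2 CL CR C2 h1 h2 hC2 hD hL hB hR
  refine ⟨C30, CW, sig1, S1, eps, h30, hW, hs1, hS1, he, ?_⟩
  intro sig hs hs'
  obtain ⟨k, e1, e2, e3, e4, e5, e6, e7⟩ := hk sig hs hs'
  have h := walkU_of_cst k
  have e8 : 1 / k.C33 = eps := by rw [e7, one_div_one_div]
  rw [e1, e2, e3, e4, e5, e6, e8] at h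
  exact walkP_of_up hs h30 h

end Pool.Agent.Mac
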