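import Pool.Agent.Mac.ALev
import Pool.Agent.Mac.ABl
import Pool.Agent.Mac.ALw
import Pool.Agent.Mac.ARem
import Pool.Agent.Mac.ADec
import Pool.Agent.Mac.CF1
import Pool.Agent.Mac.CMC
import Pool.Agent.Mac.CEnd
import Pool.Agent.Mac.CRed
import Pool.Agent.Mac.WalkEx
import Pool.Agent.GapReg.Final

set_option autoImplicit false

/-!
# Assembly
-/

namespace Pool.Agent.Mac

open Finset Filter Topology
open Pool.Agent.MP_e061a3_an Pool.Agent.GapReg

theorem DecP.mono {H : ℕ} {c1 c2 c2' : ℝ} (h : DecP H c1 c2) (hc : c2' ≤ c2) (h0 : 0 < c2') :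
    DecP H c1 c2' := by
  intro c d K hl al be h1 h2 h3 h4 l p M D hM hF hMD hd
  refine h c d K hl al be h1 h2 h3 h4 l p M D hM hF hMD ?_
  have hD0 : 0 < D := by
    have := hl.d_pos l
    by_contra h0'
    have : c2' * D ≤ 0 := mul_nonpos_of_nonneg_of_nonpos h0.le (not_lt.mp h0')
    linarith
  exact hd.trans (mul_le_mul_of_nonneg_right hc hD0.le)

theorem LwP.mono {H : ℕ} {c2 c2' CL : ℝ} (h : LwP H c2 CL) (hc : c2' ≤ c2) : LwP H c2' CL := by
  intro c d K hl l z ρ m hρ hd hb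
  exact h c d K hl l z ρ m hρ (hd.trans (mul_le_mul_of_nonneg_right hc hρ.le)) hb

theorem BlP.mono {H : ℕ} {c2 c2' : ℝ} (h : BlP H c2) (hc : c2' ≤ c2) : BlP H c2' := by
  intro c d K hl l z ρ m hρ hd hb
  exact h c d K hl l z ρ m hρ (hd.trans (mul_le_mul_of_nonneg_right hc hρ.le)) hb

theorem core : Core := by
  intro c hc h0 hne hs Γ hΓ hpoly hinf hone
  obtain ⟨CR, hCR, hR⟩ := remP_all
  obtain ⟨CL, hCL, hLall⟩ := lwP_all
  obtain ⟨H, hH, hDall⟩ := decP_all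
  obtain ⟨c1, hc1, c2D, hc2D, hD⟩ := hDall H le_rfl
  obtain ⟨c2L, hc2L, hL⟩ := hLall H hH
  obtain ⟨c2B, hc2B, hB⟩ := blP_all H hH
  set c2 : ℝ := min c2D (min c2L c2B) with hc2
  have hc2pos : 0 < c2 := lt_min hc2D (lt_min hc2L hc2B)
  have hD' : DecP H c1 c2 := hD.mono (min_le_left _ _) hc2pos
  have hL' : LwP H c2 CL := hL.mono ((min_le_right _ _).trans (min_le_left _ _))
  have hB' : BlP H c2 := hB.mono ((min_le_right _ _).trans (min_le_right _ _))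
  obtain ⟨C2, hC2, sig0, hsig0, S0, hS0, hF1⟩ :=
    f1_exists_ge H hH c1 c2 CL CR hc1 hc2pos hCL hCR hD' hL' hR
  obtain ⟨C30, CW, sig1, S1, eps, hC30, hCW, hsig1, _, heps, hW⟩ :=
    walk_exists H hH c1 c2 CL CR C2 hc1 hc2pos hC2 hD' hL' hB' hR
  have hC2' : 0 < C2 := lt_of_lt_of_le one_pos hC2
  have hsig : 0 < min sig0 sig1 := lt_min hsig0 hsig1
  have hW' := hW (min sig0 sig1) hsig (min_le_right _ _)
  have hF1' := hF1 (min sig0 sig1) hsig (min_le_left _ _)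
  obtain ⟨d, K, hlev, hdsum⟩ := exists_lev c hc h0 hs H hH
  obtain ⟨a, ha0, ha1, ha2, hleft⟩ :=
    exists_start hlev hdsum (min sig0 sig1) S0 S1 eps (Γ 0).re hsig heps
  have hreach : ∀ t : ℝ, 0 ≤ t → Reach (Fs c) (Γ t) :=
    fun t ht => FIAux.reach_curve (Fs c) Γ hΓ hinf hone t ht
  have hmc := mc H (min sig0 sig1) C2 C30 CW S0 S1 eps hsig hC2' hC30 hCW hF1' hW' c d K hlev Γ hΓ
    hpoly hone hreach a ha0 ha1 ha2 hleft
  exact end_contra c H d K hlev hne (min sig0 sig1) hsig hdsum Γ hinf a (CMs C2 C30 CW) (Γ 0).re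
    (by unfold CMs; positivity) hmc

end Pool.Agent.Mac
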