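import Pool.Agent.Mac.Defs

set_option autoImplicit false

/-!
# Macintyre's conjecture: radii, sizes, the statements F1 and WALK
-/

namespace Pool.Agent.Mac

open Finset Filter Topology
open Pool.Agent.MP_e061a3_an Pool.Agent.GapReg

/-- The radius `r_j = d_j / sig`. -/
noncomputable def rr (d : ℕ → ℝ) (sig : ℝ) (j : ℕ) : ℝ := d j / sig

/-- The size `s_j = H ^ j r_j`. -/
noncomputable def sz (H : ℕ) (d : ℕ → ℝ) (sig : ℝ) (j : ℕ) : ℝ := (H : ℝ) ^ j * rr d sig j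

/-- `R(a, b)`: the sum of `r_j` over `a < j ≤ b`. -/
noncomputable def Rs (d : ℕ → ℝ) (sig : ℝ) (a b : ℕ) : ℝ := ∑ j ∈ Ioc a b, rr d sig j

/-- F1: at a reach point level `l + 1` (twice the size, in the shifted cone) gives level `l`. -/
def F1P (H : ℕ) (sig C2 S0 : ℝ) : Prop :=
  ∀ (c : ℕ → ℂ) (d : ℕ → ℝ) (K : ℕ → ℕ), Lev c H d K →
    ∀ (l : ℕ) (q : ℂ), Reach (Fs c) q → S0 ≤ sz H d sig (l + 1) →
      Bd (Fs c) (2 * sz H d sig (l + 1)) (Cn 1 1 (q + ((C2 * rr d sig (l + 1) : ℝ) : ℂ))) →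
      Bd (Fs c) (sz H d sig l) (Cn 1 1 q)

/-- The WALK lemma. -/
def WalkP (H : ℕ) (sig C2 C30 CW S0 eps : ℝ) : Prop :=
  ∀ (c : ℕ → ℂ) (d : ℕ → ℝ) (K : ℕ → ℕ), Lev c H d K →
    ∀ (a m : ℕ), a < m → (∀ j, a ≤ j → S0 ≤ sz H d sig j) → (∀ j, a ≤ j → rr d sig j ≤ eps) →
    ∀ (v : ℕ → ℂ) (n : ℕ), 0 < n → (∀ z ∈ Poly v n, ‖Fs c z‖ ≤ 1) →
      (∀ z ∈ Poly v n, Reach (Fs c) z) →
      C30 * rr d sig m ≤ |(v n).im - (v 0).im| →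
      Bd (Fs c) (sz H d sig m) (Cn 1 1 (v n)) →
      (∀ z ∈ Poly v n, z ∈ Cn 2 2 (v n - ((C2 * rr d sig m : ℝ) : ℂ)) → z = v 0) →
      ((v n).re - C2 * rr d sig m - (v 0).re = 2 * |(v n).im - (v 0).im| ∨
        (Bd (Fs c) (sz H d sig a) (Cn 1 1 (v 0)) ∧
          v 0 ∉ Cn 2 2 (v n - ((C2 * rr d sig m : ℝ) : ℂ)))) →
      ∃ (l : ℕ) (lam : ℝ), a ≤ l ∧ l ≤ m ∧ 0 ≤ lam ∧ lam ≤ |(v n).im - (v 0).im| / 2 ∧
        lam ≤ CW * (Rs d sig l m + rr d sig m) ∧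
        Bd (Fs c) (2 * sz H d sig l) (Cn 1 1 (v n - (lam : ℂ))) ∧
        (l = a ∨ (l < m ∧ |(v n).im - (v 0).im| ≤ CW * Rs d sig l m))

end Pool.Agent.Mac
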