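import Pool.Agent.Mac.Wi
import Pool.Agent.Mac.Geo2

set_option autoImplicit false

/-!
# The walk: bounds
-/

namespace Pool.Agent.Mac

open Finset Filter Topology
open Pool.Agent.MP_e061a3_an Pool.Agent.GapReg

namespace Arc

variable {y : Sys} {A : Arc y}

/-- MODULE Wbound. HINT. (T2) (`Touch.T2`) and `i2` give `40.5 T ≤ 2.5 eta + C2 r_m`; `CT_a`.
Second part: `r_l ≤ 2 (Rs l m + r_m)` (`r_le_Rs`), `CV_a`. -/
theorem WI.bound {q : ℂ} {l : ℕ} {T : ℝ} (hq : A.Touch q) (h : A.WI q l T) (hl : l ≤ A.m) :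
    A.eta q ≤ y.k.CT * (y.Rs l A.m + y.r A.m) ∧
      A.lam q l + y.k.C4 * y.r l ≤ y.k.CV * (y.Rs l A.m + y.r A.m) := by
  obtain ⟨t1, -, t3⟩ := hq.T2
  have hT := h.T_nonneg
  have i1 := h.i1
  have i2 := h.i2
  have hR := y.Rs_nonneg l A.m
  have hr := y.r_pos A.m
  have hrl := y.r_pos l
  have c2 := y.k.C2_b
  have x1 := y.k.X_c
  have c33 := y.k.C33_a
  have hX : 1 ≤ y.k.X := c2.trans x1
  have h33 : 0 ≤ y.k.C33 := by linarith
  have hP : 0 ≤ y.Rs l A.m + y.r A.m := by linarith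
  have hT2 : 81 * T ≤ 5 * A.eta q + 2 * (y.k.C2 * y.r A.m) := by linarith
  have hc2r : 0 ≤ y.k.C2 * y.r A.m := mul_nonneg (by linarith) hr.le
  have hXR : 0 ≤ (y.k.X + y.k.C33) * y.Rs l A.m := mul_nonneg (by linarith) hR
  have hXr : 0 ≤ (y.k.X + y.k.C33) * y.r A.m := mul_nonneg (by linarith) hr.le
  have hcR : 0 ≤ y.k.C2 * y.Rs l A.m := mul_nonneg (by linarith) hR
  have b1 : A.eta q ≤ 2 * (y.k.X + y.k.C33 + y.k.C2) * (y.Rs l A.m + y.r A.m) := by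
    have e : 2 * (y.k.X + y.k.C33 + y.k.C2) * (y.Rs l A.m + y.r A.m) =
        2 * ((y.k.X + y.k.C33) * y.Rs l A.m) + 2 * ((y.k.X + y.k.C33) * y.r A.m) +
          2 * (y.k.C2 * y.Rs l A.m) + 2 * (y.k.C2 * y.r A.m) := by ring
    rw [e]
    linarith
  have hCT := y.k.CT_a
  have b2 : A.eta q ≤ y.k.CT * (y.Rs l A.m + y.r A.m) :=
    b1.trans (mul_le_mul_of_nonneg_right hCT hP)
  refine ⟨b2, ?_⟩
  have hrl2 : y.r l ≤ 2 * (y.Rs l A.m + y.r A.m) := by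
    rcases Nat.lt_or_ge l A.m with hlt | hge
    · have := y.r_le_Rs l A.m hlt
      linarith
    · have e : l = A.m := le_antisymm hl hge
      rw [e] at hR ⊢
      linarith
  have c31 := y.k.C31_a
  have h31 : 0 ≤ y.k.C31 := by linarith
  have c37 := y.k.C37_c
  have c4 := y.k.C4_c
  have h4 : 0 ≤ y.k.C4 := by linarith
  have h37 : 0 ≤ y.k.C37 := by linarith
  have hCV := y.k.CV_a
  have hrm : y.r A.m ≤ y.Rs l A.m + y.r A.m := by linarith
  unfold lam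
  have e1 : y.k.C31 * (A.eta q + y.r A.m) ≤
      y.k.C31 * ((y.k.CT + 1) * (y.Rs l A.m + y.r A.m)) :=
    mul_le_mul_of_nonneg_left (by linarith) h31
  have e2 : (y.k.C37 + y.k.C4) * y.r l ≤
      (y.k.C37 + y.k.C4) * (2 * (y.Rs l A.m + y.r A.m)) :=
    mul_le_mul_of_nonneg_left hrl2 (by linarith)
  have e3 := mul_le_mul_of_nonneg_right hCV hP
  have e4 : (y.k.C31 * (y.k.CT + 1) + 2 * y.k.C37 + 2 * y.k.C4) * (y.Rs l A.m + y.r A.m) =
      y.k.C31 * ((y.k.CT + 1) * (y.Rs l A.m + y.r A.m)) +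
        (y.k.C37 + y.k.C4) * (2 * (y.Rs l A.m + y.r A.m)) := by ring
  rw [e4] at e3
  have e5 : (y.k.C37 + y.k.C4) * y.r l = y.k.C37 * y.r l + y.k.C4 * y.r l := by ring
  rw [e5] at e2
  linarith

end Arc

end Pool.Agent.Mac
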