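import Pool.Agent.Mac.Arc

set_option autoImplicit false

/-!
# The walk: invariants and output
-/

namespace Pool.Agent.Mac

open Finset Filter Topology
open Pool.Agent.MP_e061a3_an Pool.Agent.GapReg

namespace Arc

variable {y : Sys} {A : Arc y}

/-- The invariants (I1), (I2) of the walk. -/
structure WI (A : Arc y) (q : ℂ) (l : ℕ) (T : ℝ) : Prop where
  T_nonneg : 0 ≤ T
  i1 : A.eta q ≤ y.k.C2 * y.r A.m / 48 + (y.k.X + y.k.C33) * y.Rs l A.m + T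
  i2 : q.re ≤ A.k.re + (A.eta q - T) / 2 - 40 * T

/-- The output of the walk. -/
def Out (A : Arc y) : Prop :=
  ∃ (l : ℕ) (lam : ℝ), A.a ≤ l ∧ l ≤ A.m ∧ 0 ≤ lam ∧ lam ≤ A.Lam / 2 ∧
    lam ≤ y.k.CW * (y.Rs l A.m + y.r A.m) ∧ Bd y.F (2 * y.s l) (Cn 1 1 (sh A.k lam)) ∧
    (l = A.a ∨ (l < A.m ∧ A.Lam ≤ y.k.CW * y.Rs l A.m))

end Arc

end Pool.Agent.Mac
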